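import Pool.Agent.LibGD31.Defs

/-!
# `C^r` sizes and the chain lemma hypothesis (MP_b44c39_an)
-/

open Filter Topology Set

namespace FG40

open GD31

/-- `C^r` size: `F` is `C^r` and all derivatives of order `≤ r` of `F - id` are at most `s`. -/
structure SzR (r : ℕ) (s : ℝ) (F : ℝ → ℝ) : Prop where
  contDiff : ContDiff ℝ r F
  bound : ∀ i ≤ r, ∀ x, |iteratedDeriv i (fun y => F y - y) x| ≤ s

/-- The chain lemma in class `C^r`. -/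
def ChainHyp (r : ℕ) : Prop :=
  ∃ C c₀ : ℝ, 1 ≤ C ∧ 0 < c₀ ∧
    ∀ (ε : ℝ) (G : Pm), 0 < ε → ε ≤ c₀ → Nl (r + 3) ε 1 (disp G) → Supp G (Icc 0 1) →
    ∃ a b : Fin 4 → Pm, (∀ i, SzR r (C * Real.sqrt ε) (a i)) ∧ (∀ i, SzR r (C * Real.sqrt ε) (b i)) ∧
      (∀ i, Supp (a i) (Icc (-1) 5)) ∧ (∀ i, Supp (b i) (Icc (-1) 5)) ∧
      G = cm (a 0) (b 0) * cm (a 1) (b 1) * cm (a 2) (b 2) * cm (a 3) (b 3)

end FG40
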