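import Pool.Agent.LibFG40.Defs

/-! # A1: the scale function, basic facts -/

open Filter Topology Set

namespace FG40

open GD31

private theorem a1_exp {r i : ℕ} (hi : i < Pr r) :
    (1 / ((Pr r : ℝ) - i)) = (((Pr r - i : ℕ) : ℝ))⁻¹ := by
  rw [Nat.cast_sub hi.le, one_div]

private theorem a1_pow {r i : ℕ} (hi : i < Pr r) {y : ℝ} (hy : 0 ≤ y) :
    (y ^ (1 / ((Pr r : ℝ) - i))) ^ (Pr r - i) = y := by
  rw [a1_exp hi]
  exact Real.rpow_inv_natCast_pow hy (by omega)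

private theorem a1_nonneg (φ : ℝ → ℝ) (i : ℕ) (x : ℝ) : 0 ≤ 8 ^ i * |iteratedDeriv i φ x| :=
  mul_nonneg (pow_nonneg (by norm_num) _) (abs_nonneg _)

theorem rho_nonneg (r : ℕ) (φ : ℝ → ℝ) (x : ℝ) : 0 ≤ rho r φ x := by
  unfold rho
  exact Finset.le_sup'_of_le _ (Finset.mem_range.2 (Pr_pos r)) (Real.rpow_nonneg (a1_nonneg φ 0 x) _)

/-- every term is at most the maximum (raise to the power `Pr r - i`) -/
theorem le_rho (r : ℕ) (φ : ℝ → ℝ) {i : ℕ} (hi : i < Pr r) (x : ℝ) :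
    8 ^ i * |iteratedDeriv i φ x| ≤ rho r φ x ^ (Pr r - i) := by
  have h1 : (8 ^ i * |iteratedDeriv i φ x|) ^ (1 / ((Pr r : ℝ) - i)) ≤ rho r φ x := by
    unfold rho
    exact Finset.le_sup' (fun i : ℕ => (8 ^ i * |iteratedDeriv i φ x|) ^ (1 / ((Pr r : ℝ) - i)))
      (Finset.mem_range.2 hi)
  calc 8 ^ i * |iteratedDeriv i φ x|
      = ((8 ^ i * |iteratedDeriv i φ x|) ^ (1 / ((Pr r : ℝ) - i))) ^ (Pr r - i) :=
        (a1_pow hi (a1_nonneg φ i x)).symm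
    _ ≤ rho r φ x ^ (Pr r - i) :=
        pow_le_pow_left₀ (Real.rpow_nonneg (a1_nonneg φ i x) _) h1 _

/-- the maximum is attained -/
theorem rho_attained (r : ℕ) (φ : ℝ → ℝ) (x : ℝ) :
    ∃ i < Pr r, 8 ^ i * |iteratedDeriv i φ x| = rho r φ x ^ (Pr r - i) := by
  obtain ⟨i, hi, h⟩ := Finset.exists_mem_eq_sup' (s := Finset.range (Pr r))
    ⟨0, Finset.mem_range.2 (Pr_pos r)⟩
    (fun i : ℕ => (8 ^ i * |iteratedDeriv i φ x|) ^ (1 / ((Pr r : ℝ) - i)))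
  have hi' := Finset.mem_range.1 hi
  refine ⟨i, hi', ?_⟩
  have h2 : rho r φ x = (8 ^ i * |iteratedDeriv i φ x|) ^ (1 / ((Pr r : ℝ) - i)) := h
  rw [h2]
  exact (a1_pow hi' (a1_nonneg φ i x)).symm

theorem rho_le {r : ℕ} {φ : ℝ → ℝ} {x t : ℝ} (ht : 0 ≤ t)
    (h : ∀ i < Pr r, 8 ^ i * |iteratedDeriv i φ x| ≤ t ^ (Pr r - i)) : rho r φ x ≤ t := by
  unfold rho
  refine Finset.sup'_le _ _ fun i hi => ?_
  have hi' := Finset.mem_range.1 hi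
  have h1 : (8 ^ i * |iteratedDeriv i φ x|) ^ (1 / ((Pr r : ℝ) - i)) ≤
      (t ^ (Pr r - i)) ^ (1 / ((Pr r : ℝ) - i)) := by
    refine Real.rpow_le_rpow (a1_nonneg φ i x) (h i hi') ?_
    rw [a1_exp hi']
    positivity
  refine h1.trans (le_of_eq ?_)
  rw [a1_exp hi']
  exact Real.pow_rpow_inv_natCast ht (by omega)

private theorem a1_zero (r : ℕ) (φ : ℝ → ℝ) (x : ℝ) : |φ x| ≤ rho r φ x ^ Pr r := by
  have h1 := le_rho r φ (Pr_pos r) x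
  rw [iteratedDeriv_zero, pow_zero, one_mul, Nat.sub_zero] at h1
  exact h1

/-- every point is good, bad or has `ρ = 0` (use `le_rho` with `i = 0`) -/
theorem good_or_bad (r : ℕ) (φ : ℝ → ℝ) (x : ℝ) (h : 0 < rho r φ x) : Good r φ x ∨ Bad r φ x := by
  rcases (a1_zero r φ x).eq_or_lt with h1 | h1
  · exact Or.inl ⟨h, h1⟩
  · exact Or.inr ⟨h, h1⟩

/-- at a bad point the maximum is attained at some `i ≥ 1` -/
theorem Bad.index {r : ℕ} {φ : ℝ → ℝ} {x : ℝ} (h : Bad r φ x) :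
    ∃ i, 1 ≤ i ∧ i < Pr r ∧ 8 ^ i * |iteratedDeriv i φ x| = rho r φ x ^ (Pr r - i) := by
  obtain ⟨i, hi, h1⟩ := rho_attained r φ x
  refine ⟨i, ?_, hi, h1⟩
  rcases Nat.eq_zero_or_pos i with h0 | h0
  · subst h0
    rw [iteratedDeriv_zero, pow_zero, one_mul, Nat.sub_zero] at h1
    exact absurd h1 (ne_of_lt h.2)
  · exact h0

end FG40
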