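import Pool.Agent.LibFG40.Defs

/-! # A2: the Taylor step for the Lipschitz bound -/

open Filter Topology Set

namespace FG40

open GD31

/-- One step: from the bound for the derivative of `G` to the bound for `G`. -/
private theorem a2_step {k : ℕ} {G G' : ℝ → ℝ} (hG : ∀ t, HasDerivAt G (G' t) t) {lam c : ℝ}
    (hlam : 0 ≤ lam) (hc : 0 ≤ c) (h0 : |G 0| ≤ c * lam ^ (k + 1))
    (hb : ∀ t, 0 ≤ t → |G' t| ≤ c / 8 * (lam + t / 8) ^ k) {t : ℝ} (ht : 0 ≤ t) :
    |G t| ≤ c * (lam + t / 8) ^ (k + 1) := by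
  have hB : ∀ s : ℝ, HasDerivAt (fun s : ℝ => c * (lam + s / 8) ^ (k + 1))
      (c * (((k + 1 : ℕ) : ℝ) * (lam + s / 8) ^ k * (1 / 8))) s := by
    intro s
    have h1 : HasDerivAt (fun s : ℝ => lam + s / 8) (1 / 8) s :=
      ((hasDerivAt_id s).div_const 8).const_add lam
    have h2 := (h1.pow (k + 1)).const_mul c
    simpa using h2
  have key := image_norm_le_of_norm_deriv_right_le_deriv_boundary (a := (0 : ℝ)) (b := t)
    (f := G) (f' := G') (B := fun s : ℝ => c * (lam + s / 8) ^ (k + 1))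
    (B' := fun s : ℝ => c * (((k + 1 : ℕ) : ℝ) * (lam + s / 8) ^ k * (1 / 8)))
    (fun s _ => (hG s).continuousAt.continuousWithinAt)
    (fun s _ => (hG s).hasDerivWithinAt)
    (by simpa [Real.norm_eq_abs] using h0) hB
    (by
      intro s hs
      have h1 := hb s hs.1
      rw [Real.norm_eq_abs]
      refine h1.trans ?_
      have h2 : 0 ≤ (lam + s / 8) ^ k := pow_nonneg (by linarith [hs.1]) k
      have h3 : (1 : ℝ) ≤ ((k + 1 : ℕ) : ℝ) := by
        push_cast
        linarith [(Nat.cast_nonneg k : (0 : ℝ) ≤ (k : ℝ))]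
      have h4 : 0 ≤ c * (lam + s / 8) ^ k := mul_nonneg hc h2
      have h5 : c * (lam + s / 8) ^ k ≤ ((k + 1 : ℕ) : ℝ) * (c * (lam + s / 8) ^ k) :=
        le_mul_of_one_le_left h4 h3
      calc c / 8 * (lam + s / 8) ^ k = (c * (lam + s / 8) ^ k) * (1 / 8) := by ring
        _ ≤ (((k + 1 : ℕ) : ℝ) * (c * (lam + s / 8) ^ k)) * (1 / 8) :=
            mul_le_mul_of_nonneg_right h5 (by norm_num)
        _ = c * (((k + 1 : ℕ) : ℝ) * (lam + s / 8) ^ k * (1 / 8)) := by ring)
    (show t ∈ Icc (0 : ℝ) t from ⟨ht, le_rfl⟩)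
  simpa [Real.norm_eq_abs] using key

private theorem a2_deriv {φ : ℝ → ℝ} (hφ : Sm φ) (i : ℕ) (z : ℝ) :
    HasDerivAt (iteratedDeriv i φ) (iteratedDeriv (i + 1) φ z) z := by
  have h1 : Differentiable ℝ (iteratedDeriv i φ) := by
    refine ContDiff.differentiable_iteratedDeriv i hφ ?_
    exact_mod_cast WithTop.coe_lt_top (i : ℕ)
  have h2 := (h1 z).hasDerivAt
  rwa [iteratedDeriv_succ]

/-- Downward induction on `i` (from `P` to `0`). Put `g = iteratedDeriv i φ`; its derivative is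
`iteratedDeriv (i+1) φ`, bounded by `8^(-(i+1)) (lam + |x - y| / 8)^(P-i-1)`, which is the derivative in
`|x - y|` of `8^(-i) (lam + |x - y|/8)^(P-i) / (P - i)` (up to the sign of `x - y`), hence
`|g x| ≤ |g y| + 8^(-i) ((lam + t/8)^(P-i) - lam^(P-i)) ≤ 8^(-i) (lam + t/8)^(P-i)`, `t = |x - y|`. Use
`image_norm_le_of_norm_deriv_right_le_deriv_boundary` (or the mean value inequality for
`8^(-i) (lam + t/8)^(P-i) ∓ g (y ± t)`, which is monotone in `t`) for `x ≥ y`; reflect for `x ≤ y`. -/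
theorem taylor_step {P : ℕ} {φ : ℝ → ℝ} (hφ : Sm φ) (hP : ∀ x, |iteratedDeriv P φ x| ≤ (1 / 8) ^ P)
    {y lam : ℝ} (hlam : 0 ≤ lam) (h : ∀ i < P, 8 ^ i * |iteratedDeriv i φ y| ≤ lam ^ (P - i)) (x : ℝ) :
    ∀ i ≤ P, 8 ^ i * |iteratedDeriv i φ x| ≤ (lam + |x - y| / 8) ^ (P - i) := by
  have hdown : ∀ k ≤ P, ∀ x : ℝ,
      8 ^ (P - k) * |iteratedDeriv (P - k) φ x| ≤ (lam + |x - y| / 8) ^ k := by
    intro k
    induction k with
    | zero =>
      intro _ x
      have h1 := hP x
      have h8 : (0 : ℝ) < 8 ^ P := by positivity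
      simp only [Nat.sub_zero, pow_zero]
      calc (8 : ℝ) ^ P * |iteratedDeriv P φ x| ≤ 8 ^ P * (1 / 8) ^ P :=
            mul_le_mul_of_nonneg_left h1 h8.le
        _ = 1 := by rw [← mul_pow]; norm_num
    | succ k ih =>
      intro hk x
      obtain ⟨i, hi⟩ : ∃ i, P = i + (k + 1) := ⟨P - (k + 1), by omega⟩
      have e1 : P - (k + 1) = i := by omega
      have e2 : P - k = i + 1 := by omega
      rw [e2] at ih
      rw [e1]
      have ih' := ih (by omega)
      have h8 : (0 : ℝ) < 8 ^ i := by positivity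
      obtain ⟨s, hs, hsx⟩ : ∃ s : ℝ, |s| = 1 ∧ y + s * |x - y| = x := by
        rcases le_total y x with hyx | hyx
        · exact ⟨1, abs_one, by rw [abs_of_nonneg (by linarith)]; ring⟩
        · exact ⟨-1, by simp, by rw [abs_of_nonpos (by linarith)]; ring⟩
      have hG : ∀ t : ℝ, HasDerivAt (fun t : ℝ => iteratedDeriv i φ (y + s * t))
          (iteratedDeriv (i + 1) φ (y + s * t) * s) t := by
        intro t
        have h1 : HasDerivAt (fun t : ℝ => y + s * t) s t := by
          simpa using ((hasDerivAt_id t).const_mul s).const_add y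
        exact (a2_deriv hφ i (y + s * t)).comp t h1
      have h0 : |iteratedDeriv i φ (y + s * 0)| ≤ 1 / 8 ^ i * lam ^ (k + 1) := by
        have h1 := h i (by omega)
        have e3 : P - i = k + 1 := by omega
        rw [e3] at h1
        rw [mul_zero, add_zero, one_div, ← div_eq_inv_mul, le_div_iff₀ h8, mul_comm]
        exact h1
      have hb : ∀ t : ℝ, 0 ≤ t → |iteratedDeriv (i + 1) φ (y + s * t) * s| ≤
          1 / 8 ^ i / 8 * (lam + t / 8) ^ k := by
        intro t ht
        have h1 := ih' (y + s * t)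
        have e4 : |y + s * t - y| = t := by
          rw [add_sub_cancel_left, abs_mul, hs, one_mul, abs_of_nonneg ht]
        rw [e4] at h1
        rw [abs_mul, hs, mul_one]
        have h9 : (0 : ℝ) < 8 ^ (i + 1) := by positivity
        have e5 : (1 : ℝ) / 8 ^ i / 8 * (lam + t / 8) ^ k = (lam + t / 8) ^ k / 8 ^ (i + 1) := by
          rw [pow_succ]; field_simp
        rw [e5, le_div_iff₀ h9, mul_comm]
        exact h1
      have hfin := a2_step hG hlam (c := 1 / 8 ^ i) (by positivity) h0 hb (abs_nonneg (x - y))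
      rw [hsx] at hfin
      calc (8 : ℝ) ^ i * |iteratedDeriv i φ x|
          ≤ 8 ^ i * (1 / 8 ^ i * (lam + |x - y| / 8) ^ (k + 1)) :=
            mul_le_mul_of_nonneg_left hfin h8.le
        _ = (lam + |x - y| / 8) ^ (k + 1) := by field_simp
  intro i hi
  have h1 := hdown (P - i) (by omega) x
  have e : P - (P - i) = i := by omega
  rwa [e] at h1

end FG40
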