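import Pool.Agent.LibFG40.A1
import Pool.Agent.LibFG40.A2

/-! # A3: `rho r φ` is a scale function -/

open Filter Topology Set

namespace FG40

open GD31

private theorem a3_Kr_pos (r : ℕ) : 0 < Kr r := by
  unfold Kr
  positivity

private theorem a3_base_pos (r : ℕ) : 0 < (1 / (10 ^ 6 * (Kr r : ℝ)) : ℝ) := by
  have h : (0 : ℝ) < (Kr r : ℝ) := by exact_mod_cast a3_Kr_pos r
  positivity

private theorem a3_base_le (r : ℕ) : (1 / (10 ^ 6 * (Kr r : ℝ)) : ℝ) ≤ (1 / 10) ^ 6 := by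
  have h : (1 : ℝ) ≤ (Kr r : ℝ) := by exact_mod_cast a3_Kr_pos r
  have h2 : (1 / (10 ^ 6 * (Kr r : ℝ)) : ℝ) ≤ 1 / (10 ^ 6 * 1) := by
    apply one_div_le_one_div_of_le
    · norm_num
    · gcongr
  refine h2.trans ?_
  norm_num

theorem dr_pos (r : ℕ) : 0 < dr r := by
  unfold dr
  exact pow_pos (a3_base_pos r) _

/-- `dr r ≤ (1/(10^6 K))^2`, `K ≥ 1` -/
theorem dr_le (r : ℕ) : dr r ≤ (1 / 10) ^ 12 := by
  unfold dr
  have h1 := a3_base_pos r
  have h2 := a3_base_le r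
  calc (1 / (10 ^ 6 * (Kr r : ℝ)) : ℝ) ^ (2 * (r + 1))
      ≤ (1 / (10 ^ 6 * (Kr r : ℝ)) : ℝ) ^ 2 :=
        pow_le_pow_of_le_one h1.le (h2.trans (by norm_num)) (by omega)
    _ ≤ ((1 / 10) ^ 6) ^ 2 := pow_le_pow_left₀ h1.le h2 2
    _ = (1 / 10) ^ 12 := by norm_num

private theorem a3_dr_le_one (r : ℕ) : dr r ≤ 1 := (dr_le r).trans (by norm_num)

private theorem a3_kr_pos (r : ℕ) : 0 < kr r := by
  unfold kr
  exact pow_pos (div_pos (dr_pos r) (by norm_num)) _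

private theorem a3_Pr_le_Kr (r : ℕ) : Pr r ≤ Kr r := by
  unfold Kr
  nlinarith [Nat.zero_le (Pr r), Nat.zero_le r, Nat.zero_le (r * Pr r)]

private theorem a3_closed {φ : ℝ → ℝ} (hφ : Sm φ) (i : ℕ) :
    IsClosed {x : ℝ | iteratedDeriv i φ x = 0} := by
  have hc : Continuous (iteratedDeriv i φ) := by
    have h1 : ContDiff ℝ ((⊤ : ℕ∞) : WithTop ℕ∞) φ := hφ
    exact h1.continuous_iteratedDeriv i (by exact_mod_cast le_top)
  exact isClosed_eq hc continuous_const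

private theorem a3_open_zero {φ : ℝ → ℝ} {s : Set ℝ} (hs : IsOpen s) (h : ∀ x ∈ s, φ x = 0) (i : ℕ) :
    ∀ x ∈ s, iteratedDeriv i φ x = 0 := by
  intro x hx
  have h1 : φ =ᶠ[𝓝 x] fun _ => (0 : ℝ) := by
    filter_upwards [hs.mem_nhds hx] with y hy
    exact h y hy
  have h2 := h1.iteratedDeriv_eq i
  rw [h2]
  simp

/-- all derivatives vanish at the points off `(0,1)` (by continuity at `0` and `1`) -/
theorem HF.zero {r : ℕ} {φ : ℝ → ℝ} (h : HF r φ) (i : ℕ) {x : ℝ} (hx : x ∉ Ioo (0 : ℝ) 1) :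
    iteratedDeriv i φ x = 0 := by
  have hcl := a3_closed h.smooth i
  have h1 : Iio (0 : ℝ) ⊆ {x : ℝ | iteratedDeriv i φ x = 0} :=
    a3_open_zero isOpen_Iio (fun y hy => h.left y (le_of_lt hy)) i
  have h2 : Ioi (1 : ℝ) ⊆ {x : ℝ | iteratedDeriv i φ x = 0} :=
    a3_open_zero isOpen_Ioi (fun y hy => h.right y (le_of_lt hy)) i
  have h3 : Iic (0 : ℝ) ⊆ {x : ℝ | iteratedDeriv i φ x = 0} := by
    rw [← closure_Iio]
    exact closure_minimal h1 hcl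
  have h4 : Ici (1 : ℝ) ⊆ {x : ℝ | iteratedDeriv i φ x = 0} := by
    rw [← closure_Ioi]
    exact closure_minimal h2 hcl
  rcases le_or_gt x 0 with h0 | h0
  · exact h3 h0
  · rcases le_or_gt 1 x with h5 | h5
    · exact h4 h5
    · exact absurd ⟨h0, h5⟩ hx

theorem HF.bound' {r : ℕ} {φ : ℝ → ℝ} (h : HF r φ) {i : ℕ} (hi : i ≤ Kr r) (x : ℝ) :
    |iteratedDeriv i φ x| ≤ kr r := by
  by_cases hx : x ∈ Ioo (0 : ℝ) 1
  · refine (h.bound i hi x ⟨hx.1.le, hx.2.le⟩).trans ?_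
    have h1 : x ^ ((r + 1) * Pr r) ≤ 1 := pow_le_one₀ hx.1.le hx.2.le
    calc kr r * x ^ ((r + 1) * Pr r) ≤ kr r * 1 := by
          exact mul_le_mul_of_nonneg_left h1 (a3_kr_pos r).le
      _ = kr r := mul_one _
  · rw [h.zero i hx, abs_zero]
    exact (a3_kr_pos r).le

/-- `rho_le` with `t = dr r * x^(r+1)`: `8^i kr x^((r+1)P) ≤ (dr x^(r+1))^(P-i)`, because
`8^i (dr/8)^P ≤ dr^(P-i)` (`dr ≤ 1`) and `x ≤ 1` -/
theorem HF.rho_small {r : ℕ} {φ : ℝ → ℝ} (h : HF r φ) {x : ℝ} (hx : x ∈ Icc (0 : ℝ) 1) :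
    rho r φ x ≤ dr r * x ^ (r + 1) := by
  have hd := dr_pos r
  refine rho_le (mul_nonneg hd.le (pow_nonneg hx.1 _)) ?_
  intro i hi
  have h1 := h.bound i (hi.le.trans (a3_Pr_le_Kr r)) x hx
  have h8 : (8 : ℝ) ^ i * kr r ≤ dr r ^ (Pr r - i) := by
    have hk : kr r = dr r ^ Pr r / 8 ^ Pr r := by
      unfold kr
      rw [div_pow]
    have h2 : (8 : ℝ) ^ Pr r = 8 ^ i * 8 ^ (Pr r - i) := by
      rw [← pow_add]
      congr 1
      omega
    rw [hk, h2]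
    have h3 : (8 : ℝ) ^ i * (dr r ^ Pr r / (8 ^ i * 8 ^ (Pr r - i))) = dr r ^ Pr r / 8 ^ (Pr r - i) := by
      field_simp
    rw [h3]
    calc dr r ^ Pr r / 8 ^ (Pr r - i) ≤ dr r ^ Pr r := by
          apply div_le_self (pow_nonneg hd.le _)
          exact one_le_pow₀ (by norm_num)
      _ ≤ dr r ^ (Pr r - i) := pow_le_pow_of_le_one hd.le (a3_dr_le_one r) (by omega)
  have hxx : x ^ ((r + 1) * Pr r) ≤ (x ^ (r + 1)) ^ (Pr r - i) := by
    rw [← pow_mul]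
    exact pow_le_pow_of_le_one hx.1 hx.2 (Nat.mul_le_mul_left _ (by omega))
  calc 8 ^ i * |iteratedDeriv i φ x| ≤ 8 ^ i * (kr r * x ^ ((r + 1) * Pr r)) := by
        exact mul_le_mul_of_nonneg_left h1 (by positivity)
    _ = (8 ^ i * kr r) * x ^ ((r + 1) * Pr r) := by ring
    _ ≤ dr r ^ (Pr r - i) * (x ^ (r + 1)) ^ (Pr r - i) := by
        exact mul_le_mul h8 hxx (pow_nonneg hx.1 _) (pow_nonneg hd.le _)
    _ = (dr r * x ^ (r + 1)) ^ (Pr r - i) := by rw [mul_pow]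

private theorem a3_lip {r : ℕ} {φ : ℝ → ℝ} (h : HF r φ) (x y : ℝ) :
    rho r φ x ≤ rho r φ y + |x - y| / 8 := by
  have hP : ∀ z, |iteratedDeriv (Pr r) φ z| ≤ (1 / 8) ^ Pr r := by
    intro z
    refine (h.bound' (a3_Pr_le_Kr r) z).trans ?_
    unfold kr
    exact pow_le_pow_left₀ (div_pos (dr_pos r) (by norm_num)).le
      (div_le_div_of_nonneg_right (a3_dr_le_one r) (by norm_num)) _
  have h0 := rho_nonneg r φ y
  have h1 := taylor_step h.smooth hP (y := y) (lam := rho r φ y) h0 (fun i hi => le_rho r φ hi y) x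
  exact rho_le (by positivity) (fun i hi => h1 i hi.le)

/-- nonneg: A1. lip: `rho_le` with `t = rho r φ y + |x - y| / 8` and `taylor_step` (`P = Pr r`,
`kr r ≤ (1/8)^P`), symmetric. small: `rho_small`, `dr_le`, `x^(r+1) ≤ x`. zero: `rho_le` with `t = 0` and
`HF.zero` (or `rho_nonneg`). -/
theorem HF.sc {r : ℕ} {φ : ℝ → ℝ} (h : HF r φ) : Sc (rho r φ) where
  nonneg := rho_nonneg r φ
  lip := by
    intro x y
    have h1 := a3_lip h x y
    have h2 := a3_lip h y x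
    rw [abs_sub_comm y x] at h2
    rw [abs_le]
    constructor <;> linarith
  small := by
    intro x hx
    refine (h.rho_small ⟨hx.1.le, hx.2.le⟩).trans ?_
    have h1 : x ^ (r + 1) ≤ x := by
      calc x ^ (r + 1) ≤ x ^ 1 := pow_le_pow_of_le_one hx.1.le hx.2.le (by omega)
        _ = x := pow_one x
    exact mul_le_mul (dr_le r) h1 (pow_nonneg hx.1.le _) (by norm_num)
  zero := by
    intro x hx
    refine le_antisymm (rho_le le_rfl ?_) (rho_nonneg r φ x)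
    intro i hi
    rw [h.zero i hx, abs_zero, mul_zero]
    exact pow_nonneg le_rfl _

/-- `φ = 0` where `ρ = 0` -/
theorem phi_zero_of_rho {r : ℕ} {φ : ℝ → ℝ} {x : ℝ} (h : rho r φ x = 0) : φ x = 0 := by
  have h1 := le_rho r φ (Pr_pos r) x
  rw [h, pow_zero, one_mul, iteratedDeriv_zero, Nat.sub_zero, zero_pow (Pr_pos r).ne'] at h1
  exact abs_eq_zero.1 (le_antisymm h1 (abs_nonneg _))

/-- derivatives of `φ` near a block, `j ≤ r + 6 < P`: `|φ⁽ʲ⁾| ≤ ρ^(P-j)` (`le_rho`, `8^j ≥ 1`), and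
`ρ^(P-j) l^j = ρ^P (l/ρ)^j ≤ ρ^P ≤ (11/5 l)^Q` (`P = 2Q`), because `l ≤ 10/9 ρ² ≤ ρ`. -/
theorem HF.block {r : ℕ} {φ : ℝ → ℝ} (h : HF r φ) {ι : Type} {p l : ι → ℝ} {col : ι → Fin 16}
    (hB : BS (rho r φ) ι p l col) (i : ι) {j : ℕ} (hj : j ≤ r + 6) {x : ℝ}
    (hx : |x - (p i + l i / 2)| ≤ 20 * l i) :
    |iteratedDeriv j φ x| ≤ (11 / 5 * l i) ^ Qr r / l i ^ j := by
  have hl := hB.pos i
  have hlo := hB.lo i x hx
  have hhi := hB.hi i x hx
  have hmem := hB.mem i x hx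
  have hr0 := rho_nonneg r φ x
  have hsm := h.sc.small x hmem
  have hr1 : rho r φ x ≤ 9 / 10 := by
    refine hsm.trans ?_
    have := hmem.2
    have := hmem.1
    nlinarith
  have hPj : j < Pr r := by
    unfold Pr Qr
    nlinarith [Nat.zero_le r, Nat.zero_le (r ^ 2)]
  have h1 := le_rho r φ hPj x
  have h2 : |iteratedDeriv j φ x| ≤ rho r φ x ^ (Pr r - j) := by
    refine le_trans ?_ h1
    have h8 : (1 : ℝ) ≤ 8 ^ j := one_le_pow₀ (by norm_num)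
    nlinarith [abs_nonneg (iteratedDeriv j φ x)]
  have hlr : l i ≤ rho r φ x := by nlinarith
  rw [le_div_iff₀ (pow_pos hl j)]
  calc |iteratedDeriv j φ x| * l i ^ j ≤ rho r φ x ^ (Pr r - j) * rho r φ x ^ j := by
        exact mul_le_mul h2 (pow_le_pow_left₀ hl.le hlr j) (pow_nonneg hl.le _) (pow_nonneg hr0 _)
    _ = (rho r φ x ^ 2) ^ Qr r := by
        rw [← pow_add, ← pow_mul]
        congr 1
        unfold Pr
        unfold Pr at hPj
        omega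
    _ ≤ (11 / 5 * l i) ^ Qr r := pow_le_pow_left₀ (by positivity) hhi _

end FG40
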