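import Pool.Agent.LibFG40.Defs

/-! # B1: dyadic intervals -/

open Filter Topology Set

namespace FG40

theorem dl_pos (a : ℕ × ℤ) : 0 < dl a := by
  unfold dl
  positivity

theorem dl_par {a : ℕ × ℤ} (ha : 1 ≤ a.1) : dl (par a) = 2 * dl a := by
  obtain ⟨j, m⟩ := a
  obtain ⟨n, rfl⟩ : ∃ n, j = n + 1 := ⟨j - 1, by simp only at ha; omega⟩
  unfold dl par
  simp only [Nat.add_sub_cancel]
  rw [pow_succ]
  ring

/-- the child is one half of its parent: `m = 2 (m / 2) + m % 2` -/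
theorem dp_par {a : ℕ × ℤ} (ha : 1 ≤ a.1) : dp (par a) = dp a ∨ dp (par a) = dp a - dl a := by
  have h1 : dp (par a) = ((a.2 / 2 : ℤ) : ℝ) * (2 * dl a) := by
    unfold dp
    rw [dl_par ha]
    rfl
  have h2 := Int.emod_add_mul_ediv a.2 2
  rcases Int.emod_two_eq_zero_or_one a.2 with h | h
  · left
    have h3 : (a.2 : ℝ) = 2 * ((a.2 / 2 : ℤ) : ℝ) := by
      have h4 : a.2 = 2 * (a.2 / 2) := by omega
      exact_mod_cast h4
    rw [h1]
    unfold dp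
    rw [h3]
    ring_nf
  · right
    have h3 : (a.2 : ℝ) = 2 * ((a.2 / 2 : ℤ) : ℝ) + 1 := by
      have h4 : a.2 = 2 * (a.2 / 2) + 1 := by omega
      exact_mod_cast h4
    rw [h1]
    unfold dp
    rw [h3]
    ring_nf

theorem dc_par {a : ℕ × ℤ} (ha : 1 ≤ a.1) : |dc (par a) - dc a| = dl a / 2 := by
  have h0 := dl_pos a
  have h1 := dl_par ha
  unfold dc
  rw [h1]
  rcases dp_par ha with h | h
  · rw [h]
    have h2 : dp a + 2 * dl a / 2 - (dp a + dl a / 2) = dl a / 2 := by ring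
    rw [h2, abs_of_pos (by positivity)]
  · rw [h]
    have h2 : dp a - dl a + 2 * dl a / 2 - (dp a + dl a / 2) = -(dl a / 2) := by ring
    rw [h2, abs_neg, abs_of_pos (by positivity)]

/-- two dyadic intervals of the same level are equal or disjoint -/
theorem same_level {a b : ℕ × ℤ} (h : a.1 = b.1) {x : ℝ} (ha : x ∈ Ico (dp a) (dp a + dl a))
    (hb : x ∈ Ico (dp b) (dp b + dl b)) : a = b := by
  have hd : dl a = dl b := by
    unfold dl
    rw [h]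
  have h0 := dl_pos b
  obtain ⟨ha1, ha2⟩ := ha
  obtain ⟨hb1, hb2⟩ := hb
  unfold dp at ha1 ha2 hb1 hb2
  rw [hd] at ha1 ha2
  have h1 : (a.2 : ℝ) * dl b < (b.2 + 1) * dl b := by linarith
  have h2 : (b.2 : ℝ) * dl b < (a.2 + 1) * dl b := by linarith
  have h3 : (a.2 : ℝ) < b.2 + 1 := lt_of_mul_lt_mul_right h1 h0.le
  have h4 : (b.2 : ℝ) < a.2 + 1 := lt_of_mul_lt_mul_right h2 h0.le
  have h5 : a.2 < b.2 + 1 := by exact_mod_cast h3
  have h6 : b.2 < a.2 + 1 := by exact_mod_cast h4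
  exact Prod.ext h (by omega)

private theorem b1_le {ρ : ℝ → ℝ} (h : Sc ρ) (x : ℝ) : ρ x ≤ (1 / 10) ^ 12 := by
  by_cases hx : x ∈ Ioo (0 : ℝ) 1
  · refine (h.small x hx).trans ?_
    have h1 : (0 : ℝ) ≤ (1 / 10) ^ 12 := by positivity
    nlinarith [hx.2]
  · rw [h.zero x hx]
    positivity

/-- admissibility is inherited by children: `ρ (dc a) ≥ ρ (dc (par a)) - dl a / 16` and
`2 dl a ≤ ρ (dc (par a))^2`, `ρ ≤ 10^(-12)` everywhere -/
theorem adm_child {ρ : ℝ → ℝ} (h : Sc ρ) {a : ℕ × ℤ} (ha : 1 ≤ a.1) (hp : Adm ρ (par a)) : Adm ρ a := by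
  unfold Adm at hp ⊢
  rw [dl_par ha] at hp
  have h0 := dl_pos a
  have h1 := h.lip (dc (par a)) (dc a)
  rw [dc_par ha] at h1
  have h2 := (abs_le.mp h1).2
  have h3 := b1_le h (dc (par a))
  have h4 := h.nonneg (dc (par a))
  have h5 : (1 / 10 : ℝ) ^ 12 ≤ 1 := by norm_num
  have h6 : ρ (dc (par a)) ≤ 1 := h3.trans h5
  have h7 : ρ (dc (par a)) ^ 2 ≤ ρ (dc (par a)) := by nlinarith
  have h8 : 3 / 4 * ρ (dc (par a)) ≤ ρ (dc a) := by linarith
  have h9 : (3 / 4 * ρ (dc (par a))) ^ 2 ≤ ρ (dc a) ^ 2 :=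
    pow_le_pow_left₀ (by positivity) h8 2
  nlinarith

/-- `ρ ≤ 10^(-12)` everywhere -/
theorem Sc.le {ρ : ℝ → ℝ} (h : Sc ρ) (x : ℝ) : ρ x ≤ (1 / 10) ^ 12 := b1_le h x

end FG40
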