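import Pool.Agent.LibFG40.B1

/-! # B2: sizes of the blocks -/

open Filter Topology Set

namespace FG40

/-- `dl a ≤ ρ(dc a)²`, `ρ ≤ 10^(-12)` -/
theorem blk_tiny {ρ : ℝ → ℝ} (h : Sc ρ) {a : ℕ × ℤ} (ha : Blk ρ a) : dl a ≤ (1 / 10) ^ 20 := by
  have h1 : dl a ≤ ρ (dc a) ^ 2 := ha.2.1
  have h2 := h.le (dc a)
  have h3 := h.nonneg (dc a)
  have h4 : ρ (dc a) ^ 2 ≤ ((1 / 10) ^ 12) ^ 2 := pow_le_pow_left₀ h3 h2 2
  refine h1.trans (h4.trans ?_)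
  norm_num

private theorem b2_sqrt {ρ : ℝ → ℝ} (h : Sc ρ) {a : ℕ × ℤ} (ha : Blk ρ a) :
    ∃ s : ℝ, 0 < s ∧ s ^ 2 = dl a ∧ s ≤ (1 / 10) ^ 10 := by
  have h0 := dl_pos a
  refine ⟨Real.sqrt (dl a), Real.sqrt_pos.2 h0, Real.sq_sqrt h0.le, ?_⟩
  rw [Real.sqrt_le_left (by positivity)]
  refine (blk_tiny h ha).trans ?_
  norm_num

/-- `ρ x ≥ ρ(dc a) - 20/8 dl a`, `ρ (dc a) ≥ √(dl a)` -/
theorem blk_lo {ρ : ℝ → ℝ} (h : Sc ρ) {a : ℕ × ℤ} (ha : Blk ρ a) {x : ℝ} (hx : |x - dc a| ≤ 20 * dl a) :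
    9 / 10 * dl a ≤ ρ x ^ 2 := by
  have h0 := dl_pos a
  have h1 : dl a ≤ ρ (dc a) ^ 2 := ha.2.1
  have h2 := h.nonneg (dc a)
  obtain ⟨s, hs0, hs2, hs1⟩ := b2_sqrt h ha
  have h3 : s ≤ ρ (dc a) := by
    by_contra hc
    push Not at hc
    nlinarith
  have h4 := h.lip (dc a) x
  have h5 : |dc a - x| = |x - dc a| := abs_sub_comm _ _
  have h6 : ρ (dc a) - ρ x ≤ 20 * dl a / 8 := by
    refine (le_abs_self _).trans (h4.trans ?_)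
    rw [h5]
    linarith
  have h7 : 99 / 100 * s ≤ ρ x := by
    have : dl a ≤ s * (1 / 10) ^ 10 := by
      rw [← hs2, sq]
      exact mul_le_mul_of_nonneg_left hs1 hs0.le
    have h8 : (1 / 10 : ℝ) ^ 10 ≤ 1 / 1000 := by norm_num
    nlinarith
  have h9 : (99 / 100 * s) ^ 2 ≤ ρ x ^ 2 := pow_le_pow_left₀ (by positivity) h7 2
  nlinarith

/-- the parent is not admissible: `ρ (dc (par a))² < 2 dl a`; `|x - dc (par a)| ≤ 20.5 dl a` -/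
theorem blk_hi {ρ : ℝ → ℝ} (h : Sc ρ) {a : ℕ × ℤ} (ha : Blk ρ a) {x : ℝ} (hx : |x - dc a| ≤ 20 * dl a) :
    ρ x ^ 2 ≤ 11 / 5 * dl a := by
  have h0 := dl_pos a
  have h1 : ¬ dl (par a) ≤ ρ (dc (par a)) ^ 2 := ha.2.2
  rw [dl_par ha.1] at h1
  push Not at h1
  have h2 := h.nonneg (dc (par a))
  have h2' := h.nonneg x
  obtain ⟨s, hs0, hs2, hs1⟩ := b2_sqrt h ha
  have h3 : ρ (dc (par a)) ≤ 1415 / 1000 * s := by
    by_contra hc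
    push Not at hc
    nlinarith
  have h4 := h.lip x (dc (par a))
  have h5 : |x - dc (par a)| ≤ 41 / 2 * dl a := by
    have e1 : x - dc (par a) = (x - dc a) - (dc (par a) - dc a) := by ring
    rw [e1]
    refine (abs_sub _ _).trans ?_
    rw [dc_par ha.1]
    linarith
  have h6 : ρ x - ρ (dc (par a)) ≤ 41 / 16 * dl a := by
    refine (le_abs_self _).trans (h4.trans ?_)
    linarith
  have h7 : ρ x ≤ 142 / 100 * s := by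
    have : dl a ≤ s * (1 / 10) ^ 10 := by
      rw [← hs2, sq]
      exact mul_le_mul_of_nonneg_left hs1 hs0.le
    have h8 : (1 / 10 : ℝ) ^ 10 ≤ 1 / 1000 := by norm_num
    nlinarith
  have h9 : ρ x ^ 2 ≤ (142 / 100 * s) ^ 2 := pow_le_pow_left₀ h2' h7 2
  nlinarith

/-- `9/10 dl a ≤ ρ x² ≤ 11/5 dl b`: so `dl a < 4 dl b`, powers of two -/
theorem blk_ratio {ρ : ℝ → ℝ} (h : Sc ρ) {a b : ℕ × ℤ} (ha : Blk ρ a) (hb : Blk ρ b) {x : ℝ}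
    (hxa : |x - dc a| ≤ 20 * dl a) (hxb : |x - dc b| ≤ 20 * dl b) : dl a ≤ 2 * dl b := by
  have h1 := blk_lo h ha hxa
  have h2 := blk_hi h hb hxb
  have h3 := dl_pos b
  have h4 : dl a < 4 * dl b := by linarith
  have h5 : b.1 ≤ a.1 + 1 := by
    by_contra hc
    push Not at hc
    have h6 : (1 / 2 : ℝ) ^ b.1 ≤ (1 / 2 : ℝ) ^ (a.1 + 2) :=
      pow_le_pow_of_le_one (by norm_num) (by norm_num) hc
    have h7 : (1 / 2 : ℝ) ^ (a.1 + 2) = dl a / 4 := by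
      unfold dl
      rw [pow_add]
      ring
    have h8 : dl b = (1 / 2 : ℝ) ^ b.1 := rfl
    rw [h7, ← h8] at h6
    linarith
  have h6 : (1 / 2 : ℝ) ^ (a.1 + 1) ≤ (1 / 2 : ℝ) ^ b.1 :=
    pow_le_pow_of_le_one (by norm_num) (by norm_num) h5
  have h7 : (1 / 2 : ℝ) ^ (a.1 + 1) = dl a / 2 := by
    unfold dl
    rw [pow_succ]
    ring
  have h8 : dl b = (1 / 2 : ℝ) ^ b.1 := rfl
  rw [h7, ← h8] at h6
  linarith

/-- `ρ x > 0`, so `x ∈ (0,1)` -/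
theorem blk_mem {ρ : ℝ → ℝ} (h : Sc ρ) {a : ℕ × ℤ} (ha : Blk ρ a) {x : ℝ} (hx : |x - dc a| ≤ 20 * dl a) :
    x ∈ Ioo (0 : ℝ) 1 := by
  by_contra hc
  have h1 := blk_lo h ha hx
  have h2 := dl_pos a
  rw [h.zero x hc] at h1
  linarith

/-- `9/10 dl a ≤ ρ x² ≤ ((1/10)^12 x)²` -/
theorem blk_small {ρ : ℝ → ℝ} (h : Sc ρ) {a : ℕ × ℤ} (ha : Blk ρ a) {x : ℝ}
    (hx : x ∈ Icc (dp a) (dp a + dl a)) : dl a ≤ x ^ 2 := by
  have h0 := dl_pos a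
  have hx' : |x - dc a| ≤ 20 * dl a := by
    unfold dc
    rw [abs_le]
    constructor <;> linarith [hx.1, hx.2]
  have h1 := blk_lo h ha hx'
  have h2 := blk_mem h ha hx'
  have h3 := h.small x h2
  have h4 : ρ x ^ 2 ≤ ((1 / 10) ^ 12 * x) ^ 2 := pow_le_pow_left₀ (h.nonneg x) h3 2
  have h5 : ((1 / 10 : ℝ) ^ 12 * x) ^ 2 ≤ 1 / 10 * x ^ 2 := by
    rw [mul_pow]
    exact mul_le_mul_of_nonneg_right (by norm_num) (sq_nonneg x)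
  nlinarith [sq_nonneg x]

end FG40
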