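import Pool.Agent.LibFG40.B1

/-! # B3: the blocks cover `{ρ > 0}` and are disjoint -/

open Filter Topology Set

namespace FG40

/-- the dyadic interval of level `j` which contains `x` -/
noncomputable def cell (j : ℕ) (x : ℝ) : ℕ × ℤ := (j, ⌊x * 2 ^ j⌋)

theorem mem_cell (j : ℕ) (x : ℝ) : x ∈ Ico (dp (cell j x)) (dp (cell j x) + dl (cell j x)) := by
  have h2 : (0 : ℝ) < 2 ^ j := by positivity
  have hq : (1 / 2 : ℝ) ^ j * 2 ^ j = 1 := by
    rw [← mul_pow]
    norm_num
  have hq0 : (0 : ℝ) < (1 / 2 : ℝ) ^ j := by positivity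
  have hx : x * 2 ^ j * (1 / 2 : ℝ) ^ j = x := by
    rw [mul_assoc, mul_comm ((2 : ℝ) ^ j), hq, mul_one]
  have e1 : ((⌊x * 2 ^ j⌋ : ℤ) : ℝ) ≤ x * 2 ^ j := Int.floor_le _
  have e2 : x * 2 ^ j < ((⌊x * 2 ^ j⌋ : ℤ) : ℝ) + 1 := Int.lt_floor_add_one _
  have f1 := mul_le_mul_of_nonneg_right e1 hq0.le
  have f2 := mul_lt_mul_of_pos_right e2 hq0
  rw [hx] at f1 f2
  constructor
  · simp only [dp, dl, cell]
    exact f1
  · simp only [dp, dl, cell]
    linarith

/-- the interval of the child is contained in the interval of its parent -/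
theorem b3_sub {a : ℕ × ℤ} (ha : 1 ≤ a.1) {x : ℝ} (hx : x ∈ Ico (dp a) (dp a + dl a)) :
    x ∈ Ico (dp (par a)) (dp (par a) + dl (par a)) := by
  have h0 := dl_pos a
  rw [dl_par ha]
  rcases dp_par ha with e | e
  · rw [e]
    exact ⟨hx.1, by linarith [hx.2]⟩
  · rw [e]
    exact ⟨by linarith [hx.1], by linarith [hx.2]⟩

theorem par_cell (j : ℕ) (x : ℝ) : par (cell (j + 1) x) = cell j x := by
  refine same_level (x := x) ?_ (b3_sub ?_ (mem_cell (j + 1) x)) (mem_cell j x)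
  · simp [par, cell]
  · simp [cell]

theorem eq_cell {a : ℕ × ℤ} {x : ℝ} (h : x ∈ Ico (dp a) (dp a + dl a)) : a = cell a.1 x :=
  same_level (x := x) rfl h (mem_cell a.1 x)

/-- `Adm (cell j x)` fails for `j = 0` (`ρ < 1`) and holds for large `j`
(`|dc (cell j x) - x| ≤ 2^(-j)`, so `ρ (dc _) ≥ ρ x / 2`): take the first `j` where it holds -/
theorem blk_cover {ρ : ℝ → ℝ} (h : Sc ρ) {x : ℝ} (hx : 0 < ρ x) :
    ∃ a, Blk ρ a ∧ x ∈ Ico (dp a) (dp a + dl a) := by
  classical
  have hρ := h.le x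
  have h12 : ((1 / 10 : ℝ)) ^ 12 < 1 := by norm_num
  have ex : ∃ j, Adm ρ (cell j x) := by
    obtain ⟨j, hj⟩ := exists_pow_lt_of_lt_one (show (0 : ℝ) < ρ x ^ 2 / 4 by positivity)
      (show (1 / 2 : ℝ) < 1 by norm_num)
    refine ⟨j, ?_⟩
    have hm := mem_cell j x
    have hd : dl (cell j x) = (1 / 2 : ℝ) ^ j := rfl
    have hdp := dl_pos (cell j x)
    have hc : |dc (cell j x) - x| ≤ dl (cell j x) := by
      rw [abs_le]
      unfold dc
      constructor <;> linarith [hm.1, hm.2]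
    have hl := h.lip (dc (cell j x)) x
    rw [abs_le] at hl
    have hsq : ρ x ^ 2 ≤ ρ x := by nlinarith
    have h3 : ρ x / 2 ≤ ρ (dc (cell j x)) := by
      have := hl.1
      rw [hd] at hc
      linarith
    unfold Adm
    rw [hd]
    have h4 : (ρ x / 2) ^ 2 ≤ ρ (dc (cell j x)) ^ 2 := by
      apply pow_le_pow_left₀ (by linarith) h3
    have h5 : (ρ x / 2) ^ 2 = ρ x ^ 2 / 4 := by ring
    linarith
  have h0 : ¬ Adm ρ (cell 0 x) := by
    intro hA
    unfold Adm at hA
    have e1 : dl (cell 0 x) = 1 := by simp [dl, cell]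
    rw [e1] at hA
    have e2 := h.le (dc (cell 0 x))
    have e3 := h.nonneg (dc (cell 0 x))
    nlinarith
  have hf := Nat.find_spec ex
  have hmin := fun m => Nat.find_min ex (m := m)
  generalize Nat.find ex = n at hf hmin
  rcases n with _ | n
  · exact absurd hf h0
  · refine ⟨cell (n + 1) x, ⟨?_, hf, ?_⟩, mem_cell _ _⟩
    · simp [cell]
    · rw [par_cell]
      exact hmin n (Nat.lt_succ_self n)

theorem b3_up {ρ : ℝ → ℝ} (h : Sc ρ) {x : ℝ} {j : ℕ} (hj : Adm ρ (cell j x)) (i : ℕ) : Adm ρ (cell (j + i) x) := by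
  induction i with
  | zero => exact hj
  | succ i ih =>
    refine adm_child h (a := cell (j + (i + 1)) x) ?_ ?_
    · simp only [cell]
      omega
    · rw [show j + (i + 1) = (j + i) + 1 by omega, par_cell]
      exact ih

theorem b3_disj {ρ : ℝ → ℝ} (h : Sc ρ) {a b : ℕ × ℤ} (ha : Blk ρ a) (hb : Blk ρ b) (hab : a ≠ b) {x : ℝ}
    (hxa : x ∈ Ico (dp a) (dp a + dl a)) (hxb : x ∈ Ico (dp b) (dp b + dl b)) (hle : a.1 ≤ b.1) : False := by
  rcases Nat.eq_or_lt_of_le hle with e | e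
  · exact hab (same_level e hxa hxb)
  · have ea := eq_cell hxa
    have eb := eq_cell hxb
    have h1 : Adm ρ (cell a.1 x) := by
      rw [← ea]
      exact ha.2.1
    have h2 := b3_up h h1 (b.1 - 1 - a.1)
    rw [show a.1 + (b.1 - 1 - a.1) = b.1 - 1 by omega] at h2
    apply hb.2.2
    have h3 : par b = cell (b.1 - 1) x := by
      have h4 := par_cell (b.1 - 1) x
      rw [show b.1 - 1 + 1 = b.1 by have := hb.1; omega, ← eb] at h4
      exact h4
    rw [h3]
    exact h2

/-- if `a`, `b` are blocks of levels `j < j'` with a common point `x`, then `Adm (cell j x)`, so by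
`adm_child` `Adm (cell i x)` for all `i ≥ j`, in particular for `i = j' - 1`: against `¬ Adm (par b)`;
two dyadic intervals without common point satisfy the conclusion -/
theorem blk_disj {ρ : ℝ → ℝ} (h : Sc ρ) {a b : ℕ × ℤ} (ha : Blk ρ a) (hb : Blk ρ b) (hab : a ≠ b) :
    dp a + dl a ≤ dp b ∨ dp b + dl b ≤ dp a := by
  by_contra hc
  rw [not_or, not_le, not_le] at hc
  have pa := dl_pos a
  have pb := dl_pos b
  have hxa : max (dp a) (dp b) ∈ Ico (dp a) (dp a + dl a) := ⟨le_max_left _ _, max_lt (by linarith) hc.1⟩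
  have hxb : max (dp a) (dp b) ∈ Ico (dp b) (dp b + dl b) := ⟨le_max_right _ _, max_lt hc.2 (by linarith)⟩
  rcases le_total a.1 b.1 with e | e
  · exact b3_disj h ha hb hab hxa hxb e
  · exact b3_disj h hb ha hab.symm hxb hxa e

end FG40
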