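import Pool.Agent.LibFG40.B2
import Pool.Agent.LibFG40.B3

/-! # B4: neighbours -/

open Filter Topology Set

namespace FG40

private theorem b4_dl_pos (a : ℕ × ℤ) : 0 < dl a := by
  unfold dl
  positivity

private theorem b4_level {a b : ℕ × ℤ} (h : dl a ≤ 2 * dl b) : b.1 ≤ a.1 + 1 := by
  by_contra hcon
  push Not at hcon
  have h1 : dl b ≤ (1 / 2 : ℝ) ^ (a.1 + 2) := by
    unfold dl
    exact pow_le_pow_of_le_one (by norm_num) (by norm_num) (by omega)
  have h2 : (1 / 2 : ℝ) ^ (a.1 + 2) = dl a / 4 := by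
    unfold dl
    rw [pow_add]
    ring
  have h3 := b4_dl_pos a
  linarith

private theorem b4_dl_succ {a b : ℕ × ℤ} (h : b.1 = a.1 + 1) : dl b = dl a / 2 := by
  unfold dl
  rw [h, pow_succ]
  ring

private theorem b4_dl_eq {a b : ℕ × ℤ} (h : b.1 = a.1) : dl b = dl a := by
  unfold dl
  rw [h]

private theorem b4_rho_pos {ρ : ℝ → ℝ} (h : Sc ρ) {a : ℕ × ℤ} (ha : Blk ρ a) {x : ℝ}
    (hx : |x - dc a| ≤ 20 * dl a) : 0 < ρ x := by
  have h1 := blk_lo h ha hx
  have h2 := b4_dl_pos a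
  have h3 := h.nonneg x
  rcases h3.lt_or_eq with h4 | h4
  · exact h4
  · rw [← h4] at h1
    norm_num at h1
    linarith

/-- the block `b ∋ q = dp a + dl a` (`ρ q > 0` by `blk_lo`): by `blk_disj` its left end is `q` -/
theorem blk_right {ρ : ℝ → ℝ} (h : Sc ρ) {a : ℕ × ℤ} (ha : Blk ρ a) :
    ∃ b, Blk ρ b ∧ dp b = dp a + dl a := by
  have hpos := b4_dl_pos a
  have hx : |(dp a + dl a) - dc a| ≤ 20 * dl a := by
    unfold dc
    rw [abs_le]
    constructor <;> linarith
  obtain ⟨b, hb, hbx⟩ := blk_cover h (b4_rho_pos h ha hx)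
  have hne : a ≠ b := by
    rintro rfl
    exact lt_irrefl _ hbx.2
  refine ⟨b, hb, ?_⟩
  rcases blk_disj h ha hb hne with h1 | h1
  · exact le_antisymm hbx.1 h1
  · have h2 := hbx.2
    linarith

/-- the block `b ∋ x = dp a - dl a / 4`; `dp b + dl b ≤ dp a` by `blk_disj`; `dl b ∈ {dl a / 2, dl a,
2 dl a}` by `blk_ratio` (both ways), so `dp a` and `dp b + dl b` are integral multiples of `dl a / 2`, their
difference is in `[0, dl a / 4)`: it is `0` -/
theorem blk_left {ρ : ℝ → ℝ} (h : Sc ρ) {a : ℕ × ℤ} (ha : Blk ρ a) :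
    ∃ b, Blk ρ b ∧ dp b + dl b = dp a := by
  have hpos := b4_dl_pos a
  have hx : |(dp a - dl a / 4) - dc a| ≤ 20 * dl a := by
    unfold dc
    rw [abs_le]
    constructor <;> linarith
  obtain ⟨b, hb, hbx⟩ := blk_cover h (b4_rho_pos h ha hx)
  have hposb := b4_dl_pos b
  have hne : a ≠ b := by
    rintro rfl
    have := hbx.1
    linarith
  have hle : dp b + dl b ≤ dp a := by
    rcases blk_disj h ha hb hne with h1 | h1
    · have := hbx.1
      linarith
    · exact h1
  have hxb : |(dp a - dl a / 4) - dc b| ≤ 20 * dl b := by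
    have h1 := hbx.1
    have h2 := hbx.2
    unfold dc
    rw [abs_le]
    constructor <;> linarith
  have r1 := b4_level (blk_ratio h ha hb hx hxb)
  have r2 := b4_level (blk_ratio h hb ha hxb hx)
  have hlt := hbx.2
  refine ⟨b, hb, ?_⟩
  -- the difference is an integral multiple of `dl a / 2`
  have key : ∃ k : ℤ, dp a - (dp b + dl b) = k * (dl a / 2) := by
    have h3 : b.1 = a.1 + 1 ∨ b.1 = a.1 ∨ a.1 = b.1 + 1 := by omega
    rcases h3 with h3 | h3 | h3
    · have e := b4_dl_succ h3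
      refine ⟨2 * a.2 - (b.2 + 1), ?_⟩
      unfold dp
      rw [e]
      push_cast
      ring
    · have e := b4_dl_eq h3
      refine ⟨2 * a.2 - 2 * (b.2 + 1), ?_⟩
      unfold dp
      rw [e]
      push_cast
      ring
    · have e := b4_dl_succ h3
      refine ⟨2 * a.2 - 4 * (b.2 + 1), ?_⟩
      unfold dp
      rw [e]
      push_cast
      ring
  obtain ⟨k, hk⟩ := key
  have k0 : 0 ≤ k := by
    by_contra hcon
    push Not at hcon
    have h4 : (k : ℝ) ≤ -1 := by
      have : k ≤ -1 := by omega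
      exact_mod_cast this
    have h5 : (k : ℝ) * (dl a / 2) ≤ -1 * (dl a / 2) :=
      mul_le_mul_of_nonneg_right h4 (by linarith)
    linarith
  have k1 : k < 1 := by
    by_contra hcon
    push Not at hcon
    have h4 : (1 : ℝ) ≤ k := by exact_mod_cast hcon
    have h5 : 1 * (dl a / 2) ≤ (k : ℝ) * (dl a / 2) :=
      mul_le_mul_of_nonneg_right h4 (by linarith)
    linarith
  have k2 : k = 0 := by omega
  rw [k2] at hk
  norm_num at hk
  linarith

private theorem b4_far {a b : ℕ × ℤ} (h1 : a.1 = b.1) (h2 : b.2 + 8 ≤ a.2) {x : ℝ}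
    (hxa : dp a - dl a ≤ x) (hxb : x ≤ dp b + 5 * dl b) : False := by
  have e := b4_dl_eq (a := b) (b := a) h1
  have hpos := b4_dl_pos b
  have h3 : (b.2 : ℝ) + 8 ≤ a.2 := by exact_mod_cast h2
  have h4 : ((b.2 : ℝ) + 8) * dl b ≤ a.2 * dl b := mul_le_mul_of_nonneg_right h3 hpos.le
  unfold dp at hxa hxb
  rw [e] at hxa
  nlinarith

/-- same level: `|m - m'| ≥ 8`; otherwise the levels differ by at least `2` and a common point `x` of the
two intervals contradicts `blk_ratio` (`|x - dc a| ≤ 6 dl a`) -/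
theorem blk_colour {ρ : ℝ → ℝ} (h : Sc ρ) {a b : ℕ × ℤ} (ha : Blk ρ a) (hb : Blk ρ b) (hab : a ≠ b)
    (h2 : a.1 % 2 = b.1 % 2) (h8 : a.2 % 8 = b.2 % 8) :
    Disjoint (Icc (dp a - dl a) (dp a + 5 * dl a)) (Icc (dp b - dl b) (dp b + 5 * dl b)) := by
  rw [Set.disjoint_left]
  intro x hxa hxb
  have hpa := b4_dl_pos a
  have hpb := b4_dl_pos b
  have h1a : |x - dc a| ≤ 20 * dl a := by
    have h1 := hxa.1
    have h2 := hxa.2
    unfold dc
    rw [abs_le]
    constructor <;> linarith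
  have h1b : |x - dc b| ≤ 20 * dl b := by
    have h1 := hxb.1
    have h2 := hxb.2
    unfold dc
    rw [abs_le]
    constructor <;> linarith
  have r1 := b4_level (blk_ratio h ha hb h1a h1b)
  have r2 := b4_level (blk_ratio h hb ha h1b h1a)
  have h3 : a.1 = b.1 := by omega
  have h4 : a.2 ≠ b.2 := by
    intro h5
    exact hab (Prod.ext h3 h5)
  have h5 : b.2 + 8 ≤ a.2 ∨ a.2 + 8 ≤ b.2 := by omega
  rcases h5 with h5 | h5
  · exact b4_far h3 h5 hxa.1 hxb.2
  · exact b4_far h3.symm h5 hxb.1 hxa.2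

end FG40
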