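import Pool.Agent.LibFG40.B4

/-! # B5: the system of blocks -/

open Filter Topology Set

namespace FG40

/-- total length of disjoint intervals in `(0,1)` -/
theorem sum_le_one {ι : Type} {p l : ι → ℝ} (hl : ∀ i, 0 < l i)
    (hd : ∀ i j, i ≠ j → p i + l i ≤ p j ∨ p j + l j ≤ p i) (h0 : ∀ i, 0 ≤ p i) (h1 : ∀ i, p i + l i ≤ 1)
    (S : Finset ι) : ∑ i ∈ S, l i ≤ 1 := by
  classical
  have hm : MeasureTheory.volume (⋃ i ∈ S, Ico (p i) (p i + l i)) =
      ∑ i ∈ S, MeasureTheory.volume (Ico (p i) (p i + l i)) := by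
    apply MeasureTheory.measure_biUnion_finset
    · intro i _ j _ hij
      rw [Function.onFun, Set.disjoint_left]
      intro x hx hx'
      rcases hd i j hij with h | h
      · exact absurd hx.2 (not_lt.2 (h.trans hx'.1))
      · exact absurd hx'.2 (not_lt.2 (h.trans hx.1))
    · intro i _
      exact measurableSet_Ico
  have hle : MeasureTheory.volume (⋃ i ∈ S, Ico (p i) (p i + l i)) ≤ MeasureTheory.volume (Icc (0 : ℝ) 1) := by
    apply MeasureTheory.measure_mono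
    intro x hx
    rw [Set.mem_iUnion₂] at hx
    obtain ⟨i, _, hi⟩ := hx
    exact ⟨(h0 i).trans hi.1, hi.2.le.trans (h1 i)⟩
  rw [hm] at hle
  have h2 : ∑ i ∈ S, MeasureTheory.volume (Ico (p i) (p i + l i)) = ENNReal.ofReal (∑ i ∈ S, l i) := by
    rw [ENNReal.ofReal_sum_of_nonneg (fun i _ => (hl i).le)]
    refine Finset.sum_congr rfl fun i _ => ?_
    rw [Real.volume_Ico, add_sub_cancel_left]
  rw [h2, Real.volume_Icc, sub_zero, ENNReal.ofReal_le_ofReal_iff zero_le_one] at hle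
  exact hle

private theorem b5_mem {p l : ℝ} (hl : 0 < l) (h : ∀ x, |x - (p + l / 2)| ≤ 20 * l → x ∈ Ioo (0 : ℝ) 1) :
    0 ≤ p ∧ p + l ≤ 1 := by
  constructor
  · refine (h p ?_).1.le
    rw [abs_le]
    constructor <;> linarith
  · refine (h (p + l) ?_).2.le
    rw [abs_le]
    constructor <;> linarith

/-- `ι = {a // Blk ρ a}`, colour `(j % 2, m % 8)` coded in `Fin 16` -/
theorem exists_blocks {ρ : ℝ → ℝ} (h : Sc ρ) :
    ∃ (ι : Type) (_ : Countable ι) (p l : ι → ℝ) (col : ι → Fin 16), BS ρ ι p l col := by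
  have hcol : ∀ a : ℕ × ℤ, (a.1 % 2) * 8 + (a.2 % 8).toNat < 16 := by
    intro a
    omega
  have hpos : ∀ i : {a : ℕ × ℤ // Blk ρ a}, 0 < dl i.1 := fun i => dl_pos i.1
  have hmem : ∀ (i : {a : ℕ × ℤ // Blk ρ a}) (x : ℝ), |x - (dp i.1 + dl i.1 / 2)| ≤ 20 * dl i.1 →
      x ∈ Ioo (0 : ℝ) 1 := fun i x hx => blk_mem h i.2 hx
  have hdisj : ∀ i j : {a : ℕ × ℤ // Blk ρ a}, i ≠ j → dp i.1 + dl i.1 ≤ dp j.1 ∨ dp j.1 + dl j.1 ≤ dp i.1 :=
    fun i j hij => blk_disj h i.2 j.2 (fun hh => hij (Subtype.ext hh))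
  refine ⟨{a : ℕ × ℤ // Blk ρ a}, inferInstance, fun i => dp i.1, fun i => dl i.1,
    fun i => ⟨(i.1.1 % 2) * 8 + (i.1.2 % 8).toNat, hcol i.1⟩, ?_⟩
  refine
    { pos := hpos
      lo := fun i x hx => blk_lo h i.2 hx
      hi := fun i x hx => blk_hi h i.2 hx
      cover := ?_
      disj := hdisj
      ratio := fun i j x hx hx' => blk_ratio h i.2 j.2 hx hx'
      right := ?_
      left := ?_
      colour := ?_
      summ := ?_
      mem := hmem
      small := fun i x hx => blk_small h i.2 hx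
      tiny := fun i => blk_tiny h i.2 }
  · intro x hx
    obtain ⟨a, ha, hxa⟩ := blk_cover h hx
    exact ⟨⟨a, ha⟩, hxa⟩
  · intro i
    obtain ⟨b, hb, hbe⟩ := blk_right h i.2
    exact ⟨⟨b, hb⟩, hbe⟩
  · intro i
    obtain ⟨b, hb, hbe⟩ := blk_left h i.2
    exact ⟨⟨b, hb⟩, hbe⟩
  · intro i j hij hc
    rw [Fin.mk.injEq] at hc
    have h2 : i.1.1 % 2 = j.1.1 % 2 := by omega
    have h8 : i.1.2 % 8 = j.1.2 % 8 := by omega
    exact blk_colour h i.2 j.2 (fun hh => hij (Subtype.ext hh)) h2 h8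
  · refine summable_of_sum_le (c := 1) (fun i => (hpos i).le) ?_
    intro S
    exact sum_le_one hpos hdisj (fun i => (b5_mem (hpos i) (hmem i)).1) (fun i => (b5_mem (hpos i) (hmem i)).2) S

/-- from `BS`: total length of finitely many blocks -/
theorem BS.sum_le {ρ : ℝ → ℝ} {ι : Type} {p l : ι → ℝ} {col : ι → Fin 16} (h : BS ρ ι p l col)
    (S : Finset ι) : ∑ i ∈ S, l i ≤ 1 :=
  sum_le_one h.pos h.disj (fun i => (b5_mem (h.pos i) (h.mem i)).1) (fun i => (b5_mem (h.pos i) (h.mem i)).2) S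

end FG40
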