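import Pool.Agent.LibFG40.Defs

/-! # C0a: the maps of class `Gd r`. Model: `Pool/Agent/LibGC45/B1.lean` (`IsD.one`, `IsD.mul`, `IsD.inv`) for
`r = 1`; for `C^r` of the inverse use `Homeomorph.contDiff_symm_deriv` as there. -/

open Filter Topology Set

namespace FG40

open GD31

/-- the homeomorphism underlying a map of class `Gd r` -/
private noncomputable def c0a_homeo (F : Pm) (hF : StrictMono F) : ℝ ≃ₜ ℝ :=
  (StrictMono.orderIsoOfSurjective F hF F.surjective).toHomeomorph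

private theorem c0a_homeo_apply {F : Pm} (hF : StrictMono F) (x : ℝ) :
    c0a_homeo F hF x = F x := rfl

private theorem c0a_homeo_symm {F : Pm} (hF : StrictMono F) :
    ⇑(c0a_homeo F hF).symm = ⇑(F⁻¹ : Pm) := by
  funext y
  apply (c0a_homeo F hF).injective
  rw [Homeomorph.apply_symm_apply, c0a_homeo_apply]
  simp

private theorem c0a_diff {r : ℕ} (hr : 1 ≤ r) {F : Pm} (hF : Gd r F) : Differentiable ℝ F := by
  refine hF.contDiff.differentiable ?_
  have h1 : r ≠ 0 := by omega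
  exact_mod_cast h1

private theorem c0a_cd_inv {r : ℕ} (hr : 1 ≤ r) {F : Pm} (hF : Gd r F) (hm : StrictMono F) :
    ContDiff ℝ r (⇑(F⁻¹ : Pm)) := by
  rw [← c0a_homeo_symm hm]
  refine Homeomorph.contDiff_symm_deriv (c0a_homeo F hm) (f' := deriv F)
    (fun x => (hF.pos x).ne') (fun x => ?_) ?_
  · exact (c0a_diff hr hF x).hasDerivAt
  · exact hF.contDiff

private theorem c0a_hasDerivAt_inv {r : ℕ} (hr : 1 ≤ r) {F : Pm} (hF : Gd r F)
    (hm : StrictMono F) (y : ℝ) :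
    HasDerivAt (⇑(F⁻¹ : Pm)) (deriv F (F⁻¹ y))⁻¹ y := by
  have hc : ContinuousAt (⇑(F⁻¹ : Pm)) y := by
    rw [← c0a_homeo_symm hm]
    exact (c0a_homeo F hm).symm.continuous.continuousAt
  refine HasDerivAt.of_local_left_inverse hc ((c0a_diff hr hF _).hasDerivAt) (hF.pos _).ne' ?_
  exact Eventually.of_forall fun z => by simp

theorem Gd.one (r : ℕ) : Gd r 1 := by
  have h : (⇑(1 : Pm)) = id := rfl
  refine ⟨?_, fun x => ?_, fun x _ => rfl⟩
  · rw [h]
    exact contDiff_id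
  · rw [h, deriv_id]
    exact one_pos

theorem Gd.strictMono {r : ℕ} {F : Pm} (h : Gd r F) : StrictMono F := by
  exact strictMono_of_deriv_pos h.pos

theorem Gd.continuous {r : ℕ} {F : Pm} (h : Gd r F) : Continuous F := by
  exact h.contDiff.continuous

theorem Gd.mul {r : ℕ} (hr : 1 ≤ r) {F G : Pm} (hF : Gd r F) (hG : Gd r G) : Gd r (F * G) := by
  have h : (⇑(F * G : Pm)) = (⇑F) ∘ (⇑G) := rfl
  refine ⟨?_, fun x => ?_, fun x hx => ?_⟩
  · rw [h]
    exact hF.contDiff.comp hG.contDiff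
  · rw [h, deriv_comp x (c0a_diff hr hF _) (c0a_diff hr hG _)]
    exact mul_pos (hF.pos _) (hG.pos _)
  · change F (G x) = x
    rw [hG.left x hx, hF.left x hx]

theorem Gd.inv {r : ℕ} (hr : 1 ≤ r) {F : Pm} (hF : Gd r F) : Gd r F⁻¹ := by
  have hm := hF.strictMono
  refine ⟨c0a_cd_inv hr hF hm, fun x => ?_, fun x hx => ?_⟩
  · rw [(c0a_hasDerivAt_inv hr hF hm x).deriv]
    exact inv_pos.2 (hF.pos _)
  · rw [Equiv.Perm.inv_eq_iff_eq]
    exact (hF.left x hx).symm

theorem Gd.pow {r : ℕ} (hr : 1 ≤ r) {F : Pm} (hF : Gd r F) (n : ℕ) : Gd r (F ^ n) := by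
  induction n with
  | zero =>
    rw [pow_zero]
    exact Gd.one r
  | succ n ih =>
    rw [pow_succ]
    exact Gd.mul hr ih hF

theorem Gd.lift {r : ℕ} (hr : 1 ≤ r) {N : ℕ} {F : Fin N → Pm} (hF : ∀ i, Gd r (F i))
    (w : FreeGroup (Fin N)) : Gd r (FreeGroup.lift F w) := by
  induction w using FreeGroup.induction_on with
  | C1 =>
    rw [map_one]
    exact Gd.one r
  | of i =>
    rw [FreeGroup.lift_apply_of]
    exact hF i
  | inv_of i h =>
    rw [map_inv]
    exact Gd.inv hr h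
  | mul x y hx hy =>
    rw [map_mul]
    exact Gd.mul hr hx hy

/-- `deriv F x = 1 + iteratedDeriv 1 (F - id) x ≥ 1/2` -/
theorem SzR.gd {r : ℕ} (hr : 1 ≤ r) {F : Pm} {s : ℝ} (h : SzR r s F) (hs : s ≤ 1 / 2)
    (hl : ∀ x ≤ 0, F x = x) : Gd r F := by
  refine ⟨h.contDiff, fun x => ?_, hl⟩
  have hr0 : (r : WithTop ℕ∞) ≠ 0 := by
    have h1 : r ≠ 0 := by omega
    exact_mod_cast h1
  have hd : Differentiable ℝ F := h.contDiff.differentiable hr0
  have h2 := h.bound 1 hr x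
  rw [iteratedDeriv_one] at h2
  have h3 : deriv (fun y => F y - y) x = deriv F x - 1 := by
    have h4 : HasDerivAt (fun y => F y - y) (deriv F x - 1) x :=
      (hd x).hasDerivAt.sub (hasDerivAt_id' x)
    exact h4.deriv
  rw [h3] at h2
  have h5 := (abs_le.1 (h2.trans hs)).1
  linarith

end FG40
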