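import Pool.Agent.LibFG40.C0a

/-! # C0b: `Rep r` is closed under products -/

open Filter Topology Set

namespace FG40

open GD31

private theorem c0b_norm_map {α β : Type} [DecidableEq α] [DecidableEq β] (f : α → β)
    (w : FreeGroup α) : (FreeGroup.map f w).norm ≤ w.norm := by
  conv_lhs => rw [← FreeGroup.mk_toWord (x := w)]
  rw [FreeGroup.map.mk]
  refine le_trans FreeGroup.norm_mk_le ?_
  rw [List.length_map]
  exact le_rfl

private theorem c0b_lift_map {α β : Type} (f : α → β) (F : β → Pm) (w : FreeGroup α) :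
    FreeGroup.lift F (FreeGroup.map f w) = FreeGroup.lift (fun a => F (f a)) w := by
  have h : (FreeGroup.lift F).comp (FreeGroup.map f) = FreeGroup.lift (fun a => F (f a)) := by
    ext a
    simp
  exact DFunLike.congr_fun h w

theorem Rep.one (r : ℕ) : Rep r (fun _ => 1) := by
  refine ⟨0, Fin.elim0, fun _ => 1, 0, fun i => i.elim0, fun k => ?_, fun k => ?_⟩
  · simp
  · simp

theorem Rep.congr {r : ℕ} {E E' : ℕ → Pm} (h : Rep r E)
    (he : ∀ k, ∀ᶠ x in 𝓝 (0 : ℝ), E k x = E' k x) : Rep r E' := by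
  obtain ⟨N, F, w, C, h1, h2, h3⟩ := h
  refine ⟨N, F, w, C, h1, h2, fun k => ?_⟩
  filter_upwards [h3 k, he k] with x hx hx'
  rw [hx, hx']

/-- Generators `Fin (N + N')` (`Fin.addCases`), words `map (Fin.castAdd _) (w k) * map (Fin.natAdd _) (w' k)`
(`FreeGroup.map`, its norm does not increase: `FreeGroup.norm` of a map is at most the norm), constant
`C + C'`. Near `0`: `lift F' (w' k)` is continuous and fixes `0` (`Gd.lift`), so `lift F (w k)` equals `E k` at
`lift F' (w' k) x = E' k x` for `x` near `0`. -/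
theorem Rep.mul {r : ℕ} (hr : 1 ≤ r) {E E' : ℕ → Pm} (h : Rep r E) (h' : Rep r E') :
    Rep r (fun k => E k * E' k) := by
  obtain ⟨N, F, w, C, h1, h2, h3⟩ := h
  obtain ⟨N', F', w', C', h1', h2', h3'⟩ := h'
  let FF : Fin (N + N') → Pm := Fin.addCases F F'
  have hl : ∀ i : Fin N, FF (Fin.castAdd N' i) = F i := fun i => Fin.addCases_left i
  have hrr : ∀ i : Fin N', FF (Fin.natAdd N i) = F' i := fun i => Fin.addCases_right i
  refine ⟨N + N', FF, fun k => FreeGroup.map (Fin.castAdd N') (w k) *
    FreeGroup.map (Fin.natAdd N) (w' k), C + C', ?_, fun k => ?_, fun k => ?_⟩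
  · intro i
    refine Fin.addCases (fun j => ?_) (fun j => ?_) i
    · rw [hl j]; exact h1 j
    · rw [hrr j]; exact h1' j
  · refine le_trans (FreeGroup.norm_mul_le _ _) ?_
    rw [add_mul]
    exact add_le_add (le_trans (c0b_norm_map _ _) (h2 k)) (le_trans (c0b_norm_map _ _) (h2' k))
  · have e1 : FreeGroup.lift FF (FreeGroup.map (Fin.castAdd N') (w k) *
        FreeGroup.map (Fin.natAdd N) (w' k)) = FreeGroup.lift F (w k) * FreeGroup.lift F' (w' k) := by
      rw [map_mul, c0b_lift_map, c0b_lift_map]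
      congr 2
      · congr 1
        funext i; exact hl i
      · congr 1
        funext i; exact hrr i
    have hG : Gd r (FreeGroup.lift F' (w' k)) := Gd.lift hr h1' (w' k)
    have h0 : (FreeGroup.lift F' (w' k) : Pm) 0 = 0 := hG.left 0 le_rfl
    have ht : Tendsto (fun x : ℝ => (FreeGroup.lift F' (w' k) : Pm) x) (𝓝 0) (𝓝 0) := by
      have := hG.continuous.tendsto 0
      rwa [h0] at this
    filter_upwards [h3' k, ht.eventually (h3 k)] with x hx hx'
    rw [e1, Equiv.Perm.mul_apply, hx', hx, Equiv.Perm.mul_apply]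

theorem Rep.prod {r : ℕ} (hr : 1 ≤ r) (M : ℕ) (E : Fin M → ℕ → Pm) (h : ∀ c, Rep r (E c)) :
    Rep r (fun k => (List.ofFn fun c => E c k).prod) := by
  induction M with
  | zero =>
    simp only [List.ofFn_zero, List.prod_nil]
    exact Rep.one r
  | succ M ih =>
    simp only [List.ofFn_succ, List.prod_cons]
    exact Rep.mul hr (h 0) (ih (fun c => E c.succ) fun c => h c.succ)

end FG40
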