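import Pool.Agent.LibFG40.C0a

/-! # C0c: `C^r` sizes of glued maps. Model: `GD31.IsGlue.sz` (end of `Pool/Agent/LibGD31/CH1.lean`), which does
this for `r = 2` and index type `ℕ` (`disp H = ∑' i, disp (F i)`, `contDiff_tsum`, `iteratedDeriv_tsum`-type
lemma as there). -/

open Filter Topology Set

namespace FG40

open GD31

private theorem C0c_disp {r : ℕ} {s : ℝ} {F : Pm} (h : SzR r s F) : ContDiff ℝ ((r : ℕ∞) : WithTop ℕ∞) (disp F) :=
  h.contDiff.sub contDiff_id

private theorem C0c_tsum {ι : Type} {V : ι → Set ℝ} {F : ι → Pm} {H : Pm}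
    (hd : Pairwise fun i j => Disjoint (V i) (V j)) (hF : ∀ i, Supp (F i) (V i)) (h : IsGlue V F H) :
    disp H = fun x => ∑' i, disp (F i) x := by
  funext x
  by_cases hx : ∃ i, x ∈ V i
  · obtain ⟨i, hi⟩ := hx
    rw [tsum_eq_single i]
    · rw [disp, disp, h.on i x hi]
    · intro j hj
      rw [disp, hF j x (fun hc => Set.disjoint_left.mp (hd hj) hc hi), sub_self]
  · push Not at hx
    rw [disp, h.off x hx, sub_self]
    symm
    have h0 : ∀ i, disp (F i) x = 0 := fun i => by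
      rw [disp, hF i x (hx i), sub_self]
    simp only [h0, tsum_zero]

theorem glue_szR {r : ℕ} {ι : Type} {V : ι → Set ℝ} {F : ι → Pm} {H : Pm}
    (hd : Pairwise fun i j => Disjoint (V i) (V j)) (hF : ∀ i, Supp (F i) (V i)) (h : IsGlue V F H)
    (s : ι → ℝ) (hs : ∀ i, SzR r (s i) (F i)) (hsum : Summable s) : SzR r (∑' i, s i) H := by
  have e := C0c_tsum hd hF h
  have hf : ∀ i, ContDiff ℝ ((r : ℕ∞) : WithTop ℕ∞) (disp (F i)) := fun i => C0c_disp (hs i)
  have hb : ∀ (k : ℕ) (i : ι) (x : ℝ), (k : ℕ∞) ≤ (r : ℕ∞) → ‖iteratedFDeriv ℝ k (disp (F i)) x‖ ≤ s i := by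
    intro k i x hk
    rw [norm_iteratedFDeriv_eq_norm_iteratedDeriv]
    exact (hs i).bound k (by exact_mod_cast hk) x
  have hc : ContDiff ℝ ((r : ℕ∞) : WithTop ℕ∞) (disp H) := by
    rw [e]
    exact contDiff_tsum (v := fun _ => s) hf (fun _ _ => hsum) hb
  constructor
  · have e2 : (H : ℝ → ℝ) = fun x => x + disp H x := by
      funext x
      simp [disp]
    rw [e2]
    exact contDiff_id.add hc
  · intro k hk x
    have e3 : (fun y => H y - y) = disp H := rfl
    rw [e3, ← Real.norm_eq_abs, ← norm_iteratedFDeriv_eq_norm_iteratedDeriv, e,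
      iteratedFDeriv_tsum_apply (v := fun _ => s) hf (fun _ _ => hsum) hb (by exact_mod_cast hk)]
    exact tsum_of_norm_bounded hsum.hasSum (fun i => hb k i x (by exact_mod_cast hk))

/-- `C^r` by `glue_szR`; `H' > 0`: `deriv (disp H) x = ∑' i, deriv (disp (F i)) x`, and all terms vanish except
possibly one (`disp (F j) = 0` on the open set `(V j)ᶜ`), which is `≥ - s i ≥ -1/2`; `H x = x` for `x ≤ 0`
because `V i ⊆ Ioi 0`. -/
theorem glue_gd {r : ℕ} (hr : 1 ≤ r) {ι : Type} {V : ι → Set ℝ} {F : ι → Pm} {H : Pm}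
    (hd : Pairwise fun i j => Disjoint (V i) (V j)) (hF : ∀ i, Supp (F i) (V i)) (h : IsGlue V F H)
    (hcl : ∀ i, IsClosed (V i)) (hV : ∀ i, V i ⊆ Ioi 0)
    (s : ι → ℝ) (hs : ∀ i, SzR r (s i) (F i)) (hsum : Summable s) (h2 : ∀ i, s i ≤ 1 / 2) : Gd r H := by
  have hsz := glue_szR hd hF h s hs hsum
  have e := C0c_tsum hd hF h
  have hf : ∀ i, ContDiff ℝ ((r : ℕ∞) : WithTop ℕ∞) (disp (F i)) := fun i => C0c_disp (hs i)
  have hb : ∀ (k : ℕ) (i : ι) (x : ℝ), (k : ℕ∞) ≤ (r : ℕ∞) → ‖iteratedFDeriv ℝ k (disp (F i)) x‖ ≤ s i := by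
    intro k i x hk
    rw [norm_iteratedFDeriv_eq_norm_iteratedDeriv]
    exact (hs i).bound k (by exact_mod_cast hk) x
  refine ⟨hsz.contDiff, ?_, ?_⟩
  · intro x
    have hzero : ∀ i, x ∉ V i → iteratedFDeriv ℝ 1 (disp (F i)) x = 0 := by
      intro i hi
      rw [← norm_eq_zero, norm_iteratedFDeriv_eq_norm_iteratedDeriv, iteratedDeriv_one]
      have h3 : disp (F i) =ᶠ[𝓝 x] fun _ => (0 : ℝ) := by
        filter_upwards [(hcl i).isOpen_compl.mem_nhds hi] with y hy
        rw [disp, hF i y hy, sub_self]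
      rw [h3.deriv_eq, deriv_const, norm_zero]
    have hsum1 : iteratedFDeriv ℝ 1 (disp H) x = ∑' i, iteratedFDeriv ℝ 1 (disp (F i)) x := by
      rw [e]
      exact iteratedFDeriv_tsum_apply (v := fun _ => s) hf (fun _ _ => hsum) hb (by exact_mod_cast hr) x
    have hle : ‖iteratedFDeriv ℝ 1 (disp H) x‖ ≤ 1 / 2 := by
      rw [hsum1]
      by_cases hx : ∃ i, x ∈ V i
      · obtain ⟨i, hi⟩ := hx
        rw [tsum_eq_single i]
        · exact (hb 1 i x (by exact_mod_cast hr)).trans (h2 i)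
        · intro j hj
          exact hzero j (fun hc => Set.disjoint_left.mp (hd hj) hc hi)
      · push Not at hx
        have h0 : ∀ i, iteratedFDeriv ℝ 1 (disp (F i)) x = 0 := fun i => hzero i (hx i)
        simp only [h0, tsum_zero, norm_zero]
        norm_num
    rw [norm_iteratedFDeriv_eq_norm_iteratedDeriv, iteratedDeriv_one, Real.norm_eq_abs] at hle
    have hdH : DifferentiableAt ℝ H x :=
      (hsz.contDiff.differentiable (by
        have : r ≠ 0 := by omega
        exact_mod_cast this)) x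
    have h4 : deriv (disp H) x = deriv H x - 1 := by
      have h5 : disp H = fun y => H y - y := rfl
      rw [h5, deriv_fun_sub hdH differentiableAt_fun_id, deriv_id'']
    rw [h4] at hle
    have := (abs_le.1 hle).1
    linarith
  · intro x hx
    exact h.off x (fun i hi => absurd (hV i hi) (not_lt.2 hx))

end FG40
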