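import Pool.Agent.LibFG40.C0b

/-! # C0d: glue over colour classes -/

open Filter Topology Set

namespace FG40

open GD31

/-- if `x ∈ V' i` and `x ∉ V i` then `F i x = x`; `x` may lie in `V j`, `j ≠ i`, but not in `V' j`, so
`H x = F j x = x`. If `x` is in no `V' i` all `F i` fix `x`. -/
theorem glue_change {ι : Type} {V V' : ι → Set ℝ} {F : ι → Pm} {H : Pm}
    (hd' : Pairwise fun i j => Disjoint (V' i) (V' j)) (hF : ∀ i, Supp (F i) (V i))
    (hF' : ∀ i, Supp (F i) (V' i)) (h : IsGlue V F H) : IsGlue V' F H := by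
  constructor
  · intro i x hx
    by_cases hxi : x ∈ V i
    · exact h.on i x hxi
    · rw [hF i x hxi]
      by_cases hex : ∃ j, x ∈ V j
      · obtain ⟨j, hj⟩ := hex
        have hji : j ≠ i := fun h1 => hxi (h1 ▸ hj)
        have hxj : x ∉ V' j := fun h1 => Set.disjoint_left.mp (hd' hji) h1 hx
        rw [h.on j x hj, hF' j x hxj]
      · exact h.off x (fun j hj => hex ⟨j, hj⟩)
  · intro x hx
    by_cases hex : ∃ j, x ∈ V j
    · obtain ⟨j, hj⟩ := hex
      rw [h.on j x hj, hF' j x (hx j)]
    · exact h.off x (fun j hj => hex ⟨j, hj⟩)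

private theorem c0d_fix {W : Set ℝ} (M : ℕ) : ∀ g : Fin M → Pm, (∀ c, ∀ y ∈ W, g c y = y) →
    ∀ x ∈ W, (List.ofFn g).prod x = x := by
  induction M with
  | zero =>
    intro g _ x _
    rw [List.ofFn_zero, List.prod_nil, Equiv.Perm.one_apply]
  | succ M ih =>
    intro g hg x hx
    rw [List.ofFn_succ, List.prod_cons, Equiv.Perm.mul_apply,
      ih (fun i => g i.succ) (fun c y hy => hg c.succ y hy) x hx]
    exact hg 0 x hx

private theorem c0d_prod {W : Set ℝ} {F : Pm} (hF : ∀ y ∈ W, F y ∈ W) (M : ℕ) :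
    ∀ (g : Fin M → Pm) (c₀ : Fin M), (∀ y ∈ W, g c₀ y = F y) → (∀ c, c ≠ c₀ → ∀ y ∈ W, g c y = y) →
      ∀ x ∈ W, (List.ofFn g).prod x = F x := by
  induction M with
  | zero =>
    intro g c₀
    exact c₀.elim0
  | succ M ih =>
    intro g c₀ h0 h1 x hx
    rw [List.ofFn_succ, List.prod_cons, Equiv.Perm.mul_apply]
    rcases Fin.eq_zero_or_eq_succ c₀ with rfl | ⟨c', rfl⟩
    · rw [c0d_fix M (fun i => g i.succ) (fun c y hy => h1 c.succ (Fin.succ_ne_zero c) y hy) x hx]
      exact h0 x hx
    · rw [ih (fun i => g i.succ) c' h0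
        (fun c hc y hy => h1 c.succ (fun h2 => hc (Fin.succ_injective _ h2)) y hy) x hx]
      exact h1 0 (Fin.succ_ne_zero c').symm _ (hF x hx)

/-- Let `E c k` be the glue of the class `col = c` (`exists_glue`). At a point `x ∈ V i`, `col i = c`: `E c k x =
D k i x ∈ V i` and the other `E c' k` fix all points of `V i`; so the product over `c : Fin M` of `E c k`
(`List.ofFn`, any order) is the glue of all (`IsGlue.unique`); `Rep.prod`. -/
theorem Rep.of_colours {r : ℕ} (hr : 1 ≤ r) {ι : Type} {V : ι → Set ℝ} {D : ℕ → ι → Pm}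
    (hd : Pairwise fun i j => Disjoint (V i) (V j)) (hs : ∀ k i, Supp (D k i) (V i)) (M : ℕ)
    (col : ι → Fin M)
    (hrep : ∀ c, ∀ E : ℕ → Pm,
      (∀ k, IsGlue (fun i : {i // col i = c} => V i.1) (fun i => D k i.1) (E k)) → Rep r E)
    (E : ℕ → Pm) (hE : ∀ k, IsGlue V (D k) (E k)) : Rep r E := by
  have hex : ∀ (c : Fin M) (k : ℕ), ∃ H : Pm,
      IsGlue (fun i : {i // col i = c} => V i.1) (fun i => D k i.1) H := fun c k =>
    exists_glue _ _ (fun i j hij => hd (fun h => hij (Subtype.ext h))) (fun i => hs k i.1)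
  choose G hG using hex
  have h1 : Rep r (fun k => (List.ofFn fun c => G c k).prod) :=
    Rep.prod hr M G (fun c => hrep c (G c) (fun k => hG c k))
  have h2 : ∀ k, (List.ofFn fun c => G c k).prod = E k := by
    intro k
    have h3 : IsGlue V (D k) (List.ofFn fun c => G c k).prod := by
      constructor
      · intro i x hx
        refine c0d_prod (W := V i) (F := D k i) (fun y hy => ch1_maps (hs k i) hy) M
          (fun c => G c k) (col i) (fun y hy => (hG (col i) k).on ⟨i, rfl⟩ y hy) ?_ x hx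
        intro c hc y hy
        refine (hG c k).off y (fun j hj => ?_)
        have hji : j.1 ≠ i := fun h4 => hc (by rw [← j.2, h4])
        exact Set.disjoint_left.mp (hd hji) hj hy
      · intro x hx
        refine c0d_fix (W := {y | ∀ i, y ∉ V i}) M (fun c => G c k) ?_ x hx
        intro c y hy
        exact (hG c k).off y (fun j => hy j.1)
    exact h3.unique (hE k)
  exact h1.congr (fun k => Filter.Eventually.of_forall fun x => by rw [h2 k])

end FG40
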