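import Pool.Agent.LibFG40.Defs

/-! # C1c: `C^r` sizes: elementary operations. `disp (tr t * A * (tr t)⁻¹) x = disp A (x - t)`;
`disp (A * B) = disp A + disp B` for disjoint supports. -/

open Filter Topology Set

namespace FG40

open GD31

theorem szR_one {r : ℕ} {s : ℝ} (hs : 0 ≤ s) : SzR r s (1 : Pm) := by
  constructor
  · have h : ((1 : Pm) : ℝ → ℝ) = fun y => y := rfl
    rw [h]
    exact contDiff_id
  · intro i _ x
    have h : (fun y => (1 : Pm) y - y) = fun _ => (0 : ℝ) := by
      funext y
      exact sub_self y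
    rw [h, iteratedDeriv_const]
    split_ifs
    · simpa using hs
    · simpa using hs

theorem SzR.mono {r : ℕ} {s s' : ℝ} {F : ℝ → ℝ} (h : SzR r s F) (hs : s ≤ s') : SzR r s' F :=
  ⟨h.contDiff, fun i hi x => (h.bound i hi x).trans hs⟩

theorem szR_tr {r : ℕ} {s : ℝ} (t : ℝ) {A : Pm} (h : SzR r s A) : SzR r s (tr t * A * (tr t)⁻¹ : Pm) := by
  have hx : ∀ x, (tr t * A * (tr t)⁻¹ : Pm) x = A (x - t) + t := by
    intro x
    have h1 : ((tr t)⁻¹ : Pm) x = x - t := by
      rw [Equiv.Perm.inv_eq_iff_eq, tr_apply, sub_add_cancel]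
    rw [Equiv.Perm.mul_apply, Equiv.Perm.mul_apply, h1, tr_apply]
  constructor
  · have h2 : ((tr t * A * (tr t)⁻¹ : Pm) : ℝ → ℝ) = fun x => A (x - t) + t := funext hx
    rw [h2]
    exact (h.contDiff.comp (contDiff_id.sub contDiff_const)).add contDiff_const
  · intro i hi x
    have h2 : (fun y => (tr t * A * (tr t)⁻¹ : Pm) y - y) = fun y => (fun z => A z - z) (y - t) := by
      funext y
      rw [hx]
      ring
    have h3 := congrFun (iteratedDeriv_comp_sub_const i (fun z => A z - z) t) x
    rw [h2, h3]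
    exact h.bound i hi (x - t)

theorem szR_mul_disj {r : ℕ} {s t : ℝ} {A B : Pm} {U V : Set ℝ} (hU : Supp A U) (hV : Supp B V)
    (h : Disjoint U V) (hA : SzR r s A) (hB : SzR r t B) : SzR r (s + t) (A * B : Pm) := by
  have hx : ∀ x, (A * B : Pm) x - x = (A x - x) + (B x - x) := by
    intro x
    rw [Equiv.Perm.mul_apply]
    by_cases hxV : x ∈ V
    · have hxU : x ∉ U := fun hh => Set.disjoint_left.1 h hh hxV
      have hBx : B x ∈ V := by
        by_contra hn
        have e : B x = x := B.injective (hV _ hn)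
        apply hn
        rw [e]
        exact hxV
      have hBU : B x ∉ U := fun hh => Set.disjoint_left.1 h hh hBx
      rw [hU _ hBU, hU _ hxU]
      ring
    · rw [hV _ hxV]
      ring
  constructor
  · have h2 : ((A * B : Pm) : ℝ → ℝ) = fun x => (A x - x) + B x := by
      funext x
      have := hx x
      linarith
    rw [h2]
    exact (hA.contDiff.sub contDiff_id).add hB.contDiff
  · intro i hi x
    have h2 : (fun y => (A * B : Pm) y - y) = fun y => (A y - y) + (B y - y) := funext hx
    have hir : (i : WithTop ℕ∞) ≤ r := by exact_mod_cast hi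
    have c1 : ContDiffAt ℝ i (fun y => A y - y) x :=
      ((hA.contDiff.sub contDiff_id).of_le hir).contDiffAt
    have c2 : ContDiffAt ℝ i (fun y => B y - y) x :=
      ((hB.contDiff.sub contDiff_id).of_le hir).contDiffAt
    rw [h2, iteratedDeriv_fun_add c1 c2]
    exact (abs_add_le _ _).trans (add_le_add (hA.bound i hi x) (hB.bound i hi x))

theorem SzR.nonneg {r : ℕ} {s : ℝ} {F : ℝ → ℝ} (h : SzR r s F) : 0 ≤ s :=
  (abs_nonneg _).trans (h.bound 0 (Nat.zero_le _) 0)

end FG40
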