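import Pool.Agent.LibFG40.C1b
import Pool.Agent.LibFG40.C1c

/-! # C1d: stacks of contents at the positions `± 4^j D`. Disjoint supports commute:
`GC45.commute_of_disjoint`. -/

open Filter Topology Set

namespace FG40

open GD31

/-- `∏_{j<m} tr (ς 4^j D) A_j (tr (ς 4^j D))⁻¹` -/
noncomputable def stack (ς D : ℝ) (A : ℕ → Pm) : ℕ → Pm
  | 0 => 1
  | m + 1 => stack ς D A m * (tr (ς * 4 ^ m * D) * A m * (tr (ς * 4 ^ m * D))⁻¹)

private theorem c1d_pow {j k : ℕ} (h : j < k) {D : ℝ} (hD : 0 ≤ D) :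
    4 * ((4 : ℝ) ^ j * D) ≤ 4 ^ k * D := by
  have h1 : (4 : ℝ) ^ (j + 1) ≤ 4 ^ k := pow_le_pow_right₀ (by norm_num) h
  calc 4 * ((4 : ℝ) ^ j * D) = 4 ^ (j + 1) * D := by ring
    _ ≤ 4 ^ k * D := mul_le_mul_of_nonneg_right h1 hD

private theorem c1d_one (j : ℕ) {D : ℝ} (hD : 0 ≤ D) : D ≤ (4 : ℝ) ^ j * D := by
  have h1 : (1 : ℝ) ≤ 4 ^ j := one_le_pow₀ (by norm_num)
  calc D = 1 * D := (one_mul D).symm
    _ ≤ 4 ^ j * D := mul_le_mul_of_nonneg_right h1 hD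

private theorem c1d_trinv (t x : ℝ) : (tr t)⁻¹ x = x - t := by
  rw [Equiv.Perm.inv_eq_iff_eq, tr_apply]
  ring

private theorem c1d_conj (t : ℝ) (A : Pm) (x : ℝ) : (tr t * A * (tr t)⁻¹) x = A (x - t) + t := by
  rw [Equiv.Perm.mul_apply, Equiv.Perm.mul_apply, c1d_trinv, tr_apply]

private theorem c1d_inv {A : Pm} {I : Set ℝ} (hA : Supp A I) : Supp A⁻¹ I := by
  intro x hx
  rw [Equiv.Perm.inv_eq_iff_eq]
  exact (hA x hx).symm

private theorem c1d_mem {A : Pm} {I : Set ℝ} (hA : Supp A I) {x : ℝ} (hx : x ∈ I) : A x ∈ I :=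
  GC45.b5_mem A hA hx

private theorem c1d_sep {y q D ς : ℝ} (hq : 0 < q) (hD : 3 * q ≤ D) (hς : |ς| = 1) {j k : ℕ}
    (hjk : j ≠ k) {x : ℝ} (hx : x - ς * 4 ^ k * D ∈ Icc (y - q) (y + q)) :
    x - ς * 4 ^ j * D ∉ Icc (y - q) (y + q) := by
  have hD0 : 0 ≤ D := by linarith
  have h1 := c1d_one j hD0
  have h2 := c1d_one k hD0
  rw [mem_Icc] at hx ⊢
  rintro ⟨h3, h4⟩
  obtain ⟨h5, h6⟩ := hx
  rcases (abs_eq (zero_le_one)).1 hς with h | h <;> subst h <;>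
    rcases lt_or_gt_of_ne hjk with h7 | h7
  · have := c1d_pow h7 hD0
    nlinarith
  · have := c1d_pow h7 hD0
    nlinarith
  · have := c1d_pow h7 hD0
    nlinarith
  · have := c1d_pow h7 hD0
    nlinarith

private theorem c1d_off {y q D ς : ℝ} (A : ℕ → Pm) (m : ℕ)
    (hA : ∀ j < m, Supp (A j) (Icc (y - q) (y + q))) {x : ℝ}
    (hx : ∀ j < m, x - ς * 4 ^ j * D ∉ Icc (y - q) (y + q)) : stack ς D A m x = x := by
  induction m with
  | zero => rfl
  | succ m ih =>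
    rw [stack, Equiv.Perm.mul_apply, c1d_conj, hA m (Nat.lt_succ_self m) _ (hx m (Nat.lt_succ_self m)),
      sub_add_cancel]
    exact ih (fun j hj => hA j (by omega)) (fun j hj => hx j (by omega))

private theorem c1d_on {y q D ς : ℝ} (hq : 0 < q) (hD : 3 * q ≤ D) (hς : |ς| = 1) (A : ℕ → Pm) (m : ℕ)
    (hA : ∀ j < m, Supp (A j) (Icc (y - q) (y + q))) {k : ℕ} (hk : k < m) {x : ℝ}
    (hx : x - ς * 4 ^ k * D ∈ Icc (y - q) (y + q)) :
    stack ς D A m x = A k (x - ς * 4 ^ k * D) + ς * 4 ^ k * D := by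
  induction m with
  | zero => omega
  | succ m ih =>
    rw [stack, Equiv.Perm.mul_apply, c1d_conj]
    rcases Nat.lt_succ_iff_lt_or_eq.1 hk with h | h
    · have h1 := c1d_sep hq hD hς (ne_of_gt h) hx
      rw [hA m (Nat.lt_succ_self m) _ h1, sub_add_cancel]
      exact ih (fun j hj => hA j (by omega)) h
    · subst h
      apply c1d_off (y := y) (q := q) A k (fun j hj => hA j (by omega))
      intro j hj
      apply c1d_sep hq hD hς (ne_of_lt hj)
      rw [add_sub_cancel_right]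
      exact c1d_mem (hA k (Nat.lt_succ_self k)) hx

theorem stack_supp {y q D ς : ℝ} (hq : 0 < q) (hD : 0 < D) (hς : |ς| = 1) (A : ℕ → Pm) (m : ℕ)
    (hA : ∀ j < m, Supp (A j) (Icc (y - q) (y + q))) :
    Supp (stack ς D A m) (Icc (y - q - 4 ^ m * D) (y + q + 4 ^ m * D)) := by
  intro x hx
  apply c1d_off (y := y) (q := q) A m hA
  intro j hj hx'
  apply hx
  have h1 := c1d_pow hj hD.le
  have h2 := c1d_one j hD.le
  rw [mem_Icc] at hx' ⊢
  obtain ⟨h5, h6⟩ := hx'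
  rcases (abs_eq (zero_le_one)).1 hς with h | h <;> subst h <;> constructor <;> nlinarith

/-- the supports `[y - q + ς 4^j D, y + q + ς 4^j D]` are pairwise disjoint (`3 q ≤ D`) -/
theorem stack_sz {r : ℕ} {y q D ς : ℝ} (hq : 0 < q) (hD : 3 * q ≤ D) (hς : |ς| = 1) (A : ℕ → Pm) (m : ℕ)
    (s : ℕ → ℝ) (hA : ∀ j < m, Supp (A j) (Icc (y - q) (y + q))) (hs : ∀ j < m, SzR r (s j) (A j)) :
    SzR r (∑ j ∈ Finset.range m, s j) (stack ς D A m : Pm) := by
  induction m with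
  | zero =>
    rw [Finset.sum_range_zero]
    exact szR_one le_rfl
  | succ m ih =>
    rw [Finset.sum_range_succ, stack]
    have h1 : Supp (stack ς D A m) {x | ∃ j < m, x - ς * 4 ^ j * D ∈ Icc (y - q) (y + q)} := by
      intro x hx
      apply c1d_off (y := y) (q := q) A m (fun j hj => hA j (by omega))
      intro j hj hx'
      exact hx ⟨j, hj, hx'⟩
    have h2 : Supp (tr (ς * 4 ^ m * D) * A m * (tr (ς * 4 ^ m * D))⁻¹)
        {x | x - ς * 4 ^ m * D ∈ Icc (y - q) (y + q)} := by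
      intro x hx
      rw [c1d_conj, hA m (Nat.lt_succ_self m) _ hx, sub_add_cancel]
    refine szR_mul_disj h1 h2 ?_ (ih (fun j hj => hA j (by omega)) (fun j hj => hs j (by omega)))
      (szR_tr _ (hs m (Nat.lt_succ_self m)))
    rw [Set.disjoint_left]
    rintro x ⟨j, hj, hx⟩ hx'
    exact c1d_sep hq hD hς (ne_of_lt hj) hx' hx

private theorem c1d_cm {G : Type*} [Group G] {X Y a b : G} (h1 : Commute X a) (h2 : Commute X b)
    (h3 : Commute X Y) (h4 : Commute Y a) (h5 : Commute Y b) : cm (X * a) (Y * b) = cm a b := by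
  unfold cm
  have e1 : X * a * (Y * b) = (a * b) * (X * Y) := by
    calc X * a * (Y * b) = X * (a * Y) * b := by group
      _ = X * (Y * a) * b := by rw [h4.eq]
      _ = (X * Y) * (a * b) := by group
      _ = (a * b) * (X * Y) := ((h1.mul_left h4).mul_right (h2.mul_left h5)).eq
  have e2 : (Y * b) * (X * a) = (b * a) * (Y * X) := by
    calc (Y * b) * (X * a) = Y * (b * X) * a := by group
      _ = Y * (X * b) * a := by rw [h2.eq]
      _ = (Y * X) * (b * a) := by group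
      _ = (b * a) * (Y * X) := ((h5.mul_left h2).mul_right (h4.mul_left h1)).eq
  calc X * a * (Y * b) * (X * a)⁻¹ * (Y * b)⁻¹ = (X * a * (Y * b)) * ((Y * b) * (X * a))⁻¹ := by group
    _ = ((a * b) * (X * Y)) * ((b * a) * (X * Y))⁻¹ := by rw [e1, e2, h3.eq]
    _ = a * b * a⁻¹ * b⁻¹ := by group

/-- a conjugated stack is `X * A k`, `X` supported off the zone -/
private theorem c1d_split {y q D ς : ℝ} (hq : 0 < q) (hD : 3 * q ≤ D) (hς : |ς| = 1) (A : ℕ → Pm) (m k : ℕ)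
    (hk : k < m) (hA : ∀ j < m, Supp (A j) (Icc (y - q) (y + q))) :
    ∃ X : Pm, tr (-(ς * 4 ^ k * D)) * stack ς D A m * (tr (-(ς * 4 ^ k * D)))⁻¹ = X * A k ∧
      Supp X {x | ∃ j < m, j ≠ k ∧ x + ς * 4 ^ k * D - ς * 4 ^ j * D ∈ Icc (y - q) (y + q)} := by
  refine ⟨tr (-(ς * 4 ^ k * D)) * stack ς D A m * (tr (-(ς * 4 ^ k * D)))⁻¹ * (A k)⁻¹, by group, ?_⟩
  intro x hx
  rw [Equiv.Perm.mul_apply, c1d_conj, sub_neg_eq_add]
  by_cases hI : x ∈ Icc (y - q) (y + q)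
  · have h1 : (A k)⁻¹ x ∈ Icc (y - q) (y + q) := c1d_mem (c1d_inv (hA k hk)) hI
    have h2 : A k ((A k)⁻¹ x) = x := by simp
    rw [c1d_on hq hD hς A m hA hk (by rwa [add_sub_cancel_right]), add_sub_cancel_right, h2]
    ring
  · rw [c1d_inv (hA k hk) x hI]
    rw [c1d_off (y := y) (q := q) A m hA]
    · ring
    · intro j hj hx'
      by_cases hjk : j = k
      · subst hjk
        rw [add_sub_cancel_right] at hx'
        exact hI hx'
      · exact hx ⟨j, hj, hjk, hx'⟩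

/-- The conjugated stacks are the products of the `A_j` at position `(4^j - 4^k) D` and of the `B_j` at
`(4^k - 4^j) D`. Write `F' = X A_k` (the `A_j`, `j ≠ k`, commute with `A_k`), `G' = Y B_k`; the position of
`A_j` and that of `B_i` are equal only if `4^j + 4^i = 2 · 4^k`, i.e. `j = i = k`, otherwise they differ by at
least `D ≥ 3 q`: so `X` commutes with `Y` and `B_k`, `Y` with `A_k`, and `cm (X A_k) (Y B_k) = cm A_k B_k`. -/
theorem stack_cm {y q D : ℝ} (hq : 0 < q) (hD : 3 * q ≤ D) (A B : ℕ → Pm) (m k : ℕ) (hk : k < m)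
    (hA : ∀ j < m, Supp (A j) (Icc (y - q) (y + q))) (hB : ∀ j < m, Supp (B j) (Icc (y - q) (y + q))) :
    cm (tr (-(4 ^ k * D)) * stack 1 D A m * (tr (-(4 ^ k * D)))⁻¹)
      (tr (4 ^ k * D) * stack (-1) D B m * (tr (4 ^ k * D))⁻¹) = cm (A k) (B k) := by
  have hD0 : 0 ≤ D := by linarith
  obtain ⟨X, hX, hXs⟩ := c1d_split hq hD (abs_one : |(1 : ℝ)| = 1) A m k hk hA
  obtain ⟨Y, hY, hYs⟩ := c1d_split hq hD (by rw [abs_neg, abs_one] : |(-1 : ℝ)| = 1) B m k hk hB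
  rw [one_mul] at hX
  rw [show -(-1 * 4 ^ k * D) = 4 ^ k * D by ring] at hY
  rw [hX, hY]
  have hk1 := c1d_one k hD0
  have hXI : Disjoint {x : ℝ | ∃ j < m, j ≠ k ∧ x + 1 * 4 ^ k * D - 1 * 4 ^ j * D ∈ Icc (y - q) (y + q)}
      (Icc (y - q) (y + q)) := by
    rw [Set.disjoint_left]
    rintro x ⟨j, hj, hjk, hx1, hx2⟩ ⟨hx3, hx4⟩
    have h1 := c1d_one j hD0
    rcases lt_or_gt_of_ne hjk with h7 | h7 <;> have := c1d_pow h7 hD0 <;> nlinarith
  have hYI : Disjoint {x : ℝ | ∃ j < m, j ≠ k ∧ x + -1 * 4 ^ k * D - -1 * 4 ^ j * D ∈ Icc (y - q) (y + q)}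
      (Icc (y - q) (y + q)) := by
    rw [Set.disjoint_left]
    rintro x ⟨j, hj, hjk, hx1, hx2⟩ ⟨hx3, hx4⟩
    have h1 := c1d_one j hD0
    rcases lt_or_gt_of_ne hjk with h7 | h7 <;> have := c1d_pow h7 hD0 <;> nlinarith
  have hXY : Disjoint {x : ℝ | ∃ j < m, j ≠ k ∧ x + 1 * 4 ^ k * D - 1 * 4 ^ j * D ∈ Icc (y - q) (y + q)}
      {x : ℝ | ∃ j < m, j ≠ k ∧ x + -1 * 4 ^ k * D - -1 * 4 ^ j * D ∈ Icc (y - q) (y + q)} := by
    rw [Set.disjoint_left]
    rintro x ⟨j, hj, hjk, hx1, hx2⟩ ⟨i, hi, hik, hx3, hx4⟩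
    have h1 := c1d_one j hD0
    have h2 := c1d_one i hD0
    rcases lt_or_gt_of_ne hjk with h7 | h7 <;> have h8 := c1d_pow h7 hD0 <;>
      rcases lt_or_gt_of_ne hik with h9 | h9 <;> have h10 := c1d_pow h9 hD0 <;> nlinarith
  exact c1d_cm (GC45.commute_of_disjoint hXI X _ hXs (hA k hk))
    (GC45.commute_of_disjoint hXI X _ hXs (hB k hk))
    (GC45.commute_of_disjoint hXY X Y hXs hYs)
    (GC45.commute_of_disjoint hYI Y _ hYs (hA k hk))
    (GC45.commute_of_disjoint hYI Y _ hYs (hB k hk))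

end FG40
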