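import Pool.Agent.LibFG40.C1a
import Pool.Agent.LibFG40.C1d

/-! # C1: the room lemma. `u` from `local_tr` with `D = 3 q`; `F = stack 1 D A m`, `G = stack (-1) D B m`; all
conjugated positions stay in `|x - y| ≤ R / 2` (`conj_pow`, `conj_pow'` with `S = R / 2`, `n = 4 ^ k`,
`4^k D + 4^m D + q ≤ R / 2`); `stack_cm`. The constant: `C = max (3 C₁) 64` is enough. -/

open Filter Topology Set

namespace FG40

open GD31

theorem room (r : ℕ) : ∃ C : ℝ, 1 ≤ C ∧ ∀ (y q R : ℝ) (m : ℕ) (A B : ℕ → Pm) (s : ℕ → ℝ), 0 < q → 0 < R →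
    R ≤ 1 → C * 4 ^ m * q ≤ R →
    (∀ k < m, Supp (A k) (Icc (y - q) (y + q)) ∧ Supp (B k) (Icc (y - q) (y + q)) ∧
      SzR r (s k) (A k) ∧ SzR r (s k) (B k)) →
    ∃ u F G : Pm, Supp u (Icc (y - R) (y + R)) ∧ Supp F (Icc (y - R) (y + R)) ∧
      Supp G (Icc (y - R) (y + R)) ∧ SzR r (C * q / R ^ r) u ∧
      SzR r (∑ k ∈ Finset.range m, s k) F ∧ SzR r (∑ k ∈ Finset.range m, s k) G ∧
      ∀ k < m, cm ((u ^ 4 ^ k)⁻¹ * F * u ^ 4 ^ k) (u ^ 4 ^ k * G * (u ^ 4 ^ k)⁻¹) = cm (A k) (B k) := by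
  obtain ⟨C₁, hC₁, hu⟩ := local_tr r
  refine ⟨max (3 * C₁) 64, le_trans (by norm_num) (le_max_right _ _), ?_⟩
  intro y q R m A B s hq hR hR1 hC hAB
  have hCa : 3 * C₁ ≤ max (3 * C₁) 64 := le_max_left _ _
  have hCb : (64 : ℝ) ≤ max (3 * C₁) 64 := le_max_right _ _
  generalize max (3 * C₁) 64 = C at hC hCa hCb ⊢
  have h4 : (1 : ℝ) ≤ 4 ^ m := one_le_pow₀ (by norm_num)
  have hq4 : q ≤ 4 ^ m * q := by nlinarith
  have hq0 : 0 ≤ 4 ^ m * q := by positivity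
  have hR64 : 64 * (4 ^ m * q) ≤ R := by
    have : 64 * (4 ^ m * q) ≤ C * (4 ^ m * q) := mul_le_mul_of_nonneg_right hCb hq0
    linarith
  have hD0 : (0 : ℝ) < 3 * q := by positivity
  have hC1D : C₁ * (3 * q) ≤ R := by
    have e1 : 3 * C₁ * q ≤ 3 * C₁ * (4 ^ m * q) := mul_le_mul_of_nonneg_left hq4 (by linarith)
    have e2 : 3 * C₁ * (4 ^ m * q) ≤ C * (4 ^ m * q) := mul_le_mul_of_nonneg_right hCa hq0
    linarith
  obtain ⟨u, hus, husz, hux⟩ := hu y (3 * q) R hD0 hR hR1 hC1D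
  have sA := stack_supp (ς := 1) hq hD0 (by simp) A m (fun j hj => (hAB j hj).1)
  have sB := stack_supp (ς := -1) hq hD0 (by simp) B m (fun j hj => (hAB j hj).2.1)
  refine ⟨u, stack 1 (3 * q) A m, stack (-1) (3 * q) B m, hus, ?_, ?_, ?_, ?_, ?_, ?_⟩
  · intro x hx
    refine sA x (fun h => hx ⟨?_, ?_⟩)
    · linarith [h.1]
    · linarith [h.2]
  · intro x hx
    refine sB x (fun h => hx ⟨?_, ?_⟩)
    · linarith [h.1]
    · linarith [h.2]
  · refine husz.mono ?_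
    apply div_le_div_of_nonneg_right _ (by positivity)
    nlinarith
  · exact stack_sz hq le_rfl (by simp) A m s (fun j hj => (hAB j hj).1) (fun j hj => (hAB j hj).2.2.1)
  · exact stack_sz hq le_rfl (by simp) B m s (fun j hj => (hAB j hj).2.1) (fun j hj => (hAB j hj).2.2.2)
  · intro k hk
    have hkm : (4 : ℝ) ^ k ≤ 4 ^ m := pow_le_pow_right₀ (by norm_num) hk.le
    have hkq : 4 ^ k * q ≤ 4 ^ m * q := mul_le_mul_of_nonneg_right hkm hq.le
    have hkq0 : 0 ≤ 4 ^ k * q := by positivity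
    have hc : ((4 ^ k : ℕ) : ℝ) = 4 ^ k := by push_cast; rfl
    have e1 := conj_pow' hD0.le hux (4 ^ k) sA (by rw [hc]; linarith) (by linarith)
    have e2 := conj_pow hD0.le hux (4 ^ k) sB (by linarith) (by rw [hc]; linarith)
    rw [hc] at e1 e2
    rw [e1, e2]
    exact stack_cm hq le_rfl A B m k hk (fun j hj => (hAB j hj).1) (fun j hj => (hAB j hj).2.1)

end FG40
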