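import Pool.Agent.LibFG40.Defs

/-! # C1a: a local translation. `u = id + D χ((x - y)/R)`, `χ = Real.smoothTransition (2 (1 - |t|) ...)`: e.g.
`χ t = Real.smoothTransition ((1 - t ^ 2) * (4 / 3))`, `= 1` for `|t| ≤ 1/2`, `= 0` for `|t| ≥ 1` (see
`Pool/Agent/LibGD31/OS1.lean`, `os1_chi`; bounds for its derivatives: `exists_Nl_of_compact`, scaling
`Nl.comp_affine`); `u` is a permutation by `GD31.exists_perm`. -/

open Filter Topology Set

namespace FG40

open GD31

private theorem c1a_sz {r k : ℕ} {A A' l : ℝ} (hk : r ≤ k) (hA : 0 ≤ A) (hAA : A ≤ A') (hl : 0 < l)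
    (hl1 : l ≤ 1) {F : Pm} (h : Nl k A l (disp F)) : SzR r (A' / l ^ r) F := by
  refine ⟨?_, fun i hi x => ?_⟩
  · have e : (F : ℝ → ℝ) = fun x => x + disp F x := by
      funext x
      unfold disp
      ring
    rw [e]
    have hle : (r : WithTop ℕ∞) ≤ ((⊤ : ℕ∞) : WithTop ℕ∞) := by exact_mod_cast le_top
    exact contDiff_id.add (h.smooth.of_le hle)
  · have h1 : |iteratedDeriv i (disp F) x| ≤ A / l ^ i := h.bound i (hi.trans hk) x
    have h2 : l ^ r ≤ l ^ i := pow_le_pow_of_le_one hl.le hl1 hi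
    have h3 : A / l ^ i ≤ A' / l ^ r :=
      div_le_div₀ (hA.trans hAA) hAA (pow_pos hl r) h2
    exact h1.trans h3

private noncomputable def c1a_chi (t : ℝ) : ℝ := Real.smoothTransition ((1 - t ^ 2) * (4 / 3))

private theorem c1a_chi_smooth : Sm c1a_chi := by
  refine Real.smoothTransition.contDiff.comp ?_
  exact (contDiff_const.sub (contDiff_id.pow 2)).mul contDiff_const

private theorem c1a_chi_one {t : ℝ} (h : |t| ≤ 1 / 2) : c1a_chi t = 1 := by
  refine Real.smoothTransition.one_of_one_le ?_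
  have h0 := abs_nonneg t
  have h1 : t ^ 2 ≤ (1 / 2) ^ 2 := by
    rw [← sq_abs t]
    exact pow_le_pow_left₀ h0 h 2
  linarith

private theorem c1a_chi_zero {t : ℝ} (h : 1 ≤ |t|) : c1a_chi t = 0 := by
  refine Real.smoothTransition.zero_of_nonpos ?_
  have h1 : (1 : ℝ) ^ 2 ≤ t ^ 2 := by
    rw [← sq_abs t]
    exact pow_le_pow_left₀ zero_le_one h 2
  linarith

private theorem c1a_chi_compact : HasCompactSupport c1a_chi := by
  refine HasCompactSupport.intro (isCompact_Icc : IsCompact (Icc (-1 : ℝ) 1)) fun t ht => c1a_chi_zero ?_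
  by_contra hcon
  push Not at hcon
  apply ht
  have := abs_lt.1 hcon
  exact ⟨by linarith [this.1], by linarith [this.2]⟩

theorem local_tr (r : ℕ) : ∃ C : ℝ, 1 ≤ C ∧ ∀ (y D R : ℝ), 0 < D → 0 < R → R ≤ 1 → C * D ≤ R →
    ∃ u : Pm, Supp u (Icc (y - R) (y + R)) ∧ SzR r (C * D / R ^ r) u ∧
      ∀ x, |x - y| ≤ R / 2 → u x = x + D := by
  obtain ⟨C1, hC1, hN⟩ := exists_Nl_of_compact (r + 1) c1a_chi_smooth c1a_chi_compact
  obtain ⟨E, hE, hperm⟩ := exists_perm (r + 1) (by omega)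
  have hC1p : 0 < C1 := lt_of_lt_of_le one_pos hC1
  have hEp : 0 < E := lt_of_lt_of_le one_pos hE
  refine ⟨E * C1, one_le_mul_of_one_le_of_one_le hE hC1, ?_⟩
  intro y D R hD hR hR1 hCD
  -- the displacement
  have hψ : Nl (r + 1) (D * C1) R (fun x => D * c1a_chi ((x - y) / R)) := by
    have h1 := (hN.comp_affine (inv_pos.2 hR) (-y / R)).const_mul D
    have h2 : (1 : ℝ) / R⁻¹ = R := by rw [one_div, inv_inv]
    rw [h2, abs_of_pos hD] at h1
    have h3 : (fun x => D * c1a_chi (R⁻¹ * x + -y / R)) = fun x => D * c1a_chi ((x - y) / R) := by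
      funext x
      congr 2
      field_simp
      ring
    rw [h3] at h1
    exact h1
  have hDC : 0 ≤ D * C1 := mul_nonneg hD.le hC1p.le
  obtain ⟨F, hF, -⟩ := hperm (D * C1) R _ hR hDC (by
    have e : E * (D * C1) = E * C1 * D := by ring
    rw [e]
    exact hCD) hψ
  refine ⟨F, ?_, ?_, ?_⟩
  · intro x hx
    have h1 : 1 ≤ |(x - y) / R| := by
      rw [abs_div, abs_of_pos hR, le_div_iff₀ hR, one_mul]
      by_contra hcon
      push Not at hcon
      have h1 := abs_lt.1 hcon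
      exact hx ⟨by linarith [h1.1], by linarith [h1.2]⟩
    rw [hF, c1a_chi_zero h1, mul_zero, add_zero]
  · have e : disp F = fun x => D * c1a_chi ((x - y) / R) := by
      funext x
      unfold disp
      rw [hF x]
      ring
    have h1 : Nl (r + 1) (D * C1) R (disp F) := by
      rw [e]
      exact hψ
    have h2 : D * C1 ≤ E * C1 * D := by
      have h3 : 1 * (C1 * D) ≤ E * (C1 * D) :=
        mul_le_mul_of_nonneg_right hE (mul_nonneg hC1p.le hD.le)
      linarith
    exact c1a_sz (Nat.le_succ r) hDC h2 hR hR1 h1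
  · intro x hx
    have h1 : |(x - y) / R| ≤ 1 / 2 := by
      rw [abs_div, abs_of_pos hR, div_le_iff₀ hR]
      linarith
    rw [hF, c1a_chi_one h1, mul_one]

/-- from `Nl` to `SzR`: `A / l ^ i ≤ A / l ^ r` for `i ≤ r`, `0 < l ≤ 1` -/
theorem szR_of_nl {r k : ℕ} {A l : ℝ} (hk : r ≤ k) (hA : 0 ≤ A) (hl : 0 < l) (hl1 : l ≤ 1) {F : Pm}
    (h : Nl k A l (disp F)) : SzR r (A / l ^ r) F := by
  exact c1a_sz hk hA le_rfl hl hl1 h

end FG40
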