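import Pool.Agent.LibFG40.Defs

/-! # C1b: conjugation by powers of a local translation (`GC45.conj_congr`) -/

open Filter Topology Set

namespace FG40

open GD31

theorem pow_tr {u : Pm} {y D S : ℝ} (hD : 0 ≤ D) (h : ∀ x, |x - y| ≤ S → u x = x + D) (n : ℕ) {x : ℝ}
    (h1 : |x - y| ≤ S) (h2 : |x + n * D - y| ≤ S) : (u ^ n) x = x + n * D := by
  rw [abs_le] at h1 h2
  induction n with
  | zero => simp
  | succ n ih =>
    have hnD : 0 ≤ (n : ℝ) * D := mul_nonneg (Nat.cast_nonneg n) hD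
    rw [Nat.cast_succ] at h2 ⊢
    have e1 : (u ^ n) x = x + n * D := ih ⟨by linarith, by nlinarith⟩
    rw [pow_succ', Equiv.Perm.mul_apply, e1, h]
    · ring
    · rw [abs_le]
      exact ⟨by linarith, by nlinarith⟩

theorem conj_pow {u : Pm} {y D S : ℝ} (hD : 0 ≤ D) (h : ∀ x, |x - y| ≤ S → u x = x + D) (n : ℕ) {A : Pm}
    {a b : ℝ} (hA : Supp A (Icc a b)) (h1 : y - S ≤ a) (h2 : b + n * D ≤ y + S) :
    u ^ n * A * (u ^ n)⁻¹ = tr (n * D) * A * (tr (n * D))⁻¹ := by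
  have hnD : 0 ≤ (n : ℝ) * D := mul_nonneg (Nat.cast_nonneg n) hD
  refine GC45.conj_congr (I := Icc a b) A _ _ hA ?_
  intro x hx
  rw [tr_apply]
  refine pow_tr hD h n ?_ ?_
  · rw [abs_le]
    exact ⟨by linarith [hx.1], by linarith [hx.2]⟩
  · rw [abs_le]
    exact ⟨by linarith [hx.1], by linarith [hx.2]⟩

theorem conj_pow' {u : Pm} {y D S : ℝ} (hD : 0 ≤ D) (h : ∀ x, |x - y| ≤ S → u x = x + D) (n : ℕ) {A : Pm}
    {a b : ℝ} (hA : Supp A (Icc a b)) (h1 : y - S ≤ a - n * D) (h2 : b ≤ y + S) :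
    (u ^ n)⁻¹ * A * u ^ n = tr (-(n * D)) * A * (tr (-(n * D)))⁻¹ := by
  have hnD : 0 ≤ (n : ℝ) * D := mul_nonneg (Nat.cast_nonneg n) hD
  have key := GC45.conj_congr (I := Icc a b) A (u ^ n)⁻¹ (tr (-(n * D))) hA (by
    intro x hx
    rw [tr_apply, Equiv.Perm.inv_eq_iff_eq]
    have e1 : (u ^ n) (x + -(n * D)) = x + -(n * D) + n * D := by
      refine pow_tr hD h n ?_ ?_
      · rw [abs_le]
        exact ⟨by linarith [hx.1], by linarith [hx.2]⟩
      · rw [abs_le]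
        exact ⟨by linarith [hx.1], by linarith [hx.2]⟩
    rw [e1]
    ring)
  rw [inv_inv] at key
  exact key

theorem supp_tr {A : Pm} {a b : ℝ} (s : ℝ) (hA : Supp A (Icc a b)) :
    Supp (tr s * A * (tr s)⁻¹) (Icc (a + s) (b + s)) := by
  intro x hx
  have e1 : (tr s)⁻¹ x = x - s := by
    rw [Equiv.Perm.inv_eq_iff_eq, tr_apply]
    ring
  rw [Equiv.Perm.mul_apply, Equiv.Perm.mul_apply, e1, tr_apply, hA (x - s)]
  · ring
  · intro h
    exact hx ⟨by linarith [h.1], by linarith [h.2]⟩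

end FG40
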