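import Pool.Agent.LibFG40.C0c

/-! # C2a: selection of the active contents, words of glued maps -/

open Filter Topology Set

namespace FG40

open GD31

/-- `m v` = the first `k` with `1 < b k * R v` (`Nat.find`; it exists since `b k ≥ 4^k`, `R v > 0`) -/
theorem select (b : ℕ → ℝ) (hb : Monotone b) (hb0 : ∀ k, (4 : ℝ) ^ k ≤ b k) {υ : Type} (R : υ → ℝ)
    (hR : ∀ v, 0 < R v) (hs : Tendsto R cofinite (𝓝 0)) :
    ∃ m : υ → ℕ, (∀ v, ∀ k < m v, b k * R v ≤ 1) ∧ ∀ k, ∀ᶠ v in cofinite, k < m v := by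
  have hex : ∀ v, ∃ k, 1 < b k * R v := by
    intro v
    have h1 : Tendsto (fun k : ℕ => (4 : ℝ) ^ k) atTop atTop :=
      tendsto_pow_atTop_atTop_of_one_lt (by norm_num)
    obtain ⟨k, hk⟩ := (h1.eventually_gt_atTop (1 / R v)).exists
    refine ⟨k, ?_⟩
    have h2 : 1 < (4 : ℝ) ^ k * R v := by
      rw [div_lt_iff₀ (hR v)] at hk
      exact hk
    exact lt_of_lt_of_le h2 (mul_le_mul_of_nonneg_right (hb0 k) (hR v).le)
  classical
  refine ⟨fun v => Nat.find (hex v), ?_, ?_⟩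
  · intro v k hk
    exact not_lt.1 (Nat.find_min (hex v) hk)
  · intro k
    have hbk : 0 < b k := lt_of_lt_of_le (by positivity) (hb0 k)
    have h1 : ∀ᶠ v in cofinite, R v < 1 / b k := hs.eventually (gt_mem_nhds (by positivity))
    filter_upwards [h1] with v hv
    rw [Nat.lt_find_iff]
    intro j hj
    rw [not_lt]
    rw [lt_div_iff₀ hbk] at hv
    calc b j * R v ≤ b k * R v := mul_le_mul_of_nonneg_right (hb hj) (hR v).le
      _ = R v * b k := mul_comm _ _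
      _ ≤ 1 := hv.le

private theorem c2a_supp_one (V : Set ℝ) : Supp (1 : Pm) V := fun _ _ => rfl

private theorem c2a_supp_pow {V : Set ℝ} {F : Pm} (hF : Supp F V) (n : ℕ) : Supp (F ^ n) V := by
  induction n with
  | zero =>
    rw [pow_zero]
    exact c2a_supp_one V
  | succ n ih =>
    rw [pow_succ]
    exact ch1_supp_mul ih hF

theorem glue_pow {ι : Type} {V : ι → Set ℝ} {F : ι → Pm} {H : Pm}
    (hd : Pairwise fun i j => Disjoint (V i) (V j)) (hF : ∀ i, Supp (F i) (V i)) (h : IsGlue V F H) (n : ℕ) :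
    IsGlue V (fun i => F i ^ n) (H ^ n) := by
  induction n with
  | zero =>
    refine ⟨fun i x _ => ?_, fun x _ => ?_⟩
    · show (H ^ 0) x = (F i ^ 0) x
      rw [pow_zero, pow_zero]
    · show (H ^ 0) x = x
      rw [pow_zero, Equiv.Perm.one_apply]
  | succ n ih =>
    have h1 := ih.mul hd (fun i => c2a_supp_pow (hF i) n) hF h
    have h2 : (fun i => F i ^ (n + 1)) = fun i => F i ^ n * F i := by
      funext i
      exact pow_succ _ _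
    rw [h2, pow_succ]
    exact h1

/-- the coding word: `w k = cm (u^(-4^k) F u^(4^k)) (u^(4^k) G u^(-4^k))` in the letters `0 = u`, `1 = F`,
`2 = G` of the free group -/
def codeW (k : ℕ) : FreeGroup (Fin 3) :=
  cm ((FreeGroup.of 0 ^ 4 ^ k)⁻¹ * FreeGroup.of 1 * FreeGroup.of 0 ^ 4 ^ k)
    (FreeGroup.of 0 ^ 4 ^ k * FreeGroup.of 2 * (FreeGroup.of 0 ^ 4 ^ k)⁻¹)

theorem codeW_norm (k : ℕ) : (codeW k).norm ≤ 12 * 4 ^ k := by
  have h4 : 1 ≤ 4 ^ k := Nat.one_le_pow _ _ (by norm_num)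
  have hp : (FreeGroup.of (0 : Fin 3) ^ 4 ^ k).norm = 4 ^ k := FreeGroup.norm_of_pow _ _
  have ha : ((FreeGroup.of (0 : Fin 3) ^ 4 ^ k)⁻¹ * FreeGroup.of 1 *
      FreeGroup.of 0 ^ 4 ^ k).norm ≤ 4 ^ k + 1 + 4 ^ k := by
    refine (FreeGroup.norm_mul_le _ _).trans ?_
    rw [hp]
    refine Nat.add_le_add_right ((FreeGroup.norm_mul_le _ _).trans ?_) _
    rw [FreeGroup.norm_inv_eq, hp, FreeGroup.norm_of]
  have hb : (FreeGroup.of (0 : Fin 3) ^ 4 ^ k * FreeGroup.of 2 *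
      (FreeGroup.of 0 ^ 4 ^ k)⁻¹).norm ≤ 4 ^ k + 1 + 4 ^ k := by
    refine (FreeGroup.norm_mul_le _ _).trans ?_
    rw [FreeGroup.norm_inv_eq, hp]
    refine Nat.add_le_add_right ((FreeGroup.norm_mul_le _ _).trans ?_) _
    rw [hp, FreeGroup.norm_of]
  unfold codeW cm
  have h1 := FreeGroup.norm_mul_le (((FreeGroup.of (0 : Fin 3) ^ 4 ^ k)⁻¹ * FreeGroup.of 1 *
      FreeGroup.of 0 ^ 4 ^ k) * (FreeGroup.of (0 : Fin 3) ^ 4 ^ k * FreeGroup.of 2 *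
      (FreeGroup.of 0 ^ 4 ^ k)⁻¹) * ((FreeGroup.of (0 : Fin 3) ^ 4 ^ k)⁻¹ * FreeGroup.of 1 *
      FreeGroup.of 0 ^ 4 ^ k)⁻¹) (FreeGroup.of (0 : Fin 3) ^ 4 ^ k * FreeGroup.of 2 *
      (FreeGroup.of 0 ^ 4 ^ k)⁻¹)⁻¹
  have h2 := FreeGroup.norm_mul_le (((FreeGroup.of (0 : Fin 3) ^ 4 ^ k)⁻¹ * FreeGroup.of 1 *
      FreeGroup.of 0 ^ 4 ^ k) * (FreeGroup.of (0 : Fin 3) ^ 4 ^ k * FreeGroup.of 2 *
      (FreeGroup.of 0 ^ 4 ^ k)⁻¹)) ((FreeGroup.of (0 : Fin 3) ^ 4 ^ k)⁻¹ * FreeGroup.of 1 *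
      FreeGroup.of 0 ^ 4 ^ k)⁻¹
  have h3 := FreeGroup.norm_mul_le ((FreeGroup.of (0 : Fin 3) ^ 4 ^ k)⁻¹ * FreeGroup.of 1 *
      FreeGroup.of 0 ^ 4 ^ k) (FreeGroup.of (0 : Fin 3) ^ 4 ^ k * FreeGroup.of 2 *
      (FreeGroup.of 0 ^ 4 ^ k)⁻¹)
  rw [FreeGroup.norm_inv_eq] at h1 h2
  omega

theorem codeW_lift (k : ℕ) (P : Fin 3 → Pm) : FreeGroup.lift P (codeW k) =
    cm ((P 0 ^ 4 ^ k)⁻¹ * P 1 * P 0 ^ 4 ^ k) (P 0 ^ 4 ^ k * P 2 * (P 0 ^ 4 ^ k)⁻¹) := by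
  unfold codeW cm
  simp only [map_mul, map_inv, map_pow, FreeGroup.lift_apply_of]

theorem glue_code {ι : Type} {V : ι → Set ℝ} {P : ι → Fin 3 → Pm} {H : Fin 3 → Pm}
    (hd : Pairwise fun i j => Disjoint (V i) (V j)) (hF : ∀ i j, Supp (P i j) (V i))
    (h : ∀ j, IsGlue V (fun i => P i j) (H j)) (k : ℕ) :
    IsGlue V (fun i => FreeGroup.lift (P i) (codeW k)) (FreeGroup.lift H (codeW k)) := by
  have h1 : (fun i => FreeGroup.lift (P i) (codeW k)) = fun i =>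
      cm ((P i 0 ^ 4 ^ k)⁻¹ * P i 1 * P i 0 ^ 4 ^ k) (P i 0 ^ 4 ^ k * P i 2 * (P i 0 ^ 4 ^ k)⁻¹) := by
    funext i
    exact codeW_lift k (P i)
  rw [h1, codeW_lift]
  have s0 : ∀ i, Supp (P i 0 ^ 4 ^ k) (V i) := fun i => c2a_supp_pow (hF i 0) _
  have s0i : ∀ i, Supp (P i 0 ^ 4 ^ k)⁻¹ (V i) := fun i => ch1_supp_inv (s0 i)
  have g0 := glue_pow hd (fun i => hF i 0) (h 0) (4 ^ k)
  have g0i := g0.inv hd s0
  have ga := (g0i.mul hd s0i (fun i => hF i 1) (h 1)).mul hd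
    (fun i => ch1_supp_mul (s0i i) (hF i 1)) s0 g0
  have gb := (g0.mul hd s0 (fun i => hF i 2) (h 2)).mul hd
    (fun i => ch1_supp_mul (s0 i) (hF i 2)) s0i g0i
  exact ga.cm hd (fun i => ch1_supp_mul (ch1_supp_mul (s0i i) (hF i 1)) (s0 i))
    (fun i => ch1_supp_mul (ch1_supp_mul (s0 i) (hF i 2)) (s0i i)) gb

end FG40
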