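import Pool.Agent.LibFG40.C0b
import Pool.Agent.LibFG40.C1
import Pool.Agent.LibFG40.C2a

/-! # C2: the storage theorem (commutator form).

Plan. `C` from `room r`. `b k = C * 4^(k+1) * |C₀| + 2 ∑_{j ≤ k} |s j| + 2 C |C₀| + 4^k`, `m` from `select`
(`R → 0` cofinitely since summable). For `k < m v`: `b k * R v ≤ 1`. For `v` with `m v = 0` take
`u = F = G = 1`. For `m v = n + 1`: `C 4^(n+1) q ≤ C 4^(n+1) C₀ R^(r+1) ≤ R` (as `b n R ≤ 1`, `R ≤ 1`, `r ≥ 1`),
`room` with the contents `A k v`, `B k v`, `k < m v`, sizes `s k * R^2`: `u` has size `≤ C C₀ R ≤ 1/2`, `F`,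
`G` have size `∑_{k ≤ n} s k R² ≤ R / 2`. So all sizes are `≤ C' R v`, summable, and `≤ 1/2`. Glue over the
rooms (closed, in `Ioi 0` by `Rooms.left`, disjoint): `U, F, G` are `Gd r` (`glue_gd`). Words `codeW k`.
Fix `k`: the finitely many rooms with `m v ≤ k` are closed subsets of `Ioi 0`, so a neighbourhood of `0`
misses them; for `x` in that neighbourhood: in a room `v` with `k < m v` both sides are
`cm (A k v) (B k v) x` (zone inside room by `Rooms.qR`; off the zone both are `x`), off all rooms both are `x`. -/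

open Filter Topology Set

namespace FG40

open GD31

private theorem C2_supp_inv {F : Pm} {I : Set ℝ} (h : Supp F I) : Supp F⁻¹ I := by
  intro x hx
  rw [Equiv.Perm.inv_eq_iff_eq]
  exact (h x hx).symm

private theorem C2_supp_cm {F G : Pm} {I : Set ℝ} (hF : Supp F I) (hG : Supp G I) :
    Supp (cm F G) I := by
  intro x hx
  show F (G (F⁻¹ (G⁻¹ x))) = x
  rw [C2_supp_inv hG x hx, C2_supp_inv hF x hx, hG x hx, hF x hx]

private theorem C2_mono {r : ℕ} {s s' : ℝ} {F : ℝ → ℝ} (h : SzR r s F) (hs : s ≤ s') : SzR r s' F :=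
  ⟨h.contDiff, fun i hi x => (h.bound i hi x).trans hs⟩

private theorem C2_one (r : ℕ) {s : ℝ} (hs : 0 ≤ s) : SzR r s ((1 : Pm) : ℝ → ℝ) := by
  refine ⟨?_, fun i _ x => ?_⟩
  · have e : ((1 : Pm) : ℝ → ℝ) = fun x => x := by
      funext x
      simp
    rw [e]
    exact contDiff_id
  · have e : (fun y : ℝ => (1 : Pm) y - y) = fun _ => (0 : ℝ) := by
      funext x
      simp
    rw [e, iteratedDeriv_const]
    split_ifs <;> simpa using hs

private theorem C2_local {r : ℕ} (hr : 1 ≤ r) {C : ℝ} (hC : 1 ≤ C)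
    (hroom : ∀ (y q R : ℝ) (m : ℕ) (A B : ℕ → Pm) (s : ℕ → ℝ), 0 < q → 0 < R →
      R ≤ 1 → C * 4 ^ m * q ≤ R →
      (∀ k < m, Supp (A k) (Icc (y - q) (y + q)) ∧ Supp (B k) (Icc (y - q) (y + q)) ∧
        SzR r (s k) (A k) ∧ SzR r (s k) (B k)) →
      ∃ u F G : Pm, Supp u (Icc (y - R) (y + R)) ∧ Supp F (Icc (y - R) (y + R)) ∧
        Supp G (Icc (y - R) (y + R)) ∧ SzR r (C * q / R ^ r) u ∧
        SzR r (∑ k ∈ Finset.range m, s k) F ∧ SzR r (∑ k ∈ Finset.range m, s k) G ∧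
        ∀ k < m, cm ((u ^ 4 ^ k)⁻¹ * F * u ^ 4 ^ k) (u ^ 4 ^ k * G * (u ^ 4 ^ k)⁻¹) = cm (A k) (B k))
    {C₀ : ℝ} (s : ℕ → ℝ) (b : ℕ → ℝ)
    (hb : ∀ k, b k = C * 4 ^ (k + 1) * |C₀| + 2 * ∑ j ∈ Finset.range (k + 1), |s j| +
      2 * C * |C₀| + 4 ^ k)
    (y q R : ℝ) (m : ℕ) (A B : ℕ → Pm) (hq : 0 < q) (hR : 0 < R) (hR1 : R ≤ 1)
    (hle : q ≤ C₀ * R ^ (r + 1)) (hm : ∀ k < m, b k * R ≤ 1)
    (hAB : ∀ k, Supp (A k) (Icc (y - q) (y + q)) ∧ Supp (B k) (Icc (y - q) (y + q)) ∧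
      SzR r (s k * R ^ 2) (A k) ∧ SzR r (s k * R ^ 2) (B k)) :
    ∃ u F G : Pm, Supp u (Icc (y - R) (y + R)) ∧ Supp F (Icc (y - R) (y + R)) ∧
      Supp G (Icc (y - R) (y + R)) ∧ SzR r (min ((C * |C₀| + 1) * R) (1 / 2)) u ∧
      SzR r (min ((C * |C₀| + 1) * R) (1 / 2)) F ∧ SzR r (min ((C * |C₀| + 1) * R) (1 / 2)) G ∧
      ∀ k < m, cm ((u ^ 4 ^ k)⁻¹ * F * u ^ 4 ^ k) (u ^ 4 ^ k * G * (u ^ 4 ^ k)⁻¹) = cm (A k) (B k) := by
  have hC0 : 0 < C := by linarith
  have hc0 : 0 ≤ C * |C₀| := by positivity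
  have hmin : 0 ≤ min ((C * |C₀| + 1) * R) (1 / 2) := le_min (by positivity) (by norm_num)
  rcases Nat.eq_zero_or_pos m with h0 | h0
  · subst h0
    refine ⟨1, 1, 1, fun _ _ => rfl, fun _ _ => rfl, fun _ _ => rfl, C2_one r hmin, C2_one r hmin,
      C2_one r hmin, fun k hk => absurd hk (Nat.not_lt_zero k)⟩
  · obtain ⟨n, rfl⟩ : ∃ n, m = n + 1 := ⟨m - 1, by omega⟩
    have hbn := hm n (Nat.lt_succ_self n)
    have hR2 : R ^ (r + 1) ≤ R ^ 2 := pow_le_pow_of_le_one hR.le hR1 (by omega)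
    have hq2 : q ≤ |C₀| * R ^ (r + 1) :=
      hle.trans (mul_le_mul_of_nonneg_right (le_abs_self _) (by positivity))
    have hsum0 : 0 ≤ ∑ j ∈ Finset.range (n + 1), |s j| :=
      Finset.sum_nonneg fun j _ => abs_nonneg _
    obtain ⟨T, hT⟩ : ∃ T, T = ∑ j ∈ Finset.range (n + 1), |s j| := ⟨_, rfl⟩
    rw [hb n, ← hT] at hbn
    rw [← hT] at hsum0
    have h4 : (0 : ℝ) < 4 ^ n := by positivity
    have t1 : 0 ≤ C * 4 ^ (n + 1) * |C₀| * R := by positivity
    have t2 : 0 ≤ 2 * T * R := by positivity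
    have t3 : 0 ≤ 2 * C * |C₀| * R := by positivity
    have t4 : 0 ≤ 4 ^ n * R := by positivity
    have hexp : (C * 4 ^ (n + 1) * |C₀| + 2 * T + 2 * C * |C₀| + 4 ^ n) * R =
        C * 4 ^ (n + 1) * |C₀| * R + 2 * T * R + 2 * C * |C₀| * R + 4 ^ n * R := by ring
    rw [hexp] at hbn
    have e1 : C * 4 ^ (n + 1) * |C₀| * R ≤ 1 := by linarith
    have e2 : 2 * T * R ≤ 1 := by linarith
    have e3 : 2 * C * |C₀| * R ≤ 1 := by linarith
    have hcond : C * 4 ^ (n + 1) * q ≤ R := by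
      calc C * 4 ^ (n + 1) * q ≤ C * 4 ^ (n + 1) * (|C₀| * R ^ (r + 1)) := by gcongr
        _ ≤ C * 4 ^ (n + 1) * (|C₀| * R ^ 2) := by gcongr
        _ = (C * 4 ^ (n + 1) * |C₀| * R) * R := by ring
        _ ≤ 1 * R := mul_le_mul_of_nonneg_right e1 hR.le
        _ = R := one_mul R
    obtain ⟨u, F, G, hu, hF, hG, su, sF, sG, hcode⟩ := hroom y q R (n + 1) A B
      (fun k => s k * R ^ 2) hq hR hR1 hcond (fun k _ => hAB k)
    have hS : ∑ k ∈ Finset.range (n + 1), s k * R ^ 2 ≤ T * R ^ 2 := by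
      rw [hT, Finset.sum_mul]
      exact Finset.sum_le_sum fun j _ => mul_le_mul_of_nonneg_right (le_abs_self _) (by positivity)
    have hTR : T * R ^ 2 ≤ R / 2 := by
      have : T * R ^ 2 = (2 * T * R) * (R / 2) := by ring
      rw [this]
      calc (2 * T * R) * (R / 2) ≤ 1 * (R / 2) := mul_le_mul_of_nonneg_right e2 (by linarith)
        _ = R / 2 := one_mul _
    have hSmin : ∑ k ∈ Finset.range (n + 1), s k * R ^ 2 ≤ min ((C * |C₀| + 1) * R) (1 / 2) := by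
      refine (hS.trans hTR).trans (le_min ?_ (by linarith))
      have : 0 ≤ C * |C₀| * R := by positivity
      nlinarith
    have humin : C * q / R ^ r ≤ min ((C * |C₀| + 1) * R) (1 / 2) := by
      have hu1 : C * q / R ^ r ≤ C * |C₀| * R := by
        rw [div_le_iff₀ (by positivity)]
        calc C * q ≤ C * (|C₀| * R ^ (r + 1)) := by gcongr
          _ = C * |C₀| * R * R ^ r := by ring
      refine hu1.trans (le_min ?_ ?_)
      · nlinarith
      · linarith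
    exact ⟨u, F, G, hu, hF, hG, C2_mono su humin, C2_mono sF hSmin, C2_mono sG hSmin, hcode⟩

theorem storage {r : ℕ} (hr : 1 ≤ r) {υ : Type} {y q R : υ → ℝ} {C₀ : ℝ} (h : Rooms r y q R C₀)
    (A B : ℕ → υ → Pm) (s : ℕ → ℝ)
    (hA : ∀ k v, Supp (A k v) (Icc (y v - q v) (y v + q v)))
    (hB : ∀ k v, Supp (B k v) (Icc (y v - q v) (y v + q v)))
    (hAs : ∀ k v, SzR r (s k * R v ^ 2) (A k v)) (hBs : ∀ k v, SzR r (s k * R v ^ 2) (B k v))
    (E : ℕ → Pm)
    (hE : ∀ k, IsGlue (fun v => Icc (y v - q v) (y v + q v)) (fun v => cm (A k v) (B k v)) (E k)) :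
    Rep r E := by
  classical
  obtain ⟨C, hC, hroom⟩ := room r
  have hC0 : 0 < C := by linarith
  have hRpos : ∀ v, 0 < R v := fun v => lt_of_lt_of_le (h.qpos v) (h.qR v)
  obtain ⟨b, hb⟩ : ∃ b : ℕ → ℝ, ∀ k, b k = C * 4 ^ (k + 1) * |C₀| +
      2 * ∑ j ∈ Finset.range (k + 1), |s j| + 2 * C * |C₀| + 4 ^ k := ⟨_, fun _ => rfl⟩
  have hbm : Monotone b := by
    refine monotone_nat_of_le_succ fun k => ?_
    rw [hb, hb]
    have h1 : (4 : ℝ) ^ (k + 1) ≤ 4 ^ (k + 1 + 1) := pow_le_pow_right₀ (by norm_num) (by omega)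
    have h2 : (4 : ℝ) ^ k ≤ 4 ^ (k + 1) := pow_le_pow_right₀ (by norm_num) (by omega)
    have h3 : ∑ j ∈ Finset.range (k + 1), |s j| ≤ ∑ j ∈ Finset.range (k + 1 + 1), |s j| := by
      rw [Finset.sum_range_succ _ (k + 1)]
      linarith [abs_nonneg (s (k + 1))]
    have h4 : C * 4 ^ (k + 1) * |C₀| ≤ C * 4 ^ (k + 1 + 1) * |C₀| := by gcongr
    linarith
  have hb4 : ∀ k, (4 : ℝ) ^ k ≤ b k := by
    intro k
    rw [hb]
    have h1 : 0 ≤ C * 4 ^ (k + 1) * |C₀| := by positivity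
    have h2 : 0 ≤ ∑ j ∈ Finset.range (k + 1), |s j| := Finset.sum_nonneg fun j _ => abs_nonneg _
    have h3 : 0 ≤ 2 * C * |C₀| := by positivity
    linarith
  obtain ⟨m, hm, hm2⟩ := select b hbm hb4 R hRpos h.summ.tendsto_cofinite_zero
  have hloc := fun v => C2_local hr hC hroom s b hb (y v) (q v) (R v) (m v) (fun k => A k v)
    (fun k => B k v) (h.qpos v) (hRpos v) (h.R1 v) (h.le v) (hm v)
    (fun k => ⟨hA k v, hB k v, hAs k v, hBs k v⟩)
  choose u F G hu hF hG su sF sG hcode using hloc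
  have hcl : ∀ v, IsClosed (Icc (y v - R v) (y v + R v)) := fun v => isClosed_Icc
  have hV0 : ∀ v, Icc (y v - R v) (y v + R v) ⊆ Ioi 0 := by
    intro v x hx
    have h1 := h.left v
    have h2 := hRpos v
    have h3 := hx.1
    show 0 < x
    linarith
  obtain ⟨HU, gU⟩ := exists_glue (fun v => Icc (y v - R v) (y v + R v)) u h.disj hu
  obtain ⟨HF, gF⟩ := exists_glue (fun v => Icc (y v - R v) (y v + R v)) F h.disj hF
  obtain ⟨HG, gG⟩ := exists_glue (fun v => Icc (y v - R v) (y v + R v)) G h.disj hG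
  have hsum : Summable (fun v => min ((C * |C₀| + 1) * R v) (1 / 2)) := by
    refine Summable.of_nonneg_of_le (fun v => ?_) (fun v => min_le_left _ _)
      (h.summ.mul_left (C * |C₀| + 1))
    have := hRpos v
    exact le_min (by positivity) (by norm_num)
  have dU : Gd r HU := glue_gd hr h.disj hu gU hcl hV0 _ su hsum fun v => min_le_right _ _
  have dF : Gd r HF := glue_gd hr h.disj hF gF hcl hV0 _ sF hsum fun v => min_le_right _ _
  have dG : Gd r HG := glue_gd hr h.disj hG gG hcl hV0 _ sG hsum fun v => min_le_right _ _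
  refine ⟨3, ![HU, HF, HG], codeW, 12, ?_, codeW_norm, fun k => ?_⟩
  · intro i
    fin_cases i
    · exact dU
    · exact dF
    · exact dG
  have hglue : IsGlue (fun v => Icc (y v - R v) (y v + R v))
      (fun v => FreeGroup.lift (![u v, F v, G v] : Fin 3 → Pm) (codeW k))
      (FreeGroup.lift (![HU, HF, HG] : Fin 3 → Pm) (codeW k)) := by
    refine glue_code h.disj ?_ ?_ k
    · intro v j
      fin_cases j
      · exact hu v
      · exact hF v
      · exact hG v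
    · intro j
      fin_cases j
      · exact gU
      · exact gF
      · exact gG
  have hfin : {v | ¬ k < m v}.Finite := hm2 k
  have hclosed : IsClosed (⋃ v ∈ {v | ¬ k < m v}, Icc (y v - R v) (y v + R v)) :=
    hfin.isClosed_biUnion fun v _ => isClosed_Icc
  have h0 : (0 : ℝ) ∈ (⋃ v ∈ {v | ¬ k < m v}, Icc (y v - R v) (y v + R v))ᶜ := by
    intro hx
    obtain ⟨v, -, hv⟩ := mem_iUnion₂.1 hx
    exact absurd (hV0 v hv) (by simp)
  filter_upwards [hclosed.isOpen_compl.mem_nhds h0] with x hx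
  have hx' : ∀ v, x ∈ Icc (y v - R v) (y v + R v) → k < m v := by
    intro v hv
    by_contra hk
    exact hx (mem_iUnion₂.2 ⟨v, hk, hv⟩)
  have hzone : ∀ v, x ∈ Icc (y v - q v) (y v + q v) → x ∈ Icc (y v - R v) (y v + R v) := by
    intro v hv
    have := h.qR v
    exact ⟨by linarith [hv.1], by linarith [hv.2]⟩
  by_cases hex : ∃ v, x ∈ Icc (y v - R v) (y v + R v)
  · obtain ⟨v, hv⟩ := hex
    rw [hglue.on v x hv, codeW_lift]
    show (cm ((u v ^ 4 ^ k)⁻¹ * F v * u v ^ 4 ^ k) (u v ^ 4 ^ k * G v * (u v ^ 4 ^ k)⁻¹) : Pm) x = E k x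
    rw [hcode v k (hx' v hv)]
    by_cases hz : x ∈ Icc (y v - q v) (y v + q v)
    · exact ((hE k).on v x hz).symm
    · rw [C2_supp_cm (hA k v) (hB k v) x hz]
      refine ((hE k).off x fun v' hv' => ?_).symm
      by_cases hvv : v' = v
      · rw [hvv] at hv'
        exact hz hv'
      · exact Set.disjoint_left.mp (h.disj hvv) (hzone v' hv') hv
  · push Not at hex
    rw [hglue.off x hex]
    exact ((hE k).off x fun v hv => hex v (hzone v hv)).symm

end FG40
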