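import Pool.Agent.LibFG40.Defs

/-! # C3a: placing unit contents -/

open Filter Topology Set

namespace FG40

open GD31

private theorem c3a_iter (i : ℕ) {h : ℝ → ℝ} (hh : ContDiff ℝ i h) (c L y z : ℝ) :
    iteratedDeriv i (fun z => L * h (c * (z - y))) z =
      L * (c ^ i * iteratedDeriv i h (c * (z - y))) := by
  have h1 : iteratedDeriv i (fun z => L * (fun z => h (c * (z - y))) z) z =
      L * iteratedDeriv i (fun z => h (c * (z - y))) z := iteratedDeriv_const_mul_field L _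
  have h2 := congrFun (iteratedDeriv_comp_sub_const i (fun u => h (c * u)) y) z
  have h3 := congrFun (iteratedDeriv_comp_const_mul hh c) (z - y)
  have h4 : iteratedDeriv i (fun z => h (c * (z - y))) z =
      c ^ i * iteratedDeriv i h (c * (z - y)) := h2.trans h3
  rw [← h4]
  exact h1

private theorem c3a_mono {r : ℕ} {s s' : ℝ} {F : ℝ → ℝ} (h : SzR r s F) (hs : s ≤ s') :
    SzR r s' F :=
  ⟨h.contDiff, fun i hi x => (h.bound i hi x).trans hs⟩

/-- `disp (place y L a) x = L * disp a ((x - y)/L)` (see `GD31.st1_fun`): derivatives `L^(1-i) ·`, `i ≤ r` -/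
theorem place_szR {r : ℕ} (hr : 1 ≤ r) {y L s : ℝ} (hL : 0 < L) (hL1 : L ≤ 1) {a : Pm} (ha : SzR r s a) :
    SzR r (s * L / L ^ r) (place y L hL.ne' a) := by
  have hs0 : 0 ≤ s := (abs_nonneg _).trans (ha.bound 0 (Nat.zero_le _) 0)
  constructor
  · rw [st1_fun]
    exact contDiff_const.add (contDiff_const.mul
      (ha.contDiff.comp ((contDiff_id.sub contDiff_const).div_const L)))
  · intro i hi x
    have e1 : (fun z => place y L hL.ne' a z - z) =
        fun z => L * (fun u => a u - u) (L⁻¹ * (z - y)) := by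
      funext z
      rw [st1_fun]
      have h2 : L⁻¹ * (z - y) = (z - y) / L := by
        rw [div_eq_inv_mul]
      show y + L * a ((z - y) / L) - z = L * (a (L⁻¹ * (z - y)) - L⁻¹ * (z - y))
      rw [h2, mul_sub, mul_div_cancel₀ _ hL.ne']
      ring
    have hc : ContDiff ℝ i (fun u => a u - u) :=
      (ha.contDiff.of_le (by exact_mod_cast hi)).sub contDiff_id
    rw [e1, c3a_iter i hc L⁻¹ L y x, abs_mul, abs_mul, abs_of_pos hL,
      abs_of_nonneg (by positivity : (0 : ℝ) ≤ L⁻¹ ^ i)]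
    have h3 := ha.bound i hi (L⁻¹ * (x - y))
    have h4 : L ^ r ≤ L ^ i := pow_le_pow_of_le_one hL.le hL1 hi
    calc L * (L⁻¹ ^ i * |iteratedDeriv i (fun u => a u - u) (L⁻¹ * (x - y))|)
        ≤ L * (L⁻¹ ^ i * s) := by
          refine mul_le_mul_of_nonneg_left (mul_le_mul_of_nonneg_left h3 (by positivity)) hL.le
      _ = s * L / L ^ i := by
          rw [inv_pow]
          field_simp
      _ ≤ s * L / L ^ r := div_le_div_of_nonneg_left (by positivity) (by positivity) h4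

/-- `G = (af b L)⁻¹ * D * af b L` -/
theorem unplace {k : ℕ} {A b L : ℝ} (hL : 0 < L) {D : Pm} (hD : Supp D (Icc b (b + L)))
    (hN : Nl k A L (disp D)) :
    ∃ G : Pm, Nl k (A / L) 1 (disp G) ∧ Supp G (Icc 0 1) ∧ D = place b L hL.ne' G := by
  have hG : ∀ x, ((af b L hL.ne')⁻¹ * D * af b L hL.ne' : Pm) x = (D (b + L * x) - b) / L :=
    fun x => rfl
  refine ⟨(af b L hL.ne')⁻¹ * D * af b L hL.ne', ?_, ?_, ?_⟩
  · have e1 : disp ((af b L hL.ne')⁻¹ * D * af b L hL.ne') =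
        fun z => L⁻¹ * disp D (L * (z - (-(b / L)))) := by
      funext z
      have h2 : L * (z - (-(b / L))) = b + L * z := by
        field_simp
        ring
      rw [h2]
      show ((af b L hL.ne')⁻¹ * D * af b L hL.ne' : Pm) z - z = L⁻¹ * (D (b + L * z) - (b + L * z))
      rw [hG]
      field_simp
      ring
    constructor
    · rw [e1]
      exact contDiff_const.mul (hN.smooth.comp (contDiff_const.mul (contDiff_id.sub contDiff_const)))
    · intro i hi x
      have hc : ContDiff ℝ i (disp D) := hN.smooth.of_le (by exact_mod_cast le_top)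
      rw [e1, c3a_iter i hc L L⁻¹ (-(b / L)) x, abs_mul, abs_mul,
        abs_of_pos (inv_pos.mpr hL), abs_of_nonneg (by positivity : (0 : ℝ) ≤ L ^ i)]
      have h3 := hN.bound i hi (L * (x - (-(b / L))))
      calc L⁻¹ * (L ^ i * |iteratedDeriv i (disp D) (L * (x - (-(b / L))))|)
          ≤ L⁻¹ * (L ^ i * (A / L ^ i)) := by
            refine mul_le_mul_of_nonneg_left (mul_le_mul_of_nonneg_left h3 (by positivity))
              (by positivity)
        _ = A / L / 1 ^ i := by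
            rw [one_pow]
            field_simp
  · intro x hx
    rw [hG]
    have h2 : b + L * x ∉ Icc b (b + L) := by
      rintro ⟨h3, h4⟩
      apply hx
      constructor
      · by_contra h5
        have h5' : x < 0 := not_le.mp h5
        nlinarith
      · by_contra h5
        have h5' : 1 < x := not_le.mp h5
        nlinarith
    rw [hD _ h2]
    field_simp
    ring
  · simp only [place]
    group

/-- `unplace`, `ChainHyp` with `ε = A / L`, `place` (`GD31.place_cm`, `place_mul`, `place_szR`) -/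
theorem chain_placed {r : ℕ} (hr : 1 ≤ r) (hc : ChainHyp r) : ∃ C c₀ : ℝ, 1 ≤ C ∧ 0 < c₀ ∧
    ∀ (b L A : ℝ) (D : Pm), 0 < L → L ≤ 1 → 0 < A → A ≤ c₀ * L → Nl (r + 3) A L (disp D) →
    Supp D (Icc b (b + L)) →
    ∃ a e : Fin 4 → Pm, (∀ i, SzR r (C * Real.sqrt (A / L) * L / L ^ r) (a i)) ∧
      (∀ i, SzR r (C * Real.sqrt (A / L) * L / L ^ r) (e i)) ∧
      (∀ i, Supp (a i) (Icc (b - L) (b + 5 * L))) ∧ (∀ i, Supp (e i) (Icc (b - L) (b + 5 * L))) ∧
      D = cm (a 0) (e 0) * cm (a 1) (e 1) * cm (a 2) (e 2) * cm (a 3) (e 3) := by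
  obtain ⟨C, c₀, hC, hc₀, H⟩ := hc
  refine ⟨C, c₀, hC, hc₀, ?_⟩
  intro b L A D hL hL1 hA hAc hN hD
  obtain ⟨G, hG1, hG2, hG3⟩ := unplace hL hD hN
  obtain ⟨a, e, ha, he, hsa, hse, hprod⟩ := H (A / L) G (by positivity)
    ((div_le_iff₀ hL).mpr hAc) hG1 hG2
  have hcell : cell b L 1 = Icc (b - L) (b + 5 * L) := by
    ext z
    simp only [cell, Set.mem_image, Set.mem_Icc]
    constructor
    · rintro ⟨x, ⟨h1, h2⟩, rfl⟩
      constructor <;> nlinarith
    · rintro ⟨h1, h2⟩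
      refine ⟨(z - b) / L, ⟨?_, ?_⟩, ?_⟩
      · rw [le_div_iff₀ hL]
        linarith
      · rw [div_le_iff₀ hL]
        linarith
      · rw [mul_div_cancel₀ _ hL.ne']
        ring
  refine ⟨fun i => place b L hL.ne' (a i), fun i => place b L hL.ne' (e i),
    fun i => place_szR hr hL hL1 (ha i), fun i => place_szR hr hL hL1 (he i),
    fun i => hcell ▸ place_supp hL.ne' (hsa i), fun i => hcell ▸ place_supp hL.ne' (hse i), ?_⟩
  rw [hG3, hprod, place_mul, place_mul, place_mul, place_cm, place_cm, place_cm, place_cm]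

/-- with `A = c σ² L^(2r)`, `c ≥ 1`: the size is `≤ C √c σ` -/
theorem chain_placed' {r : ℕ} (hr : 1 ≤ r) (hc : ChainHyp r) : ∃ C c₀ : ℝ, 1 ≤ C ∧ 0 < c₀ ∧
    ∀ (b L c σ : ℝ) (D : Pm), 0 < L → L ≤ 1 → 1 ≤ c → 0 < σ → c * σ ≤ c₀ → σ ≤ 1 →
    Nl (r + 3) (c * σ ^ 2 * L ^ (2 * r)) L (disp D) → Supp D (Icc b (b + L)) →
    ∃ a e : Fin 4 → Pm, (∀ i, SzR r (C * c * σ) (a i)) ∧ (∀ i, SzR r (C * c * σ) (e i)) ∧
      (∀ i, Supp (a i) (Icc (b - L) (b + 5 * L))) ∧ (∀ i, Supp (e i) (Icc (b - L) (b + 5 * L))) ∧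
      D = cm (a 0) (e 0) * cm (a 1) (e 1) * cm (a 2) (e 2) * cm (a 3) (e 3) := by
  obtain ⟨C, c₀, hC, hc₀, H⟩ := chain_placed hr hc
  refine ⟨C, c₀, hC, hc₀, ?_⟩
  intro b L c σ D hL hL1 hc1 hσ hcσ hσ1 hN hD
  have hc0 : 0 < c := lt_of_lt_of_le one_pos hc1
  have hC0 : 0 < C := lt_of_lt_of_le one_pos hC
  have hA : c * σ ^ 2 * L ^ (2 * r) ≤ c₀ * L := by
    have h1 : c * σ ^ 2 ≤ c₀ := by
      have h2 : c * σ ^ 2 ≤ c * σ := by
        rw [pow_two, ← mul_assoc]
        exact mul_le_of_le_one_right (by positivity) hσ1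
      exact h2.trans hcσ
    have h3 : L ^ (2 * r) ≤ L := pow_le_of_le_one hL.le hL1 (by omega)
    exact mul_le_mul h1 h3 (by positivity) hc₀.le
  obtain ⟨a, e, ha, he, hsa, hse, hprod⟩ := H b L (c * σ ^ 2 * L ^ (2 * r)) D hL hL1
    (by positivity) hA hN hD
  have hsz : C * Real.sqrt (c * σ ^ 2 * L ^ (2 * r) / L) * L / L ^ r ≤ C * c * σ := by
    have h1 : Real.sqrt (c * σ ^ 2 * L ^ (2 * r) / L) * L ≤ c * σ * L ^ r := by
      rw [← Real.sqrt_sq hL.le, ← Real.sqrt_mul (by positivity)]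
      rw [Real.sqrt_sq hL.le]
      apply Real.sqrt_le_iff.mpr
      refine ⟨by positivity, ?_⟩
      have h2 : c * σ ^ 2 * L ^ (2 * r) / L * L ^ 2 = c * σ ^ 2 * L ^ (2 * r) * L := by
        field_simp
      rw [h2]
      have h3 : (c * σ * L ^ r) ^ 2 = c * (c * σ ^ 2 * L ^ (2 * r)) := by
        rw [mul_pow, mul_pow, ← pow_mul, mul_comm r 2]
        ring
      rw [h3]
      have h4 : (0 : ℝ) ≤ c * σ ^ 2 * L ^ (2 * r) := by positivity
      nlinarith
    rw [div_le_iff₀ (by positivity)]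
    calc C * Real.sqrt (c * σ ^ 2 * L ^ (2 * r) / L) * L
        = C * (Real.sqrt (c * σ ^ 2 * L ^ (2 * r) / L) * L) := by ring
      _ ≤ C * (c * σ * L ^ r) := mul_le_mul_of_nonneg_left h1 hC0.le
      _ = C * c * σ * L ^ r := by ring
  exact ⟨a, e, fun i => c3a_mono (ha i) hsz, fun i => c3a_mono (he i) hsz, hsa, hse, hprod⟩

end FG40
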