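import Pool.Agent.LibFG40.C0c
import Pool.Agent.LibFG40.C1c

/-! # C3b: lumps: glue of the maps with `π i = v` -/

open Filter Topology Set

namespace FG40

open GD31

/-- For every `v` glue the `a i` with `π i = v` (`exists_glue`): the sizes add up (`glue_szR` on the subtype
`{i // π i = v}`, `Summable`, `tsum ≤` by `hσR`: `Real.tsum_le_of_sum_le`-type lemma on finite sets). -/
theorem lump {r : ℕ} {ι υ : Type} (π : ι → υ) (I : ι → Set ℝ) (Z : υ → Set ℝ)
    (hI : ∀ i, I i ⊆ Z (π i)) (hd : Pairwise fun i j => Disjoint (I i) (I j))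
    (a : ι → Pm) (ha : ∀ i, Supp (a i) (I i)) (σ : ι → ℝ) (c : ℝ) (hc : 0 ≤ c) (hσ : ∀ i, 0 ≤ σ i)
    (hσs : Summable σ) (T : υ → ℝ) (hσR : ∀ v, ∀ S : Finset ι, (∀ i ∈ S, π i = v) → ∑ i ∈ S, σ i ≤ T v)
    (hs : ∀ i, SzR r (c * σ i) (a i)) :
    ∃ A : υ → Pm, (∀ v, Supp (A v) (Z v)) ∧ (∀ v, SzR r (c * T v) (A v)) ∧
      (∀ i, ∀ x ∈ I i, A (π i) x = a i x) ∧ ∀ v x, (∀ i, π i = v → x ∉ I i) → A v x = x := by
  have hdv : ∀ v, Pairwise fun i j : {i // π i = v} => Disjoint (I i.1) (I j.1) := by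
    intro v i j hij
    exact hd fun h => hij (Subtype.ext h)
  have h1 : ∀ v, ∃ H : Pm, IsGlue (fun i : {i // π i = v} => I i.1) (fun i => a i.1) H := fun v =>
    exists_glue _ _ (hdv v) fun i => ha i.1
  choose A hA using h1
  refine ⟨A, ?_, ?_, ?_, ?_⟩
  · intro v x hx
    refine (hA v).off x fun i hi => hx ?_
    have h2 := hI i.1 hi
    rwa [i.2] at h2
  · intro v
    have h2 : Summable fun i : {i // π i = v} => σ i.1 :=
      hσs.comp_injective Subtype.val_injective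
    have h3 : Summable fun i : {i // π i = v} => c * σ i.1 := h2.mul_left c
    have h4 := glue_szR (r := r) (hdv v) (fun i => ha i.1) (hA v) (fun i => c * σ i.1)
      (fun i => hs i.1) h3
    refine h4.mono ?_
    rw [tsum_mul_left]
    refine mul_le_mul_of_nonneg_left ?_ hc
    refine h2.tsum_le_of_sum_le fun S => ?_
    have h5 := hσR v (S.map (Function.Embedding.subtype _)) (fun i hi => by
      obtain ⟨j, -, rfl⟩ := Finset.mem_map.1 hi
      exact j.2)
    rw [Finset.sum_map] at h5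
    exact h5
  · intro i x hx
    exact (hA (π i)).on ⟨i, rfl⟩ x hx
  · intro v x hx
    exact (hA v).off x fun i => hx i.1 i.2

/-- commutators of two lumped families with the same intervals -/
theorem lump_cm {ι υ : Type} (π : ι → υ) (I : ι → Set ℝ) (Z : υ → Set ℝ) (hI : ∀ i, I i ⊆ Z (π i))
    (hd : Pairwise fun i j => Disjoint (I i) (I j)) (hZ : Pairwise fun v v' => Disjoint (Z v) (Z v'))
    (a e : ι → Pm) (ha : ∀ i, Supp (a i) (I i)) (he : ∀ i, Supp (e i) (I i)) (A B : υ → Pm)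
    (hA : (∀ v, Supp (A v) (Z v)) ∧ (∀ i, ∀ x ∈ I i, A (π i) x = a i x) ∧
      ∀ v x, (∀ i, π i = v → x ∉ I i) → A v x = x)
    (hB : (∀ v, Supp (B v) (Z v)) ∧ (∀ i, ∀ x ∈ I i, B (π i) x = e i x) ∧
      ∀ v x, (∀ i, π i = v → x ∉ I i) → B v x = x)
    {H : Pm} (hH : IsGlue Z (fun v => cm (A v) (B v)) H) : IsGlue I (fun i => cm (a i) (e i)) H := by
  have _ := hZ
  have hdv : ∀ v, Pairwise fun i j : {i // π i = v} => Disjoint (I i.1) (I j.1) := by
    intro v i j hij
    exact hd fun h => hij (Subtype.ext h)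
  have key : ∀ v, IsGlue (fun i : {i // π i = v} => I i.1) (fun i => cm (a i.1) (e i.1))
      (cm (A v) (B v)) := by
    intro v
    refine IsGlue.cm (hdv v) (fun i => ha i.1) (fun i => he i.1) ?_ ?_
    · refine ⟨fun i x hx => ?_, fun x hx => hA.2.2 v x fun i hi => hx ⟨i, hi⟩⟩
      have h1 := hA.2.1 i.1 x hx
      rwa [i.2] at h1
    · refine ⟨fun i x hx => ?_, fun x hx => hB.2.2 v x fun i hi => hx ⟨i, hi⟩⟩
      have h1 := hB.2.1 i.1 x hx
      rwa [i.2] at h1
  constructor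
  · intro i x hx
    rw [hH.on (π i) x (hI i hx)]
    exact (key (π i)).on ⟨i, rfl⟩ x hx
  · intro x hx
    by_cases h : ∃ v, x ∈ Z v
    · obtain ⟨v, hv⟩ := h
      rw [hH.on v x hv]
      exact (key v).off x fun i => hx i.1
    · push Not at h
      exact hH.off x h

end FG40
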