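import Pool.Agent.LibFG40.C2
import Pool.Agent.LibFG40.C3a
import Pool.Agent.LibFG40.C3b

/-! # C3: the storage theorem for smooth contents. -/

open Filter Topology Set

namespace FG40

open GD31

private theorem c3_supp_one (I : Set ℝ) : Supp (1 : Pm) I := fun _ _ => rfl

private theorem c3_supp_inv {F : Pm} {I : Set ℝ} (hF : Supp F I) : Supp F⁻¹ I := by
  intro x hx
  have h := hF x hx
  rw [Equiv.Perm.inv_eq_iff_eq]
  exact h.symm

private theorem c3_supp_mul {F G : Pm} {I : Set ℝ} (hF : Supp F I) (hG : Supp G I) : Supp (F * G) I := by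
  intro x hx
  rw [Equiv.Perm.mul_apply, hG x hx, hF x hx]

private theorem c3_supp_cm {F G : Pm} {I : Set ℝ} (hF : Supp F I) (hG : Supp G I) : Supp (cm F G) I :=
  c3_supp_mul (c3_supp_mul (c3_supp_mul hF hG) (c3_supp_inv hF)) (c3_supp_inv hG)

private theorem c3_szR_one {r : ℕ} {s : ℝ} (hs : 0 ≤ s) : SzR r s (1 : Pm) := by
  constructor
  · exact contDiff_id
  · intro i _ x
    have h : (fun y : ℝ => (1 : Pm) y - y) = fun _ => (0 : ℝ) := by
      funext y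
      exact sub_self y
    rw [h]
    have h2 : iteratedDeriv i (fun _ : ℝ => (0 : ℝ)) x = 0 := by
      cases i with
      | zero => simp
      | succ n => simp
    rw [h2, abs_zero]
    exact hs

private theorem c3_nl_mono {k : ℕ} {A A' l : ℝ} {f : ℝ → ℝ} (hl : 0 < l) (h : Nl k A l f) (hA : A ≤ A') :
    Nl k A' l f :=
  ⟨h.smooth, fun i hi x => (h.bound i hi x).trans (div_le_div_of_nonneg_right hA (by positivity))⟩

theorem smooth_storage {r : ℕ} (hr : 1 ≤ r) (hc : ChainHyp r) {ι υ : Type} {y q R : υ → ℝ} {C₀ : ℝ}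
    (h : Rooms r y q R C₀) (π : ι → υ) (b L σ : ι → ℝ) (hL : ∀ i, 0 < L i) (hL1 : ∀ i, L i ≤ 1)
    (hσ : ∀ i, 0 < σ i) (hσs : Summable σ)
    (hσR : ∀ v, ∀ S : Finset ι, (∀ i ∈ S, π i = v) → ∑ i ∈ S, σ i ≤ C₀ * R v ^ 2)
    (hzone : ∀ i, Icc (b i - L i) (b i + 5 * L i) ⊆ Icc (y (π i) - q (π i)) (y (π i) + q (π i)))
    (hdisj : Pairwise fun i j =>
      Disjoint (Icc (b i - L i) (b i + 5 * L i)) (Icc (b j - L j) (b j + 5 * L j)))
    (D : ℕ → ι → Pm) (hD : ∀ k i, Supp (D k i) (Icc (b i) (b i + L i)))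
    (c : ℕ → ℝ) (hN : ∀ k i, Nl (r + 3) (c k * σ i ^ 2 * L i ^ (2 * r)) (L i) (disp (D k i)))
    (E : ℕ → Pm) (hE : ∀ k, IsGlue (fun i => Icc (b i) (b i + L i)) (D k) (E k)) : Rep r E := by
  classical
  obtain ⟨C, c₀, hC, hc₀, hch⟩ := chain_placed' hr hc
  set c' : ℕ → ℝ := fun k => max 1 (c k) with hc'
  have hc'1 : ∀ k, 1 ≤ c' k := fun k => le_max_left _ _
  have hc'c : ∀ k, c k ≤ c' k := fun k => le_max_right _ _
  have hCc : ∀ k, 0 ≤ C * c' k := fun k => by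
    have := hc'1 k
    positivity
  set I : ι → Set ℝ := fun i => Icc (b i - L i) (b i + 5 * L i) with hI
  set Z : υ → Set ℝ := fun v => Icc (y v - q v) (y v + q v) with hZ
  have hdZ : Pairwise fun v v' => Disjoint (Z v) (Z v') := by
    intro v v' hv
    refine Disjoint.mono ?_ ?_ (h.disj hv)
    · exact Icc_subset_Icc (by linarith [h.qR v]) (by linarith [h.qR v])
    · exact Icc_subset_Icc (by linarith [h.qR v']) (by linarith [h.qR v'])
  have hZ0 : ∀ v, Z v ⊆ Ioi 0 := by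
    intro v x hx
    have h1 := h.left v
    have h2 := h.qR v
    have h3 := h.qpos v
    have h4 := hx.1
    rw [mem_Ioi]
    linarith
  have hI0 : ∀ i, I i ⊆ Ioi 0 := fun i => (hzone i).trans (hZ0 _)
  -- the local factorisations
  have hloc : ∀ k i, ∃ a e : Fin 4 → Pm, (∀ t, SzR r (C * c' k * σ i) (a t)) ∧
      (∀ t, SzR r (C * c' k * σ i) (e t)) ∧ (∀ t, Supp (a t) (I i)) ∧ (∀ t, Supp (e t) (I i)) ∧
      (c' k * σ i ≤ c₀ → σ i ≤ 1 →
        D k i = cm (a 0) (e 0) * cm (a 1) (e 1) * cm (a 2) (e 2) * cm (a 3) (e 3)) := by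
    intro k i
    by_cases hg : c' k * σ i ≤ c₀ ∧ σ i ≤ 1
    · have hn : Nl (r + 3) (c' k * σ i ^ 2 * L i ^ (2 * r)) (L i) (disp (D k i)) := by
        refine c3_nl_mono (hL i) (hN k i) ?_
        have h1 : 0 ≤ L i ^ (2 * r) := pow_nonneg (hL i).le _
        exact mul_le_mul_of_nonneg_right (mul_le_mul_of_nonneg_right (hc'c k) (sq_nonneg _)) h1
      obtain ⟨a, e, h1, h2, h3, h4, h5⟩ := hch (b i) (L i) (c' k) (σ i) (D k i) (hL i) (hL1 i) (hc'1 k)
        (hσ i) hg.1 hg.2 hn (hD k i)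
      exact ⟨a, e, h1, h2, h3, h4, fun _ _ => h5⟩
    · have hs : 0 ≤ C * c' k * σ i := mul_nonneg (hCc k) (hσ i).le
      refine ⟨fun _ => 1, fun _ => 1, fun _ => c3_szR_one hs, fun _ => c3_szR_one hs,
        fun _ => c3_supp_one _, fun _ => c3_supp_one _, fun h1 h2 => absurd ⟨h1, h2⟩ hg⟩
  choose a e has hes haS heS hfac using hloc
  -- lumps
  have hlA : ∀ (t : Fin 4) (k : ℕ), ∃ A : υ → Pm, (∀ v, Supp (A v) (Z v)) ∧
      (∀ v, SzR r (C * c' k * (C₀ * R v ^ 2)) (A v)) ∧ (∀ i, ∀ x ∈ I i, A (π i) x = a k i t x) ∧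
      ∀ v x, (∀ i, π i = v → x ∉ I i) → A v x = x := fun t k =>
    lump π I Z hzone hdisj (fun i => a k i t) (fun i => haS k i t) σ (C * c' k) (hCc k)
      (fun i => (hσ i).le) hσs (fun v => C₀ * R v ^ 2) hσR (fun i => has k i t)
  have hlB : ∀ (t : Fin 4) (k : ℕ), ∃ A : υ → Pm, (∀ v, Supp (A v) (Z v)) ∧
      (∀ v, SzR r (C * c' k * (C₀ * R v ^ 2)) (A v)) ∧ (∀ i, ∀ x ∈ I i, A (π i) x = e k i t x) ∧
      ∀ v x, (∀ i, π i = v → x ∉ I i) → A v x = x := fun t k =>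
    lump π I Z hzone hdisj (fun i => e k i t) (fun i => heS k i t) σ (C * c' k) (hCc k)
      (fun i => (hσ i).le) hσs (fun v => C₀ * R v ^ 2) hσR (fun i => hes k i t)
  choose A hA1 hA2 hA3 hA4 using hlA
  choose B hB1 hB2 hB3 hB4 using hlB
  have hgl : ∀ (t : Fin 4) (k : ℕ), ∃ H : Pm, IsGlue Z (fun v => cm (A t k v) (B t k v)) H := fun t k =>
    exists_glue Z _ hdZ (fun v => c3_supp_cm (hA1 t k v) (hB1 t k v))
  choose H hH using hgl
  have hrep : ∀ t : Fin 4, Rep r (H t) := by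
    intro t
    refine storage hr h (A t) (B t) (fun k => C * c' k * C₀) (hA1 t) (hB1 t) ?_ ?_ (H t) (hH t)
    · intro k v
      have h1 := hA2 t k v
      rwa [← mul_assoc] at h1
    · intro k v
      have h1 := hB2 t k v
      rwa [← mul_assoc] at h1
  have hglI : ∀ (t : Fin 4) (k : ℕ), IsGlue I (fun i => cm (a k i t) (e k i t)) (H t k) := fun t k =>
    lump_cm π I Z hzone hdisj hdZ (fun i => a k i t) (fun i => e k i t) (fun i => haS k i t)
      (fun i => heS k i t) (A t k) (B t k) ⟨hA1 t k, hA3 t k, hA4 t k⟩ ⟨hB1 t k, hB3 t k, hB4 t k⟩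
      (hH t k)
  have hS : ∀ (k : ℕ) (i : ι) (t : Fin 4), Supp (cm (a k i t) (e k i t)) (I i) := fun k i t =>
    c3_supp_cm (haS k i t) (heS k i t)
  have hprod : ∀ k, IsGlue I (fun i => cm (a k i 0) (e k i 0) * cm (a k i 1) (e k i 1) *
      cm (a k i 2) (e k i 2) * cm (a k i 3) (e k i 3)) (H 0 k * H 1 k * H 2 k * H 3 k) := by
    intro k
    have h1 := (hglI 0 k).mul hdisj (fun i => hS k i 0) (fun i => hS k i 1) (hglI 1 k)
    have h2 := h1.mul hdisj (fun i => c3_supp_mul (hS k i 0) (hS k i 1)) (fun i => hS k i 2) (hglI 2 k)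
    exact h2.mul hdisj (fun i => c3_supp_mul (c3_supp_mul (hS k i 0) (hS k i 1)) (hS k i 2))
      (fun i => hS k i 3) (hglI 3 k)
  have hR4 : Rep r (fun k => H 0 k * H 1 k * H 2 k * H 3 k) :=
    Rep.mul hr (Rep.mul hr (Rep.mul hr (hrep 0) (hrep 1)) (hrep 2)) (hrep 3)
  refine Rep.congr hR4 fun k => ?_
  -- the exceptional indices
  have hfin : {i | ¬ (c' k * σ i ≤ c₀ ∧ σ i ≤ 1)}.Finite := by
    have h0 : Tendsto σ cofinite (𝓝 0) := hσs.tendsto_cofinite_zero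
    have hc'k := hc'1 k
    have hpos : 0 < min (c₀ / c' k) 1 := lt_min (div_pos hc₀ (by linarith)) one_pos
    have h1 : ∀ᶠ i in cofinite, σ i < min (c₀ / c' k) 1 := h0.eventually (gt_mem_nhds hpos)
    have h2 : ∀ᶠ i in cofinite, c' k * σ i ≤ c₀ ∧ σ i ≤ 1 := by
      filter_upwards [h1] with i hi
      have h3 := lt_of_lt_of_le hi (min_le_left _ _)
      have h4 := lt_of_lt_of_le hi (min_le_right _ _)
      rw [lt_div_iff₀ (by linarith)] at h3
      exact ⟨by linarith, h4.le⟩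
    exact h2
  have hcl : IsClosed (⋃ i ∈ {i | ¬ (c' k * σ i ≤ c₀ ∧ σ i ≤ 1)}, I i) :=
    hfin.isClosed_biUnion fun i _ => isClosed_Icc
  have h0 : (0 : ℝ) ∉ ⋃ i ∈ {i | ¬ (c' k * σ i ≤ c₀ ∧ σ i ≤ 1)}, I i := by
    intro hmem
    obtain ⟨i, _, hi⟩ := mem_iUnion₂.1 hmem
    exact lt_irrefl (0 : ℝ) (mem_Ioi.1 (hI0 i hi))
  filter_upwards [hcl.isOpen_compl.mem_nhds h0] with x hx
  by_cases hxI : ∃ i, x ∈ I i
  · obtain ⟨i, hi⟩ := hxI
    have hg : c' k * σ i ≤ c₀ ∧ σ i ≤ 1 := by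
      by_contra hg
      exact hx (mem_iUnion₂.2 ⟨i, hg, hi⟩)
    rw [(hprod k).on i x hi, ← hfac k i hg.1 hg.2]
    by_cases hV : x ∈ Icc (b i) (b i + L i)
    · exact ((hE k).on i x hV).symm
    · rw [hD k i x hV, (hE k).off x]
      intro j hj
      by_cases hij : i = j
      · rw [← hij] at hj
        exact hV hj
      · have hjI : x ∈ I j := ⟨by linarith [hj.1, hL j], by linarith [hj.2, hL j]⟩
        exact Set.disjoint_left.1 (hdisj hij) hi hjI
  · push Not at hxI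
    rw [(hprod k).off x hxI, (hE k).off x]
    intro j hj
    exact hxI j ⟨by linarith [hj.1, hL j], by linarith [hj.2, hL j]⟩

end FG40
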