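import Pool.Agent.LibFG40.Defs

/-! # D0a: cut-off functions. `bump`: products of two scaled `Real.smoothTransition`s (or one function of the
type of `GD31.os1_chi` when `a + 2 l = b`); the constant does not depend on `b - a`: `χ x = θ ((x - a)/l) θ ((b -
x)/l)`, `θ = Real.smoothTransition`, all derivatives of `θ` are bounded (its derivative has compact support,
`exists_Nl_of_compact`), `Nl.comp_affine`, `Nl.mul`. -/

open Filter Topology Set

namespace FG40

open GD31

private theorem d0a_trans (k : ℕ) : ∃ C : ℝ, 1 ≤ C ∧ Nl k C 1 Real.smoothTransition := by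
  have hs : Sm Real.smoothTransition := Real.smoothTransition.contDiff
  have hd : Sm (deriv Real.smoothTransition) := (contDiff_infty_iff_deriv.1 hs).2
  have hc : HasCompactSupport (deriv Real.smoothTransition) := by
    refine HasCompactSupport.intro (isCompact_Icc (a := (0 : ℝ)) (b := 1)) fun x hx => ?_
    rcases lt_or_ge x 0 with h | h
    · have h1 : Real.smoothTransition =ᶠ[𝓝 x] fun _ => (0 : ℝ) := by
        filter_upwards [Iio_mem_nhds h] with y hy
        exact Real.smoothTransition.zero_of_nonpos (le_of_lt hy)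
      rw [h1.deriv_eq, deriv_const]
    · have h2 : 1 < x := by
        by_contra h3
        exact hx ⟨h, not_lt.1 h3⟩
      have h1 : Real.smoothTransition =ᶠ[𝓝 x] fun _ => (1 : ℝ) := by
        filter_upwards [Ioi_mem_nhds h2] with y hy
        exact Real.smoothTransition.one_of_one_le (le_of_lt hy)
      rw [h1.deriv_eq, deriv_const]
  obtain ⟨C, hC1, hC⟩ := exists_Nl_of_compact k hd hc
  refine ⟨C, hC1, ?_⟩
  have h1 : Nl (k + 1) C 1 Real.smoothTransition := by
    refine Nl.of_deriv hs one_pos (fun x => ?_) (by rw [div_one]; exact hC)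
    rw [abs_of_nonneg (Real.smoothTransition.nonneg x)]
    exact (Real.smoothTransition.le_one x).trans hC1
  exact h1.mono (Nat.le_succ k) (by linarith) le_rfl one_pos le_rfl

private theorem d0a_neg {k : ℕ} {A l : ℝ} {f : ℝ → ℝ} (h : Nl k A l f) : Nl k A l (fun x => f (-x)) := by
  refine ⟨h.smooth.comp contDiff_neg, fun i hi x => ?_⟩
  rw [iteratedDeriv_comp_neg, smul_eq_mul, abs_mul, abs_pow, abs_neg, abs_one, one_pow, one_mul]
  exact h.bound i hi (-x)

theorem bump (k : ℕ) : ∃ C : ℝ, 1 ≤ C ∧ ∀ (a b l : ℝ), 0 < l → a + 2 * l ≤ b →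
    ∃ χ : ℝ → ℝ, Nl k C l χ ∧ (∀ x, 0 ≤ χ x ∧ χ x ≤ 1) ∧ (∀ x ∈ Icc (a + l) (b - l), χ x = 1) ∧
      ∀ x, x ∉ Icc a b → χ x = 0 := by
  obtain ⟨C, hC1, hC⟩ := d0a_trans k
  have hC0 : 0 ≤ C := by linarith
  refine ⟨2 ^ k * C * C, ?_, ?_⟩
  · have h1 : (1 : ℝ) ≤ 2 ^ k := one_le_pow₀ (by norm_num)
    have h2 : (1 : ℝ) ≤ 2 ^ k * C := by nlinarith
    nlinarith
  · intro a b l hl hab
    have hli : 0 < l⁻¹ := inv_pos.2 hl
    have e : (1 : ℝ) / l⁻¹ = l := by rw [one_div, inv_inv]
    have n1 := hC.comp_affine hli (-a / l)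
    have n2 := (d0a_neg hC).comp_affine hli (-b / l)
    rw [e] at n1 n2
    have n3 := n1.mul n2 hl hC0 hC0
    refine ⟨_, n3, fun x => ⟨?_, ?_⟩, fun x hx => ?_, fun x hx => ?_⟩
    · exact mul_nonneg (Real.smoothTransition.nonneg _) (Real.smoothTransition.nonneg _)
    · exact mul_le_one₀ (Real.smoothTransition.le_one _) (Real.smoothTransition.nonneg _)
        (Real.smoothTransition.le_one _)
    · have h1 : 1 ≤ l⁻¹ * x + -a / l := by
        have : l⁻¹ * x + -a / l = (x - a) / l := by field_simp; ring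
        rw [this, le_div_iff₀ hl]
        linarith [hx.1]
      have h2 : 1 ≤ -(l⁻¹ * x + -b / l) := by
        have : -(l⁻¹ * x + -b / l) = (b - x) / l := by field_simp; ring
        rw [this, le_div_iff₀ hl]
        linarith [hx.2]
      show Real.smoothTransition (l⁻¹ * x + -a / l) * Real.smoothTransition (-(l⁻¹ * x + -b / l)) = 1
      rw [Real.smoothTransition.one_of_one_le h1, Real.smoothTransition.one_of_one_le h2, one_mul]
    · show Real.smoothTransition (l⁻¹ * x + -a / l) * Real.smoothTransition (-(l⁻¹ * x + -b / l)) = 0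
      rcases lt_or_ge x a with h | h
      · have h1 : l⁻¹ * x + -a / l ≤ 0 := by
          have : l⁻¹ * x + -a / l = (x - a) / l := by field_simp; ring
          rw [this]
          exact div_nonpos_of_nonpos_of_nonneg (by linarith) hl.le
        rw [Real.smoothTransition.zero_of_nonpos h1, zero_mul]
      · have h3 : b < x := by
          by_contra h4
          exact hx ⟨h, not_lt.1 h4⟩
        have h1 : -(l⁻¹ * x + -b / l) ≤ 0 := by
          have : -(l⁻¹ * x + -b / l) = (b - x) / l := by field_simp; ring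
          rw [this]
          exact div_nonpos_of_nonpos_of_nonneg (by linarith) hl.le
        rw [Real.smoothTransition.zero_of_nonpos h1, mul_zero]

/-- Leibniz (`iteratedDeriv_fun_mul`, see `Nl.mul` in `Pool/Agent/LibGD31/CK1.lean`): off `Icc a b` all
derivatives of `χ` vanish (open set), inside both factors are bounded -/
theorem cut_mul (k : ℕ) {A B l a b : ℝ} {χ g : ℝ → ℝ} (hl : 0 < l) (hA : 0 ≤ A) (hB : 0 ≤ B)
    (hχ : Nl k B l χ) (hs : ∀ x, x ∉ Icc a b → χ x = 0) (hg : Sm g)
    (hb : ∀ i ≤ k, ∀ x ∈ Icc a b, |iteratedDeriv i g x| ≤ A / l ^ i) :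
    Nl k (2 ^ k * B * A) l (fun x => χ x * g x) := by
  refine ⟨hχ.smooth.mul hg, fun i hi x => ?_⟩
  have hle : (i : WithTop ℕ∞) ≤ ((⊤ : ℕ∞) : WithTop ℕ∞) := by exact_mod_cast le_top
  by_cases hx : x ∈ Icc a b
  · rw [iteratedDeriv_fun_mul ((hχ.smooth.of_le hle).contDiffAt) ((hg.of_le hle).contDiffAt)]
    have h1 : ∀ j ∈ Finset.range (i + 1),
        |(i.choose j : ℝ) * iteratedDeriv j χ x * iteratedDeriv (i - j) g x| ≤
          (i.choose j : ℝ) * (B * A / l ^ i) := by
      intro j hj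
      have hji : j ≤ i := Nat.lt_succ_iff.1 (Finset.mem_range.1 hj)
      rw [abs_mul, abs_mul, Nat.abs_cast, mul_assoc]
      refine mul_le_mul_of_nonneg_left ?_ (Nat.cast_nonneg _)
      have h2 := hχ.bound j (hji.trans hi) x
      have h3 := hb (i - j) ((Nat.sub_le i j).trans hi) x hx
      have h4 : B / l ^ j * (A / l ^ (i - j)) = B * A / l ^ i := by
        rw [div_mul_div_comm, ← pow_add, Nat.add_sub_cancel' hji]
      rw [← h4]
      exact mul_le_mul h2 h3 (abs_nonneg _) (div_nonneg hB (pow_pos hl j).le)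
    refine (Finset.abs_sum_le_sum_abs _ _).trans ((Finset.sum_le_sum h1).trans ?_)
    rw [← Finset.sum_mul]
    have h5 : (∑ j ∈ Finset.range (i + 1), (i.choose j : ℝ)) = 2 ^ i := by
      exact_mod_cast Nat.sum_range_choose i
    rw [h5, mul_assoc, mul_div_assoc (2 ^ k : ℝ)]
    refine mul_le_mul_of_nonneg_right (pow_le_pow_right₀ one_le_two hi) ?_
    exact div_nonneg (mul_nonneg hB hA) (pow_pos hl i).le
  · have h1 : (fun x => χ x * g x) =ᶠ[𝓝 x] fun _ => (0 : ℝ) := by
      filter_upwards [isClosed_Icc.isOpen_compl.mem_nhds hx] with y hy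
      rw [hs y hy, zero_mul]
    have h2 : iteratedDeriv i (fun _ : ℝ => (0 : ℝ)) x = 0 := by
      rw [iteratedDeriv_const]
      split <;> rfl
    rw [h1.iteratedDeriv_eq i, h2, abs_zero]
    exact div_nonneg (mul_nonneg (mul_nonneg (by positivity) hB) hA) (pow_pos hl i).le

/-- from scale `l` to the larger scale `c l` -/
theorem nl_scale {k : ℕ} {A l c : ℝ} {f : ℝ → ℝ} (hA : 0 ≤ A) (hl : 0 < l) (hc : 1 ≤ c) (h : Nl k A l f) :
    Nl k (A * c ^ k) (c * l) f := by
  refine ⟨h.smooth, fun i hi x => (h.bound i hi x).trans ?_⟩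
  have hc0 : 0 < c := by linarith
  rw [mul_pow, div_le_div_iff₀ (pow_pos hl i) (mul_pos (pow_pos hc0 i) (pow_pos hl i))]
  have h1 : c ^ i ≤ c ^ k := pow_le_pow_right₀ hc hi
  have h2 : 0 ≤ A * l ^ i := mul_nonneg hA (pow_pos hl i).le
  calc A * (c ^ i * l ^ i) = (A * l ^ i) * c ^ i := by ring
    _ ≤ (A * l ^ i) * c ^ k := mul_le_mul_of_nonneg_left h1 h2
    _ = A * c ^ k * l ^ i := by ring

end FG40
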