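import Pool.Agent.LibFG40.Defs

/-! # D0b: restriction of a diffeomorphism which is the identity near `a` and near `b` to `[a, b]`. Model:
`fn1_mem`, `exists_restrict` in `Pool/Agent/LibGD31/FN1.lean` (same statement in unit coordinates). -/

open Filter Topology Set

namespace FG40

open GD31

theorem restrict {k : ℕ} {A l a b η : ℝ} {E : Pm} (hl : 0 < l) (hη : 0 < η) (hab : a + 2 * η < b)
    (hA : 0 ≤ A) (hm : StrictMono E) (hE : Nl k A l (disp E)) (ha : ∀ x, |x - a| ≤ η → E x = x)
    (hb : ∀ x, |x - b| ≤ η → E x = x) :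
    ∃ G : Pm, Supp G (Icc (a + η) (b - η)) ∧ (∀ x ∈ Icc a b, G x = E x) ∧ Nl k A l (disp G) ∧
      StrictMono G := by
  classical
  have hc : E (a + η) = a + η := ha _ (by rw [add_sub_cancel_left, abs_of_pos hη])
  have hd : E (b - η) = b - η := hb _ (by rw [sub_sub_cancel_left, abs_neg, abs_of_pos hη])
  have hmem : ∀ x, E x ∈ Icc (a + η) (b - η) ↔ x ∈ Icc (a + η) (b - η) := by
    intro x
    constructor
    · rintro ⟨h2, h3⟩
      exact ⟨hm.le_iff_le.1 (by rw [hc]; exact h2), hm.le_iff_le.1 (by rw [hd]; exact h3)⟩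
    · rintro ⟨h2, h3⟩
      exact ⟨hc.symm.le.trans (hm.monotone h2), (hm.monotone h3).trans hd.le⟩
  set G : Pm := Equiv.Perm.ofSubtype (E.subtypePerm (p := fun x => x ∈ Icc (a + η) (b - η))
    hmem) with hG
  have hGin : ∀ x, x ∈ Icc (a + η) (b - η) → G x = E x := by
    intro x hx
    rw [hG, Equiv.Perm.ofSubtype_apply_of_mem (p := fun x => x ∈ Icc (a + η) (b - η)) _ hx]
    rfl
  have hGout : ∀ x, x ∉ Icc (a + η) (b - η) → G x = x := by
    intro x hx
    rw [hG, Equiv.Perm.ofSubtype_apply_of_not_mem (p := fun x => x ∈ Icc (a + η) (b - η)) _ hx]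
  have hGE : ∀ x ∈ Icc a b, G x = E x := by
    intro x hx
    by_cases h : x ∈ Icc (a + η) (b - η)
    · exact hGin x h
    · rw [hGout x h]
      by_cases h1 : a + η ≤ x
      · have h2 : b - η < x := by
          by_contra h3
          exact h ⟨h1, not_lt.1 h3⟩
        exact (hb x (abs_le.2 ⟨by linarith [hx.2], by linarith [hx.2]⟩)).symm
      · push Not at h1
        exact (ha x (abs_le.2 ⟨by linarith [hx.1], by linarith [hx.1]⟩)).symm
  -- local description of the displacement of `G`
  have hloc : ∀ x : ℝ, disp G =ᶠ[𝓝 x] disp E ∨ (disp G =ᶠ[𝓝 x] fun _ => (0 : ℝ)) := by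
    intro x
    by_cases hx : x ∈ Ioo a b
    · left
      filter_upwards [isOpen_Ioo.mem_nhds hx] with z hz
      rw [disp, disp, hGE z ⟨hz.1.le, hz.2.le⟩]
    · right
      by_cases hx0 : x ≤ a
      · have hx1 : x < a + η := by linarith
        filter_upwards [isOpen_Iio.mem_nhds hx1] with z hz
        rw [disp, hGout z (fun h => absurd h.1 (not_le.2 hz)), sub_self]
      · have hx1 : b ≤ x := by
          by_contra h3
          exact hx ⟨not_le.1 hx0, not_le.1 h3⟩
        have hx2 : b - η < x := by linarith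
        filter_upwards [isOpen_Ioi.mem_nhds hx2] with z hz
        rw [disp, hGout z (fun h => absurd h.2 (not_le.2 hz)), sub_self]
  refine ⟨G, fun x hx => hGout x hx, hGE, ⟨?_, ?_⟩, ?_⟩
  · refine contDiff_iff_contDiffAt.2 ?_
    intro x
    rcases hloc x with h | h
    · exact hE.smooth.contDiffAt.congr_of_eventuallyEq h
    · exact contDiffAt_const.congr_of_eventuallyEq h
  · intro i hi x
    rcases hloc x with h | h
    · rw [h.iteratedDeriv_eq i]
      exact hE.bound i hi x
    · rw [h.iteratedDeriv_eq i, iteratedDeriv_fun_const_zero, abs_zero]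
      exact div_nonneg hA (pow_nonneg hl.le i)
  · intro x y hxy
    by_cases h1 : x ∈ Icc (a + η) (b - η)
    · by_cases h2 : y ∈ Icc (a + η) (b - η)
      · rw [hGin x h1, hGin y h2]
        exact hm hxy
      · rw [hGin x h1, hGout y h2]
        have h3 := (hmem x).2 h1
        have h4 : b - η < y := by
          by_contra h5
          exact h2 ⟨h1.1.trans hxy.le, not_lt.1 h5⟩
        exact lt_of_le_of_lt h3.2 h4
    · by_cases h2 : y ∈ Icc (a + η) (b - η)
      · rw [hGout x h1, hGin y h2]
        have h3 := (hmem y).2 h2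
        have h4 : x < a + η := by
          by_contra h5
          exact h1 ⟨not_lt.1 h5, hxy.le.trans h2.2⟩
        exact lt_of_lt_of_le h4 h3.1
      · rw [hGout x h1, hGout y h2]
        exact hxy

end FG40
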