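import Pool.Agent.LibFG40.Defs

/-! # D0c: permutations with small displacement; words -/

open Filter Topology Set

namespace FG40

open GD31

/-- derivative `≥ 1 - A / l > 0` -/
theorem strictMono_of_nl {k : ℕ} (hk : 1 ≤ k) {A l : ℝ} (hl : 0 < l) (hA : A < l) {F : Pm}
    (h : Nl k A l (disp F)) : StrictMono F := by
  have hF : (F : ℝ → ℝ) = fun x => x + disp F x := by
    funext x
    unfold disp
    ring
  have hdiff : Differentiable ℝ (disp F) := h.smooth.differentiable (by simp)
  have hder : ∀ x, HasDerivAt (fun x => x + disp F x) (1 + deriv (disp F) x) x := fun x =>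
    (hasDerivAt_id x).add (hdiff x).hasDerivAt
  rw [hF]
  refine strictMono_of_deriv_pos fun x => ?_
  rw [(hder x).deriv]
  have h1 := (abs_le.1 (ck4_deriv hk h x)).1
  have h2 : A / l < 1 := (div_lt_one hl).2 hA
  linarith

theorem strictMono_inv {F : Pm} (h : StrictMono F) : StrictMono (F⁻¹ : Pm) := by
  intro x y hxy
  by_contra hcon
  have h1 : F (F⁻¹ y) ≤ F (F⁻¹ x) := h.monotone (not_lt.1 hcon)
  have h2 : F (F⁻¹ y) = y := Equiv.apply_symm_apply F y
  have h3 : F (F⁻¹ x) = x := Equiv.apply_symm_apply F x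
  rw [h2, h3] at h1
  exact absurd hxy (not_lt.2 h1)

/-- `GD31.exists_perm` and `strictMono_of_nl` -/
theorem perm_of_nl (k : ℕ) (hk : 1 ≤ k) : ∃ C : ℝ, 1 ≤ C ∧ ∀ (B l : ℝ) (ψ : ℝ → ℝ), 0 < l → 0 ≤ B →
    C * B ≤ l → Nl k B l ψ →
    ∃ F : Pm, (∀ x, F x = x + ψ x) ∧ Nl k B l (disp F) ∧ Nl k (C * B) l (disp F⁻¹) ∧ StrictMono F := by
  obtain ⟨C, hC, h⟩ := exists_perm k hk
  refine ⟨C + 1, by linarith, fun B l ψ hl hB hCB hψ => ?_⟩
  have h1 : C * B ≤ l := by nlinarith
  obtain ⟨F, hF, hFi⟩ := h B l ψ hl hB h1 hψ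
  have hd : disp F = ψ := by
    funext x
    unfold disp
    rw [hF]
    ring
  have h2 : Nl k B l (disp F) := by
    rw [hd]
    exact hψ
  have h3 : B < l := by nlinarith
  refine ⟨F, hF, h2, ?_, strictMono_of_nl hk hl h3 h2⟩
  exact hFi.mono le_rfl (by positivity) (by nlinarith) hl le_rfl

private theorem d0c_one (k : ℕ) {l : ℝ} (hl : 0 < l) : Nl k 0 l (disp (1 : Pm)) := by
  have h1 := ck4_const k hl 0
  rw [abs_zero] at h1
  have h2 : disp (1 : Pm) = fun _ => (0 : ℝ) := by
    funext x
    unfold disp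
    rw [Equiv.Perm.one_apply, sub_self]
  rw [h2]
  exact h1

/-- induction on the reduced word (`FreeGroup.toWord`, as in `GC45.lift_local`,
`Pool/Agent/LibGC45/B4b.lean`), letter on the left: `Nl.mul_perm` with `A` = letter, `B` = rest -/
theorem word_nl (k : ℕ) : ∃ C : ℝ, 1 ≤ C ∧ ∀ (N : ℕ) (L : Fin N → Pm) (A l : ℝ) (w : FreeGroup (Fin N)),
    0 < l → 0 ≤ A → (∀ j, Nl k A l (disp (L j))) → (∀ j, Nl k A l (disp (L j)⁻¹)) →
    C * (w.norm + 1) * A ≤ l → Nl k (C * w.norm * A) l (disp (FreeGroup.lift L w : Pm)) := by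
  obtain ⟨C, hC, h⟩ := Nl.mul_perm k
  refine ⟨C, hC, fun N L A l w hl hA h1 h2 hCl => ?_⟩
  have key : ∀ W : List (Fin N × Bool), C * ((W.length : ℝ) + 1) * A ≤ l →
      Nl k (C * (W.length : ℝ) * A) l (disp (FreeGroup.lift L (FreeGroup.mk W) : Pm)) := by
    intro W
    induction W with
    | nil =>
      intro _
      rw [List.length_nil, Nat.cast_zero, mul_zero, zero_mul, FreeGroup.lift_mk, List.map_nil, List.prod_nil]
      exact d0c_one k hl
    | cons a W ih =>
      intro hW
      rw [List.length_cons, Nat.cast_add, Nat.cast_one] at hW ⊢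
      have hCA : 0 ≤ C * A := by positivity
      have h3 : C * ((W.length : ℝ) + 1) * A ≤ l := by nlinarith
      have h4 := ih h3
      have h5 : C * (W.length : ℝ) * A ≤ l := by nlinarith
      have h6 : Nl k A l (disp (bif a.2 then L a.1 else (L a.1)⁻¹ : Pm)) := by
        obtain ⟨j, b⟩ := a
        cases b with
        | true => exact h1 j
        | false => exact h2 j
      have h7 := h A (C * (W.length : ℝ) * A) l _ _ hl hA (by positivity) h5 h6 h4
      have h8 : (FreeGroup.lift L (FreeGroup.mk (a :: W)) : Pm) =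
          (bif a.2 then L a.1 else (L a.1)⁻¹) * FreeGroup.lift L (FreeGroup.mk W) := by
        rw [FreeGroup.lift_mk, FreeGroup.lift_mk, List.map_cons, List.prod_cons]
      rw [h8]
      have h9 : C * ((W.length : ℝ) + 1) * A = C * A + C * (W.length : ℝ) * A := by ring
      rw [h9]
      exact h7
  have h10 := key w.toWord hCl
  rw [FreeGroup.mk_toWord] at h10
  exact h10

theorem word_mono {N : ℕ} {L : Fin N → Pm} (h : ∀ j, StrictMono (L j)) (w : FreeGroup (Fin N)) :
    StrictMono (FreeGroup.lift L w : Pm) := by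
  have key : ∀ W : List (Fin N × Bool), StrictMono (FreeGroup.lift L (FreeGroup.mk W) : Pm) := by
    intro W
    induction W with
    | nil =>
      rw [FreeGroup.lift_mk, List.map_nil, List.prod_nil]
      exact strictMono_id
    | cons a W ih =>
      have h8 : (FreeGroup.lift L (FreeGroup.mk (a :: W)) : Pm) =
          (bif a.2 then L a.1 else (L a.1)⁻¹) * FreeGroup.lift L (FreeGroup.mk W) := by
        rw [FreeGroup.lift_mk, FreeGroup.lift_mk, List.map_cons, List.prod_cons]
      have h6 : StrictMono (bif a.2 then L a.1 else (L a.1)⁻¹ : Pm) := by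
        obtain ⟨j, b⟩ := a
        cases b with
        | true => exact h j
        | false => exact strictMono_inv (h j)
      rw [h8, Equiv.Perm.coe_mul]
      exact h6.comp ih
  have h10 := key w.toWord
  rw [FreeGroup.mk_toWord] at h10
  exact h10

end FG40
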