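import Pool.Agent.LibFG40.A3
import Pool.Agent.LibFG40.D0a
import Pool.Agent.LibFG40.D0c

/-! # D1a: local copies of `φ` and of the powers of `f` near a block -/

open Filter Topology Set

namespace FG40

open GD31

/-- `χ φ`, `χ` from `bump` (scale `l`, `= 1` on `|x - c| ≤ 10 l`, supported in `|x - c| ≤ 11 l`), `cut_mul`,
`HF.block` -/
theorem local_copy (r : ℕ) : ∃ C : ℝ, 1 ≤ C ∧ ∀ (φ : ℝ → ℝ) (ι : Type) (p l : ι → ℝ) (col : ι → Fin 16)
    (i : ι), HF r φ → BS (rho r φ) ι p l col →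
    ∃ φi : ℝ → ℝ, Nl (r + 5) (C * l i ^ Qr r) (l i) φi ∧
      ∀ x, |x - (p i + l i / 2)| ≤ 10 * l i → φi x = φ x := by
  obtain ⟨C, hC, hbump⟩ := bump (r + 5)
  have h2 : (1 : ℝ) ≤ 2 ^ (r + 5) := one_le_pow₀ (by norm_num)
  have h3 : (1 : ℝ) ≤ (11 / 5) ^ Qr r := one_le_pow₀ (by norm_num)
  refine ⟨2 ^ (r + 5) * C * (11 / 5) ^ Qr r, ?_, ?_⟩
  · exact one_le_mul_of_one_le_of_one_le (one_le_mul_of_one_le_of_one_le h2 hC) h3
  · intro φ ι p l col i h hB
    have hl := hB.pos i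
    obtain ⟨χ, hχ, -, hχ1, hχ0⟩ := hbump (p i + l i / 2 - 11 * l i) (p i + l i / 2 + 11 * l i) (l i) hl
      (by linarith)
    refine ⟨fun x => χ x * φ x, ?_, ?_⟩
    · have hc := cut_mul (r + 5) (A := (11 / 5 * l i) ^ Qr r) (B := C) (l := l i)
        (a := p i + l i / 2 - 11 * l i) (b := p i + l i / 2 + 11 * l i) (χ := χ) (g := φ) hl
        (by positivity) (by linarith) hχ hχ0 h.smooth (by
          intro j hj x hx
          refine h.block hB i (by omega) ?_
          rw [abs_le]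
          constructor
          · linarith [hx.1]
          · linarith [hx.2])
      have he : 2 ^ (r + 5) * C * (11 / 5) ^ Qr r * l i ^ Qr r =
          2 ^ (r + 5) * C * (11 / 5 * l i) ^ Qr r := by
        rw [mul_pow]
        ring
      rw [he]
      exact hc
    · intro x hx
      rw [abs_le] at hx
      have : χ x = 1 := hχ1 x ⟨by linarith [hx.1], by linarith [hx.2]⟩
      simp only [this, one_mul]

private theorem d1a_kr_le (r : ℕ) : kr r ≤ 1 / 8 := by
  unfold kr
  have h1 := dr_le r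
  have h0 := dr_pos r
  have h2 : dr r / 8 ≤ 1 / 8 := by
    have : ((1 : ℝ) / 10) ^ 12 ≤ 1 := by norm_num
    linarith
  have h3 : (dr r / 8) ^ Pr r ≤ dr r / 8 := by
    refine pow_le_of_le_one (by linarith) (by linarith) ?_
    exact (Pr_pos r).ne'
  linarith

private theorem d1a_kr_nonneg (r : ℕ) : 0 ≤ kr r := by
  unfold kr
  have h0 := dr_pos r
  positivity

private theorem d1a_deriv {r : ℕ} {φ : ℝ → ℝ} (h : HF r φ) (x : ℝ) : |deriv φ x| ≤ 1 / 8 := by
  have h1 : 1 ≤ Kr r := by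
    unfold Kr
    exact Nat.one_le_iff_ne_zero.2 (by positivity)
  have := h.bound' h1 x
  rw [iteratedDeriv_one] at this
  exact this.trans (d1a_kr_le r)

private theorem d1a_hasDeriv {r : ℕ} {φ : ℝ → ℝ} (h : HF r φ) (x : ℝ) :
    HasDerivAt (fun x => x + φ x) (1 + deriv φ x) x := by
  have hd : Differentiable ℝ φ := h.smooth.differentiable (by simp)
  exact (hasDerivAt_id x).add (hd x).hasDerivAt

/-- the permutation `f = id + φ`: `|φ'| ≤ kr r ≤ 1/8`, `φ` bounded (`exists_perm` or directly) -/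
theorem HF.exists_perm {r : ℕ} {φ : ℝ → ℝ} (h : HF r φ) : ∃ f : Pm, ∀ x, f x = x + φ x := by
  have hmono : StrictMono (fun x => x + φ x) := by
    refine strictMono_of_deriv_pos (fun x => ?_)
    rw [(d1a_hasDeriv h x).deriv]
    have := abs_le.1 (d1a_deriv h x)
    linarith [this.1]
  have hb : ∀ x, |φ x| ≤ 1 / 8 := by
    intro x
    have := h.bound' (Nat.zero_le _) x
    rw [iteratedDeriv_zero] at this
    exact this.trans (d1a_kr_le r)
  have hcont : Continuous (fun x => x + φ x) := continuous_id.add h.smooth.continuous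
  have hsurj : Function.Surjective (fun x => x + φ x) := by
    refine hcont.surjective ?_ ?_
    · have h1 : ∀ x : ℝ, x + (-(1 / 8)) ≤ x + φ x := fun x => by
        have := abs_le.1 (hb x)
        linarith [this.1]
      exact tendsto_atTop_mono h1 (tendsto_atTop_add_const_right _ _ tendsto_id)
    · have h1 : ∀ x : ℝ, x + φ x ≤ x + 1 / 8 := fun x => by
        have := abs_le.1 (hb x)
        linarith [this.2]
      exact tendsto_atBot_mono h1 (tendsto_atBot_add_const_right _ _ tendsto_id)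
  exact ⟨Equiv.ofBijective _ ⟨hmono.injective, hsurj⟩, fun x => rfl⟩

theorem HF.gd {r : ℕ} {φ : ℝ → ℝ} (h : HF r φ) {f : Pm} (hf : ∀ x, f x = x + φ x) : Gd r f := by
  have he : (f : ℝ → ℝ) = fun x => x + φ x := funext hf
  refine ⟨?_, ?_, ?_⟩
  · rw [he]
    exact contDiff_id.add (h.smooth.of_le (by exact_mod_cast le_top))
  · intro x
    rw [he, (d1a_hasDeriv h x).deriv]
    have := abs_le.1 (d1a_deriv h x)
    linarith [this.1]
  · intro x hx
    rw [hf, h.left x hx, add_zero]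

private theorem d1a_disp_pow {F : Pm} {ψ : ℝ → ℝ} (h : ∀ x, F x = x + ψ x) (n : ℕ) :
    disp (F ^ n : Pm) = it 0 ψ n := by
  induction n with
  | zero =>
    funext x
    simp [disp, it]
  | succ n ih =>
    funext x
    have h1 := congrFun ih x
    simp only [disp] at h1
    have h2 : (F ^ n : Pm) x = x + it 0 ψ n x := by linarith
    have h3 : (F ^ (n + 1) : Pm) x = F ((F ^ n : Pm) x) := by
      rw [pow_succ']
      rfl
    simp only [disp, it, sub_zero]
    rw [h3, h, h2]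
    ring

private theorem d1a_mono_pow {F : Pm} (h : StrictMono F) (n : ℕ) : StrictMono (F ^ n : Pm) := by
  induction n with
  | zero =>
    intro a b hab
    simpa using hab
  | succ n ih =>
    intro a b hab
    have h3 : ∀ x, (F ^ (n + 1) : Pm) x = F ((F ^ n : Pm) x) := fun x => by
      rw [pow_succ']
      rfl
    rw [h3, h3]
    exact h (ih hab)

/-- `f_i = id + φ_i` (`perm_of_nl`; `C l^Q ≤ l / C`), `F = f_i ^ n`: `disp F = it 0 φ_i n`
(`GD31.it`, `GD31.it_bound` with `α = 0`), and the same for `f_i⁻¹`. For `|x - c| ≤ 9 l` the points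
`f_i^j x`, `j ≤ n`, are in `|· - c| ≤ 10 l` (each step moves by `≤ C l^Q`, `n C l^Q ≤ l`), where `f_i = f`. -/
theorem local_iter (r : ℕ) : ∃ C : ℝ, 1 ≤ C ∧ ∀ (φ : ℝ → ℝ) (f : Pm) (ι : Type) (p l : ι → ℝ)
    (col : ι → Fin 16) (i : ι) (n : ℕ), HF r φ → (∀ x, f x = x + φ x) → BS (rho r φ) ι p l col →
    C * (n + 1) * l i ≤ 1 →
    ∃ F : Pm, Nl (r + 5) (C * (n + 1) * l i ^ Qr r) (l i) (disp F) ∧
      Nl (r + 5) (C * (n + 1) * l i ^ Qr r) (l i) (disp F⁻¹) ∧ StrictMono F ∧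
      ∀ x, |x - (p i + l i / 2)| ≤ 9 * l i → F x = (f ^ n) x := by
  obtain ⟨C1, hC1, hcopy⟩ := local_copy r
  obtain ⟨C2, hC2, hit⟩ := it_bound (r + 5)
  obtain ⟨C3, hC3, hperm⟩ := perm_of_nl (r + 5) (by omega)
  have hC : 1 ≤ C1 * C2 * C3 :=
    one_le_mul_of_one_le_of_one_le (one_le_mul_of_one_le_of_one_le hC1 hC2) hC3
  refine ⟨C1 * C2 * C3, hC, ?_⟩
  intro φ f ι p l col i n h hf hB hn
  have hl := hB.pos i
  have hn0 : (0 : ℝ) ≤ n := Nat.cast_nonneg n
  have hl1 : l i ≤ 1 := by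
    have : 1 * 1 * l i ≤ C1 * C2 * C3 * (n + 1) * l i := by
      refine mul_le_mul_of_nonneg_right ?_ hl.le
      exact mul_le_mul hC (by linarith) (by norm_num) (by linarith)
    linarith
  obtain ⟨φi, hφi, heq⟩ := hcopy φ ι p l col i h hB
  -- `(n+1) C l^Q ≤ l`
  have hQ : l i ^ Qr r ≤ l i * l i := by
    have : Qr r = 2 + (6 * r ^ 2 + 14 * r + 14) := by
      unfold Qr
      ring
    rw [this, pow_add, pow_two]
    exact mul_le_of_le_one_right (by positivity) (pow_le_one₀ hl.le hl1)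
  have hQ0 : 0 ≤ l i ^ Qr r := by positivity
  have hbig : C1 * C2 * C3 * (n + 1) * l i ^ Qr r ≤ l i := by
    calc C1 * C2 * C3 * (n + 1) * l i ^ Qr r ≤ C1 * C2 * C3 * (n + 1) * (l i * l i) :=
          mul_le_mul_of_nonneg_left hQ (by positivity)
      _ = (C1 * C2 * C3 * (n + 1) * l i) * l i := by ring
      _ ≤ 1 * l i := mul_le_mul_of_nonneg_right hn hl.le
      _ = l i := one_mul _
  have hC1p : 0 < C1 := by linarith
  have hC2p : 0 < C2 := by linarith
  have hC3p : 0 < C3 := by linarith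
  have a1 : C1 ≤ C1 * C2 * C3 := by
    have : C1 * 1 * 1 ≤ C1 * C2 * C3 :=
      mul_le_mul (mul_le_mul_of_nonneg_left hC2 hC1p.le) hC3 (by norm_num) (by positivity)
    linarith
  have a2 : C3 * C1 ≤ C1 * C2 * C3 := by
    have : C1 * 1 * C3 ≤ C1 * C2 * C3 :=
      mul_le_mul_of_nonneg_right (mul_le_mul_of_nonneg_left hC2 hC1p.le) hC3p.le
    linarith
  have a3 : C2 * C1 ≤ C1 * C2 * C3 := by
    have : C1 * C2 * 1 ≤ C1 * C2 * C3 := mul_le_mul_of_nonneg_left hC3 (by positivity)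
    linarith
  have b1 : C3 * (C1 * l i ^ Qr r) ≤ l i := by
    have e1 : C3 * (C1 * l i ^ Qr r) ≤ C1 * C2 * C3 * (n + 1) * l i ^ Qr r := by
      rw [← mul_assoc]
      refine mul_le_mul_of_nonneg_right ?_ hQ0
      calc C3 * C1 ≤ C1 * C2 * C3 := a2
        _ ≤ C1 * C2 * C3 * (n + 1) := le_mul_of_one_le_right (by positivity) (by linarith)
    linarith
  obtain ⟨F1, hF1, hF1d, hF1i, hF1m⟩ := hperm (C1 * l i ^ Qr r) (l i) φi hl (by positivity) b1 hφi
  -- sizes of the powers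
  have hpow : ∀ m : ℕ, m ≤ n → Nl (r + 5) (C1 * C2 * C3 * (n + 1) * l i ^ Qr r) (l i)
      (disp (F1 ^ m : Pm)) := by
    intro m hm
    have hm' : (m : ℝ) ≤ n := Nat.cast_le.2 hm
    have hm0 : (0 : ℝ) ≤ m := Nat.cast_nonneg m
    have e1 : C2 * m * (C1 * l i ^ Qr r) ≤ C1 * C2 * C3 * (n + 1) * l i ^ Qr r := by
      have : C2 * m * (C1 * l i ^ Qr r) = C2 * C1 * m * l i ^ Qr r := by ring
      rw [this]
      refine mul_le_mul_of_nonneg_right ?_ hQ0
      exact mul_le_mul a3 (by linarith) hm0 (by positivity)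
    rw [d1a_disp_pow hF1 m]
    have h1 := hit (C1 * l i ^ Qr r) (l i) 0 φi m hl (by positivity) (e1.trans hbig) hφi
    exact h1.mono le_rfl (by positivity) e1 hl le_rfl
  have hpowi : Nl (r + 5) (C1 * C2 * C3 * (n + 1) * l i ^ Qr r) (l i)
      (disp (F1 ^ n : Pm)⁻¹) := by
    have e0 : (F1 ^ n : Pm)⁻¹ = (F1⁻¹ : Pm) ^ n := by rw [inv_pow]
    have hF1' : ∀ x, (F1⁻¹ : Pm) x = x + disp F1⁻¹ x := fun x => by
      simp [disp]
    have e1 : C2 * n * (C3 * (C1 * l i ^ Qr r)) ≤ C1 * C2 * C3 * (n + 1) * l i ^ Qr r := by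
      have : C2 * n * (C3 * (C1 * l i ^ Qr r)) = C1 * C2 * C3 * n * l i ^ Qr r := by ring
      rw [this]
      refine mul_le_mul_of_nonneg_right ?_ hQ0
      exact mul_le_mul_of_nonneg_left (by linarith) (by positivity)
    rw [e0, d1a_disp_pow hF1' n]
    have h1 := hit (C3 * (C1 * l i ^ Qr r)) (l i) 0 (disp F1⁻¹) n hl (by positivity)
      (e1.trans hbig) hF1i
    exact h1.mono le_rfl (by positivity) e1 hl le_rfl
  refine ⟨F1 ^ n, hpow n le_rfl, hpowi, d1a_mono_pow hF1m n, ?_⟩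
  intro x hx
  have key : ∀ m : ℕ, m ≤ n → (F1 ^ m : Pm) x = (f ^ m : Pm) x := by
    intro m
    induction m with
    | zero => intro _; simp
    | succ m ih =>
      intro hm
      have ihm := ih (by omega)
      have h3 : (F1 ^ (m + 1) : Pm) x = F1 ((F1 ^ m : Pm) x) := by
        rw [pow_succ']
        rfl
      have h4 : (f ^ (m + 1) : Pm) x = f ((f ^ m : Pm) x) := by
        rw [pow_succ']
        rfl
      have h5 := (hpow m (by omega)).bound 0 (Nat.zero_le _) x
      rw [iteratedDeriv_zero, pow_zero, div_one] at h5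
      have h6 : |(F1 ^ m : Pm) x - x| ≤ l i := h5.trans hbig
      have h7 : |(F1 ^ m : Pm) x - (p i + l i / 2)| ≤ 10 * l i := by
        have : (F1 ^ m : Pm) x - (p i + l i / 2) = ((F1 ^ m : Pm) x - x) + (x - (p i + l i / 2)) := by
          ring
        rw [this]
        refine (abs_add_le _ _).trans ?_
        linarith
      rw [h3, h4, hF1, heq _ h7, ← hf, ihm]
  exact key n le_rfl

end FG40
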