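import Pool.Agent.LibFG40.D1a

/-! # D1c: junction maps. `J = id + χ · disp F`, `F` from `local_iter`, `χ` from `bump` with
`a, b = p ∓ (l/4)^(r+1)` and transition length `(l/4)^(r+1) / 2`; `Nl.mul` at that scale, `nl_scale` to the scale
`l^(r+1)`; `perm_of_nl`. Here `l ≤ 1` (`BS.tiny`). -/

open Filter Topology Set

namespace FG40

open GD31

theorem exists_JM (r : ℕ) (hr : 1 ≤ r) : ∃ C : ℝ, 1 ≤ C ∧ ∀ (φ : ℝ → ℝ) (f : Pm) (ι : Type) (p l : ι → ℝ)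
    (col : ι → Fin 16) (i : ι) (n : ℕ), HF r φ → (∀ x, f x = x + φ x) → BS (rho r φ) ι p l col →
    C * (n + 1) * l i ≤ 1 → ∃ J : Pm, JM r C n f (p i) (l i) J := by
  obtain ⟨C1, hC1, hI⟩ := local_iter r
  obtain ⟨C2, hC2, hbump⟩ := bump (r + 3)
  obtain ⟨C3, hC3, hperm⟩ := perm_of_nl (r + 3) (by omega)
  obtain ⟨c, hc⟩ : ∃ c : ℝ, c = 2 * 4 ^ (r + 1) := ⟨_, rfl⟩
  have h4 : (1 : ℝ) ≤ 4 ^ (r + 1) := one_le_pow₀ (by norm_num)
  have hc1 : 1 ≤ c := by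
    rw [hc]
    linarith
  obtain ⟨K, hK⟩ : ∃ K : ℝ, K = 2 ^ (r + 3) * C2 * c ^ (r + 3) := ⟨_, rfl⟩
  have hK1 : 1 ≤ K := by
    rw [hK]
    have h1 : (1 : ℝ) ≤ 2 ^ (r + 3) := one_le_pow₀ (by norm_num)
    have h2 : (1 : ℝ) ≤ c ^ (r + 3) := one_le_pow₀ hc1
    exact one_le_mul_of_one_le_of_one_le (one_le_mul_of_one_le_of_one_le h1 hC2) h2
  have hCC : 1 ≤ C3 * K := one_le_mul_of_one_le_of_one_le hC3 hK1
  have hC : 1 ≤ C3 * K * C1 := one_le_mul_of_one_le_of_one_le hCC hC1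
  refine ⟨C3 * K * C1, hC, ?_⟩
  intro φ f ι p l col i n hφ hf hB hn
  have hL : 0 < l i := hB.pos i
  have hL1 : l i ≤ 1 := (hB.tiny i).trans (by norm_num)
  have hn1 : (0 : ℝ) < (n : ℝ) + 1 := by positivity
  have hn0 : C1 * (n + 1) * l i ≤ 1 := by
    refine le_trans ?_ hn
    refine mul_le_mul_of_nonneg_right (mul_le_mul_of_nonneg_right ?_ hn1.le) hL.le
    have h1 : 0 ≤ C1 := zero_le_one.trans hC1
    nlinarith
  obtain ⟨F, hF1, _, _, hF4⟩ := hI φ f ι p l col i n hφ hf hB hn0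
  clear hB
  generalize l i = L at *
  generalize p i = P at *
  obtain ⟨η, hη⟩ : ∃ η : ℝ, η = (L / 4) ^ (r + 1) := ⟨_, rfl⟩
  have hη0 : 0 < η := by
    rw [hη]
    positivity
  have hηL : η ≤ L / 4 := by
    rw [hη, pow_succ]
    have h1 : (L / 4) ^ r ≤ 1 := pow_le_one₀ (by positivity) (by linarith)
    have h2 : 0 ≤ L / 4 := by positivity
    nlinarith
  have hcη : c * (η / 2) = L ^ (r + 1) := by
    rw [hc, hη, div_pow]
    field_simp
  obtain ⟨χ, hχ1, hχ2, hχ3, hχ4⟩ := hbump (P - η) (P + η) (η / 2) (by positivity) (by linarith)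
  obtain ⟨A, hA⟩ : ∃ A : ℝ, A = C1 * (n + 1) * L ^ Qr r := ⟨_, rfl⟩
  have hA0 : 0 ≤ A := by
    rw [hA]
    have h1 : 0 ≤ C1 := zero_le_one.trans hC1
    positivity
  rw [← hA] at hF1
  have hF2 : Nl (r + 3) A (η / 2) (disp F) :=
    hF1.mono (by omega) hA0 le_rfl (by positivity) (by linarith)
  have h5 := hχ1.mul hF2 (by positivity) (zero_le_one.trans hC2) hA0
  have h6 := nl_scale (by
    have : 0 ≤ C2 := zero_le_one.trans hC2
    positivity) (by positivity) hc1 h5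
  rw [hcη] at h6
  have h7 : 2 ^ (r + 3) * C2 * A * c ^ (r + 3) = K * A := by
    rw [hK]
    ring
  rw [h7] at h6
  have hK0 : 0 ≤ K := zero_le_one.trans hK1
  have hC30 : 0 ≤ C3 := zero_le_one.trans hC3
  have hKA : 0 ≤ K * A := mul_nonneg hK0 hA0
  have h8 : C3 * (K * A) = C3 * K * C1 * (n + 1) * L ^ Qr r := by
    rw [hA]
    ring
  have h9 : C3 * (K * A) ≤ L ^ (r + 1) := by
    rw [h8]
    obtain ⟨m, hm⟩ : ∃ m : ℕ, Qr r = (r + 1) + 1 + m :=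
      ⟨Qr r - (r + 2), by unfold Qr; nlinarith [Nat.sub_add_cancel (show r + 2 ≤ 6 * r ^ 2 + 14 * r + 16 by nlinarith)]⟩
    have h10 : C3 * K * C1 * (n + 1) * L ^ Qr r =
        (C3 * K * C1 * (n + 1) * L) * (L ^ (r + 1) * L ^ m) := by
      rw [hm, pow_add, pow_add]
      ring
    rw [h10]
    have h11 : L ^ m ≤ 1 := pow_le_one₀ hL.le hL1
    have h12 : 0 < L ^ (r + 1) := by positivity
    have h13 : L ^ (r + 1) * L ^ m ≤ L ^ (r + 1) * 1 := mul_le_mul_of_nonneg_left h11 h12.le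
    have h14 : 0 ≤ L ^ (r + 1) * L ^ m := by positivity
    calc (C3 * K * C1 * (n + 1) * L) * (L ^ (r + 1) * L ^ m)
        ≤ 1 * (L ^ (r + 1) * L ^ m) := mul_le_mul_of_nonneg_right hn h14
      _ ≤ L ^ (r + 1) := by linarith
  obtain ⟨J, hJ1, hJ2, hJ3, hJ4⟩ := hperm (K * A) (L ^ (r + 1)) _ (by positivity) hKA h9 h6
  have h15 : K * A ≤ C3 * K * C1 * (n + 1) * L ^ Qr r := by
    rw [← h8]
    nlinarith
  refine ⟨J, ?_, ?_, ?_, hJ4, ?_⟩
  · intro x hx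
    rw [hJ1, hχ4 x (by rw [hη]; exact hx), zero_mul, add_zero]
  · exact hJ2.mono le_rfl hKA h15 (by positivity) le_rfl
  · rw [h8] at hJ3
    exact hJ3
  · intro x hx
    rw [← hη] at hx
    have h16 := abs_le.1 hx
    rw [hJ1, hχ3 x ⟨by linarith [h16.1], by linarith [h16.2]⟩, one_mul]
    have h17 : x + disp F x = F x := by
      unfold disp
      ring
    rw [h17]
    refine hF4 x ?_
    rw [abs_le]
    constructor <;> linarith [h16.1, h16.2]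

end FG40
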