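import Pool.Agent.LibFG40.D0b
import Pool.Agent.LibFG40.D1a

/-! # D2: the cut maps.

Plan. `z = l^(r+1)`, `l = l i`, `q = p + l`, `F` from `local_iter`, `E = J⁻¹ * J'⁻¹ * F`. `l/2 ≤ l j ≤ 2 l`
(`BS.ratio` at the point `q`), so `J'` is supported within `(l/2)^(r+1) ≤ z` of `q` and `J' = f^n` within
`(l/8)^(r+1)/2 ≥ (l/16)^(r+1)` of `q`. `Nl` of `E` at scale `z`: `Nl.mul_perm` twice (the bound of `J'` is at scale
`(l j)^(r+1) ≥ (l/2)^(r+1)`: `Nl.mono`, `nl_scale`). `|x - p| ≤ (l/16)^(r+1)`: `F x = f^n x = J x`, not in the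
support of `J'`: `E x = x`; the same near `q` (`F x = J' x`). `G` from `restrict` with `η = (l/16)^(r+1)`.
`eq`: `J`, `J'` commute (disjoint supports): `J (J' (E x)) = F x = f^n x`. `core`: `|F x - x| ≤ C (n+1) l^Q ≤ z/2`,
so `F x` is off both supports. `StrictMono`: `strictMono_inv`. -/

open Filter Topology Set

namespace FG40

open GD31

private theorem d2_inv {F : Pm} {x : ℝ} (h : F x = x) : (F⁻¹ : Pm) x = x :=
  (Equiv.Perm.inv_eq_iff_eq).2 h.symm

private theorem d2_maps {F : Pm} {I : Set ℝ} (h : Supp F I) {x : ℝ} (hx : x ∈ I) : F x ∈ I := by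
  by_contra h1
  have h2 := h (F x) h1
  have h3 := F.injective h2
  rw [h3] at h1
  exact h1 hx

theorem exists_CutM (r : ℕ) (hr : 1 ≤ r) (C₁ : ℝ) (hC₁ : 1 ≤ C₁) : ∃ C : ℝ, 1 ≤ C ∧ ∀ (φ : ℝ → ℝ) (f : Pm)
    (ι : Type) (p l : ι → ℝ) (col : ι → Fin 16) (i j : ι) (n : ℕ) (J J' : Pm), HF r φ →
    (∀ x, f x = x + φ x) → BS (rho r φ) ι p l col → p j = p i + l i → C * (n + 1) * l i ≤ 1 →
    JM r C₁ n f (p i) (l i) J → JM r C₁ n f (p j) (l j) J' →
    ∃ G : Pm, CutM r C n f (p i) (l i) J J' G := by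
  obtain ⟨CF, hCF, hit⟩ := local_iter r
  obtain ⟨CM, hCM, hmul⟩ := Nl.mul_perm (r + 3)
  obtain ⟨K, hK⟩ : ∃ K : ℝ, K = C₁ * 2 ^ (Qr r) * (2 ^ (r + 1)) ^ (r + 3) := ⟨_, rfl⟩
  have hK0 : 0 ≤ K := by rw [hK]; positivity
  have hCMK : 0 ≤ CM * K := mul_nonneg (by linarith) hK0
  have hCMC : 0 ≤ CM * C₁ := mul_nonneg (by linarith) (by linarith)
  refine ⟨CM * K + (CM * C₁ + CF), by linarith, ?_⟩
  intro φ f ι p l col i j n J J' hφ hf hB hpj hsm hJ hJ'
  have hl : 0 < l i := hB.pos i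
  have hlj : 0 < l j := hB.pos j
  have hl1 : l i ≤ 1 := by
    have h1 := hB.tiny i
    have h2 : ((1 : ℝ) / 10) ^ 20 ≤ 1 := by norm_num
    linarith
  have hr1 : l i ≤ 2 * l j := by
    refine hB.ratio i j (p j) ?_ ?_
    · rw [hpj, abs_le]
      constructor <;> linarith
    · rw [abs_le]
      constructor <;> linarith
  have hr2 : l j ≤ 2 * l i := by
    refine hB.ratio j i (p j) ?_ ?_
    · rw [abs_le]
      constructor <;> linarith
    · rw [hpj, abs_le]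
      constructor <;> linarith
  obtain ⟨m, hm, hmr⟩ : ∃ m, Qr r = m + 1 ∧ r + 1 ≤ m :=
    ⟨6 * r ^ 2 + 14 * r + 15, by unfold Qr; ring, by nlinarith⟩
  have hn0 : (0 : ℝ) ≤ (n : ℝ) + 1 := by positivity
  have hz : 0 < l i ^ (r + 1) := pow_pos hl _
  have hzl : l i ^ (r + 1) ≤ l i := by
    calc l i ^ (r + 1) ≤ l i ^ 1 := pow_le_pow_of_le_one hl.le hl1 (by omega)
      _ = l i := pow_one _
  -- powers of fractions
  have hq4 : (l i / 4) ^ (r + 1) ≤ l i ^ (r + 1) / 4 := by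
    rw [div_pow]
    refine div_le_div_of_nonneg_left hz.le (by norm_num) ?_
    calc (4 : ℝ) = 4 ^ 1 := (pow_one _).symm
      _ ≤ 4 ^ (r + 1) := pow_le_pow_right₀ (by norm_num) (by omega)
  have hq2 : (l i / 2) ^ (r + 1) ≤ l i ^ (r + 1) / 2 := by
    rw [div_pow]
    refine div_le_div_of_nonneg_left hz.le (by norm_num) ?_
    calc (2 : ℝ) = 2 ^ 1 := (pow_one _).symm
      _ ≤ 2 ^ (r + 1) := pow_le_pow_right₀ (by norm_num) (by omega)
  have hj4 : (l j / 4) ^ (r + 1) ≤ l i ^ (r + 1) / 2 := by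
    refine le_trans (pow_le_pow_left₀ (by positivity) ?_ _) hq2
    linarith
  have h16 : (l i / 16) ^ (r + 1) ≤ (l i / 8) ^ (r + 1) / 2 := by
    have h1 : l i / 16 = l i / 8 / 2 := by ring
    rw [h1, div_pow (l i / 8)]
    refine div_le_div_of_nonneg_left (by positivity) (by norm_num) ?_
    calc (2 : ℝ) = 2 ^ 1 := (pow_one _).symm
      _ ≤ 2 ^ (r + 1) := pow_le_pow_right₀ (by norm_num) (by omega)
  have h16a : (l i / 16) ^ (r + 1) ≤ (l i / 4) ^ (r + 1) / 2 := by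
    have h1 : (l i / 8) ^ (r + 1) ≤ (l i / 4) ^ (r + 1) :=
      pow_le_pow_left₀ (by positivity) (by linarith) _
    linarith
  have h16b : (l i / 16) ^ (r + 1) ≤ (l j / 4) ^ (r + 1) / 2 := by
    have h1 : (l i / 8) ^ (r + 1) ≤ (l j / 4) ^ (r + 1) :=
      pow_le_pow_left₀ (by positivity) (by linarith) _
    linarith
  have h160 : 0 < (l i / 16) ^ (r + 1) := by positivity
  have h40 : 0 < (l i / 4) ^ (r + 1) := by positivity
  have hj40 : 0 < (l j / 4) ^ (r + 1) := by positivity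
  -- the local iterate
  have hX0 : 0 ≤ ((n : ℝ) + 1) * l i ^ Qr r := by positivity
  have hbig : (CM * K + (CM * C₁ + CF)) * (((n : ℝ) + 1) * l i ^ Qr r) ≤ l i ^ (r + 1) := by
    have h1 : (CM * K + (CM * C₁ + CF)) * (((n : ℝ) + 1) * l i ^ Qr r) =
        (CM * K + (CM * C₁ + CF)) * (n + 1) * l i * l i ^ m := by
      rw [hm, pow_succ]
      ring
    rw [h1]
    calc (CM * K + (CM * C₁ + CF)) * (n + 1) * l i * l i ^ m ≤ 1 * l i ^ m :=
          mul_le_mul_of_nonneg_right hsm (by positivity)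
      _ = l i ^ m := one_mul _
      _ ≤ l i ^ (r + 1) := pow_le_pow_of_le_one hl.le hl1 hmr
  have hCFsm : CF * (n + 1) * l i ≤ 1 := by
    refine le_trans ?_ hsm
    have h1 : 0 ≤ (CM * K + CM * C₁) * (n + 1) * l i := by positivity
    nlinarith
  obtain ⟨F, hF1, hF2, hF3, hF4⟩ := hit φ f ι p l col i n hφ hf hB hCFsm
  have hCFX : 0 ≤ CF * (((n : ℝ) + 1) * l i ^ Qr r) := mul_nonneg (by linarith) hX0
  have hC1X : 0 ≤ C₁ * (((n : ℝ) + 1) * l i ^ Qr r) := mul_nonneg (by linarith) hX0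
  have hKX : 0 ≤ K * (((n : ℝ) + 1) * l i ^ Qr r) := mul_nonneg hK0 hX0
  have hFN : Nl (r + 3) (CF * (((n : ℝ) + 1) * l i ^ Qr r)) (l i ^ (r + 1)) (disp F) := by
    refine hF1.mono (by omega) (by positivity) (le_of_eq (by ring)) hz hzl
  have hJN : Nl (r + 3) (C₁ * (((n : ℝ) + 1) * l i ^ Qr r)) (l i ^ (r + 1)) (disp J⁻¹) := by
    refine hJ.nli.mono le_rfl (by positivity) (le_of_eq (by ring)) hz le_rfl
  have hJN' : Nl (r + 3) (K * (((n : ℝ) + 1) * l i ^ Qr r)) (l i ^ (r + 1)) (disp J'⁻¹) := by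
    have hA : 0 ≤ C₁ * (n + 1) * (2 * l i) ^ Qr r := by positivity
    have h1 : Nl (r + 3) (C₁ * (n + 1) * (2 * l i) ^ Qr r) ((l i / 2) ^ (r + 1)) (disp J'⁻¹) := by
      refine hJ'.nli.mono le_rfl (by positivity) ?_ (by positivity) ?_
      · exact mul_le_mul_of_nonneg_left (pow_le_pow_left₀ hlj.le hr2 _) (by positivity)
      · exact pow_le_pow_left₀ (by positivity) (by linarith) _
    have h2 := nl_scale (c := 2 ^ (r + 1)) hA (by positivity) (one_le_pow₀ one_le_two) h1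
    have h3 : (2 : ℝ) ^ (r + 1) * (l i / 2) ^ (r + 1) = l i ^ (r + 1) := by
      rw [← mul_pow]
      congr 1
      ring
    have h4 : C₁ * ((n : ℝ) + 1) * (2 * l i) ^ Qr r * (2 ^ (r + 1)) ^ (r + 3) =
        K * (((n : ℝ) + 1) * l i ^ Qr r) := by
      rw [hK, mul_pow]
      ring
    rw [h3, h4] at h2
    exact h2
  have hb1 : CF * (((n : ℝ) + 1) * l i ^ Qr r) ≤ l i ^ (r + 1) := by
    refine le_trans ?_ hbig
    have h1 : 0 ≤ (CM * K + CM * C₁) * (((n : ℝ) + 1) * l i ^ Qr r) :=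
      mul_nonneg (by linarith) hX0
    linarith [add_mul (CM * K + CM * C₁) CF (((n : ℝ) + 1) * l i ^ Qr r)]
  have hN1 := hmul _ _ _ J⁻¹ F hz hC1X hCFX hb1 hJN hFN
  have hb2 : CM * (C₁ * (((n : ℝ) + 1) * l i ^ Qr r)) + CF * (((n : ℝ) + 1) * l i ^ Qr r) ≤
      l i ^ (r + 1) := by
    refine le_trans ?_ hbig
    have h1 : 0 ≤ CM * K * (((n : ℝ) + 1) * l i ^ Qr r) := mul_nonneg hCMK hX0
    nlinarith
  have hN2 := hmul _ _ _ J'⁻¹ (J⁻¹ * F) hz hKX (by positivity) hb2 hJN' hN1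
  have hN3 : CM * (K * (((n : ℝ) + 1) * l i ^ Qr r)) + (CM * (C₁ * (((n : ℝ) + 1) * l i ^ Qr r)) +
      CF * (((n : ℝ) + 1) * l i ^ Qr r)) = (CM * K + (CM * C₁ + CF)) * (n + 1) * l i ^ Qr r := by
    ring
  rw [hN3] at hN2
  have hE : ∀ x, (J'⁻¹ * (J⁻¹ * F)) x = (J'⁻¹ : Pm) ((J⁻¹ : Pm) (F x)) := fun x => rfl
  -- supports
  have hJs : ∀ x, (l i / 4) ^ (r + 1) < |x - p i| → J x = x := by
    intro x hx
    refine hJ.supp x fun h1 => ?_
    rw [Set.mem_Icc] at h1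
    have h2 : |x - p i| ≤ (l i / 4) ^ (r + 1) := by
      rw [abs_le]
      constructor <;> linarith [h1.1, h1.2]
    linarith
  have hJs' : ∀ x, (l j / 4) ^ (r + 1) < |x - p j| → J' x = x := by
    intro x hx
    refine hJ'.supp x fun h1 => ?_
    rw [Set.mem_Icc] at h1
    have h2 : |x - p j| ≤ (l j / 4) ^ (r + 1) := by
      rw [abs_le]
      constructor <;> linarith [h1.1, h1.2]
    linarith
  have hmono : StrictMono (J'⁻¹ * (J⁻¹ * F) : Pm) := by
    intro x y hxy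
    rw [hE, hE]
    exact strictMono_inv hJ'.mono (strictMono_inv hJ.mono (hF3 hxy))
  have hEa : ∀ x, |x - p i| ≤ (l i / 16) ^ (r + 1) → (J'⁻¹ * (J⁻¹ * F)) x = x := by
    intro x hx
    have hx' := abs_le.1 hx
    have h1 : F x = J x := by
      rw [hF4 x, hJ.eq x (hx.trans h16a)]
      rw [abs_le]
      constructor <;> linarith [hx'.1, hx'.2]
    rw [hE, h1]
    have h2 : (J⁻¹ : Pm) (J x) = x := Equiv.symm_apply_apply J x
    rw [h2]
    refine d2_inv (hJs' x ?_)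
    rw [hpj, abs_sub_comm]
    refine lt_of_lt_of_le ?_ (le_abs_self _)
    linarith [hx'.2]
  have hEb : ∀ x, |x - (p i + l i)| ≤ (l i / 16) ^ (r + 1) → (J'⁻¹ * (J⁻¹ * F)) x = x := by
    intro x hx
    have hx' := abs_le.1 hx
    have h1 : F x = J' x := by
      rw [hF4 x, hJ'.eq x (by rw [hpj]; exact hx.trans h16b)]
      rw [abs_le]
      constructor <;> linarith [hx'.1, hx'.2]
    have h2 : J' x ∈ Icc (p j - (l j / 4) ^ (r + 1)) (p j + (l j / 4) ^ (r + 1)) := by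
      refine d2_maps hJ'.supp ?_
      rw [Set.mem_Icc, hpj]
      constructor <;> linarith [hx'.1, hx'.2]
    have h3 : (J⁻¹ : Pm) (J' x) = J' x := by
      refine d2_inv (hJs _ ?_)
      refine lt_of_lt_of_le ?_ (le_abs_self _)
      have h4 := h2.1
      rw [hpj] at h4
      linarith
    rw [hE, h1, h3]
    exact Equiv.symm_apply_apply J' x
  obtain ⟨G, hG1, hG2, hG3, hG4⟩ := restrict (a := p i) (b := p i + l i)
    (η := (l i / 16) ^ (r + 1)) hz h160 (by linarith) (by positivity) hmono hN2 hEa hEb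
  have hfar : ∀ x ∈ Icc (p i) (p i + l i), F x = (f ^ n) x := by
    intro x hx
    refine hF4 x ?_
    rw [abs_le]
    constructor <;> linarith [hx.1, hx.2]
  refine ⟨G, hG1, hG3, hG4, ?_, ?_⟩
  · intro x hx
    rw [hG2 x hx, hE]
    have h1 : J' ((J'⁻¹ : Pm) ((J⁻¹ : Pm) (F x))) = (J⁻¹ : Pm) (F x) :=
      Equiv.apply_symm_apply J' _
    have h2 : J ((J⁻¹ : Pm) (F x)) = F x := Equiv.apply_symm_apply J _
    rw [h1, h2]
    exact hfar x hx
  · intro x hx1 hx2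
    have hx : x ∈ Icc (p i) (p i + l i) := ⟨by linarith, by linarith⟩
    have h1 : |disp F x| ≤ l i ^ (r + 1) := by
      have h2 := hFN.bound 0 (by omega) x
      rw [iteratedDeriv_zero, pow_zero, div_one] at h2
      exact h2.trans hb1
    unfold disp at h1
    have h2 := abs_le.1 h1
    have h3 : (J⁻¹ : Pm) (F x) = F x := by
      refine d2_inv (hJs _ ?_)
      refine lt_of_lt_of_le ?_ (le_abs_self _)
      linarith [h2.1]
    have h4 : (J'⁻¹ : Pm) (F x) = F x := by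
      refine d2_inv (hJs' _ ?_)
      rw [hpj, abs_sub_comm]
      refine lt_of_lt_of_le ?_ (le_abs_self _)
      linarith [h2.2]
    rw [hG2 x hx, hE, h3, h4]
    exact hfar x hx

end FG40
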