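import Pool.Agent.LibFG40.A3
import Pool.Agent.LibFG40.D0a

/-! # D3: near a good centre.

Plan. `c = p + l/2`, `lam = rho c`, `a = φ c`, `|a| = lam^P`, `lam² ≤ 11/5 l`, `l ≤ 10/9 lam²` (`BS.hi`, `BS.lo`),
`P = 2 Q`. On `|x - c| ≤ 5 l`: `ρ x² ≤ 11/5 l ≤ 22/9 lam²`, so `ρ x ≤ 2 lam`, `|φ⁽ʲ⁾ x| ≤ ρ x^(P-j) ≤ 2^P
lam^(P-j)` for `j ≤ r + 5` (`le_rho`). `η = φ/a - 1`: `|η⁽ʲ⁾| ≤ 2^P lam^(-j)` for `1 ≤ j`, `|η x| ≤ |x - c| 2^P / lam`
(mean value, `η c = 0`). As `l/lam ≤ 10/9 lam ≤ 2 √l`: `|η⁽ʲ⁾| l^j ≤ C √l` for all `j ≤ r + 5`. `ω = χ η`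
(`bump`, `cut_mul`). -/

open Filter Topology Set

namespace FG40

open GD31

private theorem d3_deriv (u : ℝ) (φ : ℝ → ℝ) (x : ℝ) {j : ℕ} (hj : 1 ≤ j) :
    iteratedDeriv j (fun x => u * φ x + -1) x = u * iteratedDeriv j φ x := by
  obtain ⟨m, rfl⟩ : ∃ m, j = m + 1 := ⟨j - 1, by omega⟩
  rw [iteratedDeriv_succ', iteratedDeriv_succ']
  have h1 : deriv (fun x => u * φ x + -1) = fun x => u * deriv φ x := by
    funext y
    rw [deriv_add_const, deriv_const_mul_field]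
  rw [h1, iteratedDeriv_const_mul_field]

theorem good_model (r : ℕ) : ∃ C : ℝ, 1 ≤ C ∧ ∀ (φ : ℝ → ℝ) (ι : Type) (p l : ι → ℝ) (col : ι → Fin 16)
    (i : ι), HF r φ → BS (rho r φ) ι p l col → Good r φ (p i + l i / 2) →
    φ (p i + l i / 2) ≠ 0 ∧ |φ (p i + l i / 2)| ≤ C * l i ^ Qr r ∧
    ∃ ω : ℝ → ℝ, Nl (r + 5) (C * Real.sqrt (l i)) (l i) ω ∧
      (∀ x, 5 * l i ≤ |x - (p i + l i / 2)| → ω x = 0) ∧
      ∀ x, |x - (p i + l i / 2)| ≤ 4 * l i → φ x = φ (p i + l i / 2) * (1 + ω x) := by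
  obtain ⟨Cb, hCb, hbump⟩ := bump (r + 5)
  have h2P : (1 : ℝ) ≤ 2 ^ Pr r := one_le_pow₀ one_le_two
  have hB0 : 0 ≤ Cb * 2 ^ (r + 5) := by positivity
  obtain ⟨C, hC⟩ : ∃ C : ℝ, C = (11 / 5) ^ Qr r + 2 ^ (r + 5) * (Cb * 2 ^ (r + 5)) * (10 * 2 ^ Pr r) :=
    ⟨_, rfl⟩
  have hCa : (11 / 5 : ℝ) ^ Qr r ≤ C := by
    rw [hC]
    have : 0 ≤ 2 ^ (r + 5) * (Cb * 2 ^ (r + 5)) * (10 * (2 : ℝ) ^ Pr r) := by positivity
    linarith
  have hCc : 2 ^ (r + 5) * (Cb * 2 ^ (r + 5)) * (10 * (2 : ℝ) ^ Pr r) ≤ C := by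
    rw [hC]
    have : 0 ≤ (11 / 5 : ℝ) ^ Qr r := by positivity
    linarith
  have hC1 : 1 ≤ C := le_trans (one_le_pow₀ (by norm_num)) hCa
  refine ⟨C, hC1, ?_⟩
  intro φ ι p l col i hφ hB hgood
  obtain ⟨c, hc⟩ : ∃ c, c = p i + l i / 2 := ⟨_, rfl⟩
  rw [← hc] at hgood ⊢
  obtain ⟨hlam0, hlam⟩ := hgood
  have hl : 0 < l i := hB.pos i
  have htiny := hB.tiny i
  have hl1 : l i ≤ 1 := by
    have h2 : ((1 : ℝ) / 10) ^ 20 ≤ 1 := by norm_num
    linarith
  have hPQ : Pr r = 2 * Qr r := rfl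
  have hcc : |c - (p i + l i / 2)| ≤ 20 * l i := by
    rw [hc, sub_self, abs_zero]
    positivity
  have hhi := hB.hi i c hcc
  have hlo := hB.lo i c hcc
  obtain ⟨lam, hlamdef⟩ : ∃ lam, lam = rho r φ c := ⟨_, rfl⟩
  rw [← hlamdef] at hlam0 hlam hhi hlo
  have hane : φ c ≠ 0 := by
    intro h1
    rw [h1, abs_zero] at hlam
    exact absurd hlam.symm (pow_pos hlam0 _).ne'
  have ha0 : 0 < |φ c| := abs_pos.2 hane
  -- `l / lam ≤ 2 √l ≤ 1`
  have hs0 : 0 < Real.sqrt (l i) := Real.sqrt_pos.2 hl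
  have hss : Real.sqrt (l i) * Real.sqrt (l i) = l i := Real.mul_self_sqrt hl.le
  have hshalf : Real.sqrt (l i) ≤ 1 / 2 := by
    rw [Real.sqrt_le_iff]
    refine ⟨by norm_num, htiny.trans (by norm_num)⟩
  have hlr : l i / lam ≤ 2 * Real.sqrt (l i) := by
    rw [div_le_iff₀ hlam0]
    have h1 : 1 / 2 * Real.sqrt (l i) ≤ lam := by
      by_contra h2
      push Not at h2
      nlinarith
    nlinarith
  have hlr1 : l i / lam ≤ 1 := by linarith
  have hlr0 : 0 ≤ l i / lam := by positivity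
  -- the derivatives
  have hder : ∀ x, |x - c| ≤ 5 * l i → ∀ j, 1 ≤ j → j ≤ r + 5 →
      |iteratedDeriv j (fun x => (φ c)⁻¹ * φ x + -1) x| ≤ 2 ^ Pr r / lam ^ j := by
    intro x hx j hj1 hj
    have hjP : j < Pr r := by
      rw [hPQ]
      unfold Qr
      nlinarith
    have hx20 : |x - (p i + l i / 2)| ≤ 20 * l i := by
      rw [← hc]
      linarith
    have h1 := hB.hi i x hx20
    have h2 : rho r φ x ≤ 2 * lam := by
      by_contra h3
      push Not at h3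
      nlinarith
    have h3 := le_rho r φ hjP x
    have h4 : |iteratedDeriv j φ x| ≤ rho r φ x ^ (Pr r - j) := by
      refine le_trans ?_ h3
      exact le_mul_of_one_le_left (abs_nonneg _) (one_le_pow₀ (by norm_num))
    have h5 : rho r φ x ^ (Pr r - j) ≤ 2 ^ Pr r * lam ^ (Pr r - j) := by
      refine (pow_le_pow_left₀ (rho_nonneg r φ x) h2 _).trans ?_
      rw [mul_pow]
      exact mul_le_mul_of_nonneg_right (pow_le_pow_right₀ one_le_two (Nat.sub_le _ _))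
        (by positivity)
    rw [d3_deriv (φ c)⁻¹ φ x hj1, abs_mul, abs_inv, hlam]
    have h6 : lam ^ Pr r = lam ^ (Pr r - j) * lam ^ j := by
      rw [← pow_add, Nat.sub_add_cancel hjP.le]
    have h7 : 0 < lam ^ (Pr r - j) := pow_pos hlam0 _
    have h8 : 0 < lam ^ j := pow_pos hlam0 _
    rw [h6, inv_mul_le_iff₀ (by positivity)]
    have h9 : lam ^ (Pr r - j) * lam ^ j * (2 ^ Pr r / lam ^ j) = 2 ^ Pr r * lam ^ (Pr r - j) := by
      field_simp
    rw [h9]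
    exact h4.trans h5
  have hg : Sm (fun x => (φ c)⁻¹ * φ x + -1) := (contDiff_const.mul hφ.smooth).add contDiff_const
  obtain ⟨A, hA⟩ : ∃ A : ℝ, A = 10 * 2 ^ Pr r * Real.sqrt (l i) := ⟨_, rfl⟩
  have hA0 : 0 ≤ A := by rw [hA]; positivity
  have hbd : ∀ j ≤ r + 5, ∀ x, |x - c| ≤ 5 * l i →
      |iteratedDeriv j (fun x => (φ c)⁻¹ * φ x + -1) x| ≤ A / l i ^ j := by
    intro j hj x hx
    rcases Nat.eq_zero_or_pos j with hj0 | hj0
    · subst hj0
      rw [iteratedDeriv_zero, pow_zero, div_one]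
      have h1 := Convex.norm_image_sub_le_of_norm_deriv_le (𝕜 := ℝ)
        (f := fun x => (φ c)⁻¹ * φ x + -1) (s := Icc (c - 5 * l i) (c + 5 * l i))
        (x := c) (y := x) (C := 2 ^ Pr r / lam)
        (fun y _ => (hg.differentiable (by simp)) y)
        (fun y hy => by
          have h2 := hder y (by rw [abs_le]; constructor <;> linarith [hy.1, hy.2]) 1 le_rfl (by omega)
          rw [iteratedDeriv_one, pow_one] at h2
          rw [Real.norm_eq_abs]
          exact h2)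
        (convex_Icc _ _) ⟨by linarith, by linarith⟩
        (by
          have h3 := abs_le.1 hx
          exact ⟨by linarith [h3.1], by linarith [h3.2]⟩)
      simp only [Real.norm_eq_abs] at h1
      have h2 : (φ c)⁻¹ * φ c + -1 = 0 := by
        rw [inv_mul_cancel₀ hane]
        norm_num
      rw [h2, sub_zero] at h1
      refine h1.trans ?_
      have h3 : 2 ^ Pr r / lam * |x - c| ≤ 2 ^ Pr r / lam * (5 * l i) :=
        mul_le_mul_of_nonneg_left hx (by positivity)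
      refine h3.trans ?_
      have h4 : 2 ^ Pr r / lam * (5 * l i) = 5 * 2 ^ Pr r * (l i / lam) := by ring
      rw [h4, hA]
      have h5 := mul_le_mul_of_nonneg_left hlr (show (0 : ℝ) ≤ 5 * 2 ^ Pr r by positivity)
      linarith
    · refine (hder x hx j hj0 hj).trans ?_
      have h1 : (l i / lam) ^ j ≤ l i / lam := by
        calc (l i / lam) ^ j ≤ (l i / lam) ^ 1 := pow_le_pow_of_le_one hlr0 hlr1 hj0
          _ = l i / lam := pow_one _
      have h2 : 2 ^ Pr r / lam ^ j = 2 ^ Pr r * (l i / lam) ^ j / l i ^ j := by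
        rw [div_pow]
        field_simp
      rw [h2]
      refine div_le_div_of_nonneg_right ?_ (by positivity)
      rw [hA]
      have h5 := mul_le_mul_of_nonneg_left (h1.trans hlr) (show (0 : ℝ) ≤ 2 ^ Pr r by positivity)
      have h6 : 0 ≤ (2 : ℝ) ^ Pr r * Real.sqrt (l i) := by positivity
      linarith
  -- the cut-off
  obtain ⟨χ, hχ1, -, hχ3, hχ4⟩ := hbump (c - 9 / 2 * l i) (c + 9 / 2 * l i) (l i / 2) (by linarith)
    (by linarith)
  have hχN := nl_scale (c := 2) (by linarith) (by linarith) one_le_two hχ1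
  have h2l : 2 * (l i / 2) = l i := by ring
  rw [h2l] at hχN
  have hω := cut_mul (r + 5) (a := c - 9 / 2 * l i) (b := c + 9 / 2 * l i) hl hA0 hB0 hχN hχ4 hg
    (fun j hj x hx => hbd j hj x (by
      rw [abs_le]
      constructor <;> linarith [hx.1, hx.2]))
  refine ⟨hane, ?_, fun x => χ x * ((φ c)⁻¹ * φ x + -1), ?_, ?_, ?_⟩
  · rw [hlam, hPQ, pow_mul]
    refine (pow_le_pow_left₀ (by positivity) hhi _).trans ?_
    rw [mul_pow]
    exact mul_le_mul_of_nonneg_right hCa (by positivity)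
  · refine hω.mono le_rfl (by positivity) ?_ hl le_rfl
    rw [hA]
    have h1 := mul_le_mul_of_nonneg_right hCc hs0.le
    linarith
  · intro x hx
    have h1 : χ x = 0 := by
      refine hχ4 x fun h2 => ?_
      have h3 : |x - c| ≤ 9 / 2 * l i := by
        rw [abs_le]
        constructor <;> linarith [h2.1, h2.2]
      linarith
    change χ x * ((φ c)⁻¹ * φ x + -1) = 0
    rw [h1, zero_mul]
  · intro x hx
    have h1 : χ x = 1 := by
      refine hχ3 x ?_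
      have h2 := abs_le.1 hx
      constructor <;> linarith [h2.1, h2.2]
    change φ x = φ c * (1 + χ x * ((φ c)⁻¹ * φ x + -1))
    rw [h1]
    field_simp
    ring

end FG40
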