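import Pool.Agent.LibFG40.D0c

/-! # D4: straightening.

Plan. `γ y = a * ω (y - a)`: `Nl k (|a| η) l γ`. `N = ⌈10 l / |a|⌉₊`, so `10 l ≤ N |a| ≤ 11 l`. `ψ = id + it a γ N`
(`GD31.it`, `GD31.it_bound`: `Nl k (C₁ N |a| η) l (it a γ N)`, `C₁ N |a| η ≤ 11 C₁ η l`; then `perm_of_nl`).
Stability (`it_stab`): if `γ (y - n a) = 0` then `it a γ (n+1) y = it a γ n y`; for `|y - c| ≤ 4 l`:
`|y - N a - a - c| ≥ 10 l - 4 l - l = 5 l`, so `γ (y - N a) = 0`. Then for `|x - c| ≤ 3 l`, `y = x + a`: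
`ψ (x + a) = y + it a γ (N+1) y = y + it a γ N x + γ (y + it a γ N x)` (definition of `it`)
`= ψ x + a + a ω (ψ x)`. -/

open Filter Topology Set

namespace FG40

open GD31

theorem it_stab {α : ℝ} {γ : ℝ → ℝ} (n : ℕ) : ∀ y, γ (y - n * α) = 0 → it α γ (n + 1) y = it α γ n y := by
  induction n with
  | zero =>
    intro y hy
    have h1 : it α γ 0 (y - α) = 0 := rfl
    have h2 : it α γ 0 y = 0 := rfl
    rw [Nat.cast_zero, zero_mul, sub_zero] at hy
    change it α γ 0 (y - α) + γ (y + it α γ 0 (y - α)) = it α γ 0 y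
    rw [h1, h2, add_zero, hy, add_zero]
  | succ n ih =>
    intro y hy
    have h1 : γ ((y - α) - n * α) = 0 := by
      rw [← hy]
      congr 1
      push_cast
      ring
    change it α γ (n + 1) (y - α) + γ (y + it α γ (n + 1) (y - α)) =
      it α γ n (y - α) + γ (y + it α γ n (y - α))
    rw [ih (y - α) h1]

theorem straighten (k : ℕ) (hk : 1 ≤ k) : ∃ C : ℝ, 1 ≤ C ∧ ∀ (a l c η : ℝ) (ω : ℝ → ℝ), a ≠ 0 → |a| ≤ l →
    0 < l → 0 ≤ η → C * η ≤ 1 → Nl k η l ω → (∀ x, 5 * l ≤ |x - c| → ω x = 0) →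
    ∃ ψ : Pm, Nl k (C * η * l) l (disp ψ) ∧ Nl k (C * η * l) l (disp ψ⁻¹) ∧ StrictMono ψ ∧
      ∀ x, |x - c| ≤ 3 * l → ψ (x + a) = ψ x + a * (1 + ω (ψ x)) := by
  obtain ⟨C₁, hC₁, h1⟩ := it_bound k
  obtain ⟨C₂, hC₂, h2⟩ := perm_of_nl k hk
  have hC12 : 1 ≤ C₁ * C₂ := one_le_mul_of_one_le_of_one_le hC₁ hC₂
  refine ⟨11 * (C₁ * C₂), by linarith, ?_⟩
  intro a l c η ω ha hal hl hη hCη hω hsupp
  have ha0 : 0 < |a| := abs_pos.2 ha
  set γ : ℝ → ℝ := fun y => a * ω (y - a) with hγ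
  have hγN : Nl k (|a| * η) l γ := by
    have h3 := (hω.comp_affine (r := 1) one_pos (-a)).const_mul a
    rw [div_one] at h3
    have h4 : (fun x => a * ω (1 * x + -a)) = γ := by
      funext x
      rw [hγ, one_mul, ← sub_eq_add_neg]
    rw [h4] at h3
    exact h3
  set N : ℕ := ⌈10 * l / |a|⌉₊ with hN
  have hN1 : 10 * l ≤ N * |a| := by
    have h3 := Nat.le_ceil (10 * l / |a|)
    rw [div_le_iff₀ ha0] at h3
    exact h3
  have hN2 : N * |a| ≤ 11 * l := by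
    have h3 := (Nat.ceil_lt_add_one (a := 10 * l / |a|) (by positivity)).le
    have h4 := mul_le_mul_of_nonneg_right h3 ha0.le
    rw [add_mul, one_mul, div_mul_cancel₀ _ ha0.ne'] at h4
    rw [hN]
    linarith
  have hC1p : 0 < C₁ := by linarith
  have hC2p : 0 < C₂ := by linarith
  have hB : C₁ * N * (|a| * η) ≤ 11 * C₁ * η * l := by
    have h3 := mul_le_mul_of_nonneg_left hN2 (mul_nonneg hC1p.le hη)
    nlinarith
  have hBl : C₂ * (11 * C₁ * η * l) ≤ l := by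
    have h3 := mul_le_mul_of_nonneg_right hCη hl.le
    nlinarith
  have hB1 : 11 * C₁ * η * l ≤ l := by
    have h3 : 0 ≤ 11 * C₁ * η * l := by positivity
    nlinarith
  have hB0 : 0 ≤ 11 * C₁ * η * l := by positivity
  have h3 := h1 (|a| * η) l a γ N hl (mul_nonneg ha0.le hη) (hB.trans hB1) hγN
  have h4 : Nl k (11 * C₁ * η * l) l (it a γ N) :=
    h3.mono le_rfl (by positivity) hB hl le_rfl
  obtain ⟨F, hF, hF1, hF2, hF3⟩ := h2 (11 * C₁ * η * l) l (it a γ N) hl hB0 hBl h4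
  have hle : 11 * C₁ * η * l ≤ 11 * (C₁ * C₂) * η * l := by
    have h5 : 0 ≤ (C₂ - 1) * (11 * C₁ * η * l) := mul_nonneg (by linarith) hB0
    nlinarith
  refine ⟨F, hF1.mono le_rfl hB0 hle hl le_rfl,
    hF2.mono le_rfl (mul_nonneg hC2p.le hB0) (by nlinarith) hl le_rfl, hF3, ?_⟩
  intro x hx
  have h5 : it a γ (N + 1) (x + a) = it a γ N (x + a) := by
    refine it_stab N (x + a) ?_
    rw [hγ]
    change a * ω (x + a - N * a - a) = 0
    rw [hsupp, mul_zero]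
    have h6 : x + a - N * a - a - c = (x - c) - N * a := by ring
    rw [h6]
    have h7 : |(N : ℝ) * a| = N * |a| := by rw [abs_mul, Nat.abs_cast]
    have h8 := abs_sub_abs_le_abs_sub ((N : ℝ) * a) (x - c)
    rw [abs_sub_comm ((N : ℝ) * a) (x - c)] at h8
    rw [h7] at h8
    linarith
  have h6 : it a γ (N + 1) (x + a) =
      it a γ N (x + a - a) + γ (x + a + it a γ N (x + a - a)) := rfl
  rw [add_sub_cancel_right] at h6
  have h7 : γ (x + a + it a γ N x) = a * ω (F x) := by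
    rw [hγ]
    change a * ω (x + a + it a γ N x - a) = a * ω (F x)
    rw [hF x]
    congr 2
    ring
  rw [hF (x + a), ← h5, h6, h7, hF x]
  ring

end FG40
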