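import Pool.Agent.LibFG40.D0a
import Pool.Agent.LibFG40.D0c

/-! # D5: the affine letters cut off near `u` and `v`.

Plan. `z = l^(r+1)`, `s = l^(E2r r)`, `β = (1+s)/(s(2+s)) ≤ 1/s`, `s₂ = ((1+s) + (1+s)⁻¹)/2 - 1 ≤ s`. `χ` from `bump`
(`a, b = u + z, v - z`, transition length `z`). `L 0 = id + a β χ`, `L 1 = id + s (x - c) χ`, `L 2 = id + s₂ (x -
c) χ` (`cut_mul` with `g = s (x - c)`, `|g| ≤ 2 s l` on `[u, v]`, `|g'| = s ≤ 2 s l / z`): amplitudes `≤ C l^(E2r r)`,
because `|a| β ≤ C₁ l^(Qr r) / l^(E2r r) = C₁ l^(E2r r)` (`Qr r = 2 * E2r r`); `perm_of_nl`.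
Last claim: `GC45.lift_local` with `x₀ = (u+v)/2`, `R = (v-u)/2 - 2 z`, `D = C l^(E2r r)`, `A j = Φ * affs s j * Φ⁻¹`,
`Φ = GC45.aff a c`: these are the true affine maps, equal to `L j` where `χ = 1`; `lift A w = Φ * lift (affs s) w *
Φ⁻¹ = Φ * (aff 1 1)^n * Φ⁻¹`, i.e. `x ↦ x + n a`. `norm * D ≤ z` from the smallness hypothesis
(`E2r r ≥ r + 2`). -/

open Filter Topology Set

namespace FG40

open GD31

/-- the three models: `x ↦ x + τ + κ (x - x₀)` (copy of a private lemma of `GC45.K2`) -/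
private theorem d5_models (s : ℝ) (hs : 0 < s) (x₀ φ₀ : ℝ) (hφ : φ₀ ≠ 0) :
    ∃ τ κ : Fin 3 → ℝ,
      (∀ a, |τ a| ≤ |φ₀| / s) ∧ (∀ a, 0 ≤ κ a ∧ κ a ≤ s) ∧
      (∀ a x, (GC45.aff φ₀ x₀ hφ * GC45.affs s hs a * (GC45.aff φ₀ x₀ hφ)⁻¹) x =
        x + (τ a + κ a * (x - x₀))) ∧
      (∀ a x, (GC45.aff φ₀ x₀ hφ * GC45.affs s hs a * (GC45.aff φ₀ x₀ hφ)⁻¹)⁻¹ x =
        x - (τ a + κ a / (1 + κ a) * (x - x₀))) := by
  have hinv : ∀ x, (GC45.aff φ₀ x₀ hφ)⁻¹ x = (x - x₀) / φ₀ := fun x => rfl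
  have hs1 : 0 < 1 + s := by linarith
  have hs2 : 0 < 2 + s := by linarith
  set e : ℝ := (1 + s + (1 + s)⁻¹) / 2 - 1 with he
  have he' : e = s ^ 2 / (2 * (1 + s)) := by
    rw [he]; field_simp; ring
  have he0 : 0 ≤ e := by rw [he']; positivity
  have hes : e ≤ s := by
    rw [he', div_le_iff₀ (by positivity)]; nlinarith
  refine ⟨![φ₀ * ((1 + s) / (s * (2 + s))), 0, 0], ![0, s, e], ?_, ?_, ?_, ?_⟩
  · intro a
    fin_cases a
    · change |φ₀ * ((1 + s) / (s * (2 + s)))| ≤ |φ₀| / s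
      rw [abs_mul, abs_of_pos (show 0 < (1 + s) / (s * (2 + s)) by positivity),
        div_eq_mul_inv |φ₀| s]
      refine mul_le_mul_of_nonneg_left ?_ (abs_nonneg _)
      rw [div_le_iff₀ (by positivity)]
      field_simp
      linarith
    · change |(0 : ℝ)| ≤ |φ₀| / s
      rw [abs_zero]; positivity
    · change |(0 : ℝ)| ≤ |φ₀| / s
      rw [abs_zero]; positivity
  · intro a
    fin_cases a
    · exact ⟨le_rfl, hs.le⟩
    · exact ⟨hs.le, le_rfl⟩
    · exact ⟨he0, hes⟩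
  · intro a x
    rw [Equiv.Perm.mul_apply, Equiv.Perm.mul_apply, hinv]
    fin_cases a
    · change φ₀ * (1 * ((x - x₀) / φ₀) + (1 + s) / (s * (2 + s))) + x₀ =
        x + (φ₀ * ((1 + s) / (s * (2 + s))) + 0 * (x - x₀))
      field_simp; ring
    · change φ₀ * ((1 + s) * ((x - x₀) / φ₀) + 0) + x₀ = x + (0 + s * (x - x₀))
      field_simp; ring
    · change φ₀ * ((1 + s + (1 + s)⁻¹) / 2 * ((x - x₀) / φ₀) + 0) + x₀ =
        x + (0 + e * (x - x₀))
      rw [he]
      field_simp; ring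
  · intro a x
    rw [Equiv.Perm.inv_eq_iff_eq]
    rw [Equiv.Perm.mul_apply, Equiv.Perm.mul_apply, hinv]
    fin_cases a
    · change x = φ₀ * (1 * ((x - (φ₀ * ((1 + s) / (s * (2 + s))) + 0 / (1 + 0) * (x - x₀)) - x₀)
        / φ₀) + (1 + s) / (s * (2 + s))) + x₀
      field_simp; ring
    · change x = φ₀ * ((1 + s) * ((x - (0 + s / (1 + s) * (x - x₀)) - x₀) / φ₀) + 0) + x₀
      field_simp; ring
    · change x = φ₀ * ((1 + s + (1 + s)⁻¹) / 2 * ((x - (0 + e / (1 + e) * (x - x₀)) - x₀) / φ₀)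
        + 0) + x₀
      have h1 : (1 + s + (1 + s)⁻¹) / 2 = 1 + e := by rw [he]; ring
      rw [h1]
      have h2 : (1 : ℝ) + e ≠ 0 := by positivity
      field_simp; ring

private theorem d5_lift_conj {α : Type*} [DecidableEq α] (A : α → Pm) (L : Pm)
    (w : FreeGroup α) :
    FreeGroup.lift (fun a => L * A a * L⁻¹) w = L * FreeGroup.lift A w * L⁻¹ := by
  have h : FreeGroup.lift (fun a => L * A a * L⁻¹) =
      (MulAut.conj L).toMonoidHom.comp (FreeGroup.lift A) := by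
    apply FreeGroup.ext_hom
    intro a
    simp [MulAut.conj_apply]
  rw [h]
  simp [MulAut.conj_apply]

private theorem d5_aff_pow (n : ℕ) (x : ℝ) :
    ((GC45.aff 1 1 one_ne_zero : Pm) ^ n) x = x + n := by
  induction n generalizing x with
  | zero => simp
  | succ n ih =>
    rw [pow_succ, Equiv.Perm.mul_apply, ih, GC45.aff_apply]
    push_cast; ring

private theorem d5_iter (τ κ c : ℝ) (i : ℕ) (x : ℝ) :
    |iteratedDeriv i (fun y => τ + κ * (y - c)) x| ≤ max |τ + κ * (x - c)| |κ| := by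
  rcases Nat.eq_zero_or_pos i with h0 | h0
  · subst h0
    rw [iteratedDeriv_zero]
    exact le_max_left _ _
  · obtain ⟨j, rfl⟩ : ∃ j, i = j + 1 := ⟨i - 1, by omega⟩
    have h1 : deriv (fun y => τ + κ * (y - c)) = fun _ => κ := by
      funext y
      have h2 : HasDerivAt (fun y : ℝ => τ + κ * (y - c)) (κ * 1) y :=
        (((hasDerivAt_id y).sub_const c).const_mul κ).const_add τ
      rw [h2.deriv, mul_one]
    rw [iteratedDeriv_succ', h1, iteratedDeriv_const]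
    refine le_trans ?_ (le_max_right _ _)
    split_ifs
    · exact le_rfl
    · rw [abs_zero]
      exact abs_nonneg _

private theorem d5_mono {k : ℕ} {A B l : ℝ} {f : ℝ → ℝ} (hl : 0 < l) (hAB : A ≤ B)
    (h : Nl k A l f) : Nl k B l f :=
  ⟨h.smooth, fun i hi x => (h.bound i hi x).trans (by gcongr)⟩

theorem affine_letters (r : ℕ) (C₁ : ℝ) (hC₁ : 1 ≤ C₁) : ∃ C : ℝ, 1 ≤ C ∧ ∀ (a c u v l : ℝ),
    a ≠ 0 → 0 < l → C * l ≤ 1 → |a| ≤ C₁ * l ^ Qr r → u + l / 2 ≤ v → v ≤ u + 2 * l → c ∈ Icc u v → 1 ≤ r →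
    ∃ L : Fin 3 → Pm, (∀ j, Supp (L j) (Icc (u + l ^ (r + 1)) (v - l ^ (r + 1)))) ∧
      (∀ j, Nl (r + 4) (C * l ^ E2r r) (l ^ (r + 1)) (disp (L j))) ∧
      (∀ j, Nl (r + 4) (C * l ^ E2r r) (l ^ (r + 1)) (disp (L j)⁻¹)) ∧ (∀ j, StrictMono (L j)) ∧
      ∀ (n : ℕ) (w : FreeGroup (Fin 3)), Univ n w → C * (w.norm + 1) * l ≤ 1 →
        ∀ x ∈ Icc (u + 3 * l ^ (r + 1)) (v - 3 * l ^ (r + 1)), (FreeGroup.lift L w : Pm) x = x + n * a := by
  obtain ⟨B, hB1, hbump⟩ := bump (r + 4)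
  obtain ⟨C₀, hC₀, hperm⟩ := perm_of_nl (r + 4) (by omega)
  -- constants
  set P : ℝ := 2 ^ (r + 4) * B * (C₁ + 2) with hP
  have h2k : (1 : ℝ) ≤ 2 ^ (r + 4) := one_le_pow₀ (by norm_num)
  have hP1 : C₁ + 2 ≤ P := by
    rw [hP]
    have h1 : 1 ≤ (2 : ℝ) ^ (r + 4) * B := one_le_mul_of_one_le_of_one_le h2k hB1
    nlinarith
  have hP0 : 0 < P := by linarith
  have hCP : P ≤ C₀ * P := by nlinarith
  refine ⟨C₀ * P + 8, by linarith, ?_⟩
  intro a c u v l ha hl hCl ha' huv huv' hc hr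
  have hl8 : 8 * l ≤ 1 := by nlinarith
  have hl1 : l ≤ 1 := by linarith
  set z : ℝ := l ^ (r + 1) with hz
  set s : ℝ := l ^ E2r r with hs
  have hz0 : 0 < z := pow_pos hl _
  have hs0 : 0 < s := pow_pos hl _
  have hz1 : z ≤ 1 := pow_le_one₀ hl.le hl1
  have hzl : z ≤ l ^ 2 := pow_le_pow_of_le_one hl.le hl1 (by omega)
  have hz8 : 8 * z ≤ l := by nlinarith
  have hsz : s ≤ z * l := by
    have h1 : z * l = l ^ (r + 2) := by rw [hz]; ring
    rw [h1, hs]
    refine pow_le_pow_of_le_one hl.le hl1 ?_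
    unfold E2r
    have h : 0 ≤ 3 * r ^ 2 := Nat.zero_le _
    linarith
  have hs1 : s ≤ 1 := by nlinarith
  have hQ : l ^ Qr r = s * s := by
    rw [hs, ← pow_add]
    congr 1
    unfold Qr E2r
    ring
  have hτ0 : |a| / s ≤ C₁ * s := by
    rw [div_le_iff₀ hs0]
    rw [hQ] at ha'
    linarith
  obtain ⟨τ, κ, hτ, hκ, hA, hAinv⟩ := d5_models s hs0 c a ha
  have hD0 : 0 ≤ (C₁ + 2) * s := by positivity
  -- bound of the models
  have hg : ∀ (j : Fin 3) (t : ℝ), 0 ≤ t → t ≤ s → ∀ x ∈ Icc u v, |τ j + t * (x - c)| ≤ (C₁ + 2) * s := by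
    intro j t ht0 hts x hx
    have h1 : |x - c| ≤ 2 * l := by
      rw [abs_le]
      constructor <;> linarith [hx.1, hx.2, hc.1, hc.2]
    have h2 : |t * (x - c)| ≤ s * (2 * l) := by
      rw [abs_mul, abs_of_nonneg ht0]
      exact mul_le_mul hts h1 (abs_nonneg _) hs0.le
    have h3 := abs_add_le (τ j) (t * (x - c))
    have h4 := hτ j
    have h5 : s * (2 * l) ≤ 2 * s := by nlinarith
    linarith
  obtain ⟨χ, hχ, hχ01, hχ1, hχ0⟩ := hbump (u + z) (v - z) z hz0 (by linarith)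
  have hsub : ∀ x ∈ Icc (u + z) (v - z), x ∈ Icc u v := fun x hx =>
    ⟨by linarith [hx.1], by linarith [hx.2]⟩
  have hcut : ∀ j : Fin 3, Nl (r + 4) (P * s) z (fun x => χ x * (τ j + κ j * (x - c))) := by
    intro j
    have h1 := cut_mul (r + 4) (A := (C₁ + 2) * s) (B := B) (l := z) (a := u + z) (b := v - z) (χ := χ)
      (g := fun x => τ j + κ j * (x - c)) hz0 hD0 (by linarith) hχ hχ0
      (by
        refine contDiff_const.add (contDiff_const.mul (contDiff_id.sub contDiff_const)))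
      (by
        intro i _ x hx
        refine (d5_iter (τ j) (κ j) c i x).trans ?_
        have h2 : (C₁ + 2) * s ≤ (C₁ + 2) * s / z ^ i := by
          rw [le_div_iff₀ (pow_pos hz0 i)]
          exact mul_le_of_le_one_right hD0 (pow_le_one₀ hz0.le hz1)
        refine le_trans (max_le (hg j (κ j) (hκ j).1 (hκ j).2 x (hsub x hx)) ?_) h2
        rw [abs_of_nonneg (hκ j).1]
        have := (hκ j).2
        nlinarith)
    have h3 : 2 ^ (r + 4) * B * ((C₁ + 2) * s) = P * s := by rw [hP]; ring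
    rw [h3] at h1
    exact h1
  have hsmall : C₀ * (P * s) ≤ z := by
    have h1 : C₀ * (P * s) ≤ C₀ * P * (z * l) := by
      rw [← mul_assoc]
      exact mul_le_mul_of_nonneg_left hsz (by positivity)
    have h2 : C₀ * P * l ≤ 1 := by nlinarith
    have h3 : C₀ * P * (z * l) = z * (C₀ * P * l) := by ring
    rw [h3] at h1
    exact h1.trans (mul_le_of_le_one_right hz0.le h2)
  have hex : ∀ j : Fin 3, ∃ F : Pm, (∀ x, F x = x + χ x * (τ j + κ j * (x - c))) ∧
      Nl (r + 4) (P * s) z (disp F) ∧ Nl (r + 4) (C₀ * (P * s)) z (disp F⁻¹) ∧ StrictMono F := fun j =>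
    hperm (P * s) z _ hz0 (by positivity) hsmall (hcut j)
  choose L hL1 hL2 hL3 hL4 using hex
  have hPs : P * s ≤ (C₀ * P + 8) * s := mul_le_mul_of_nonneg_right (by linarith) hs0.le
  have hPs' : C₀ * (P * s) ≤ (C₀ * P + 8) * s := by nlinarith
  refine ⟨L, ?_, fun j => d5_mono hz0 hPs (hL2 j), fun j => d5_mono hz0 hPs' (hL3 j), hL4, ?_⟩
  · intro j x hx
    rw [hL1 j x, hχ0 x hx, zero_mul, add_zero]
  · intro n w hw hnorm x hx
    set A : Fin 3 → Pm := fun j => GC45.aff a c ha * GC45.affs s hs0 j * (GC45.aff a c ha)⁻¹ with hAdef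
    have hloc : FreeGroup.lift L w x = FreeGroup.lift A w x := by
      refine GC45.lift_local L A ((u + v) / 2) ((v - u) / 2 - 2 * z) ((C₁ + 2) * s) hD0 ?_ ?_ ?_ w x ?_
      · intro j y hy
        have hy' := abs_le.1 hy
        rw [hL1 j y, hχ1 y ⟨by linarith [hy'.1], by linarith [hy'.2]⟩, one_mul]
        exact (hA j y).symm
      · intro j y hy
        have hy' := abs_le.1 hy
        have h1 : A j y = y + (τ j + κ j * (y - c)) := hA j y
        rw [h1, add_sub_cancel_left]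
        exact hg j (κ j) (hκ j).1 (hκ j).2 y ⟨by linarith [hy'.1], by linarith [hy'.2]⟩
      · intro j y hy
        have hy' := abs_le.1 hy
        have h1 : (A j)⁻¹ y = y - (τ j + κ j / (1 + κ j) * (y - c)) := hAinv j y
        rw [h1, sub_sub_cancel_left, abs_neg]
        have hk0 := (hκ j).1
        have h2 : 0 ≤ κ j / (1 + κ j) := div_nonneg hk0 (by linarith)
        have h3 : κ j / (1 + κ j) ≤ s := by
          refine le_trans ?_ (hκ j).2
          rw [div_le_iff₀ (by linarith)]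
          nlinarith
        exact hg j _ h2 h3 y ⟨by linarith [hy'.1], by linarith [hy'.2]⟩
      · have h1 : |x - (u + v) / 2| ≤ (v - u) / 2 - 3 * z := by
          rw [abs_le]
          constructor <;> linarith [hx.1, hx.2]
        have hn0 : (0 : ℝ) ≤ w.norm := Nat.cast_nonneg _
        have h2 : (w.norm : ℝ) * ((C₁ + 2) * s) ≤ z := by
          have h3 : (w.norm : ℝ) * ((C₁ + 2) * s) ≤ (w.norm : ℝ) * ((C₁ + 2) * (z * l)) := by
            gcongr
          have h4 : (w.norm : ℝ) * ((C₁ + 2) * (z * l)) = z * ((C₁ + 2) * w.norm * l) := by ring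
          have h5 : (C₁ + 2) * w.norm * l ≤ (C₀ * P + 8) * (w.norm + 1) * l := by
            refine mul_le_mul_of_nonneg_right ?_ hl.le
            refine mul_le_mul ?_ (by linarith) hn0 (by positivity)
            linarith
          rw [h4] at h3
          exact h3.trans (mul_le_of_le_one_right hz0.le (h5.trans hnorm))
        linarith
    have hAw : FreeGroup.lift A w x = x + n * a := by
      rw [hAdef, d5_lift_conj, hw s hs0, Equiv.Perm.mul_apply, Equiv.Perm.mul_apply, d5_aff_pow,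
        GC45.aff_apply]
      have : (GC45.aff a c ha)⁻¹ x = (x - c) / a := rfl
      rw [this]
      field_simp
      ring
    rw [hloc, hAw]

end FG40
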