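import Pool.Agent.LibFG40.D0a
import Pool.Agent.LibFG40.D0c

/-! # D6: conjugation of a letter by the straightening.

Plan. `z = l^(r+1) ≤ l`. `g x = ψ (L x) - ψ x = τ x + (γ (x + τ x) - γ x)`, `τ = disp L`, `γ = disp ψ`. At scale `z`
(`Nl.mono` for `γ`): `GD31.Nl.diff (r+3)`: `Nl (r+3) (C A₀ / z) z g`, `A₀ = l^(E2r r)` (crude: `√l l ≤ 1`). `disp (ψ L
ψ⁻¹) x = g (ψ⁻¹ x) = g (x + η x)`, `η = disp ψ⁻¹`. At scale `l` (`nl_scale` with `c = l / z`): `g` has `Nl (r+3)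
(C A₀ / z (l/z)^(r+3)) l`; `Nl.comp_id_add` (`η` has `Nl (r+3) l l`); back to scale `z` (`Nl.mono`).
`A₀ / z · (1/z)^(r+3) = l^(E2r r - (r+1)(r+4)) = l^(Er r)` exactly. The inverse is `ψ L⁻¹ ψ⁻¹`. -/

open Filter Topology Set

namespace FG40

open GD31

theorem conj_letter (r : ℕ) (hr : 1 ≤ r) (C₁ : ℝ) (hC₁ : 1 ≤ C₁) : ∃ C : ℝ, 1 ≤ C ∧ ∀ (l : ℝ) (ψ L : Pm),
    0 < l → C * Real.sqrt l ≤ 1 → Nl (r + 5) (C₁ * Real.sqrt l * l) l (disp ψ) →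
    Nl (r + 5) (C₁ * Real.sqrt l * l) l (disp ψ⁻¹) →
    Nl (r + 4) (C₁ * l ^ E2r r) (l ^ (r + 1)) (disp L) →
    Nl (r + 3) (C * l ^ Er r) (l ^ (r + 1)) (disp (ψ * L * ψ⁻¹)) := by
  obtain ⟨Cd, hCd, hdiff⟩ := Nl.diff (r + 3)
  obtain ⟨Cc, hCc, hcomp⟩ := Nl.comp_id_add (r + 3)
  have hC2 : C₁ ≤ Cd * C₁ ^ 2 + C₁ := by nlinarith [sq_nonneg C₁]
  have hC3 : Cd * C₁ ^ 2 + C₁ ≤ Cc * (Cd * C₁ ^ 2 + C₁) := le_mul_of_one_le_left (by linarith) hCc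
  refine ⟨Cc * (Cd * C₁ ^ 2 + C₁), by linarith, fun l ψ L hl hCl hψ hψi hL => ?_⟩
  have hsq : 0 < Real.sqrt l := Real.sqrt_pos.2 hl
  have hC1l : C₁ * Real.sqrt l ≤ 1 := (mul_le_mul_of_nonneg_right (by linarith) hsq.le).trans hCl
  have hsq1 : Real.sqrt l ≤ 1 := by nlinarith
  have hl1 : l ≤ 1 := by nlinarith [Real.mul_self_sqrt hl.le]
  have hlsq : l ≤ Real.sqrt l := by
    nlinarith [Real.mul_self_sqrt hl.le]
  set z : ℝ := l ^ (r + 1) with hz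
  have hz0 : 0 < z := pow_pos hl _
  have hzl : z ≤ l := by
    calc z = l ^ r * l := by rw [hz, pow_succ]
      _ ≤ 1 * l := mul_le_mul_of_nonneg_right (pow_le_one₀ hl.le hl1) hl.le
      _ = l := one_mul l
  have hz1 : z ≤ 1 := hzl.trans hl1
  have hA0 : 0 < l ^ E2r r := pow_pos hl _
  have hB : C₁ * l ^ E2r r ≤ z := by
    have he : E2r r = (r + 1) + (3 * r ^ 2 + 6 * r + 6) + 1 := by
      unfold E2r
      ring
    have h1 : l ^ E2r r = z * l ^ (3 * r ^ 2 + 6 * r + 6) * l := by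
      rw [he, pow_succ, pow_add]
    have h2 : l ^ (3 * r ^ 2 + 6 * r + 6) ≤ 1 := pow_le_one₀ hl.le hl1
    have h3 : 0 < l ^ (3 * r ^ 2 + 6 * r + 6) := pow_pos hl _
    calc C₁ * l ^ E2r r = z * l ^ (3 * r ^ 2 + 6 * r + 6) * (C₁ * l) := by rw [h1]; ring
      _ ≤ z * 1 * 1 := by
          have h4 : C₁ * l ≤ 1 := (mul_le_mul_of_nonneg_left hlsq (by linarith)).trans hC1l
          have h5 : 0 ≤ C₁ * l := by positivity
          gcongr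
      _ = z := by ring
  have hAl : 0 ≤ C₁ * Real.sqrt l * l := by positivity
  have hAl1 : C₁ * Real.sqrt l * l ≤ C₁ := by
    have : Real.sqrt l * l ≤ 1 := mul_le_one₀ hsq1 hl.le hl1
    nlinarith
  have hAl2 : C₁ * Real.sqrt l * l ≤ l := by nlinarith
  have hγ : Nl (r + 3 + 1) (C₁ * Real.sqrt l * l) z (disp ψ) := hψ.mono (by omega) hAl le_rfl hz0 hzl
  have hτ : Nl (r + 3) (C₁ * l ^ E2r r) z (disp L) := hL.mono (by omega) (by positivity) le_rfl hz0 le_rfl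
  have hd := hdiff (C₁ * Real.sqrt l * l) (C₁ * l ^ E2r r) z (disp ψ) (disp L) hz0 hAl (by positivity) hB hγ hτ
  have hg := hτ.add hd
  have hamp : C₁ * l ^ E2r r + Cd * (C₁ * Real.sqrt l * l) * (C₁ * l ^ E2r r) / z ≤
      (Cd * C₁ ^ 2 + C₁) * l ^ E2r r / z := by
    have h1 : C₁ * l ^ E2r r ≤ C₁ * l ^ E2r r / z := by
      rw [le_div_iff₀ hz0]
      have : 0 ≤ C₁ * l ^ E2r r := by positivity
      nlinarith
    have h2 : Cd * (C₁ * Real.sqrt l * l) * (C₁ * l ^ E2r r) / z ≤ Cd * C₁ * (C₁ * l ^ E2r r) / z := by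
      gcongr
    calc _ ≤ C₁ * l ^ E2r r / z + Cd * C₁ * (C₁ * l ^ E2r r) / z := add_le_add h1 h2
      _ = _ := by ring
  have hg1 := hg.mono le_rfl (by positivity) hamp hz0 le_rfl
  have hlz : 1 ≤ l / z := by
    rw [le_div_iff₀ hz0, one_mul]
    exact hzl
  have hg2 := nl_scale (c := l / z) (by positivity) hz0 hlz hg1
  rw [div_mul_cancel₀ l hz0.ne'] at hg2
  have hη : Nl (r + 3) l l (disp ψ⁻¹) := hψi.mono (by omega) hAl hAl2 hl le_rfl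
  have hfin := hcomp _ l _ (disp ψ⁻¹) hl (by positivity) hg2 hη
  have heq : disp (ψ * L * ψ⁻¹) = fun x => (fun x => disp L x + (disp ψ (x + disp L x) - disp ψ x))
      (x + disp ψ⁻¹ x) := by
    funext x
    unfold disp
    simp only [Equiv.Perm.mul_apply]
    have h1 : x + (ψ⁻¹ x - x) = ψ⁻¹ x := by ring
    rw [h1]
    have h2 : ψ⁻¹ x + (L (ψ⁻¹ x) - ψ⁻¹ x) = L (ψ⁻¹ x) := by ring
    rw [h2]
    have h3 : ψ (ψ⁻¹ x) = x := Equiv.apply_symm_apply ψ x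
    rw [h3]
    ring
  rw [heq]
  refine hfin.mono le_rfl (by positivity) ?_ hz0 hzl
  have hexp : l ^ E2r r / z * (1 / z) ^ (r + 3) = l ^ Er r := by
    have he : E2r r = Er r + (r + 1) * (r + 4) := by
      unfold E2r Er
      ring
    have h1 : l ^ E2r r = l ^ Er r * (z * z ^ (r + 3)) := by
      rw [he, pow_add, pow_mul, ← hz, ← pow_succ']
    rw [h1, one_div, inv_pow]
    field_simp
  have hlz2 : (l / z) ^ (r + 3) ≤ (1 / z) ^ (r + 3) := by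
    gcongr
  calc Cc * ((Cd * C₁ ^ 2 + C₁) * l ^ E2r r / z * (l / z) ^ (r + 3))
      ≤ Cc * ((Cd * C₁ ^ 2 + C₁) * l ^ E2r r / z * (1 / z) ^ (r + 3)) := by gcongr
    _ = Cc * (Cd * C₁ ^ 2 + C₁) * (l ^ E2r r / z * (1 / z) ^ (r + 3)) := by ring
    _ = Cc * (Cd * C₁ ^ 2 + C₁) * l ^ Er r := by rw [hexp]

end FG40
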