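import Pool.Agent.LibFG40.D1a
import Pool.Agent.LibFG40.D3
import Pool.Agent.LibFG40.D4
import Pool.Agent.LibFG40.D5
import Pool.Agent.LibFG40.D6

/-! # D7: the letters of a good block.

Plan. `l = l i`, `c = p + l/2`, `a = φ c`, `ω` from `good_model`; `ψ` from `straighten (r+5)` with `η = C √l`; `u = ψ⁻¹ p`,
`v = ψ⁻¹ q`, `q = p + l` (`|ψ⁻¹ x - x| ≤ C √l l ≤ l / 8`, so `u + l/2 ≤ v ≤ u + 2l`, `c ∈ [u,v]`); `Lt` from `affine_letters`;
`L j = ψ * Lt j * ψ⁻¹` (`conj_letter`, also for `(Lt j)⁻¹`). Support: `ψ (u + z) ≥ ψ u + z/2 = p + z/2` since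
`|ψ' - 1| ≤ C √l ≤ 1/2`; same at `v`. Core: `x ∈ [p+5z, q-5z]`, `y = ψ⁻¹ x ∈ [u+3z, v-3z]`; `lift L w = ψ * lift Lt w * ψ⁻¹`, so
`lift L w x = ψ (y + n a)`; by induction `ψ (y + j a) = f^j (ψ y)` for `j ≤ n`: `|y + j a - c| ≤ 3 l` (`n |a| ≤ n C
l^Q ≤ l`), `ψ (t + a) = ψ t + a (1 + ω (ψ t)) = ψ t + φ (ψ t) = f (ψ t)` as `|ψ t - c| ≤ 4 l`. -/

open Filter Topology Set

namespace FG40

open GD31

private theorem d7_lip {k : ℕ} (hk : 1 ≤ k) {A l : ℝ} {g : ℝ → ℝ} (hl : 0 < l) (h : Nl k A l g) (x y : ℝ) :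
    |g x - g y| ≤ A / l * |x - y| := by
  have hd : Differentiable ℝ g := h.smooth.differentiable (by simp)
  have h1 : ∀ z ∈ (univ : Set ℝ), ‖deriv g z‖ ≤ A / l := by
    intro z _
    rw [Real.norm_eq_abs]
    have h2 := h.bound 1 hk z
    rwa [iteratedDeriv_one, pow_one] at h2
  have h3 := convex_univ.norm_image_sub_le_of_norm_deriv_le (f := g) (fun z _ => hd z) h1
    (mem_univ y) (mem_univ x)
  simpa [Real.norm_eq_abs] using h3

private theorem d7_conj {N : ℕ} (ψ : Pm) (Lt : Fin N → Pm) (w : FreeGroup (Fin N)) :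
    (FreeGroup.lift (fun j => ψ * Lt j * ψ⁻¹) w : Pm) = ψ * FreeGroup.lift Lt w * ψ⁻¹ := by
  have h : (FreeGroup.lift (fun j => ψ * Lt j * ψ⁻¹) : FreeGroup (Fin N) →* Pm) =
      (MulAut.conj ψ).toMonoidHom.comp (FreeGroup.lift Lt) := by
    ext1 j
    simp [MulAut.conj_apply]
  rw [h]
  simp [MulAut.conj_apply]

theorem exists_letters (r : ℕ) (hr : 1 ≤ r) : ∃ C : ℝ, 1 ≤ C ∧ ∀ (φ : ℝ → ℝ) (f : Pm) (ι : Type)
    (p l : ι → ℝ) (col : ι → Fin 16) (i : ι), HF r φ → (∀ x, f x = x + φ x) →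
    BS (rho r φ) ι p l col → Good r φ (p i + l i / 2) → C * Real.sqrt (l i) ≤ 1 →
    ∃ L : Fin 3 → Pm, LetM r C (p i) (l i) L ∧ Core r C f (p i) (l i) L := by
  obtain ⟨C1, hC1, H1⟩ := good_model r
  obtain ⟨C2, hC2, H2⟩ := straighten (r + 5) (by omega)
  obtain ⟨C3, hC3, H3⟩ := affine_letters r C1 hC1
  set C12 : ℝ := C2 * C1 with hC12
  have hC12' : 1 ≤ C12 := by nlinarith
  set K : ℝ := C12 * C3 with hKdef
  have hK1 : 1 ≤ K := by nlinarith
  have hKC12 : C12 ≤ K := by nlinarith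
  have hKC3 : C3 ≤ K := by nlinarith
  obtain ⟨C4, hC4, H4⟩ := conj_letter r hr K hK1
  set C : ℝ := 8 * K * C4 with hCdef
  have hCK : 8 * K ≤ C := by nlinarith
  have hC1C : 1 ≤ C := by linarith
  have hCC4 : C4 ≤ C := by nlinarith
  have hCC3 : C3 ≤ C := by linarith
  have hC1C12 : C1 ≤ C12 := by nlinarith
  refine ⟨C, hC1C, fun φ f ι p l col i hφ hf hB hg hs => ?_⟩
  obtain ⟨ha0, haQ, ω, hω1, hω2, hω3⟩ := H1 φ ι p l col i hφ hB hg
  have hl0 : 0 < l i := hB.pos i
  have hl1 : l i ≤ 1 := (hB.tiny i).trans (by norm_num)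
  set L : ℝ := l i with hLdef
  set s : ℝ := Real.sqrt L with hsdef
  set c : ℝ := p i + L / 2 with hcdef
  set a : ℝ := φ c with hadef
  have hs0 : 0 < s := Real.sqrt_pos.2 hl0
  have hss : s * s = L := Real.mul_self_sqrt hl0.le
  have hs1 : s ≤ 1 := by
    rw [hsdef]
    exact Real.sqrt_le_one.2 hl1
  have hLs : L ≤ s := by nlinarith
  have hQ2 : 2 ≤ Qr r := by unfold Qr; omega
  have hLQ : L ^ Qr r ≤ L * L := by
    rw [← pow_two]
    exact pow_le_pow_of_le_one hl0.le hl1 hQ2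
  have hCs : C * L ≤ 1 := (mul_le_mul_of_nonneg_left hLs (by linarith)).trans hs
  have hC1L : C1 * L ≤ 1 := by
    refine le_trans ?_ hCs
    exact mul_le_mul_of_nonneg_right (by linarith) hl0.le
  have haL : |a| ≤ C1 * (L * L) := haQ.trans (mul_le_mul_of_nonneg_left hLQ (by linarith))
  have haL1 : |a| ≤ L := by
    refine haL.trans ?_
    have : C1 * (L * L) = (C1 * L) * L := by ring
    rw [this]
    nlinarith
  have hK8 : 8 * K * s ≤ 1 := (mul_le_mul_of_nonneg_right hCK hs0.le).trans hs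
  have hη : C2 * (C1 * s) ≤ 1 / 8 := by
    have : C2 * (C1 * s) = C12 * s := by rw [hC12]; ring
    rw [this]
    nlinarith
  obtain ⟨ψ, hψ1, hψ2, hψm, hψe⟩ := H2 a L c (C1 * s) ω ha0 haL1 hl0 (by positivity)
    (by linarith) hω1 hω2
  have hψ1' : Nl (r + 5) (C12 * s * L) L (disp ψ) := by
    have : C2 * (C1 * s) * L = C12 * s * L := by rw [hC12]; ring
    rwa [this] at hψ1
  have hψ2' : Nl (r + 5) (C12 * s * L) L (disp ψ⁻¹) := by
    have : C2 * (C1 * s) * L = C12 * s * L := by rw [hC12]; ring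
    rwa [this] at hψ2
  have hA8 : C12 * s * L ≤ L / 8 := by
    have h1 : C12 * s ≤ 1 / 8 := by nlinarith
    nlinarith
  have hd : ∀ x, |ψ x - x| ≤ L / 8 := fun x => (ck4_abs hψ1' x).trans hA8
  have hdi : ∀ x, |ψ⁻¹ x - x| ≤ L / 8 := fun x => (ck4_abs hψ2' x).trans hA8
  have hlip : ∀ x y, |(ψ x - x) - (ψ y - y)| ≤ 1 / 8 * |x - y| := by
    intro x y
    refine (d7_lip (by omega) hl0 hψ1' x y).trans ?_
    refine mul_le_mul_of_nonneg_right ?_ (abs_nonneg _)
    rw [div_le_iff₀ hl0]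
    linarith
  set u : ℝ := ψ⁻¹ (p i) with hudef
  set v : ℝ := ψ⁻¹ (p i + L) with hvdef
  have hψu : ψ u = p i := by rw [hudef]; simp
  have hψv : ψ v = p i + L := by rw [hvdef]; simp
  have hu := abs_le.1 (hdi (p i))
  have hv := abs_le.1 (hdi (p i + L))
  rw [← hudef] at hu
  rw [← hvdef] at hv
  set z : ℝ := L ^ (r + 1) with hzdef
  have hz0 : 0 < z := pow_pos hl0 _
  obtain ⟨Lt, hLt1, hLt2, hLt3, hLt4, hLt5⟩ := H3 a c u v L ha0 hl0
    (le_trans (mul_le_mul_of_nonneg_right hCC3 hl0.le) hCs) haQ (by linarith) (by linarith)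
    ⟨by rw [hcdef]; linarith, by rw [hcdef]; linarith⟩ hr
  have hmono' : StrictMono (ψ⁻¹ : Pm) := strictMono_inv hψm
  have hC4s : C4 * s ≤ 1 := (mul_le_mul_of_nonneg_right hCC4 hs0.le).trans hs
  have hEr : 0 < L ^ Er r := pow_pos hl0 _
  have hE2 : 0 < L ^ E2r r := pow_pos hl0 _
  have hconj : ∀ M : Pm, Nl (r + 4) (C3 * L ^ E2r r) z (disp M) →
      Nl (r + 3) (C * L ^ Er r) z (disp (ψ * M * ψ⁻¹)) := by
    intro M hM
    have hKs : C12 * s * L ≤ K * s * L := by
      have : C12 * (s * L) ≤ K * (s * L) := mul_le_mul_of_nonneg_right hKC12 (by positivity)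
      nlinarith
    have h1 := H4 L ψ M hl0 hC4s
      (hψ1'.mono le_rfl (by positivity) hKs hl0 le_rfl)
      (hψ2'.mono le_rfl (by positivity) hKs hl0 le_rfl)
      (hM.mono le_rfl (by positivity) (mul_le_mul_of_nonneg_right hKC3 hE2.le) hz0 le_rfl)
    exact h1.mono le_rfl (by positivity) (mul_le_mul_of_nonneg_right hCC4 hEr.le) hz0 le_rfl
  refine ⟨fun j => ψ * Lt j * ψ⁻¹, ⟨?_, ?_, ?_, ?_⟩, ?_⟩
  · intro j x hx
    have hx' : ψ⁻¹ x ∉ Icc (u + z) (v - z) := by
      intro hmem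
      apply hx
      have hxx : ψ (ψ⁻¹ x) = x := by simp
      constructor
      · have h1 : ψ (u + z) ≤ ψ (ψ⁻¹ x) := hψm.monotone hmem.1
        have h2 := abs_le.1 (hlip (u + z) u)
        have h3 : |u + z - u| = z := by rw [add_sub_cancel_left, abs_of_pos hz0]
        rw [h3, hψu] at h2
        rw [hxx] at h1
        linarith [h2.1]
      · have h1 : ψ (ψ⁻¹ x) ≤ ψ (v - z) := hψm.monotone hmem.2
        have h2 := abs_le.1 (hlip v (v - z))
        have h3 : |v - (v - z)| = z := by rw [sub_sub_cancel, abs_of_pos hz0]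
        rw [h3, hψv] at h2
        rw [hxx] at h1
        linarith [h2.1]
    have h1 := hLt1 j (ψ⁻¹ x) hx'
    simp only [Equiv.Perm.mul_apply]
    rw [h1]
    simp
  · intro j
    exact hconj (Lt j) (hLt2 j)
  · intro j
    have h1 : ((ψ * Lt j * ψ⁻¹)⁻¹ : Pm) = ψ * (Lt j)⁻¹ * ψ⁻¹ := by group
    simp only [h1]
    exact hconj (Lt j)⁻¹ (hLt3 j)
  · intro j x y hxy
    simp only [Equiv.Perm.mul_apply]
    exact hψm (hLt4 j (hmono' hxy))
  · intro n w hU hsm x hx
    rw [d7_conj, Equiv.Perm.mul_apply, Equiv.Perm.mul_apply]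
    set y : ℝ := ψ⁻¹ x with hydef
    have hψy : ψ y = x := by rw [hydef]; simp
    have hw0 : (0 : ℝ) ≤ w.norm := Nat.cast_nonneg _
    have hn0 : (0 : ℝ) ≤ n := Nat.cast_nonneg _
    have hsm1 : C * (n * L) ≤ 1 := by
      refine le_trans ?_ hsm
      have h1 : (n : ℝ) * L ≤ (n + w.norm + 1) * L := mul_le_mul_of_nonneg_right (by linarith) hl0.le
      have h2 := mul_le_mul_of_nonneg_left h1 (by linarith : (0 : ℝ) ≤ C)
      linarith
    have hsm3 : C3 * (w.norm + 1) * L ≤ 1 := by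
      refine le_trans ?_ hsm
      have h1 : ((w.norm : ℝ) + 1) * L ≤ (n + w.norm + 1) * L :=
        mul_le_mul_of_nonneg_right (by linarith) hl0.le
      have h2 := mul_le_mul hCC3 h1 (by positivity) (by linarith : (0 : ℝ) ≤ C)
      linarith
    have hyz : y ∈ Icc (u + 3 * z) (v - 3 * z) := by
      constructor
      · by_contra hlt
        push Not at hlt
        have h1 : ψ y < ψ (u + 3 * z) := hψm hlt
        have h2 := abs_le.1 (hlip (u + 3 * z) u)
        have h3 : |u + 3 * z - u| = 3 * z := by rw [add_sub_cancel_left, abs_of_pos (by positivity)]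
        rw [h3, hψu] at h2
        rw [hψy] at h1
        linarith [h2.2, hx.1]
      · by_contra hlt
        push Not at hlt
        have h1 : ψ (v - 3 * z) < ψ y := hψm hlt
        have h2 := abs_le.1 (hlip v (v - 3 * z))
        have h3 : |v - (v - 3 * z)| = 3 * z := by rw [sub_sub_cancel, abs_of_pos (by positivity)]
        rw [h3, hψv] at h2
        rw [hψy] at h1
        linarith [h2.2, hx.2]
    rw [hLt5 n w hU hsm3 y hyz]
    have hna : (n : ℝ) * |a| ≤ L := by
      have h1 : (n : ℝ) * |a| ≤ n * (C1 * (L * L)) := mul_le_mul_of_nonneg_left haL hn0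
      have h2 : (n : ℝ) * (C1 * (L * L)) = (C1 * (n * L)) * L := by ring
      have h3 : C1 * (n * L) ≤ C * (n * L) :=
        mul_le_mul_of_nonneg_right (by linarith) (by positivity)
      rw [h2] at h1
      have h4 : C1 * (n * L) * L ≤ 1 * L := mul_le_mul_of_nonneg_right (h3.trans hsm1) hl0.le
      linarith
    have key : ∀ j : ℕ, j ≤ n → ψ (y + j * a) = (f ^ j) x := by
      intro j
      induction j with
      | zero => intro _; simp [hψy]
      | succ j ih =>
        intro hj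
        have ihj := ih (by omega)
        have hjn : (j : ℝ) * |a| ≤ L := by
          refine le_trans (mul_le_mul_of_nonneg_right ?_ (abs_nonneg a)) hna
          exact_mod_cast (by omega : j ≤ n)
        have hja : |(j : ℝ) * a| ≤ L := by rwa [abs_mul, Nat.abs_cast]
        have hja' := abs_le.1 hja
        set t : ℝ := y + j * a with htdef
        have hyc : |y - c| ≤ 3 / 4 * L := by
          rw [abs_le, hcdef]
          constructor <;> linarith [hyz.1, hyz.2]
        have hyc' := abs_le.1 hyc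
        have htc : |t - c| ≤ 7 / 4 * L := by
          rw [abs_le, htdef]
          constructor <;> linarith [hyc'.1, hyc'.2, hja'.1, hja'.2]
        have htc' := abs_le.1 htc
        have hdt := abs_le.1 (hd t)
        have hψtc : |ψ t - c| ≤ 4 * L := by
          rw [abs_le]
          constructor <;> linarith [hdt.1, hdt.2]
        have h1 : y + ((j + 1 : ℕ) : ℝ) * a = t + a := by
          rw [htdef]; push_cast; ring
        rw [h1, hψe t (by linarith), pow_succ', Equiv.Perm.mul_apply, ← ihj, hf, hω3 (ψ t) hψtc]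
    exact key n le_rfl

end FG40
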