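import Pool.Agent.LibFG40.D0b
import Pool.Agent.LibFG40.D0c

/-! # D8: the end maps of a good block.

Plan. `z = l^(r+1)`, `q = p + l`, `W = lift L w` (`word_nl (r+3)`, also for `W⁻¹ = lift L w⁻¹`, `FreeGroup.norm_inv_eq`),
`E = G * W⁻¹` (`Nl.mul_perm`; `l^(Qr r) ≤ l^(Er r)`). `E` is the identity within `η = (l/16)^(r+1)/2` of `p` and of `q`
(supports of `G` and of `W`: all `L j`, hence `W`, are supported in `[p+z/2, q-z/2]`). `E = id` on
`[p+6z, q-6z]`: let `x` be there; `f^n` is increasing, moves points of `[p,q]` by `≤ z`, so `x = f^n y` with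
`y ∈ [p+5z, q-5z]`; `W y = f^n y = x` (`Core`), `G y = f^n y = x` (`CutM.core`), so `E x = G y = x`. `E₁` = `restrict`
to `[p, p+8z]`, `E₂` = `restrict` to `[q-8z, q]` (`restrict`, with the `η` above); `E = E₁ * E₂` (check the three
parts and the complement of `[p,q]`). The smallness hypothesis gives `l ≤ 1/C`, so `100 z ≤ l`. -/

open Filter Topology Set

namespace FG40

open GD31

private theorem d8_word {N : ℕ} {L : Fin N → Pm} {x : ℝ} (h : ∀ j, L j x = x)
    (w : FreeGroup (Fin N)) : (FreeGroup.lift L w : Pm) x = x := by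
  refine FreeGroup.induction_on w ?_ ?_ ?_ ?_
  · rw [map_one]
    rfl
  · intro j
    rw [FreeGroup.lift_apply_of]
    exact h j
  · intro j hj
    rw [map_inv, Equiv.Perm.inv_eq_iff_eq]
    exact hj.symm
  · intro a b ha hb
    rw [map_mul, Equiv.Perm.mul_apply, hb, ha]

theorem exists_ends (r : ℕ) (hr : 1 ≤ r) (C₁ : ℝ) (hC₁ : 1 ≤ C₁) : ∃ C : ℝ, 1 ≤ C ∧ ∀ (n : ℕ)
    (w : FreeGroup (Fin 3)) (f : Pm) (p l : ℝ) (J J' G : Pm) (L : Fin 3 → Pm), 0 < l →
    C * (n + w.norm + 1) * l ≤ 1 → Univ n w → StrictMono f →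
    (∀ x ∈ Icc p (p + l), |(f ^ n) x - x| ≤ C₁ * (n + 1) * l ^ Qr r) →
    CutM r C₁ n f p l J J' G → LetM r C₁ p l L → Core r C₁ f p l L →
    ∃ E₁ E₂ : Pm, Supp E₁ (Icc p (p + 10 * l ^ (r + 1))) ∧
      Supp E₂ (Icc (p + l - 10 * l ^ (r + 1)) (p + l)) ∧
      Nl (r + 3) (C * (n + w.norm + 1) * l ^ Er r) (l ^ (r + 1)) (disp E₁) ∧
      Nl (r + 3) (C * (n + w.norm + 1) * l ^ Er r) (l ^ (r + 1)) (disp E₂) ∧
      G = E₁ * E₂ * FreeGroup.lift L w := by
  obtain ⟨Cw, hCw1, hCw⟩ := word_nl (r + 3)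
  obtain ⟨Cm, hCm1, hCm⟩ := Nl.mul_perm (r + 3)
  have h0w : 0 ≤ Cw := by linarith
  have h0m : 0 ≤ Cm := by linarith
  have h01 : 0 ≤ C₁ := by linarith
  have hP1 : 1 ≤ Cw * Cm := one_le_mul_of_one_le_of_one_le hCw1 hCm1
  have hP2 : 1 ≤ Cw * Cm * C₁ := one_le_mul_of_one_le_of_one_le hP1 hC₁
  refine ⟨100 * (Cw * Cm * C₁), by linarith, ?_⟩
  intro n w f p l J J' G L hl hC hU hf hfn hG hL hcore
  obtain ⟨P, hP⟩ : ∃ P, P = Cw * Cm * C₁ := ⟨_, rfl⟩
  obtain ⟨N, hN⟩ : ∃ N : ℝ, N = (n : ℝ) + w.norm + 1 := ⟨_, rfl⟩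
  have hn0 : (0 : ℝ) ≤ n := Nat.cast_nonneg n
  have hw0 : (0 : ℝ) ≤ w.norm := Nat.cast_nonneg _
  have hN1 : 1 ≤ N := by rw [hN]; linarith
  rw [← hP, ← hN] at hC ⊢
  have hPP : 1 ≤ P := by rw [hP]; exact hP2
  have hPN : 1 ≤ P * N := one_le_mul_of_one_le_of_one_le hPP hN1
  have hPNl : P * N * l ≤ 1 / 100 := by nlinarith
  have hl100 : l ≤ 1 / 100 := by nlinarith
  have hl1 : l ≤ 1 := by linarith
  have hC1P : C₁ ≤ P := by
    rw [hP]
    nlinarith
  have hCwP : Cw * C₁ ≤ P := by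
    rw [hP]
    nlinarith [mul_nonneg h0w h01]
  have hCmP : Cm * C₁ ≤ P := by
    rw [hP]
    nlinarith [mul_nonneg h0m h01]
  -- the scale `z`
  obtain ⟨z, hz⟩ : ∃ z, z = l ^ (r + 1) := ⟨_, rfl⟩
  have hz0 : 0 < z := by rw [hz]; positivity
  have hzl : 100 * z ≤ l := by
    have h1 : l ^ (r + 1) ≤ l ^ 2 := pow_le_pow_of_le_one hl.le hl1 (by omega)
    rw [hz]
    nlinarith
  have hEr : l ^ Er r ≤ l * z := by
    rw [hz, ← pow_succ']
    refine pow_le_pow_of_le_one hl.le hl1 ?_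
    unfold Er
    nlinarith
  have hQE : l ^ Qr r ≤ l ^ Er r := by
    refine pow_le_pow_of_le_one hl.le hl1 ?_
    unfold Qr Er
    nlinarith
  have hEr0 : 0 ≤ l ^ Er r := by positivity
  have hQr0 : 0 ≤ l ^ Qr r := by positivity
  rw [← hz]
  -- the word
  obtain ⟨W, hW⟩ : ∃ W : Pm, W = FreeGroup.lift L w := ⟨_, rfl⟩
  have hwin : (W⁻¹ : Pm) = FreeGroup.lift L w⁻¹ := by rw [hW, map_inv]
  have hLs : ∀ j, Nl (r + 3) (C₁ * l ^ Er r) z (disp (L j)) := by
    intro j
    rw [hz]
    exact hL.nl j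
  have hLi : ∀ j, Nl (r + 3) (C₁ * l ^ Er r) z (disp (L j)⁻¹) := by
    intro j
    rw [hz]
    exact hL.nli j
  have hwN : (w.norm : ℝ) + 1 ≤ N := by rw [hN]; linarith
  have hnN : (n : ℝ) + 1 ≤ N := by rw [hN]; linarith
  have hsm : Cw * ((w.norm : ℝ) + 1) * (C₁ * l ^ Er r) ≤ z := by
    calc Cw * ((w.norm : ℝ) + 1) * (C₁ * l ^ Er r)
        = (Cw * C₁) * ((w.norm : ℝ) + 1) * l ^ Er r := by ring
      _ ≤ P * N * (l * z) := by
          refine mul_le_mul (mul_le_mul hCwP hwN (by linarith) (by linarith)) hEr hEr0 ?_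
          linarith
      _ = (P * N * l) * z := by ring
      _ ≤ 1 * z := by
          refine mul_le_mul_of_nonneg_right ?_ hz0.le
          linarith
      _ = z := one_mul z
  have hWinv : Nl (r + 3) (Cw * w.norm * (C₁ * l ^ Er r)) z (disp (W⁻¹ : Pm)) := by
    have h1 := hCw 3 L (C₁ * l ^ Er r) z w⁻¹ hz0 (by positivity) hLs hLi
      (by rw [FreeGroup.norm_inv_eq]; exact hsm)
    rw [FreeGroup.norm_inv_eq, ← hwin] at h1
    exact h1
  have hB0 : 0 ≤ Cw * w.norm * (C₁ * l ^ Er r) := by positivity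
  have hBz : Cw * w.norm * (C₁ * l ^ Er r) ≤ z := by
    refine le_trans ?_ hsm
    have : 0 ≤ Cw * (C₁ * l ^ Er r) := by positivity
    nlinarith
  have hGnl : Nl (r + 3) (C₁ * (n + 1) * l ^ Qr r) z (disp G) := by
    rw [hz]
    exact hG.nl
  obtain ⟨E, hE⟩ : ∃ E : Pm, E = G * W⁻¹ := ⟨_, rfl⟩
  have hEnl0 := hCm (C₁ * (n + 1) * l ^ Qr r) (Cw * w.norm * (C₁ * l ^ Er r)) z G W⁻¹ hz0
    (by positivity) hB0 hBz hGnl hWinv
  rw [← hE] at hEnl0
  have hAE0 : 0 ≤ Cm * (C₁ * (n + 1) * l ^ Qr r) + Cw * w.norm * (C₁ * l ^ Er r) := by positivity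
  have hAE : Cm * (C₁ * (n + 1) * l ^ Qr r) + Cw * w.norm * (C₁ * l ^ Er r) ≤
      100 * P * N * l ^ Er r := by
    have h1 : Cm * (C₁ * (n + 1) * l ^ Qr r) ≤ P * ((n : ℝ) + 1) * l ^ Er r := by
      calc Cm * (C₁ * (n + 1) * l ^ Qr r) = (Cm * C₁) * ((n : ℝ) + 1) * l ^ Qr r := by ring
        _ ≤ P * ((n : ℝ) + 1) * l ^ Er r := by
            refine mul_le_mul (mul_le_mul_of_nonneg_right hCmP (by linarith)) hQE hQr0 ?_
            have : 0 ≤ P := by linarith
            positivity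
    have h2 : Cw * w.norm * (C₁ * l ^ Er r) ≤ P * (w.norm : ℝ) * l ^ Er r := by
      calc Cw * w.norm * (C₁ * l ^ Er r) = (Cw * C₁) * (w.norm : ℝ) * l ^ Er r := by ring
        _ ≤ P * (w.norm : ℝ) * l ^ Er r :=
            mul_le_mul_of_nonneg_right (mul_le_mul_of_nonneg_right hCwP hw0) hEr0
    have h3 : P * ((n : ℝ) + 1) * l ^ Er r + P * (w.norm : ℝ) * l ^ Er r = P * N * l ^ Er r := by
      rw [hN]; ring
    have h4 : 0 ≤ P * N * l ^ Er r := by
      have : 0 ≤ P * N := by linarith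
      positivity
    calc Cm * (C₁ * (n + 1) * l ^ Qr r) + Cw * w.norm * (C₁ * l ^ Er r)
        ≤ P * N * l ^ Er r := by linarith
      _ ≤ 100 * P * N * l ^ Er r := by nlinarith
  have hEnl : Nl (r + 3) (100 * P * N * l ^ Er r) z (disp E) :=
    hEnl0.mono le_rfl hAE0 hAE hz0 le_rfl
  have hAt0 : 0 ≤ 100 * P * N * l ^ Er r := hAE0.trans hAE
  -- supports
  have hLx : ∀ x, x ∉ Icc (p + z / 2) (p + l - z / 2) → ∀ j, L j x = x := by
    intro x hx j
    refine hL.supp j x ?_
    rw [← hz]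
    exact hx
  have hWx : ∀ x, x ∉ Icc (p + z / 2) (p + l - z / 2) → (W⁻¹ : Pm) x = x := by
    intro x hx
    rw [hwin]
    exact d8_word (hLx x hx) _
  obtain ⟨y0, hy0⟩ : ∃ y0, y0 = (l / 16) ^ (r + 1) := ⟨_, rfl⟩
  have hy0p : 0 < y0 := by rw [hy0]; positivity
  have hy0z : y0 < z := by
    rw [hy0, hz]
    exact pow_lt_pow_left₀ (by linarith) (by positivity) (Nat.succ_ne_zero r)
  have hGx : ∀ x, x ∉ Icc (p + y0) (p + l - y0) → G x = x := by
    intro x hx
    refine hG.supp x ?_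
    rw [← hy0]
    exact hx
  obtain ⟨η, hη⟩ : ∃ η, η = y0 / 2 := ⟨_, rfl⟩
  have hη0 : 0 < η := by rw [hη]; linarith
  have hηz : 2 * η < z := by rw [hη]; linarith
  have hEx : ∀ x, E x = G ((W⁻¹ : Pm) x) := by
    intro x
    rw [hE]
    rfl
  have hEout : ∀ x, x ≤ p + η ∨ p + l - η ≤ x → E x = x := by
    intro x hx
    have hx1 : x ∉ Icc (p + z / 2) (p + l - z / 2) := by
      rcases hx with hx | hx
      · intro h'
        have := h'.1
        linarith
      · intro h'
        have := h'.2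
        linarith
    have hx2 : x ∉ Icc (p + y0) (p + l - y0) := by
      rcases hx with hx | hx
      · intro h'
        have := h'.1
        rw [hη] at hx
        linarith
      · intro h'
        have := h'.2
        rw [hη] at hx
        linarith
    rw [hEx, hWx x hx1]
    exact hGx x hx2
  -- `E` is the identity in the middle
  have hfm : StrictMono (f ^ n : Pm) := by
    have h1 : ∀ m : ℕ, StrictMono (f ^ m : Pm) := by
      intro m
      induction m with
      | zero =>
        intro x y hxy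
        simpa using hxy
      | succ m ih =>
        intro x y hxy
        rw [pow_succ, Equiv.Perm.mul_apply, Equiv.Perm.mul_apply]
        exact ih (hf hxy)
    exact h1 n
  have hfz : ∀ x ∈ Icc p (p + l), |(f ^ n) x - x| ≤ z := by
    intro x hx
    refine (hfn x hx).trans ?_
    calc C₁ * (n + 1) * l ^ Qr r ≤ P * N * (l * z) := by
          refine mul_le_mul (mul_le_mul hC1P hnN (by linarith) (by linarith)) (hQE.trans hEr) hQr0 ?_
          linarith
      _ = (P * N * l) * z := by ring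
      _ ≤ 1 * z := by
          refine mul_le_mul_of_nonneg_right ?_ hz0.le
          linarith
      _ = z := one_mul z
  have hmid : ∀ x, p + 6 * z ≤ x → x ≤ p + l - 6 * z → E x = x := by
    intro x hx1 hx2
    obtain ⟨y, hy⟩ : ∃ y, y = ((f ^ n)⁻¹ : Pm) x := ⟨_, rfl⟩
    have hfy : (f ^ n) y = x := by
      rw [hy]
      exact Equiv.apply_symm_apply (f ^ n) x
    have hya : p + 5 * z ≤ y := by
      by_contra h
      rw [not_le] at h
      have h1 := hfm h
      have h2 := (abs_le.1 (hfz (p + 5 * z) ⟨by linarith, by linarith⟩)).2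
      rw [hfy] at h1
      linarith
    have hyb : y ≤ p + l - 5 * z := by
      by_contra h
      rw [not_le] at h
      have h1 := hfm h
      have h2 := (abs_le.1 (hfz (p + l - 5 * z) ⟨by linarith, by linarith⟩)).1
      rw [hfy] at h1
      linarith
    have hsm2 : C₁ * ((n : ℝ) + w.norm + 1) * l ≤ 1 := by
      rw [← hN]
      have h1 : C₁ * N ≤ P * N := mul_le_mul_of_nonneg_right hC1P (by linarith)
      have h2 : C₁ * N * l ≤ P * N * l := mul_le_mul_of_nonneg_right h1 hl.le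
      linarith
    have hWy : W y = x := by
      rw [hW, hcore n w hU hsm2 y ⟨by rw [← hz]; exact hya, by rw [← hz]; exact hyb⟩, hfy]
    have hGy : G y = x := by
      rw [hG.core y (by rw [← hz]; linarith) (by rw [← hz]; linarith), hfy]
    have hWi : (W⁻¹ : Pm) x = y := by
      rw [Equiv.Perm.inv_eq_iff_eq]
      exact hWy.symm
    rw [hEx, hWi, hGy]
  have hEm : StrictMono E := by
    have hWm : StrictMono (W⁻¹ : Pm) := by
      refine strictMono_inv ?_
      rw [hW]
      exact word_mono hL.mono w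
    intro x y hxy
    rw [hEx, hEx]
    exact hG.mono (hWm hxy)
  obtain ⟨E₁, hs1, he1, hn1, -⟩ := restrict (k := r + 3) (A := 100 * P * N * l ^ Er r) (l := z)
    (a := p) (b := p + 8 * z) (η := η) (E := E) hz0 hη0 (by linarith) hAt0 hEm hEnl
    (by
      intro x hx
      exact hEout x (Or.inl (by linarith [(abs_le.1 hx).2])))
    (by
      intro x hx
      have h1 := (abs_le.1 hx).1
      have h2 := (abs_le.1 hx).2
      exact hmid x (by linarith) (by linarith))
  obtain ⟨E₂, hs2, he2, hn2, -⟩ := restrict (k := r + 3) (A := 100 * P * N * l ^ Er r) (l := z)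
    (a := p + l - 8 * z) (b := p + l) (η := η) (E := E) hz0 hη0 (by linarith) hAt0 hEm hEnl
    (by
      intro x hx
      have h1 := (abs_le.1 hx).1
      have h2 := (abs_le.1 hx).2
      exact hmid x (by linarith) (by linarith))
    (by
      intro x hx
      exact hEout x (Or.inr (by linarith [(abs_le.1 hx).1])))
  have h12 : E = E₁ * E₂ := by
    ext x
    rw [Equiv.Perm.mul_apply]
    by_cases hA : x ∈ Icc p (p + 8 * z)
    · have h2 : E₂ x = x := hs2 x fun h => by
        have h3 := h.1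
        have h4 := hA.2
        linarith
      rw [h2, he1 x hA]
    · by_cases hB : x ∈ Icc (p + l - 8 * z) (p + l)
      · rw [he2 x hB]
        have h3 : E (p + l - 8 * z) = p + l - 8 * z := hmid _ (by linarith) (by linarith)
        have h4 : p + l - 8 * z ≤ E x := by
          have := hEm.monotone hB.1
          rw [h3] at this
          exact this
        exact (hs1 _ fun h => by
          have h5 := h.2
          linarith).symm
      · have h2 : E₂ x = x := hs2 x fun h => hB ⟨by linarith [h.1], by linarith [h.2]⟩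
        have h1 : E₁ x = x := hs1 x fun h => hA ⟨by linarith [h.1], by linarith [h.2]⟩
        rw [h2, h1]
        rcases lt_or_ge x p with hxp | hxp
        · exact hEout x (Or.inl (by linarith))
        · rcases lt_or_ge (p + l) x with hxq | hxq
          · exact hEout x (Or.inr (by linarith))
          · have h3 : p + 8 * z < x := by
              by_contra h
              exact hA ⟨hxp, not_lt.1 h⟩
            have h4 : x < p + l - 8 * z := by
              by_contra h
              exact hB ⟨not_lt.1 h, hxq⟩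
            exact hmid x (by linarith) (by linarith)
  refine ⟨E₁, E₂, ?_, ?_, hn1, hn2, ?_⟩
  · intro x hx
    exact hs1 x fun h => hx ⟨by linarith [h.1], by linarith [h.2]⟩
  · intro x hx
    exact hs2 x fun h => hx ⟨by linarith [h.1], by linarith [h.2]⟩
  · rw [← hW, ← h12, hE, inv_mul_cancel_right]

end FG40
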