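import Pool.Agent.LibFG40.C3
import Pool.Agent.LibFG40.D0a

/-! # D9: storage of contents at the ends of the blocks.

Plan. `smooth_storage` with `υ = ι`, `π = id`, `z = l^(r+1)`, `y = e`, `q = 100 z`, `R = l / 100`, `b = e - 10 z`,
`L = 20 z`, `σ = l² / 10^4` (`= R²`), `C₀ = 100 * 100^(r+1)`. Contents: `nl_scale` from `z` to `20 z`:
`c k * 20^(r+3) * l^(Er r) = c' k * σ² * L^(2r)` up to a constant, as `l^(Er r) = l^4 z^(2r)`. Rooms: `q ≤ R` and `2R
≤ e` (`BS.tiny`, `BS.mem` at the point `p - 19 l`); disjoint: if `[e i - l i/100, e i + l i/100]` and the one of `j ≠ i`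
meet, both 20-fold enlargements contain a common point, so `l i ≤ 2 l j ≤ 4 l i` (`BS.ratio`) and `|e i - e j| ≤
3 l i / 100`, against `BS.disj` (`|p i - p j| ≥ min (l i) (l j)`; for `e = p + l` the same). -/

open Filter Topology Set

namespace FG40

open GD31

/-- the intervals `[e i - 10 z, e i + 10 z]` are disjoint -/
theorem ends_disj {r : ℕ} (hr : 1 ≤ r) {ρ : ℝ → ℝ} {ι : Type} {p l : ι → ℝ} {col : ι → Fin 16}
    (hB : BS ρ ι p l col) (e : ι → ℝ) (he : (∀ i, e i = p i) ∨ ∀ i, e i = p i + l i) :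
    Pairwise fun i j => Disjoint (Icc (e i - l i / 100) (e i + l i / 100))
      (Icc (e j - l j / 100) (e j + l j / 100)) := by
  intro i j hij
  refine Set.disjoint_left.2 fun x hx hy => ?_
  have hi := hB.pos i
  have hj := hB.pos j
  obtain ⟨h1, h2⟩ := hx
  obtain ⟨h3, h4⟩ := hy
  have hp : ∀ a, p a ≤ e a ∧ e a ≤ p a + l a := by
    intro a
    have ha := hB.pos a
    rcases he with he | he
    · rw [he a]
      exact ⟨le_rfl, by linarith⟩
    · rw [he a]
      exact ⟨by linarith, le_rfl⟩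
  have hci : |x - (p i + l i / 2)| ≤ 20 * l i := by
    have := hp i
    rw [abs_le]
    constructor <;> linarith [this.1, this.2]
  have hcj : |x - (p j + l j / 2)| ≤ 20 * l j := by
    have := hp j
    rw [abs_le]
    constructor <;> linarith [this.1, this.2]
  have hr1 := hB.ratio i j x hci hcj
  have hr2 := hB.ratio j i x hcj hci
  rcases he with he | he
  · have h5 := he i
    have h6 := he j
    rcases hB.disj i j hij with h | h <;> linarith
  · have h5 := he i
    have h6 := he j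
    rcases hB.disj i j hij with h | h <;> linarith

theorem end_storage {r : ℕ} (hr : 1 ≤ r) (hc : ChainHyp r) {ρ : ℝ → ℝ} {ι : Type} {p l : ι → ℝ}
    {col : ι → Fin 16} (hB : BS ρ ι p l col) (e : ι → ℝ) (he : (∀ i, e i = p i) ∨ ∀ i, e i = p i + l i)
    (D : ℕ → ι → Pm)
    (hD : ∀ k i, Supp (D k i) (Icc (e i - 10 * l i ^ (r + 1)) (e i + 10 * l i ^ (r + 1)))) (c : ℕ → ℝ)
    (hN : ∀ k i, Nl (r + 3) (c k * l i ^ Er r) (l i ^ (r + 1)) (disp (D k i))) (E : ℕ → Pm)
    (hE : ∀ k, IsGlue (fun i => Icc (e i - 10 * l i ^ (r + 1)) (e i + 10 * l i ^ (r + 1))) (D k) (E k)) :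
    Rep r E := by
  have hlp : ∀ i, 0 < l i := hB.pos
  have hlt : ∀ i, l i ≤ (1 / 10) ^ 20 := hB.tiny
  have hz0 : ∀ i, 0 < l i ^ (r + 1) := fun i => pow_pos (hlp i) _
  have hl1 : ∀ i, l i ≤ 1 := fun i => (hlt i).trans (by norm_num)
  have hzl : ∀ i, 10000 * l i ^ (r + 1) ≤ l i := by
    intro i
    have h1 : l i ^ (r + 1) ≤ l i ^ 2 := pow_le_pow_of_le_one (hlp i).le (hl1 i) (by omega)
    have h2 : l i * 10000 ≤ 1 := by
      have := hlt i
      have h3 : ((1 / 10 : ℝ)) ^ 20 * 10000 ≤ 1 := by norm_num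
      linarith
    have h3 := hlp i
    nlinarith
  have hdis := ends_disj hr hB e he
  have hIcc : ∀ i, Icc (e i - 10 * l i ^ (r + 1)) (e i - 10 * l i ^ (r + 1) + 20 * l i ^ (r + 1)) =
      Icc (e i - 10 * l i ^ (r + 1)) (e i + 10 * l i ^ (r + 1)) := by
    intro i
    congr 1
    ring
  have hrooms : Rooms r e (fun i => 100 * l i ^ (r + 1)) (fun i => l i / 100)
      (100 * 100 ^ (r + 1)) := by
    refine ⟨?_, ?_, ?_, ?_, ?_, hdis, ?_⟩
    · intro v
      have := hz0 v
      positivity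
    · intro v
      have := hzl v
      show 100 * l v ^ (r + 1) ≤ l v / 100
      linarith
    · intro v
      have := hl1 v
      show l v / 100 ≤ 1
      linarith
    · intro v
      show 100 * l v ^ (r + 1) ≤ 100 * 100 ^ (r + 1) * (l v / 100) ^ (r + 1)
      rw [div_pow]
      have h1 : (100 : ℝ) ^ (r + 1) ≠ 0 := by positivity
      refine le_of_eq ?_
      field_simp
    · intro v
      have h1 := hlp v
      have h2 := (hB.mem v (p v - 19 * l v) (by
        rw [abs_le]
        constructor <;> linarith)).1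
      show 2 * (l v / 100) ≤ e v
      rcases he with he | he
      · rw [he v]
        linarith
      · rw [he v]
        linarith
    · exact hB.summ.div_const 100
  refine smooth_storage hr hc hrooms (fun i => i) (fun i => e i - 10 * l i ^ (r + 1))
    (fun i => 20 * l i ^ (r + 1)) (fun i => l i ^ 2 / 10 ^ 4) ?_ ?_ ?_ ?_ ?_ ?_ ?_ D ?_
    (fun k => c k * 20 ^ (r + 3) * 10 ^ 8 / 20 ^ (2 * r)) ?_ E ?_
  · intro i
    have := hz0 i
    positivity
  · intro i
    have h1 := hzl i
    have h2 := hl1 i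
    show 20 * l i ^ (r + 1) ≤ 1
    linarith
  · intro i
    have := hlp i
    positivity
  · refine Summable.of_nonneg_of_le (fun i => ?_) (fun i => ?_) hB.summ
    · have := hlp i
      positivity
    · have h1 := hlp i
      have h2 := hl1 i
      have h3 : l i ^ 2 ≤ l i := by nlinarith
      have h4 : 0 ≤ l i ^ 2 := by positivity
      rw [div_le_iff₀ (by norm_num)]
      nlinarith
  · intro v S hS
    have h1 : S ⊆ {v} := fun i hi => Finset.mem_singleton.2 (hS i hi)
    have h2 : ∑ i ∈ S, l i ^ 2 / 10 ^ 4 ≤ ∑ i ∈ {v}, l i ^ 2 / 10 ^ 4 := by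
      refine Finset.sum_le_sum_of_subset_of_nonneg h1 fun i _ _ => ?_
      have := hlp i
      positivity
    rw [Finset.sum_singleton] at h2
    refine h2.trans ?_
    show l v ^ 2 / 10 ^ 4 ≤ 100 * 100 ^ (r + 1) * (l v / 100) ^ 2
    have h3 : l v ^ 2 / 10 ^ 4 = (l v / 100) ^ 2 := by ring
    rw [h3]
    have h4 : (1 : ℝ) ≤ 100 * 100 ^ (r + 1) := by
      have : (1 : ℝ) ≤ 100 ^ (r + 1) := one_le_pow₀ (by norm_num)
      linarith
    have h5 : 0 ≤ (l v / 100) ^ 2 := by positivity
    nlinarith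
  · intro i
    refine Icc_subset_Icc ?_ ?_
    · have := hz0 i
      show e i - 100 * l i ^ (r + 1) ≤ e i - 10 * l i ^ (r + 1) - 20 * l i ^ (r + 1)
      linarith
    · have := hz0 i
      show e i - 10 * l i ^ (r + 1) + 5 * (20 * l i ^ (r + 1)) ≤ e i + 100 * l i ^ (r + 1)
      linarith
  · intro i j hij
    refine (hdis hij).mono ?_ ?_
    · refine Icc_subset_Icc ?_ ?_
      · have := hz0 i
        have := hzl i
        show e i - l i / 100 ≤ e i - 10 * l i ^ (r + 1) - 20 * l i ^ (r + 1)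
        linarith
      · have := hz0 i
        have := hzl i
        show e i - 10 * l i ^ (r + 1) + 5 * (20 * l i ^ (r + 1)) ≤ e i + l i / 100
        linarith
    · refine Icc_subset_Icc ?_ ?_
      · have := hz0 j
        have := hzl j
        show e j - l j / 100 ≤ e j - 10 * l j ^ (r + 1) - 20 * l j ^ (r + 1)
        linarith
      · have := hz0 j
        have := hzl j
        show e j - 10 * l j ^ (r + 1) + 5 * (20 * l j ^ (r + 1)) ≤ e j + l j / 100
        linarith
  · intro k i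
    show Supp (D k i) (Icc (e i - 10 * l i ^ (r + 1)) (e i - 10 * l i ^ (r + 1) +
      20 * l i ^ (r + 1)))
    rw [hIcc i]
    exact hD k i
  · intro k i
    have hA : 0 ≤ c k * l i ^ Er r := by
      have h1 := (hN k i).bound 0 (Nat.zero_le _) 0
      rw [pow_zero, div_one] at h1
      exact (abs_nonneg _).trans h1
    have h2 := nl_scale (c := 20) hA (hz0 i) (by norm_num) (hN k i)
    have h3 : c k * 20 ^ (r + 3) * 10 ^ 8 / 20 ^ (2 * r) * (l i ^ 2 / 10 ^ 4) ^ 2 *
        (20 * l i ^ (r + 1)) ^ (2 * r) = c k * l i ^ Er r * 20 ^ (r + 3) := by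
      have h4 : l i ^ Er r = l i ^ 4 * (l i ^ (r + 1)) ^ (2 * r) := by
        rw [← pow_mul, ← pow_add]
        congr 1
        unfold Er
        ring
      rw [h4, mul_pow]
      have h5 : (20 : ℝ) ^ (2 * r) ≠ 0 := by positivity
      field_simp
    show Nl (r + 3) (c k * 20 ^ (r + 3) * 10 ^ 8 / 20 ^ (2 * r) * (l i ^ 2 / 10 ^ 4) ^ 2 *
        (20 * l i ^ (r + 1)) ^ (2 * r)) (20 * l i ^ (r + 1)) (disp (D k i))
    rw [h3]
    exact h2
  · intro k
    have h1 : (fun i => Icc (e i - 10 * l i ^ (r + 1)) (e i - 10 * l i ^ (r + 1) +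
        20 * l i ^ (r + 1))) = fun i => Icc (e i - 10 * l i ^ (r + 1)) (e i + 10 * l i ^ (r + 1)) :=
      funext hIcc
    show IsGlue (fun i => Icc (e i - 10 * l i ^ (r + 1)) (e i - 10 * l i ^ (r + 1) +
        20 * l i ^ (r + 1))) (D k) (E k)
    rw [h1]
    exact hE k

end FG40
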