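import Pool.Agent.LibFG40.SzR
import Pool.Agent.LibGD31.CH4
import Pool.Agent.LibGD31.CK7
import Pool.Agent.LibGD31.ST1
import Pool.Agent.LibGC45.U1
import Pool.Agent.LibGC45.B4b
import Pool.Agent.LibGC45.B5

/-!
# Flat germs in `G^r` (MP_b44c39_an): definitions

Everything lives in the coordinate `x` near `0`, on the right side.
-/

open Filter Topology Set

namespace FG40

open GD31

/-! ### parameters -/

/-- exponent `Q`: `|φ| ~ l^Q` on a block of length `l` -/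
def Qr (r : ℕ) : ℕ := 6 * r ^ 2 + 14 * r + 16

/-- `P = 2 Q` -/
def Pr (r : ℕ) : ℕ := 2 * Qr r

/-- `K = (r + 1)(P + 1)`: order of the Taylor polynomials -/
def Kr (r : ℕ) : ℕ := (r + 1) * (Pr r + 1)

/-- exponent of the contents in the junction zones -/
def Er (r : ℕ) : ℕ := 2 * r ^ 2 + 2 * r + 4

/-- exponent of the homothety parameter `s = l^(E2r r)`; `Qr r = 2 * E2r r` -/
def E2r (r : ℕ) : ℕ := 3 * r ^ 2 + 7 * r + 8

/-- smallness of `ρ` -/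
noncomputable def dr (r : ℕ) : ℝ := (1 / (10 ^ 6 * (Kr r : ℝ))) ^ (2 * (r + 1))

/-- smallness of `φ` -/
noncomputable def kr (r : ℕ) : ℝ := (dr r / 8) ^ Pr r

/-- The flat data: `φ` is `C^∞`, supported in `[0,1]`, small and flat at `0` up to order `Kr r`. -/
structure HF (r : ℕ) (φ : ℝ → ℝ) : Prop where
  smooth : Sm φ
  left : ∀ x ≤ 0, φ x = 0
  right : ∀ x, 1 ≤ x → φ x = 0
  bound : ∀ i ≤ Kr r, ∀ x ∈ Icc (0 : ℝ) 1, |iteratedDeriv i φ x| ≤ kr r * x ^ ((r + 1) * Pr r)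

theorem Pr_pos (r : ℕ) : 0 < Pr r := by
  unfold Pr Qr
  positivity

/-- The scale function of `φ`. -/
noncomputable def rho (r : ℕ) (φ : ℝ → ℝ) (x : ℝ) : ℝ :=
  (Finset.range (Pr r)).sup' ⟨0, Finset.mem_range.2 (Pr_pos r)⟩
    (fun i => (8 ^ i * |iteratedDeriv i φ x|) ^ (1 / ((Pr r : ℝ) - i)))

/-- bad points: `φ x` is not the dominant derivative -/
def Bad (r : ℕ) (φ : ℝ → ℝ) (x : ℝ) : Prop := 0 < rho r φ x ∧ |φ x| < rho r φ x ^ Pr r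

/-- good points: `φ x` is the dominant derivative -/
def Good (r : ℕ) (φ : ℝ → ℝ) (x : ℝ) : Prop := 0 < rho r φ x ∧ |φ x| = rho r φ x ^ Pr r

/-- abstract scale functions -/
structure Sc (ρ : ℝ → ℝ) : Prop where
  nonneg : ∀ x, 0 ≤ ρ x
  lip : ∀ x y, |ρ x - ρ y| ≤ |x - y| / 8
  small : ∀ x ∈ Ioo (0 : ℝ) 1, ρ x ≤ (1 / 10) ^ 12 * x
  zero : ∀ x, x ∉ Ioo (0 : ℝ) 1 → ρ x = 0

/-! ### dyadic blocks -/

/-- length of the dyadic interval `(j, m)` -/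
noncomputable def dl (a : ℕ × ℤ) : ℝ := (1 / 2 : ℝ) ^ a.1

/-- left end of the dyadic interval `(j, m)` -/
noncomputable def dp (a : ℕ × ℤ) : ℝ := a.2 * dl a

/-- centre of the dyadic interval `(j, m)` -/
noncomputable def dc (a : ℕ × ℤ) : ℝ := dp a + dl a / 2

/-- the parent -/
def par (a : ℕ × ℤ) : ℕ × ℤ := (a.1 - 1, a.2 / 2)

/-- admissible dyadic intervals -/
def Adm (ρ : ℝ → ℝ) (a : ℕ × ℤ) : Prop := dl a ≤ ρ (dc a) ^ 2

/-- the blocks: maximal admissible dyadic intervals -/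
def Blk (ρ : ℝ → ℝ) (a : ℕ × ℤ) : Prop := 1 ≤ a.1 ∧ Adm ρ a ∧ ¬ Adm ρ (par a)

/-- A system of blocks `[p i, p i + l i)` for the scale function `ρ`: `l ~ ρ²`. -/
structure BS (ρ : ℝ → ℝ) (ι : Type) (p l : ι → ℝ) (col : ι → Fin 16) : Prop where
  pos : ∀ i, 0 < l i
  lo : ∀ i x, |x - (p i + l i / 2)| ≤ 20 * l i → 9 / 10 * l i ≤ ρ x ^ 2
  hi : ∀ i x, |x - (p i + l i / 2)| ≤ 20 * l i → ρ x ^ 2 ≤ 11 / 5 * l i
  cover : ∀ x, 0 < ρ x → ∃ i, x ∈ Ico (p i) (p i + l i)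
  disj : ∀ i j, i ≠ j → p i + l i ≤ p j ∨ p j + l j ≤ p i
  ratio : ∀ i j x, |x - (p i + l i / 2)| ≤ 20 * l i → |x - (p j + l j / 2)| ≤ 20 * l j → l i ≤ 2 * l j
  right : ∀ i, ∃ j, p j = p i + l i
  left : ∀ i, ∃ j, p j + l j = p i
  colour : ∀ i j, i ≠ j → col i = col j →
    Disjoint (Icc (p i - l i) (p i + 5 * l i)) (Icc (p j - l j) (p j + 5 * l j))
  summ : Summable l
  mem : ∀ i x, |x - (p i + l i / 2)| ≤ 20 * l i → x ∈ Ioo (0 : ℝ) 1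
  small : ∀ i, ∀ x ∈ Icc (p i) (p i + l i), l i ≤ x ^ 2
  tiny : ∀ i, l i ≤ (1 / 10) ^ 20

/-! ### representable sequences -/

/-- `F` is an increasing `C^r` diffeomorphism of the line, the identity on `x ≤ 0`. -/
structure Gd (r : ℕ) (F : Pm) : Prop where
  contDiff : ContDiff ℝ r F
  pos : ∀ x, 0 < deriv F x
  left : ∀ x ≤ 0, F x = x

/-- `E k` is, near `0`, a word of length `≤ C 4^k` in finitely many fixed maps. -/
def Rep (r : ℕ) (E : ℕ → Pm) : Prop :=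
  ∃ (N : ℕ) (F : Fin N → Pm) (w : ℕ → FreeGroup (Fin N)) (C : ℕ),
    (∀ i, Gd r (F i)) ∧ (∀ k, (w k).norm ≤ C * 4 ^ k) ∧
    ∀ k, ∀ᶠ x in 𝓝 (0 : ℝ), (FreeGroup.lift F (w k) : Pm) x = E k x

/-- Systems of rooms `[y - R, y + R]` with zones `[y - q, y + q]`. -/
structure Rooms (r : ℕ) {υ : Type} (y q R : υ → ℝ) (C₀ : ℝ) : Prop where
  qpos : ∀ v, 0 < q v
  qR : ∀ v, q v ≤ R v
  R1 : ∀ v, R v ≤ 1
  le : ∀ v, q v ≤ C₀ * R v ^ (r + 1)
  left : ∀ v, 2 * R v ≤ y v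
  disj : Pairwise fun v v' => Disjoint (Icc (y v - R v) (y v + R v)) (Icc (y v' - R v') (y v' + R v'))
  summ : Summable R

/-! ### local maps in a block; the zones have length `l ^ (r + 1)` -/

/-- junction maps of order `n` at `p` -/
structure JM (r : ℕ) (C : ℝ) (n : ℕ) (f : Pm) (p l : ℝ) (J : Pm) : Prop where
  supp : Supp J (Icc (p - (l / 4) ^ (r + 1)) (p + (l / 4) ^ (r + 1)))
  nl : Nl (r + 3) (C * (n + 1) * l ^ Qr r) (l ^ (r + 1)) (disp J)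
  nli : Nl (r + 3) (C * (n + 1) * l ^ Qr r) (l ^ (r + 1)) (disp J⁻¹)
  mono : StrictMono J
  eq : ∀ x, |x - p| ≤ (l / 4) ^ (r + 1) / 2 → J x = (f ^ n) x

/-- the `n`-th power of `f` cut at both ends of the block `[p, p + l]` -/
structure CutM (r : ℕ) (C : ℝ) (n : ℕ) (f : Pm) (p l : ℝ) (J J' G : Pm) : Prop where
  supp : Supp G (Icc (p + (l / 16) ^ (r + 1)) (p + l - (l / 16) ^ (r + 1)))
  nl : Nl (r + 3) (C * (n + 1) * l ^ Qr r) (l ^ (r + 1)) (disp G)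
  mono : StrictMono G
  eq : ∀ x ∈ Icc p (p + l), J (J' (G x)) = (f ^ n) x
  core : ∀ x, p + 2 * l ^ (r + 1) ≤ x → x ≤ p + l - 2 * l ^ (r + 1) → G x = (f ^ n) x

/-- the letters of a good block -/
structure LetM (r : ℕ) (C p l : ℝ) (L : Fin 3 → Pm) : Prop where
  supp : ∀ j, Supp (L j) (Icc (p + l ^ (r + 1) / 2) (p + l - l ^ (r + 1) / 2))
  nl : ∀ j, Nl (r + 3) (C * l ^ Er r) (l ^ (r + 1)) (disp (L j))
  nli : ∀ j, Nl (r + 3) (C * l ^ Er r) (l ^ (r + 1)) (disp (L j)⁻¹)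
  mono : ∀ j, StrictMono (L j)

/-- `w` is a word which evaluates to the translation by `n` in all affine triples -/
def Univ (n : ℕ) (w : FreeGroup (Fin 3)) : Prop :=
  ∀ (s : ℝ) (hs : 0 < s), FreeGroup.lift (GC45.affs s hs) w = (GC45.aff 1 1 one_ne_zero) ^ n

/-- the word `w` in the letters `L` is `f ^ n` in the core of the block -/
def Core (r : ℕ) (C : ℝ) (f : Pm) (p l : ℝ) (L : Fin 3 → Pm) : Prop :=
  ∀ (n : ℕ) (w : FreeGroup (Fin 3)), Univ n w → C * (n + w.norm + 1) * l ≤ 1 →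
    ∀ x ∈ Icc (p + 5 * l ^ (r + 1)) (p + l - 5 * l ^ (r + 1)), (FreeGroup.lift L w : Pm) x = (f ^ n) x

end FG40
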