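import Mathlib

/-! # E1: derivatives of a polynomial at a point far from its roots.

Plan. Do not induct on derivatives. `p = C a * ∏ (X - C w_j)` over `ℂ` (`IsAlgClosed.splits`, roots with
multiplicity, `natDegree` many). Claim, by induction on the multiset of roots: with `t_i(p)` = the `i`-th
coefficient of the Taylor expansion of `p` at `z` (`Polynomial.taylor z p`, `taylor_coeff`: `t_i = (derivative^[i] p)(z) /
i!`), `‖t_i‖ ≤ (N.choose i) d^(-i) ‖p(z)‖` for a product of `N` factors with `‖z - w_j‖ ≥ d`: multiplication by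
`(X - w) = (X - z) + (z - w)`: `t'_i = (z - w) t_i + t_(i-1)`, `‖z - w‖ ≥ d`, Pascal. Then `i! N.choose i ≤ N^i`
(`Nat.descFactorial_le_pow`). If `p = 0` the hypothesis fails at `w = z`. -/

open Polynomial

namespace FG40

theorem e1_taylor (z : ℂ) (d : ℝ) (hd : 0 < d) (S : Multiset ℂ) (h : ∀ w ∈ S, d ≤ ‖z - w‖) (i : ℕ) :
    ‖(taylor z (S.map fun w => X - C w).prod).coeff i‖ ≤
      ((Multiset.card S).choose i : ℝ) * (d⁻¹) ^ i * ‖(S.map fun w => X - C w).prod.eval z‖ := by
  induction S using Multiset.induction_on generalizing i with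
  | empty =>
    rw [Multiset.map_zero, Multiset.prod_zero, taylor_one, eval_one, Multiset.card_zero, norm_one,
      mul_one, coeff_C]
    cases i with
    | zero => simp
    | succ i => simp
  | cons w S ih =>
    obtain ⟨p, hp⟩ : ∃ p : ℂ[X], p = (S.map fun w => X - C w).prod := ⟨_, rfl⟩
    have hw : d ≤ ‖z - w‖ := h w (Multiset.mem_cons_self w S)
    have hS := ih fun v hv => h v (Multiset.mem_cons_of_mem hv)
    rw [← hp] at hS
    rw [Multiset.map_cons, Multiset.prod_cons, ← hp, Multiset.card_cons, eval_mul, eval_sub, eval_X,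
      eval_C, norm_mul]
    have h1 : taylor z ((X - C w) * p) = X * taylor z p + C (z - w) * taylor z p := by
      rw [taylor_mul, map_sub, taylor_X, taylor_C, C_sub]
      ring
    have hi : 0 < d⁻¹ := inv_pos.2 hd
    have hE : 0 ≤ ‖p.eval z‖ := norm_nonneg _
    rw [h1, coeff_add, coeff_C_mul]
    cases i with
    | zero =>
      rw [mul_coeff_zero, coeff_X_zero, zero_mul, zero_add, norm_mul, Nat.choose_zero_right, pow_zero]
      have h2 := hS 0
      rw [Nat.choose_zero_right, pow_zero, Nat.cast_one, one_mul, one_mul] at h2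
      rw [Nat.cast_one, one_mul, one_mul]
      exact mul_le_mul_of_nonneg_left h2 (norm_nonneg _)
    | succ i =>
      rw [coeff_X_mul]
      have h2 := hS i
      have h3 := hS (i + 1)
      have h4 : 1 ≤ ‖z - w‖ * d⁻¹ := by
        rw [← div_eq_mul_inv, one_le_div hd]
        exact hw
      have h5 : (((Multiset.card S).choose i : ℕ) : ℝ) * d⁻¹ ^ i * ‖p.eval z‖ ≤
          ‖z - w‖ * ((((Multiset.card S).choose i : ℕ) : ℝ) * d⁻¹ ^ (i + 1) * ‖p.eval z‖) := by
        have h6 : 0 ≤ (((Multiset.card S).choose i : ℕ) : ℝ) * d⁻¹ ^ i * ‖p.eval z‖ := by positivity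
        calc _ ≤ (((Multiset.card S).choose i : ℕ) : ℝ) * d⁻¹ ^ i * ‖p.eval z‖ * (‖z - w‖ * d⁻¹) :=
              le_mul_of_one_le_right h6 h4
          _ = _ := by ring
      rw [Nat.choose_succ_succ, Nat.cast_add]
      calc ‖(taylor z p).coeff i + (z - w) * (taylor z p).coeff (i + 1)‖
          ≤ ‖(taylor z p).coeff i‖ + ‖z - w‖ * ‖(taylor z p).coeff (i + 1)‖ := by
            refine (norm_add_le _ _).trans ?_
            rw [norm_mul]
        _ ≤ ‖z - w‖ * ((((Multiset.card S).choose i : ℕ) : ℝ) * d⁻¹ ^ (i + 1) * ‖p.eval z‖) +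
            ‖z - w‖ * ((((Multiset.card S).choose (i + 1) : ℕ) : ℝ) * d⁻¹ ^ (i + 1) * ‖p.eval z‖) :=
            add_le_add (h2.trans h5) (mul_le_mul_of_nonneg_left h3 (norm_nonneg _))
        _ = _ := by ring

theorem poly_bound (p : Polynomial ℂ) (n : ℕ) (hn : p.natDegree ≤ n) (z : ℂ) (d : ℝ) (hd : 0 < d)
    (h : ∀ w, p.IsRoot w → d ≤ ‖z - w‖) (i : ℕ) :
    ‖(derivative^[i] p).eval z‖ ≤ (n / d) ^ i * ‖p.eval z‖ := by
  have hp0 : p ≠ 0 := by
    rintro rfl
    have h1 := h z (by rw [IsRoot, eval_zero])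
    rw [sub_self, norm_zero] at h1
    linarith
  have hsp := IsAlgClosed.splits p
  have hprod := hsp.eq_prod_roots
  have hroots : ∀ w ∈ p.roots, d ≤ ‖z - w‖ := fun w hw => h w ((mem_roots hp0).1 hw)
  have h1 := e1_taylor z d hd p.roots hroots i
  obtain ⟨q, hq⟩ : ∃ q : ℂ[X], q = (p.roots.map fun w => X - C w).prod := ⟨_, rfl⟩
  rw [← hq] at h1 hprod
  have hcard : Multiset.card p.roots ≤ n := (card_roots' p).trans hn
  have h2 : ‖(taylor z p).coeff i‖ ≤ ((Multiset.card p.roots).choose i : ℝ) * (d⁻¹) ^ i * ‖p.eval z‖ := by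
    rw [hprod, taylor_mul, taylor_C, coeff_C_mul, norm_mul, eval_mul, eval_C, norm_mul]
    rw [← hprod]
    calc _ ≤ ‖p.leadingCoeff‖ * (((Multiset.card p.roots).choose i : ℝ) * (d⁻¹) ^ i * ‖q.eval z‖) :=
          mul_le_mul_of_nonneg_left h1 (norm_nonneg _)
      _ = _ := by ring
  have h3 : (derivative^[i] p).eval z = (i.factorial : ℂ) * (taylor z p).coeff i := by
    rw [← factorial_smul_hasseDeriv, taylor_coeff, LinearMap.smul_apply, nsmul_eq_mul, eval_mul,
      eval_natCast]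
  have h4 : (i.factorial : ℝ) * ((Multiset.card p.roots).choose i : ℝ) ≤ (n : ℝ) ^ i := by
    rw [← Nat.cast_mul, ← Nat.descFactorial_eq_factorial_mul_choose, ← Nat.cast_pow, Nat.cast_le]
    exact (Nat.descFactorial_le_pow _ i).trans (Nat.pow_le_pow_left hcard i)
  rw [h3, norm_mul, Complex.norm_natCast, div_pow, div_eq_mul_inv, ← inv_pow]
  calc _ ≤ (i.factorial : ℝ) * (((Multiset.card p.roots).choose i : ℝ) * (d⁻¹) ^ i * ‖p.eval z‖) :=
        mul_le_mul_of_nonneg_left h2 (Nat.cast_nonneg _)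
    _ = ((i.factorial : ℝ) * ((Multiset.card p.roots).choose i : ℝ)) * ((d⁻¹) ^ i * ‖p.eval z‖) := by ring
    _ ≤ (n : ℝ) ^ i * ((d⁻¹) ^ i * ‖p.eval z‖) :=
        mul_le_mul_of_nonneg_right h4 (by positivity)
    _ = _ := by ring

end FG40
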