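import Pool.Agent.LibGD31.Defs

/-! # E2: Taylor polynomials -/

open Polynomial

namespace FG40

open GD31

/-- Taylor polynomial of `φ` at `y` of degree `< K`, over `ℂ` -/
noncomputable def taylorP (φ : ℝ → ℝ) (y : ℝ) (K : ℕ) : Polynomial ℂ :=
  ∑ j ∈ Finset.range K, C (((iteratedDeriv j φ y / (j.factorial : ℝ) : ℝ)) : ℂ) * (X - C (y : ℂ)) ^ j

theorem taylorP_natDegree (φ : ℝ → ℝ) (y : ℝ) (K : ℕ) : (taylorP φ y K).natDegree ≤ K - 1 := by
  unfold taylorP
  refine natDegree_sum_le_of_forall_le _ _ fun j hj => ?_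
  have hj' := Finset.mem_range.1 hj
  refine (natDegree_C_mul_le _ _).trans ?_
  refine natDegree_pow_le.trans ?_
  rw [natDegree_X_sub_C, mul_one]
  omega

/-- the derivative of the Taylor polynomial is the Taylor polynomial of the derivative -/
theorem taylorP_derivative (φ : ℝ → ℝ) (y : ℝ) (K : ℕ) :
    derivative (taylorP φ y (K + 1)) = taylorP (deriv φ) y K := by
  unfold taylorP
  rw [derivative_sum, Finset.sum_range_succ']
  have h0 : derivative (C (((iteratedDeriv 0 φ y / (Nat.factorial 0 : ℝ) : ℝ)) : ℂ) *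
      (X - C (y : ℂ)) ^ 0) = 0 := by
    rw [pow_zero, mul_one, derivative_C]
  rw [h0, add_zero]
  refine Finset.sum_congr rfl fun j _ => ?_
  rw [derivative_C_mul, derivative_X_sub_C_pow, iteratedDeriv_succ', ← mul_assoc,
    Nat.add_sub_cancel]
  congr 1
  rw [← C_mul]
  congr 1
  have h1 : ((j + 1 : ℕ) : ℂ) ≠ 0 := Nat.cast_ne_zero.2 (Nat.succ_ne_zero j)
  have h2 : (j.factorial : ℂ) ≠ 0 := Nat.cast_ne_zero.2 (Nat.factorial_ne_zero j)
  rw [Nat.factorial_succ]
  push_cast
  push_cast at h1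
  field_simp

private theorem e2_sm_deriv {φ : ℝ → ℝ} (hφ : Sm φ) : Sm (deriv φ) := by
  have h : ContDiff ℝ ((⊤ : ℕ∞) : WithTop ℕ∞) φ := hφ
  exact (contDiff_infty_iff_deriv.1 h).2

private theorem e2_eval_self (φ : ℝ → ℝ) (y : ℝ) (K : ℕ) :
    (taylorP φ y (K + 1)).eval (y : ℂ) = (φ y : ℂ) := by
  unfold taylorP
  rw [eval_finsetSum, Finset.sum_range_succ', Finset.sum_eq_zero, zero_add]
  · rw [pow_zero, mul_one, eval_C, iteratedDeriv_zero, Nat.factorial_zero, Nat.cast_one, div_one]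
  · intro j _
    rw [eval_mul, eval_pow, eval_sub, eval_X, eval_C, eval_C, sub_self,
      zero_pow (Nat.succ_ne_zero j), mul_zero]

/-- Taylor's theorem, by induction on `K` with the mean value inequality: the function `φ x - T x` (real
polynomial) vanishes at `y` and its derivative is the same difference for `deriv φ`, `K - 1`; the bound
`κ |x - y|^K` suffices (no factorial needed: integrate `κ |t|^(K-1)` or use the crude mean value bound on the
interval between `y` and `x`). -/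
theorem taylorP_zero {φ : ℝ → ℝ} (hφ : Sm φ) {K : ℕ} {κ : ℝ} (hK : ∀ x, |iteratedDeriv K φ x| ≤ κ)
    (y x : ℝ) : ‖(taylorP φ y K).eval (x : ℂ) - (φ x : ℂ)‖ ≤ κ * |x - y| ^ K := by
  induction K generalizing φ x with
  | zero =>
    have h := hK x
    rw [iteratedDeriv_zero] at h
    unfold taylorP
    rw [Finset.range_zero, Finset.sum_empty, eval_zero, zero_sub, norm_neg, Complex.norm_real,
      Real.norm_eq_abs, pow_zero, mul_one]
    exact h
  | succ K ih =>
    have hκ : 0 ≤ κ := (abs_nonneg _).trans (hK x)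
    have hφ' : Sm (deriv φ) := e2_sm_deriv hφ
    have hK' : ∀ t, |iteratedDeriv K (deriv φ) t| ≤ κ := by
      intro t
      rw [← iteratedDeriv_succ']
      exact hK t
    have hdiff : Differentiable ℝ φ := by
      have h : ContDiff ℝ ((⊤ : ℕ∞) : WithTop ℕ∞) φ := hφ
      exact h.differentiable (by simp)
    have hder : ∀ t ∈ Set.uIcc y x, HasDerivWithinAt
        (fun t : ℝ => (taylorP φ y (K + 1)).eval (t : ℂ) - (φ t : ℂ))
        ((taylorP (deriv φ) y K).eval (t : ℂ) - ((deriv φ t : ℝ) : ℂ)) (Set.uIcc y x) t := by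
      intro t _
      have h1 : HasDerivAt (fun t : ℝ => (taylorP φ y (K + 1)).eval (t : ℂ))
          ((derivative (taylorP φ y (K + 1))).eval (t : ℂ)) t :=
        ((taylorP φ y (K + 1)).hasDerivAt (t : ℂ)).comp_ofReal
      rw [taylorP_derivative] at h1
      have h2 : HasDerivAt (fun t : ℝ => ((φ t : ℝ) : ℂ)) ((deriv φ t : ℝ) : ℂ) t :=
        (hdiff t).hasDerivAt.ofReal_comp
      exact (h1.sub h2).hasDerivWithinAt
    have hbd : ∀ t ∈ Set.uIcc y x,
        ‖(taylorP (deriv φ) y K).eval (t : ℂ) - ((deriv φ t : ℝ) : ℂ)‖ ≤ κ * |x - y| ^ K := by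
      intro t ht
      refine (ih hφ' hK' t).trans ?_
      have h1 : |t - y| ≤ |x - y| := by
        rcases Set.mem_uIcc.1 ht with h | h
        · rw [abs_of_nonneg (sub_nonneg.2 h.1), abs_of_nonneg (sub_nonneg.2 (h.1.trans h.2))]
          linarith
        · rw [abs_of_nonpos (sub_nonpos.2 h.2), abs_of_nonpos (sub_nonpos.2 (h.1.trans h.2))]
          linarith
      exact mul_le_mul_of_nonneg_left (pow_le_pow_left₀ (abs_nonneg _) h1 K) hκ
    have h3 := Convex.norm_image_sub_le_of_norm_hasDerivWithin_le hder hbd (convex_uIcc y x)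
      Set.left_mem_uIcc Set.right_mem_uIcc
    have h4 : (taylorP φ y (K + 1)).eval (y : ℂ) - (φ y : ℂ) = 0 := by
      rw [e2_eval_self, sub_self]
    have h5 : ‖((taylorP φ y (K + 1)).eval (x : ℂ) - (φ x : ℂ)) -
        ((taylorP φ y (K + 1)).eval (y : ℂ) - (φ y : ℂ))‖ ≤ κ * |x - y| ^ K * ‖x - y‖ := h3
    rw [h4, sub_zero, Real.norm_eq_abs, mul_assoc, ← pow_succ] at h5
    exact h5

/-- all derivatives: `taylorP_derivative` and `taylorP_zero` for `iteratedDeriv i φ`, `K - i` -/
theorem taylorP_approx {φ : ℝ → ℝ} (hφ : Sm φ) {K : ℕ} {κ : ℝ} (hK : ∀ x, |iteratedDeriv K φ x| ≤ κ)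
    (y x : ℝ) (i : ℕ) (hi : i ≤ K) :
    ‖(derivative^[i] (taylorP φ y K)).eval (x : ℂ) - ((iteratedDeriv i φ x : ℝ) : ℂ)‖ ≤
      κ * |x - y| ^ (K - i) := by
  induction i generalizing φ K with
  | zero =>
    rw [Function.iterate_zero, id, iteratedDeriv_zero, Nat.sub_zero]
    exact taylorP_zero hφ hK y x
  | succ i ih =>
    obtain ⟨K', rfl⟩ : ∃ K', K = K' + 1 := ⟨K - 1, by omega⟩
    have hK' : ∀ t, |iteratedDeriv K' (deriv φ) t| ≤ κ := by
      intro t
      rw [← iteratedDeriv_succ']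
      exact hK t
    have h := ih (e2_sm_deriv hφ) hK' (by omega)
    rw [Function.iterate_succ_apply, taylorP_derivative, iteratedDeriv_succ']
    have h2 : K' + 1 - (i + 1) = K' - i := by omega
    rw [h2]
    exact h

end FG40
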