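import Pool.Agent.LibFG40.A3
import Pool.Agent.LibFG40.E1
import Pool.Agent.LibFG40.E2

/-! # E3: a bad point is near a complex root of every Taylor polynomial taken not too far away.

Plan. `P = Pr r`, `K = Kr r = (r+1)(P+1)`, `κ = kr r = (dr r / 8)^P`, `T = taylorP φ y K`, `rho = rho r φ x = R^(r+1) ≤ dr r ≤ 1`,
`0 < R ≤ 1`. Error for `i < P`: `κ (2R)^(K-i) ≤ κ 2^K rho^(P-i) ≤ (1/2) 8^(-P) rho^(P-i)`. -/

open Filter Topology Set Polynomial

namespace FG40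

open GD31

private theorem e3_rho_le {r : ℕ} {φ : ℝ → ℝ} (hφ : HF r φ) (x : ℝ) : rho r φ x ≤ dr r := by
  by_cases hx : x ∈ Ioo (0 : ℝ) 1
  · refine (hφ.rho_small ⟨hx.1.le, hx.2.le⟩).trans ?_
    have : x ^ (r + 1) ≤ 1 := pow_le_one₀ hx.1.le hx.2.le
    exact mul_le_of_le_one_right (dr_pos r).le this
  · have h1 : rho r φ x ≤ 0 := by
      refine rho_le le_rfl ?_
      intro i hi
      rw [hφ.zero i hx]
      simp only [abs_zero, mul_zero]
      exact pow_nonneg le_rfl _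
    exact h1.trans (dr_pos r).le

private theorem e3_small (r : ℕ) : kr r * 2 ^ Kr r * 8 ^ Pr r ≤ 1 / 2 := by
  have hK1 : (1 : ℝ) ≤ (Kr r : ℝ) := by
    have : 0 < Kr r := by
      unfold Kr
      positivity
    exact_mod_cast this
  have hP := Pr_pos r
  have hb6 : 1 / (10 ^ 6 * (Kr r : ℝ)) ≤ 1 / 10 ^ 6 := by
    apply one_div_le_one_div_of_le
    · norm_num
    · nlinarith
  have hb0 : 0 < 1 / (10 ^ 6 * (Kr r : ℝ)) := by positivity
  have hK : (2 : ℝ) ^ Kr r ≤ ((2 : ℝ) ^ (2 * (r + 1))) ^ Pr r := by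
    rw [← pow_mul]
    apply pow_le_pow_right₀ (by norm_num)
    unfold Kr
    nlinarith
  have h8 : kr r * 8 ^ Pr r = dr r ^ Pr r := by
    unfold kr
    rw [← mul_pow]
    congr 1
    ring
  have hd0 := dr_pos r
  calc kr r * 2 ^ Kr r * 8 ^ Pr r = dr r ^ Pr r * 2 ^ Kr r := by rw [← h8]; ring
    _ ≤ dr r ^ Pr r * ((2 : ℝ) ^ (2 * (r + 1))) ^ Pr r := by gcongr
    _ = ((1 / (10 ^ 6 * (Kr r : ℝ)) * 2) ^ (2 * (r + 1))) ^ Pr r := by
        rw [← mul_pow]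
        unfold dr
        rw [← mul_pow]
    _ = (1 / (10 ^ 6 * (Kr r : ℝ)) * 2) ^ (2 * (r + 1) * Pr r) := by rw [← pow_mul]
    _ ≤ (1 / (10 ^ 6 * (Kr r : ℝ)) * 2) ^ 1 := by
        apply pow_le_pow_of_le_one (by positivity)
        · nlinarith
        · have : 0 < 2 * (r + 1) * Pr r := by positivity
          omega
    _ ≤ 1 / 2 := by
        rw [pow_one]
        have : (1 : ℝ) / 10 ^ 6 * 2 ≤ 1 / 2 := by norm_num
        nlinarith

private theorem e3_err {r : ℕ} {φ : ℝ → ℝ} (hφ : HF r φ) {y x R : ℝ} (hR : 0 ≤ R)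
    (hRr : R ^ (r + 1) = rho r φ x) (hd : |x - y| ≤ 2 * R) {i : ℕ} (hi : i < Pr r) :
    ‖(derivative^[i] (taylorP φ y (Kr r))).eval (x : ℂ) - ((iteratedDeriv i φ x : ℝ) : ℂ)‖ ≤
      1 / 2 * (1 / 8) ^ i * rho r φ x ^ (Pr r - i) := by
  have hPK : Pr r ≤ Kr r := by
    unfold Kr
    nlinarith [Nat.zero_le (Pr r), Nat.zero_le r, Nat.zero_le (r * Pr r)]
  have h1 := taylorP_approx hφ.smooth (fun t => hφ.bound' le_rfl t) y x i (by omega)
  have hκ0 : 0 ≤ kr r := (abs_nonneg _).trans (hφ.bound' le_rfl x)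
  have hR1 : R ≤ 1 := by
    have h2 : R ^ (r + 1) ≤ 1 := by
      rw [hRr]
      exact (e3_rho_le hφ x).trans ((dr_le r).trans (by norm_num))
    exact (pow_le_one_iff_of_nonneg hR (by omega)).1 h2
  refine h1.trans ?_
  have h2 : |x - y| ^ (Kr r - i) ≤ 2 ^ Kr r * rho r φ x ^ (Pr r - i) := by
    calc |x - y| ^ (Kr r - i) ≤ (2 * R) ^ (Kr r - i) := by gcongr
      _ = 2 ^ (Kr r - i) * R ^ (Kr r - i) := mul_pow _ _ _
      _ ≤ 2 ^ Kr r * R ^ ((r + 1) * (Pr r - i)) := by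
          apply mul_le_mul
          · exact pow_le_pow_right₀ (by norm_num) (by omega)
          · apply pow_le_pow_of_le_one hR hR1
            obtain ⟨m, hm⟩ : ∃ m, Pr r = i + m := ⟨Pr r - i, by omega⟩
            have h3 : Pr r - i = m := by omega
            rw [h3]
            unfold Kr
            rw [hm]
            have h4 : (r + 1) * (i + m + 1) = (r + 1) * m + (r * i + i + r + 1) := by ring
            rw [h4]
            have h5 : 0 ≤ r * i := Nat.zero_le _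
            omega
          · positivity
          · positivity
      _ = 2 ^ Kr r * rho r φ x ^ (Pr r - i) := by rw [pow_mul, hRr]
  have h3 := e3_small r
  have h4 : kr r * 2 ^ Kr r ≤ 1 / 2 * (1 / 8) ^ i := by
    have h5 : kr r * 2 ^ Kr r * 8 ^ i ≤ 1 / 2 := by
      refine le_trans ?_ h3
      have : (8 : ℝ) ^ i ≤ 8 ^ Pr r := pow_le_pow_right₀ (by norm_num) hi.le
      have h6 : 0 ≤ kr r * 2 ^ Kr r := mul_nonneg hκ0 (pow_nonneg (by norm_num) _)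
      exact mul_le_mul_of_nonneg_left this h6
    rw [one_div (8 : ℝ), inv_pow, ← div_eq_mul_inv, le_div_iff₀ (by positivity)]
    exact h5
  have hρ : 0 ≤ rho r φ x ^ (Pr r - i) := pow_nonneg (rho_nonneg r φ x) _
  calc kr r * |x - y| ^ (Kr r - i) ≤ kr r * (2 ^ Kr r * rho r φ x ^ (Pr r - i)) :=
        mul_le_mul_of_nonneg_left h2 hκ0
    _ = (kr r * 2 ^ Kr r) * rho r φ x ^ (Pr r - i) := (mul_assoc _ _ _).symm
    _ ≤ (1 / 2 * (1 / 8) ^ i) * rho r φ x ^ (Pr r - i) := mul_le_mul_of_nonneg_right h4 hρ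

private theorem e3_low {r : ℕ} {φ : ℝ → ℝ} (hφ : HF r φ) {y x R : ℝ} (hx : Bad r φ x) (hR : 0 ≤ R)
    (hRr : R ^ (r + 1) = rho r φ x) (hd : |x - y| ≤ 2 * R) :
    ∃ i, 1 ≤ i ∧ i < Pr r ∧
      1 / 2 * (1 / 8) ^ i * rho r φ x ^ (Pr r - i) ≤ ‖(derivative^[i] (taylorP φ y (Kr r))).eval (x : ℂ)‖ := by
  obtain ⟨i, hi1, hi, h1⟩ := hx.index
  refine ⟨i, hi1, hi, ?_⟩
  have h2 := e3_err hφ hR hRr hd hi
  have h3 : |iteratedDeriv i φ x| = (1 / 8) ^ i * rho r φ x ^ (Pr r - i) := by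
    rw [← h1, ← mul_assoc, ← mul_pow]
    norm_num
  have h4 : ‖((iteratedDeriv i φ x : ℝ) : ℂ)‖ = |iteratedDeriv i φ x| := by
    rw [Complex.norm_real, Real.norm_eq_abs]
  have h5 := norm_sub_norm_le ((iteratedDeriv i φ x : ℝ) : ℂ)
    ((derivative^[i] (taylorP φ y (Kr r))).eval (x : ℂ))
  rw [norm_sub_rev, h4, h3] at h5
  linarith

theorem bad_root {r : ℕ} (hr : 1 ≤ r) {φ : ℝ → ℝ} (hφ : HF r φ) {y x R : ℝ} (hx : Bad r φ x) (hR : 0 ≤ R)
    (hRr : R ^ (r + 1) = rho r φ x) (hd : |x - y| ≤ 2 * R) :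
    ∃ w : ℂ, (taylorP φ y (Kr r)).IsRoot w ∧ ‖(x : ℂ) - w‖ < 40 * Kr r * rho r φ x := by
  by_contra hcon
  push Not at hcon
  obtain ⟨i, hi1, hi, h1⟩ := e3_low hφ hx hR hRr hd
  have hρ := hx.1
  have hK1 : (1 : ℝ) ≤ (Kr r : ℝ) := by
    have : 0 < Kr r := by
      unfold Kr
      positivity
    exact_mod_cast this
  have hd0 : 0 < 40 * Kr r * rho r φ x := by positivity
  have h2 := poly_bound (taylorP φ y (Kr r)) (Kr r) ((taylorP_natDegree φ y (Kr r)).trans (Nat.sub_le _ _))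
    (x : ℂ) _ hd0 hcon i
  have h3 := e3_err hφ hR hRr hd (Pr_pos r)
  rw [Function.iterate_zero, id, iteratedDeriv_zero, pow_zero, mul_one, Nat.sub_zero] at h3
  have h4 : ‖(taylorP φ y (Kr r)).eval (x : ℂ)‖ ≤ 2 * rho r φ x ^ Pr r := by
    have h5 := norm_sub_norm_le ((taylorP φ y (Kr r)).eval (x : ℂ)) ((φ x : ℝ) : ℂ)
    rw [Complex.norm_real, Real.norm_eq_abs] at h5
    have h6 := hx.2
    have h7 : 0 < rho r φ x ^ Pr r := by positivity
    linarith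
  have h5 : ((Kr r : ℝ) / (40 * Kr r * rho r φ x)) = 1 / 40 * (rho r φ x)⁻¹ := by
    have : (Kr r : ℝ) ≠ 0 := by positivity
    field_simp
  rw [h5] at h2
  have h6 : rho r φ x ^ Pr r = rho r φ x ^ i * rho r φ x ^ (Pr r - i) := by
    rw [← pow_add]
    congr 1
    omega
  have h7 : (1 / 40 * (rho r φ x)⁻¹) ^ i * (2 * rho r φ x ^ Pr r) =
      2 * (1 / 40) ^ i * rho r φ x ^ (Pr r - i) := by
    rw [h6, mul_pow, inv_pow]
    have : rho r φ x ^ i ≠ 0 := by positivity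
    field_simp
  have h8 : (1 / 40 * (rho r φ x)⁻¹) ^ i * ‖(taylorP φ y (Kr r)).eval (x : ℂ)‖ ≤
      (1 / 40 * (rho r φ x)⁻¹) ^ i * (2 * rho r φ x ^ Pr r) := by gcongr
  have h9 : 1 / 2 * (1 / 8) ^ i * rho r φ x ^ (Pr r - i) ≤ 2 * (1 / 40) ^ i * rho r φ x ^ (Pr r - i) := by
    rw [← h7]
    exact h1.trans (h2.trans h8)
  have h10 : 1 / 2 * (1 / 8 : ℝ) ^ i ≤ 2 * (1 / 40) ^ i :=
    le_of_mul_le_mul_right h9 (by positivity)
  have h11 : (1 / 40 : ℝ) ^ i = (1 / 8) ^ i * (1 / 5) ^ i := by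
    rw [← mul_pow]
    norm_num
  have h12 : (1 / 5 : ℝ) ^ i ≤ 1 / 5 := by
    calc (1 / 5 : ℝ) ^ i ≤ (1 / 5) ^ 1 := pow_le_pow_of_le_one (by norm_num) (by norm_num) hi1
      _ = 1 / 5 := pow_one _
  have h13 : (0 : ℝ) < (1 / 8) ^ i := by positivity
  rw [h11] at h10
  nlinarith

/-- the Taylor polynomial at `y` is not zero (`‖T⁽ⁱ⁾ x‖ > 0`) -/
theorem bad_ne {r : ℕ} (hr : 1 ≤ r) {φ : ℝ → ℝ} (hφ : HF r φ) {y x R : ℝ} (hx : Bad r φ x) (hR : 0 ≤ R)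
    (hRr : R ^ (r + 1) = rho r φ x) (hd : |x - y| ≤ 2 * R) : taylorP φ y (Kr r) ≠ 0 := by
  intro h0
  obtain ⟨i, hi1, hi, h1⟩ := e3_low hφ hx hR hRr hd
  have hρ := hx.1
  rw [h0, iterate_derivative_zero, eval_zero, norm_zero] at h1
  have : 0 < 1 / 2 * (1 / 8) ^ i * rho r φ x ^ (Pr r - i) := by positivity
  linarith

end FG40
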