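import Pool.Agent.LibFG40.E3

/-! # E4: multiplicity. To every `x ∈ S` a root `w x` of `T = taylorP φ y (Kr r)` with `‖x - w x‖ < 40 K rho x`
(`bad_root`): injective by `hdisj` (for `x ≠ x'`: `|x - x'| ≤ ‖x - w‖ + ‖x' - w‖`). So `S.card ≤` number of roots of `T ≠ 0`
`≤ natDegree ≤ K - 1` (`Polynomial.card_roots'`, `taylorP_natDegree`). -/

open Filter Topology Set Polynomial

namespace FG40

open GD31

theorem multiplicity {r : ℕ} (hr : 1 ≤ r) {φ : ℝ → ℝ} (hφ : HF r φ) (S : Finset ℝ) (y : ℝ) (R : ℝ → ℝ)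
    (hbad : ∀ x ∈ S, Bad r φ x) (hR : ∀ x ∈ S, 0 ≤ R x ∧ R x ^ (r + 1) = rho r φ x)
    (hd : ∀ x ∈ S, |x - y| ≤ 2 * R x)
    (hdisj : ∀ x ∈ S, ∀ x' ∈ S, x ≠ x' → 40 * Kr r * (rho r φ x + rho r φ x') < |x - x'|) :
    S.card ≤ Kr r - 1 := by
  classical
  rcases S.eq_empty_or_nonempty with rfl | ⟨x0, hx0⟩
  · exact Nat.zero_le _
  have hex : ∀ x : ℝ, ∃ w : ℂ, x ∈ S → (taylorP φ y (Kr r)).IsRoot w ∧
      ‖(x : ℂ) - w‖ < 40 * Kr r * rho r φ x := by
    intro x
    by_cases hx : x ∈ S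
    · obtain ⟨w, hw1, hw2⟩ := bad_root hr hφ (hbad x hx) (hR x hx).1 (hR x hx).2 (hd x hx)
      exact ⟨w, fun _ => ⟨hw1, hw2⟩⟩
    · exact ⟨0, fun h => absurd h hx⟩
  choose w hw using hex
  have hT : taylorP φ y (Kr r) ≠ 0 :=
    bad_ne hr hφ (hbad x0 hx0) (hR x0 hx0).1 (hR x0 hx0).2 (hd x0 hx0)
  have h1 : S.card ≤ (taylorP φ y (Kr r)).roots.toFinset.card := by
    refine Finset.card_le_card_of_injOn w ?_ ?_
    · intro x hx
      rw [Finset.mem_coe, Multiset.mem_toFinset, Polynomial.mem_roots hT]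
      exact (hw x hx).1
    · intro x hx x' hx' he
      by_contra hne
      have h2 := hdisj x hx x' hx' hne
      have h3 := (hw x hx).2
      have h4 := (hw x' hx').2
      have h5 : |x - x'| ≤ ‖(x : ℂ) - w x‖ + ‖(x' : ℂ) - w x'‖ := by
        have h6 : ‖(x : ℂ) - (x' : ℂ)‖ = |x - x'| := by
          rw [← Complex.ofReal_sub, Complex.norm_real, Real.norm_eq_abs]
        rw [← h6]
        have h7 : (x : ℂ) - (x' : ℂ) = ((x : ℂ) - w x) - ((x' : ℂ) - w x') := by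
          rw [he]
          ring
        rw [h7]
        exact norm_sub_le _ _
      have h8 : 40 * (Kr r : ℝ) * (rho r φ x + rho r φ x') =
          40 * Kr r * rho r φ x + 40 * Kr r * rho r φ x' := by ring
      rw [h8] at h2
      linarith
  exact h1.trans ((Multiset.toFinset_card_le _).trans
    ((Polynomial.card_roots' _).trans (taylorP_natDegree φ y (Kr r))))

end FG40
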