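import Pool.Agent.LibFG40.A3

/-! # E5: the Vitali family. Mathlib: `Vitali.exists_disjoint_subfamily_covering_enlargement_closedBall` (index
type `ℝ`, `t` = the set of bad points, centre `x`, radius `40 K rho x`, bounded since `rho ≤ dr r`; enlargement
factor 5). Closed balls of `ℝ` are disjoint iff the distance of the centres is larger than the sum of the radii. -/

open Filter Topology Set

namespace FG40

open GD31

private theorem e5_K (r : ℕ) : (1 : ℝ) ≤ Kr r := by
  have : 1 ≤ Kr r := by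
    unfold Kr
    exact Nat.mul_pos (Nat.succ_pos _) (Nat.succ_pos _)
  exact_mod_cast this

private theorem e5_mem {r : ℕ} {φ : ℝ → ℝ} (hφ : HF r φ) {y : ℝ} (hy : Bad r φ y) :
    y ∈ Ioo (0 : ℝ) 1 := by
  by_contra h
  have h1 := hφ.sc.zero y h
  have h2 := hy.1
  rw [h1] at h2
  exact lt_irrefl _ h2

private theorem e5_disj {y y' s s' : ℝ} (hs : 0 ≤ s) (hs' : 0 ≤ s')
    (h : Disjoint (Metric.closedBall y s) (Metric.closedBall y' s')) : s + s' < |y - y'| := by
  by_contra hc
  rw [not_lt] at hc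
  have hlt := abs_le.1 hc
  rw [Set.disjoint_left] at h
  rcases le_total y y' with hyy | hyy
  · apply h (a := max y (y' - s'))
    · rw [Metric.mem_closedBall, Real.dist_eq, abs_le]
      constructor
      · have := le_max_left y (y' - s')
        linarith
      · have : max y (y' - s') ≤ y + s := max_le (by linarith) (by linarith)
        linarith
    · rw [Metric.mem_closedBall, Real.dist_eq, abs_le]
      constructor
      · have := le_max_right y (y' - s')
        linarith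
      · have : max y (y' - s') ≤ y' := max_le (by linarith) (by linarith)
        linarith
  · apply h (a := max y' (y - s))
    · rw [Metric.mem_closedBall, Real.dist_eq, abs_le]
      constructor
      · have := le_max_right y' (y - s)
        linarith
      · have : max y' (y - s) ≤ y := max_le (by linarith) (by linarith)
        linarith
    · rw [Metric.mem_closedBall, Real.dist_eq, abs_le]
      constructor
      · have := le_max_left y' (y - s)
        linarith
      · have : max y' (y - s) ≤ y' + s' := max_le (by linarith) (by linarith)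
        linarith

theorem exists_family {r : ℕ} {φ : ℝ → ℝ} (hφ : HF r φ) :
    ∃ U : Set ℝ, (∀ y ∈ U, Bad r φ y) ∧
      (∀ y ∈ U, ∀ y' ∈ U, y ≠ y' → 40 * Kr r * (rho r φ y + rho r φ y') < |y - y'|) ∧
      ∀ x, Bad r φ x → ∃ y ∈ U, Metric.closedBall x (40 * Kr r * rho r φ x) ⊆
        Metric.closedBall y (200 * Kr r * rho r φ y) := by
  have hK := e5_K r
  have hdr := dr_pos r
  have hrho : ∀ x, 0 ≤ rho r φ x := fun x => rho_nonneg r φ x
  obtain ⟨U, hU, hd, hc⟩ := Vitali.exists_disjoint_subfamily_covering_enlargement_closedBall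
    {x : ℝ | Bad r φ x} (fun x : ℝ => x) (fun x => 40 * Kr r * rho r φ x) (40 * Kr r * dr r)
    (by
      intro x hx
      have hx' : Bad r φ x := hx
      have hm := e5_mem hφ hx'
      have h1 := hφ.rho_small (x := x) ⟨hm.1.le, hm.2.le⟩
      have h2 : x ^ (r + 1) ≤ 1 := pow_le_one₀ hm.1.le hm.2.le
      have h3 : rho r φ x ≤ dr r := h1.trans (by nlinarith)
      have h4 : (0 : ℝ) ≤ 40 * Kr r := by linarith
      exact mul_le_mul_of_nonneg_left h3 h4) 5 (by norm_num)
  refine ⟨U, fun y hy => hU hy, ?_, ?_⟩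
  · intro y hy y' hy' hne
    have h1 := e5_disj (by have := hrho y; positivity) (by have := hrho y'; positivity)
      (hd hy hy' hne)
    have h2 : 40 * (Kr r : ℝ) * (rho r φ y + rho r φ y') =
      40 * Kr r * rho r φ y + 40 * Kr r * rho r φ y' := by ring
    rw [h2]
    exact h1
  · intro x hx
    obtain ⟨y, hy, hxy⟩ := hc x hx
    refine ⟨y, hy, ?_⟩
    have h2 : 200 * (Kr r : ℝ) * rho r φ y = 5 * (40 * Kr r * rho r φ y) := by ring
    rw [h2]
    exact hxy

/-- the radius of the room: `R^(r+1) = rho` -/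
noncomputable def room_rad (r : ℕ) (φ : ℝ → ℝ) (y : ℝ) : ℝ := rho r φ y ^ (1 / ((r : ℝ) + 1))

theorem room_rad_pow (r : ℕ) (φ : ℝ → ℝ) (y : ℝ) : 0 ≤ room_rad r φ y ∧ room_rad r φ y ^ (r + 1) = rho r φ y := by
  have h0 := rho_nonneg r φ y
  refine ⟨Real.rpow_nonneg h0 _, ?_⟩
  unfold room_rad
  have h1 : (1 / ((r : ℝ) + 1)) = (((r + 1 : ℕ) : ℝ))⁻¹ := by
    push_cast
    rw [one_div]
  rw [h1]
  exact Real.rpow_inv_natCast_pow h0 (Nat.succ_ne_zero r)

/-- numerical facts for a bad `y` (`HF.rho_small`: `rho ≤ dr r y^(r+1)`, `dr r = (1/(10^6 K))^(2(r+1))`, so `R ≤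
(1/(10^6 K))² y`; `200 K rho = 200 K R^(r+1) ≤ 200 K R² ≤ R`) -/
theorem room_rad_facts {r : ℕ} (hr : 1 ≤ r) {φ : ℝ → ℝ} (hφ : HF r φ) {y : ℝ} (hy : Bad r φ y) :
    y ∈ Ioo (0 : ℝ) 1 ∧ 0 < room_rad r φ y ∧ room_rad r φ y ≤ 1 / 10 ^ 6 ∧ 2 * room_rad r φ y ≤ y ∧
      200 * Kr r * rho r φ y ≤ room_rad r φ y := by
  have hK := e5_K r
  have hm := e5_mem hφ hy
  obtain ⟨h0, hp⟩ := room_rad_pow r φ y
  set R := room_rad r φ y with hR
  set δ : ℝ := 1 / (10 ^ 6 * (Kr r : ℝ)) with hδ
  have hδ0 : 0 < δ := by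
    rw [hδ]
    positivity
  have hδK : δ * Kr r = 1 / 10 ^ 6 := by
    rw [hδ]
    field_simp
  have hδ1 : δ ≤ 1 / 10 ^ 6 := by
    rw [← hδK]
    nlinarith
  have hRpos : 0 < R := by
    rcases h0.lt_or_eq with h | h
    · exact h
    · exfalso
      rw [← h, zero_pow (Nat.succ_ne_zero r)] at hp
      have := hy.1
      rw [← hp] at this
      exact lt_irrefl _ this
  have h1 := hφ.rho_small (x := y) ⟨hm.1.le, hm.2.le⟩
  have h2 : R ^ (r + 1) ≤ (δ ^ 2 * y) ^ (r + 1) := by
    rw [hp, mul_pow, ← pow_mul]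
    exact h1
  have h3 : R ≤ δ ^ 2 * y :=
    le_of_pow_le_pow_left₀ (Nat.succ_ne_zero r) (by have := hm.1; positivity) h2
  have hy0 := hm.1
  have hy1 := hm.2
  have h4 : δ ^ 2 * y ≤ δ ^ 2 := by nlinarith [sq_nonneg δ]
  have h5 : δ ^ 2 ≤ 1 / 10 ^ 6 * δ := by nlinarith
  refine ⟨hm, hRpos, ?_, ?_, ?_⟩
  · nlinarith
  · have : δ ^ 2 ≤ 1 / 2 := by nlinarith
    nlinarith
  · rw [← hp]
    have hR1 : R ≤ 1 := by nlinarith
    have h6 : R ^ (r + 1) ≤ R ^ 2 := pow_le_pow_of_le_one h0 hR1 (by omega)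
    have h7 : 200 * (Kr r : ℝ) * R ≤ 1 := by
      have h8 : (Kr r : ℝ) * R ≤ Kr r * (1 / 10 ^ 6 * δ) := by
        apply mul_le_mul_of_nonneg_left _ (by linarith)
        linarith
      have h9 : (Kr r : ℝ) * (1 / 10 ^ 6 * δ) = 1 / 10 ^ 6 * (1 / 10 ^ 6) := by
        rw [← hδK]
        ring
      rw [h9] at h8
      nlinarith
    have h10 : (0 : ℝ) ≤ 200 * Kr r := by linarith
    calc 200 * (Kr r : ℝ) * R ^ (r + 1) ≤ 200 * Kr r * R ^ 2 := mul_le_mul_of_nonneg_left h6 h10
      _ = (200 * Kr r * R) * R := by ring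
      _ ≤ 1 * R := mul_le_mul_of_nonneg_right h7 h0
      _ = R := one_mul R

end FG40
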