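import Mathlib

/-! # E6a: degenerate graphs are colourable. Finite induced subgraphs by induction on the number of vertices
(remove the vertex `v` of the hypothesis, colour the rest with `N` colours, `v` has fewer than `N` neighbours);
then compactness: `SimpleGraph.nonempty_hom_of_forall_finite_subgraph_hom` (or the De Bruijn-Erdos theorem
in `Mathlib.Combinatorics.SimpleGraph.Finsubgraph`). -/

namespace FG40

private theorem e6a_fin {V : Type} (G : SimpleGraph V) (N : ℕ)
    (h : ∀ S : Finset V, S.Nonempty → ∃ v ∈ S, ∃ T : Finset V, T.card < N ∧ ∀ w ∈ S, G.Adj v w → w ∈ T)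
    (n : ℕ) : ∀ S : Finset V, S.card = n →
      ∃ c : V → ℕ, (∀ v ∈ S, c v < N) ∧ ∀ v ∈ S, ∀ w ∈ S, G.Adj v w → c v ≠ c w := by
  classical
  induction n with
  | zero =>
    intro S hS
    rw [Finset.card_eq_zero] at hS
    subst hS
    exact ⟨fun _ => 0, fun v hv => absurd hv (Finset.notMem_empty v),
      fun v hv => absurd hv (Finset.notMem_empty v)⟩
  | succ n ih =>
    intro S hS
    obtain ⟨v, hv, T, hT, hvT⟩ := h S (Finset.card_pos.1 (by omega))
    obtain ⟨c, hc1, hc2⟩ := ih (S.erase v) (by rw [Finset.card_erase_of_mem hv, hS]; rfl)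
    obtain ⟨k, hk, hkT⟩ : ∃ k ∈ Finset.range N, k ∉ T.image c := by
      apply Finset.exists_mem_notMem_of_card_lt_card
      rw [Finset.card_range]
      exact lt_of_le_of_lt Finset.card_image_le hT
    have hcol : ∀ w ∈ S, G.Adj v w → c w ≠ k := by
      intro w hw hvw hwk
      exact hkT (Finset.mem_image.2 ⟨w, hvT w hw hvw, hwk⟩)
    refine ⟨Function.update c v k, ?_, ?_⟩
    · intro w hw
      by_cases hwv : w = v
      · rw [hwv, Function.update_self]
        exact Finset.mem_range.1 hk
      · rw [Function.update_of_ne hwv]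
        exact hc1 w (Finset.mem_erase.2 ⟨hwv, hw⟩)
    · intro a ha b hb hab
      by_cases hav : a = v
      · have hbv : b ≠ v := by
          rw [← hav]
          exact hab.ne'
        rw [hav, Function.update_self, Function.update_of_ne hbv]
        rw [hav] at hab
        exact (hcol b hb hab).symm
      · by_cases hbv : b = v
        · rw [hbv, Function.update_self, Function.update_of_ne hav]
          rw [hbv] at hab
          exact hcol a ha hab.symm
        · rw [Function.update_of_ne hav, Function.update_of_ne hbv]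
          exact hc2 a (Finset.mem_erase.2 ⟨hav, ha⟩) b (Finset.mem_erase.2 ⟨hbv, hb⟩) hab

theorem colour_of_degenerate {V : Type} (G : SimpleGraph V) (N : ℕ)
    (h : ∀ S : Finset V, S.Nonempty → ∃ v ∈ S, ∃ T : Finset V, T.card < N ∧ ∀ w ∈ S, G.Adj v w → w ∈ T) :
    Nonempty (G.Coloring (Fin N)) := by
  classical
  refine SimpleGraph.nonempty_hom_of_forall_finite_subgraph_hom (fun G' hG' => ?_)
  have hex := e6a_fin G N h hG'.toFinset.card hG'.toFinset rfl
  refine ⟨fun v => ⟨hex.choose v.1, hex.choose_spec.1 v.1 (hG'.mem_toFinset.2 v.2)⟩, ?_⟩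
  intro a b hab hne
  exact hex.choose_spec.2 a.1 (hG'.mem_toFinset.2 a.2) b.1 (hG'.mem_toFinset.2 b.2)
    (G'.adj_sub hab) (congrArg Fin.val hne)

end FG40
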