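import Pool.Agent.LibFG40.E4
import Pool.Agent.LibFG40.E5
import Pool.Agent.LibFG40.E6a

/-! # E6: colouring of the rooms.

Plan. Graph on `U`: `y ~ y'` if `y ≠ y'` and the closed intervals `[y - R, y + R]` meet, `R = room_rad r φ`; then
`|y - y'| ≤ R y + R y'`. Given a finite nonempty `S ⊆ U`, let `v ∈ S` have the smallest `rho` (hence the smallest
`R`); `T` = the neighbours of `v` in `S`, `T ∪ {v}` satisfies the hypotheses of `multiplicity` with `y = v`:
`|x - v| ≤ R x + R v ≤ 2 R x`. So `T.card + 1 ≤ Kr r - 1`, `T.card < Kr r`. `colour_of_degenerate`. -/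

open Filter Topology Set

namespace FG40

open GD31

theorem exists_colouring {r : ℕ} (hr : 1 ≤ r) {φ : ℝ → ℝ} (hφ : HF r φ) (U : Set ℝ)
    (hU : ∀ y ∈ U, Bad r φ y)
    (hd : ∀ y ∈ U, ∀ y' ∈ U, y ≠ y' → 40 * Kr r * (rho r φ y + rho r φ y') < |y - y'|) :
    ∃ col : ℝ → Fin (Kr r + 1), ∀ y ∈ U, ∀ y' ∈ U, y ≠ y' → col y = col y' →
      Disjoint (Icc (y - room_rad r φ y) (y + room_rad r φ y))
        (Icc (y' - room_rad r φ y') (y' + room_rad r φ y')) := by
  classical
  obtain ⟨G, hG⟩ : ∃ G : SimpleGraph ↥U, ∀ a b : ↥U, G.Adj a b ↔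
      (a ≠ b ∧ |(a : ℝ) - b| ≤ room_rad r φ a + room_rad r φ b) := by
    refine ⟨⟨fun a b => a ≠ b ∧ |(a : ℝ) - b| ≤ room_rad r φ a + room_rad r φ b, ?_, ?_⟩, fun a b => Iff.rfl⟩
    · refine ⟨?_⟩
      rintro a b ⟨h1, h2⟩
      refine ⟨h1.symm, ?_⟩
      rw [abs_sub_comm, add_comm]
      exact h2
    · refine ⟨?_⟩
      rintro a ⟨h1, _⟩
      exact h1 rfl
  have hcol : Nonempty (G.Coloring (Fin (Kr r + 1))) := by
    refine colour_of_degenerate G (Kr r + 1) ?_
    intro S hS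
    obtain ⟨v, hv, hmin⟩ := S.exists_min_image (fun a => room_rad r φ (a : ℝ)) hS
    refine ⟨v, hv, S.filter (fun a => G.Adj v a), ?_, fun w hw hadj => Finset.mem_filter.2 ⟨hw, hadj⟩⟩
    have hvT : v ∉ S.filter (fun a => G.Adj v a) := by
      intro h1
      exact G.loopless.irrefl v (Finset.mem_filter.1 h1).2
    obtain ⟨T, hT⟩ : ∃ T, T = insert v (S.filter (fun a => G.Adj v a)) := ⟨_, rfl⟩
    have hTc : T.card = (S.filter (fun a => G.Adj v a)).card + 1 := by
      rw [hT, Finset.card_insert_of_notMem hvT]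
    have hinj : Function.Injective (fun a : ↥U => (a : ℝ)) := Subtype.val_injective
    have hmem : ∀ x ∈ T.image (fun a : ↥U => (a : ℝ)), ∃ a : ↥U, a ∈ T ∧ (a : ℝ) = x := by
      intro x hx
      obtain ⟨a, ha, hax⟩ := Finset.mem_image.1 hx
      exact ⟨a, ha, hax⟩
    have h1 := multiplicity hr hφ (T.image (fun a : ↥U => (a : ℝ))) (v : ℝ) (room_rad r φ) ?_ ?_ ?_ ?_
    · rw [Finset.card_image_of_injective _ hinj, hTc] at h1
      omega
    · intro x hx
      obtain ⟨a, _, rfl⟩ := hmem x hx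
      exact hU _ a.2
    · intro x _
      exact room_rad_pow r φ x
    · intro x hx
      obtain ⟨a, ha, rfl⟩ := hmem x hx
      rw [hT, Finset.mem_insert] at ha
      rcases ha with ha | ha
      · rw [ha, sub_self, abs_zero]
        have h2 := (room_rad_pow r φ (v : ℝ)).1
        linarith
      · rw [Finset.mem_filter] at ha
        have h2 := ((hG v a).1 ha.2).2
        have h3 := hmin a ha.1
        rw [abs_sub_comm]
        linarith
    · intro x hx x' hx' hne
      obtain ⟨a, _, rfl⟩ := hmem x hx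
      obtain ⟨a', _, rfl⟩ := hmem x' hx'
      exact hd _ a.2 _ a'.2 hne
  obtain ⟨c⟩ := hcol
  refine ⟨fun y => if h : y ∈ U then c ⟨y, h⟩ else 0, ?_⟩
  intro y hy y' hy' hne heq
  simp only [hy, hy', dif_pos] at heq
  rw [Set.disjoint_left]
  intro x hx hx'
  have hadj : G.Adj ⟨y, hy⟩ ⟨y', hy'⟩ := by
    rw [hG]
    refine ⟨fun h1 => hne (congrArg Subtype.val h1), ?_⟩
    simp only
    rw [abs_le]
    rw [Set.mem_Icc] at hx hx'
    constructor <;> linarith [hx.1, hx.2, hx'.1, hx'.2]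
  exact c.valid hadj heq

end FG40
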