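import Pool.Agent.LibFG40.C3
import Pool.Agent.LibFG40.D0a
import Pool.Agent.LibFG40.E5
import Pool.Agent.LibFG40.B5

/-! # E7a: storage for one class of bad blocks.

Plan. `smooth_storage` with `υ = {y // y ∈ W}`, `π i = ⟨Y i, _⟩`, `y v = v`, `q v = 200 K rho v`, `R v = room_rad v`,
`C₀ = 200 K + 100`; `b i = p i`, `L i = l i`, `σ i = (l i)²`. `Rooms`: `room_rad_facts`, `q = 200 K R^(r+1)`; `Summable R`:
disjoint intervals `[v - R, v + R] ⊆ [0, 2]`: every finite sum of `2 R v` is `≤ 2` (`sum_le_one` of B5 after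
halving; `summable_of_sum_le`). `Summable σ`: `BS.summ`, `BS.tiny`. `hσR`: `BS.sum_le` gives `∑ l i ≤ 1`, and `l i ≤ 10/9
rho (c i)²` (`BS.lo` at the centre `c i`), `rho (c i) ≤ 5 rho (Y i)` (`hY`: radius of a closed ball contained in
another; both radii positive), `rho ≤ R` (`rho = R^(r+1)`, `R ≤ 1`): `∑ σ i ≤ (max l i) ∑ l i ≤ 28 R²`. `hzone`: `[p -
l, p + 5 l] ⊆ closedBall (c i) (6 l) ⊆ closedBall (c i) (40 K rho (c i))` as `6 l ≤ 7 rho² ≤ rho`. Contents: from scale `z =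
l^(r+1)` to scale `l` (`nl_scale` with factor `l / z ≥ 1`): `c k l^(Qr r) (l/z)^(r+3) ≤ c k l^(Qr r - (r+1)(r+3)) ≤ c k
l^(4 + 2r) = c k σ² L^(2r)` (`Qr r - (r+1)(r+3) = 5r² + 10r + 13`; if `c k < 0` replace it by `|c k|`). -/

open Filter Topology Set

namespace FG40

open GD31

private theorem e7a_disj {a b c d : ℝ} (hab : a ≤ b) (hcd : c ≤ d) (h : Disjoint (Icc a b) (Icc c d)) :
    b ≤ c ∨ d ≤ a := by
  by_contra hh
  push Not at hh
  obtain ⟨h1, h2⟩ := hh
  rw [Set.disjoint_left] at h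
  exact h (a := max a c) ⟨le_max_left _ _, max_le hab h1.le⟩ ⟨le_max_right _ _, max_le h2.le hcd⟩

private theorem e7a_ball {x y a b : ℝ} (ha : 0 ≤ a) (h : Metric.closedBall x a ⊆ Metric.closedBall y b) : a ≤ b := by
  have h1 : x + a ∈ Metric.closedBall y b := by
    apply h
    rw [Metric.mem_closedBall, Real.dist_eq, add_sub_cancel_left, abs_of_nonneg ha]
  have h2 : x - a ∈ Metric.closedBall y b := by
    apply h
    rw [Metric.mem_closedBall, Real.dist_eq, sub_sub_cancel_left, abs_neg, abs_of_nonneg ha]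
  rw [Metric.mem_closedBall, Real.dist_eq, abs_le] at h1 h2
  linarith [h1.2, h2.1]

private theorem e7a_rooms {r : ℕ} (hr : 1 ≤ r) {φ : ℝ → ℝ} (hφ : HF r φ) (W : Set ℝ) (hW : ∀ y ∈ W, Bad r φ y)
    (hWd : ∀ y ∈ W, ∀ y' ∈ W, y ≠ y' →
      Disjoint (Icc (y - room_rad r φ y) (y + room_rad r φ y))
        (Icc (y' - room_rad r φ y') (y' + room_rad r φ y'))) :
    Rooms r (fun v : {y // y ∈ W} => v.1) (fun v => 200 * Kr r * rho r φ v.1) (fun v => room_rad r φ v.1)
      (200 * Kr r + 100) := by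
  have hK : (0 : ℝ) < Kr r := by
    unfold Kr
    positivity
  have hfac := fun v : {y // y ∈ W} => room_rad_facts hr hφ (hW v.1 v.2)
  have hd : Pairwise fun v v' : {y // y ∈ W} => Disjoint (Icc (v.1 - room_rad r φ v.1) (v.1 + room_rad r φ v.1))
      (Icc (v'.1 - room_rad r φ v'.1) (v'.1 + room_rad r φ v'.1)) :=
    fun v v' hv => hWd v.1 v.2 v'.1 v'.2 (fun hh => hv (Subtype.ext hh))
  refine
    { qpos := fun v => ?_
      qR := fun v => (hfac v).2.2.2.2
      R1 := fun v => ?_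
      le := fun v => ?_
      left := fun v => (hfac v).2.2.2.1
      disj := hd
      summ := ?_ }
  · have := (hW v.1 v.2).1
    positivity
  · refine (hfac v).2.2.1.trans ?_
    norm_num
  · show 200 * (Kr r : ℝ) * rho r φ v.1 ≤ (200 * Kr r + 100) * room_rad r φ v.1 ^ (r + 1)
    rw [(room_rad_pow r φ v.1).2]
    have := (hW v.1 v.2).1
    nlinarith
  · refine summable_of_sum_le (c := 1) (fun v => (hfac v).2.1.le) ?_
    intro S
    refine sum_le_one (p := fun v : {y // y ∈ W} => (v.1 - room_rad r φ v.1) / 2) (fun v => (hfac v).2.1) ?_ ?_ ?_ S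
    · intro v v' hv
      have h1 := (hfac v).2.1
      have h2 := (hfac v').2.1
      rcases e7a_disj (by linarith) (by linarith) (hd hv) with h | h
      · left
        show (v.1 - room_rad r φ v.1) / 2 + room_rad r φ v.1 ≤ (v'.1 - room_rad r φ v'.1) / 2
        linarith
      · right
        show (v'.1 - room_rad r φ v'.1) / 2 + room_rad r φ v'.1 ≤ (v.1 - room_rad r φ v.1) / 2
        linarith
    · intro v
      show 0 ≤ (v.1 - room_rad r φ v.1) / 2
      have h1 := (hfac v).2.1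
      have h2 := (hfac v).2.2.2.1
      linarith
    · intro v
      show (v.1 - room_rad r φ v.1) / 2 + room_rad r φ v.1 ≤ 1
      have h1 := (hfac v).1.2
      have h2 := (hfac v).2.2.1
      norm_num at h2
      linarith

private theorem e7a_nl {r : ℕ} {l c : ℝ} {f : ℝ → ℝ} (hl : 0 < l) (hl1 : l ≤ 1)
    (h : Nl (r + 3) (c * l ^ Qr r) (l ^ (r + 1)) f) :
    Nl (r + 3) (c * (l ^ 2) ^ 2 * l ^ (2 * r)) l f := by
  have hA : 0 ≤ c * l ^ Qr r := by
    have := h.bound 0 (Nat.zero_le _) 0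
    rw [pow_zero, div_one] at this
    exact (abs_nonneg _).trans this
  have hc : 0 ≤ c := by
    by_contra hc
    push Not at hc
    have := mul_neg_of_neg_of_pos hc (pow_pos hl (Qr r))
    linarith
  have h1 := nl_scale (c := (1 / l) ^ r) hA (pow_pos hl (r + 1))
    (one_le_pow₀ (by rw [le_div_iff₀ hl, one_mul]; exact hl1)) h
  have h2 : (1 / l) ^ r * l ^ (r + 1) = l := by
    rw [pow_succ, ← mul_assoc, ← mul_pow, one_div, inv_mul_cancel₀ hl.ne', one_pow, one_mul]
  rw [h2] at h1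
  have hQ : Qr r = r * (r + 3) + (5 * r ^ 2 + 11 * r + 16) := by
    unfold Qr
    ring
  have h3 : c * l ^ Qr r * ((1 / l) ^ r) ^ (r + 3) = c * l ^ (5 * r ^ 2 + 11 * r + 16) := by
    rw [hQ, pow_add, ← pow_mul, mul_assoc, mul_comm (l ^ (r * (r + 3))), mul_assoc, ← mul_pow, one_div,
      mul_inv_cancel₀ hl.ne', one_pow, mul_one]
  rw [h3] at h1
  refine h1.mono le_rfl (mul_nonneg hc (pow_nonneg hl.le _)) ?_ hl le_rfl
  rw [mul_assoc, ← pow_mul, ← pow_add]
  refine mul_le_mul_of_nonneg_left ?_ hc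
  apply pow_le_pow_of_le_one hl.le hl1
  nlinarith

theorem bad_class {r : ℕ} (hr : 1 ≤ r) (hc : ChainHyp r) {φ : ℝ → ℝ} (hφ : HF r φ) {ι κ : Type}
    {p l : ι → ℝ} {col : ι → Fin 16} (hB : BS (rho r φ) ι p l col) (W : Set ℝ) (hW : ∀ y ∈ W, Bad r φ y)
    (hWd : ∀ y ∈ W, ∀ y' ∈ W, y ≠ y' →
      Disjoint (Icc (y - room_rad r φ y) (y + room_rad r φ y))
        (Icc (y' - room_rad r φ y') (y' + room_rad r φ y')))
    (m : κ → ι) (hm : Function.Injective m) (hcol : ∀ i j, col (m i) = col (m j)) (Y : κ → ℝ)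
    (hYW : ∀ i, Y i ∈ W)
    (hY : ∀ i, Metric.closedBall (p (m i) + l (m i) / 2) (40 * Kr r * rho r φ (p (m i) + l (m i) / 2)) ⊆
      Metric.closedBall (Y i) (200 * Kr r * rho r φ (Y i)))
    (D : ℕ → κ → Pm) (hD : ∀ k i, Supp (D k i) (Icc (p (m i)) (p (m i) + l (m i)))) (c : ℕ → ℝ)
    (hN : ∀ k i, Nl (r + 3) (c k * l (m i) ^ Qr r) (l (m i) ^ (r + 1)) (disp (D k i))) (E : ℕ → Pm)
    (hE : ∀ k, IsGlue (fun i => Icc (p (m i)) (p (m i) + l (m i))) (D k) (E k)) : Rep r E := by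
  have hK : (1 : ℝ) ≤ Kr r := by
    have : 1 ≤ Kr r := by
      unfold Kr
      exact Nat.mul_pos (Nat.succ_pos _) (Nat.succ_pos _)
    exact_mod_cast this
  have hfac := fun i => room_rad_facts hr hφ (hW (Y i) (hYW i))
  have hl1 : ∀ i, l i ≤ 1 := fun i => (hB.tiny i).trans (by norm_num)
  have hlo : ∀ i, 9 / 10 * l i ≤ rho r φ (p i + l i / 2) ^ 2 := fun i => hB.lo i _ (by
    rw [sub_self, abs_zero]
    have := hB.pos i
    linarith)
  have hrn : ∀ x, 0 ≤ rho r φ x := hφ.sc.nonneg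
  have hrs : ∀ x, rho r φ x ≤ (1 / 10) ^ 12 := hφ.sc.le
  have hrY : ∀ i, rho r φ (p (m i) + l (m i) / 2) ≤ 5 * rho r φ (Y i) := by
    intro i
    have h1 := e7a_ball (mul_nonneg (by positivity) (hrn _)) (hY i)
    have h2 : 40 * (Kr r : ℝ) * rho r φ (p (m i) + l (m i) / 2) ≤ 40 * (Kr r : ℝ) * (5 * rho r φ (Y i)) := by
      linarith
    exact le_of_mul_le_mul_left h2 (by positivity)
  have hlR : ∀ i, l (m i) ≤ 28 * room_rad r φ (Y i) ^ 2 := by
    intro i
    have h1 := hlo (m i)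
    have h2 := hrY i
    have h3 := hrn (p (m i) + l (m i) / 2)
    have h4 := hrn (Y i)
    have h5 : rho r φ (p (m i) + l (m i) / 2) ^ 2 ≤ (5 * rho r φ (Y i)) ^ 2 := pow_le_pow_left₀ h3 h2 2
    have h6 : rho r φ (Y i) ≤ room_rad r φ (Y i) := by
      rw [← (room_rad_pow r φ (Y i)).2]
      refine pow_le_of_le_one (room_rad_pow r φ (Y i)).1 ?_ (Nat.succ_ne_zero _)
      exact (hfac i).2.2.1.trans (by norm_num)
    have h7 : rho r φ (Y i) ^ 2 ≤ room_rad r φ (Y i) ^ 2 := pow_le_pow_left₀ h4 h6 2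
    nlinarith
  refine smooth_storage hr hc (e7a_rooms hr hφ W hW hWd) (fun i => ⟨Y i, hYW i⟩) (fun i => p (m i))
    (fun i => l (m i)) (fun i => l (m i) ^ 2) (fun i => hB.pos _) (fun i => hl1 _)
    (fun i => pow_pos (hB.pos _) 2) ?_ ?_ ?_ ?_ D hD c ?_ E hE
  · refine Summable.of_nonneg_of_le (fun i => sq_nonneg _) (fun i => ?_) (hB.summ.comp_injective hm)
    show l (m i) ^ 2 ≤ l (m i)
    have h1 := hB.pos (m i)
    have h2 := hl1 (m i)
    nlinarith
  · intro v S hS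
    have h1 : ∀ i ∈ S, l (m i) ^ 2 ≤ 28 * room_rad r φ v.1 ^ 2 * l (m i) := by
      intro i hi
      have h2 := hlR i
      have h3 : Y i = v.1 := congrArg Subtype.val (hS i hi)
      rw [h3] at h2
      rw [sq]
      exact mul_le_mul_of_nonneg_right h2 (hB.pos _).le
    refine (Finset.sum_le_sum h1).trans ?_
    rw [← Finset.mul_sum]
    have h4 : ∑ i ∈ S, l (m i) ≤ 1 := by
      have := hB.sum_le (S.map ⟨m, hm⟩)
      rw [Finset.sum_map] at this
      exact this
    have h5 : 0 ≤ room_rad r φ v.1 ^ 2 := sq_nonneg _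
    calc 28 * room_rad r φ v.1 ^ 2 * ∑ i ∈ S, l (m i) ≤ 28 * room_rad r φ v.1 ^ 2 * 1 :=
          mul_le_mul_of_nonneg_left h4 (by linarith)
      _ = 28 * room_rad r φ v.1 ^ 2 := mul_one _
      _ ≤ (200 * Kr r + 100) * room_rad r φ v.1 ^ 2 := mul_le_mul_of_nonneg_right (by linarith) h5
  · intro i x hx
    have h1 := hlo (m i)
    have h2 := hrs (p (m i) + l (m i) / 2)
    have h3 := hrn (p (m i) + l (m i) / 2)
    have h4 := hB.pos (m i)
    have hx' : x ∈ Metric.closedBall (p (m i) + l (m i) / 2) (40 * Kr r * rho r φ (p (m i) + l (m i) / 2)) := by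
      rw [Metric.mem_closedBall, Real.dist_eq]
      have h5 : |x - (p (m i) + l (m i) / 2)| ≤ 6 * l (m i) := by
        rw [abs_le]
        constructor
        · linarith [hx.1]
        · linarith [hx.2]
      refine h5.trans ?_
      have h6 : 6 * l (m i) ≤ rho r φ (p (m i) + l (m i) / 2) := by
        norm_num at h2
        nlinarith
      refine h6.trans ?_
      nlinarith
    have := hY i hx'
    rw [Metric.mem_closedBall, Real.dist_eq, abs_le] at this
    exact ⟨by linarith [this.1], by linarith [this.2]⟩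
  · intro i j hij
    exact hB.colour (m i) (m j) (fun hh => hij (hm hh)) (hcol i j)
  · intro k i
    exact e7a_nl (hB.pos _) (hl1 _) (hN k i)

end FG40
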