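import Pool.Agent.LibFG40.C0d
import Pool.Agent.LibFG40.E6
import Pool.Agent.LibFG40.E7a

/-! # E7: storage of the contents of the bad blocks.

Plan. `κ = {i // Bad r φ (p i + l i / 2)}`; the glue of `D k` over all `ι` is also the glue over `κ` (the others
are `1`). `U` from `exists_family`, `Y i ∈ U` for a bad block (`x = p i + l i / 2`), `colU` from `exists_colouring`.
Colour of `i ∈ κ`: the pair `(col i, colU (Y i))` coded in `Fin (16 * (Kr r + 1))` (`finProdFinEquiv`).
`Rep.of_colours` with `V i = Ico (p i) (p i + l i)` (disjoint by `BS.disj`; `Supp` by `hD`). For one class: `glue_change`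
from `Ico` to `Icc` (disjoint by `BS.colour` inside a class: `[p, p + l] ⊆ [p - l, p + 5 l]`), `bad_class` with
`W = {y ∈ U | colU y = c}` (if the class is empty `E k = 1`: `Rep.one`, or `W` as defined works too). -/

open Filter Topology Set

namespace FG40

open GD31

private theorem e7_supp {F : Pm} {p l z : ℝ} (hz : 0 < z) (h : Supp F (Icc (p + z) (p + l - z))) :
    Supp F (Ico p (p + l)) ∧ Supp F (Icc p (p + l)) := by
  constructor
  · intro x hx
    exact h x (fun h1 => hx ⟨by linarith [h1.1], by linarith [h1.2]⟩)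
  · intro x hx
    exact h x (fun h1 => hx ⟨by linarith [h1.1], by linarith [h1.2]⟩)

theorem bad_storage {r : ℕ} (hr : 1 ≤ r) (hc : ChainHyp r) {φ : ℝ → ℝ} (hφ : HF r φ) {ι : Type}
    {p l : ι → ℝ} {col : ι → Fin 16} (hB : BS (rho r φ) ι p l col) (D : ℕ → ι → Pm)
    (hD : ∀ k i, Supp (D k i) (Icc (p i + (l i / 16) ^ (r + 1)) (p i + l i - (l i / 16) ^ (r + 1))))
    (h1 : ∀ k i, ¬ Bad r φ (p i + l i / 2) → D k i = 1) (c : ℕ → ℝ)
    (hN : ∀ k i, Nl (r + 3) (c k * l i ^ Qr r) (l i ^ (r + 1)) (disp (D k i))) (E : ℕ → Pm)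
    (hE : ∀ k, IsGlue (fun i => Ico (p i) (p i + l i)) (D k) (E k)) : Rep r E := by
  classical
  obtain ⟨U, hU1, hU2, hU3⟩ := exists_family hφ
  obtain ⟨colU, hcU⟩ := exists_colouring hr hφ U hU1 hU2
  have hz : ∀ i, 0 < (l i / 16) ^ (r + 1) := fun i => pow_pos (div_pos (hB.pos i) (by norm_num)) _
  have hex : ∀ i : {i : ι // Bad r φ (p i + l i / 2)}, ∃ y ∈ U,
      Metric.closedBall (p i.1 + l i.1 / 2) (40 * Kr r * rho r φ (p i.1 + l i.1 / 2)) ⊆
        Metric.closedBall y (200 * Kr r * rho r φ y) := fun i => hU3 _ i.2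
  choose Y hYU hYb using hex
  have hE' : ∀ k, IsGlue (fun i : {i : ι // Bad r φ (p i + l i / 2)} => Ico (p i.1) (p i.1 + l i.1))
      (fun i => D k i.1) (E k) := by
    intro k
    refine ⟨fun i x hx => (hE k).on i.1 x hx, fun x hx => ?_⟩
    by_cases h : ∃ i, x ∈ Ico (p i) (p i + l i)
    · obtain ⟨i, hi⟩ := h
      have hb : ¬ Bad r φ (p i + l i / 2) := fun hb => hx ⟨i, hb⟩ hi
      rw [(hE k).on i x hi, h1 k i hb]
      rfl
    · push Not at h
      exact (hE k).off x h
  refine Rep.of_colours hr (V := fun i : {i : ι // Bad r φ (p i + l i / 2)} =>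
    Ico (p i.1) (p i.1 + l i.1)) (D := fun k i => D k i.1) ?_ ?_ (16 * (Kr r + 1))
    (fun i => finProdFinEquiv (col i.1, colU (Y i))) ?_ E hE'
  · intro i j hij
    have hne : i.1 ≠ j.1 := fun h => hij (Subtype.ext h)
    rw [Set.disjoint_left]
    intro x hx hx'
    rcases hB.disj i.1 j.1 hne with h | h
    · exact absurd (lt_of_lt_of_le hx.2 (h.trans hx'.1)) (lt_irrefl x)
    · exact absurd (lt_of_lt_of_le hx'.2 (h.trans hx.1)) (lt_irrefl x)
  · intro k i
    exact (e7_supp (hz i.1) (hD k i.1)).1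
  · intro c' E' hE2
    have hcol : ∀ i : {i : {i : ι // Bad r φ (p i + l i / 2)} //
        finProdFinEquiv (col i.1, colU (Y i)) = c'},
        col i.1.1 = (finProdFinEquiv.symm c').1 ∧ colU (Y i.1) = (finProdFinEquiv.symm c').2 := by
      intro i
      have h2 : (col i.1.1, colU (Y i.1)) = finProdFinEquiv.symm c' :=
        (Equiv.eq_symm_apply _).2 i.2
      exact ⟨congrArg Prod.fst h2, congrArg Prod.snd h2⟩
    have hE3 : ∀ k, IsGlue (fun i : {i : {i : ι // Bad r φ (p i + l i / 2)} //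
        finProdFinEquiv (col i.1, colU (Y i)) = c'} => Icc (p i.1.1) (p i.1.1 + l i.1.1))
        (fun i => D k i.1.1) (E' k) := by
      intro k
      refine glue_change ?_ (fun i => (e7_supp (hz i.1.1) (hD k i.1.1)).1)
        (fun i => (e7_supp (hz i.1.1) (hD k i.1.1)).2) (hE2 k)
      intro i j hij
      have hne : i.1.1 ≠ j.1.1 := fun h => hij (Subtype.ext (Subtype.ext h))
      have h3 := hB.colour i.1.1 j.1.1 hne ((hcol i).1.trans (hcol j).1.symm)
      have h4 : ∀ i, Icc (p i) (p i + l i) ⊆ Icc (p i - l i) (p i + 5 * l i) := by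
        intro i
        have h5 := hB.pos i
        exact Icc_subset_Icc (by linarith) (by linarith)
      exact Set.disjoint_of_subset (h4 _) (h4 _) h3
    refine bad_class hr hc hφ hB {y | y ∈ U ∧ colU y = (finProdFinEquiv.symm c').2}
      (fun y hy => hU1 y hy.1) ?_
      (fun i : {i : {i : ι // Bad r φ (p i + l i / 2)} //
        finProdFinEquiv (col i.1, colU (Y i)) = c'} => i.1.1) ?_ ?_ (fun i => Y i.1) ?_ ?_
      (fun k i => D k i.1.1) ?_ c ?_ E' hE3
    · intro y hy y' hy' hne
      exact hcU y hy.1 y' hy'.1 hne (hy.2.trans hy'.2.symm)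
    · intro i j hij
      exact Subtype.ext (Subtype.ext hij)
    · intro i j
      exact (hcol i).1.trans (hcol j).1.symm
    · intro i
      exact ⟨hYU i.1, (hcol i).2⟩
    · intro i
      exact hYb i.1
    · intro k i
      exact (e7_supp (hz i.1.1) (hD k i.1.1)).2
    · intro k i
      exact hN k i.1.1

end FG40
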