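import Pool.Agent.LibFG40.R0

/-! # G0: germs. -/

open Filter Topology Set

namespace FG40

open GD31 GermDist46

theorem exists_hom (r : ℕ) (hr : 1 ≤ r) : ∃ (Z : Subgroup Pm) (T : Z →* GermGroup r),
    (∀ F : Pm, Gd r F → F ∈ Z) ∧ (∀ F : Z, Represents (T F) (⇑(F : Pm))) ∧
    ∀ F G : Z, T F = T G ↔ (⇑(F : Pm)) =ᶠ[𝓝 (0 : ℝ)] (⇑(G : Pm)) := by
  obtain ⟨T, h1, h2⟩ := r0_toGerm r
  exact ⟨LocR r, T, fun F hF => hF.mem_LocR hr, h1, h2⟩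

end FG40
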