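import Pool.Agent.LibFG40.Defs

/-! # G1: universal words with large `n k`. From `Pool/Agent/LibGC45/U1.lean`: `n k = 4 ^ (16 * (k + 1) ^ 2)`,
`w k = GC45.u1_w (16 * (k + 1) ^ 2)`; copy the proof of `GC45.universal_words` (norm bound) and add the lower
bound: `(k + 1) * 4 ^ (k ^ 2) ≤ 4 ^ (k + 1 + k ^ 2) ≤ 4 ^ (16 (k+1)^2)`. -/

namespace FG40

theorem universal_words' : ∃ (n : ℕ → ℕ) (w : ℕ → FreeGroup (Fin 3)),
    (∀ k, (k + 1) * 4 ^ (k ^ 2) ≤ n k ∧ (k + 1) * (w k).norm ≤ n k) ∧ ∀ k, Univ (n k) (w k) := by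
  refine ⟨fun k => 4 ^ (16 * (k + 1) ^ 2), fun k => GC45.u1_w (16 * (k + 1) ^ 2), ?_, ?_⟩
  · intro k
    set m := 16 * (k + 1) ^ 2 with hm
    have hkm : k + 1 ≤ m := by rw [hm]; nlinarith
    have hm16 : 16 ≤ m := by rw [hm]; nlinarith
    constructor
    · show (k + 1) * 4 ^ (k ^ 2) ≤ 4 ^ m
      have h1 : k + 1 ≤ 4 ^ (k + 1) := (Nat.lt_pow_self (by norm_num)).le
      calc (k + 1) * 4 ^ (k ^ 2) ≤ 4 ^ (k + 1) * 4 ^ (k ^ 2) := Nat.mul_le_mul_right _ h1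
        _ = 4 ^ (k + 1 + k ^ 2) := (pow_add _ _ _).symm
        _ ≤ 4 ^ m := by
          refine Nat.pow_le_pow_right (by norm_num) ?_
          rw [hm]
          nlinarith
    · have h1 := GC45.u1_w_norm m
      have h2 := GC45.u1_central m
      have hp := GC45.u1_poly m hm16
      have h3 : (4 * (k + 1) * (2 * m).choose m) ^ 2 ≤ (4 ^ m) ^ 2 := by
        calc (4 * (k + 1) * (2 * m).choose m) ^ 2 = m * (2 * m).choose m ^ 2 := by
              rw [hm]; ring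
          _ ≤ (2 * m + 1) * (2 * m).choose m ^ 2 := Nat.mul_le_mul_right _ (by omega)
          _ ≤ 16 ^ m := h2
          _ = (4 ^ m) ^ 2 := GC45.u1_pow m
      have h4 : 4 * (k + 1) * (2 * m).choose m ≤ 4 ^ m :=
        (Nat.pow_le_pow_iff_left (by norm_num)).1 h3
      have h5 : (k + 1) * (GC45.u1_w m).norm ≤
          (k + 1) * (4 * m + 2 * (2 * m + 2) * (2 * m + 1) + 2 * (2 * m).choose m) :=
        Nat.mul_le_mul_left _ h1
      have h6 : (k + 1) * (4 * m + 2 * (2 * m + 2) * (2 * m + 1)) ≤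
          m * (4 * m + 2 * (2 * m + 2) * (2 * m + 1)) := Nat.mul_le_mul_right _ hkm
      show (k + 1) * (GC45.u1_w m).norm ≤ 4 ^ m
      nlinarith
  · intro k s hs
    exact GC45.u1_w_lift _ s hs

end FG40
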