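import Pool.Agent.LibFG40.C0b
import Pool.Agent.LibFG40.G0
import Pool.Agent.LibGC45.F2
import Pool.Agent.LibGC45.F3

/-! # G2: from a representation to distortion.

Plan. `Rep r E`: `N, F, w', C`. Generators `Fin (N + 3)`: `F` and `T` (`Fin.addCases`); words `W k = map castAdd (w' k) *
map natAdd (w k)`, norm `≤ C 4^k + (w k).norm` (as in `Rep.mul`). Near `0`: `lift (W k) = f ^ n k`. With `exists_hom`:
`p i = T' ⟨generator i, _⟩ : GermGroup r`, `g = T' ⟨f, _⟩` (`GC45.represents_unique`, which is stated for all `r`), so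
`FreeGroup.lift p (W k) = g ^ n k` (`FreeGroup.lift` and homomorphisms). `GC45.distortion_of_words` applied to the
shifted sequences `k ↦ n (k + k₀)`, `W (k + k₀)`: `(k+1)^2 ≤ n (k+k₀)` and `(k+1) * norm ≤ 60 n (k+k₀)`; for `k₀ = C + 2`
e.g.: `(k+1) C 4^(k+k₀) ≤ (k + k₀ + 1) 4^((k+k₀)^2) ≤ n (k+k₀)` since `C 4^(k+k₀) ≤ 4^((k+k₀)^2)`. -/

open Filter Topology Set

namespace FG40

open GD31 GermDist46

private theorem g2_norm {α β : Type} [DecidableEq α] [DecidableEq β] (f : α → β) (v : FreeGroup α) :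
    (FreeGroup.map f v).norm ≤ v.norm := by
  have h1 : FreeGroup.map f v = FreeGroup.mk (v.toWord.map fun x => (f x.1, x.2)) := by
    conv_lhs => rw [← FreeGroup.mk_toWord (x := v)]
    exact FreeGroup.map.mk
  rw [h1]
  refine FreeGroup.norm_mk_le.trans ?_
  rw [List.length_map]
  rfl

private theorem g2_lift {α β Γ : Type} [Group Γ] (f : α → β) (P : β → Γ) (v : FreeGroup α) :
    FreeGroup.lift P (FreeGroup.map f v) = FreeGroup.lift (fun a => P (f a)) v := by
  have h1 : (FreeGroup.lift P).comp (FreeGroup.map f) = FreeGroup.lift (fun a => P (f a)) := by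
    apply FreeGroup.ext_hom
    intro a
    simp
  exact DFunLike.congr_fun h1 v

private theorem g2_hom {α Γ Δ : Type} [Group Γ] [Group Δ] (P : α → Γ) (θ : Γ →* Δ) (v : FreeGroup α) :
    θ (FreeGroup.lift P v) = FreeGroup.lift (fun a => θ (P a)) v := by
  have h1 : θ.comp (FreeGroup.lift P) = FreeGroup.lift (fun a => θ (P a)) := by
    apply FreeGroup.ext_hom
    intro a
    simp
  exact DFunLike.congr_fun h1 v

private theorem g2_num {C k n : ℕ} (hn : (k + (C + 2) + 1) * 4 ^ ((k + (C + 2)) ^ 2) ≤ n) :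
    (k + 1) ^ 2 ≤ n ∧ (k + 1) * (C * 4 ^ (k + (C + 2))) ≤ n := by
  obtain ⟨j, hj⟩ : ∃ j, j = k + (C + 2) := ⟨_, rfl⟩
  rw [← hj] at hn ⊢
  have h1 : j < 4 ^ j := Nat.lt_pow_self (by norm_num)
  have h2 : 4 ^ (2 * j) ≤ 4 ^ (j ^ 2) := Nat.pow_le_pow_right (by norm_num) (by nlinarith)
  have h3 : 4 ^ j * 4 ^ j = 4 ^ (2 * j) := by rw [two_mul, pow_add]
  have h4 : 1 ≤ 4 ^ j := Nat.one_le_pow _ _ (by norm_num)
  constructor
  · refine le_trans ?_ hn
    rw [sq]
    refine Nat.mul_le_mul (by omega) ?_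
    calc k + 1 ≤ 4 ^ j := by omega
      _ ≤ 4 ^ j * 4 ^ j := Nat.le_mul_of_pos_left _ (by omega)
      _ ≤ 4 ^ (j ^ 2) := by rw [h3]; exact h2
  · refine le_trans ?_ hn
    refine Nat.mul_le_mul (by omega) ?_
    calc C * 4 ^ j ≤ 4 ^ j * 4 ^ j := Nat.mul_le_mul_right _ (by omega)
      _ ≤ 4 ^ (j ^ 2) := by rw [h3]; exact h2

theorem distortion_of_rep {r : ℕ} (hr : 1 ≤ r) {E : ℕ → Pm} (hE : Rep r E) (T : Fin 3 → Pm)
    (hT : ∀ j, Gd r (T j)) (n : ℕ → ℕ) (w : ℕ → FreeGroup (Fin 3))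
    (hn : ∀ k, (k + 1) * 4 ^ (k ^ 2) ≤ n k) (hw : ∀ k, (k + 1) * (w k).norm ≤ n k) (f : Pm) (hf : Gd r f)
    (h : ∀ k, ∀ᶠ x in 𝓝 (0 : ℝ), (f ^ n k) x = (E k * FreeGroup.lift T (w k) : Pm) x)
    (g : GermGroup r) (hg : Represents g f) : IsDistortionElement g := by
  obtain ⟨N, F, w', C, hF, hw', hE'⟩ := hE
  obtain ⟨Z, T', hZ, hrep, heq⟩ := exists_hom r hr
  let P : Fin (N + 3) → Pm := Fin.addCases F T
  have hPl : (fun a => P (Fin.castAdd 3 a)) = F := by
    funext a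
    exact Fin.addCases_left a
  have hPr : (fun a => P (Fin.natAdd N a)) = T := by
    funext a
    exact Fin.addCases_right a
  have hP : ∀ i, Gd r (P i) := by
    intro i
    refine Fin.addCases (motive := fun i => Gd r (P i)) (fun a => ?_) (fun a => ?_) i
    · have : P (Fin.castAdd 3 a) = F a := congrFun hPl a
      rw [this]
      exact hF a
    · have : P (Fin.natAdd N a) = T a := congrFun hPr a
      rw [this]
      exact hT a
  let W : ℕ → FreeGroup (Fin (N + 3)) := fun k =>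
    FreeGroup.map (Fin.castAdd 3) (w' k) * FreeGroup.map (Fin.natAdd N) (w k)
  have hWn : ∀ k, (W k).norm ≤ C * 4 ^ k + (w k).norm := fun k =>
    (FreeGroup.norm_mul_le _ _).trans (Nat.add_le_add ((g2_norm _ _).trans (hw' k)) (g2_norm _ _))
  have hWl : ∀ k, FreeGroup.lift P (W k) = FreeGroup.lift F (w' k) * FreeGroup.lift T (w k) := by
    intro k
    show FreeGroup.lift P (_ * _) = _
    rw [map_mul, g2_lift, g2_lift, hPl, hPr]
  have hloc : ∀ k, ∀ᶠ x in 𝓝 (0 : ℝ), (FreeGroup.lift P (W k) : Pm) x = (f ^ n k) x := by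
    intro k
    have hG := Gd.lift hr hT (w k)
    have h0 : (FreeGroup.lift T (w k) : Pm) 0 = 0 := hG.left 0 le_rfl
    have hc : Tendsto (⇑(FreeGroup.lift T (w k) : Pm)) (𝓝 (0 : ℝ)) (𝓝 0) := by
      have := hG.continuous.tendsto 0
      rwa [h0] at this
    filter_upwards [hc.eventually (hE' k), h k] with x h1 h2
    rw [hWl, h2, Equiv.Perm.mul_apply, Equiv.Perm.mul_apply, h1]
  let PZ : Fin (N + 3) → Z := fun i => ⟨P i, hZ _ (hP i)⟩
  let fZ : Z := ⟨f, hZ f hf⟩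
  have hgf : g = T' fZ := (GC45.represents_unique hg (hrep fZ)).2 (EventuallyEq.refl _ _)
  have hword : ∀ k, FreeGroup.lift (fun i => T' (PZ i)) (W k) = g ^ n k := by
    intro k
    rw [← g2_hom PZ T' (W k), hgf, ← map_pow, heq]
    have h1 : ((FreeGroup.lift PZ (W k) : Z) : Pm) = FreeGroup.lift P (W k) :=
      g2_hom PZ Z.subtype (W k)
    have h2 : ((fZ ^ n k : Z) : Pm) = f ^ n k := rfl
    rw [h1, h2]
    exact hloc k
  refine GC45.distortion_of_words (fun i => T' (PZ i)) g (fun k => n (k + (C + 2)))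
    (fun k => W (k + (C + 2))) (fun k => (g2_num (hn _)).1) (fun k => ?_) (fun k => hword _)
  have h1 := (g2_num (C := C) (k := k) (hn (k + (C + 2)))).2
  have h2 := hw (k + (C + 2))
  have h3 := hWn (k + (C + 2))
  have h4 : (k + 1) * (w (k + (C + 2))).norm ≤ n (k + (C + 2)) :=
    le_trans (Nat.mul_le_mul_right _ (by omega)) h2
  calc (k + 1) * (W (k + (C + 2))).norm
      ≤ (k + 1) * (C * 4 ^ (k + (C + 2)) + (w (k + (C + 2))).norm) := Nat.mul_le_mul_left _ h3
    _ = (k + 1) * (C * 4 ^ (k + (C + 2))) + (k + 1) * (w (k + (C + 2))).norm := by ring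
    _ ≤ 60 * n (k + (C + 2)) := by omega

end FG40
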