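import Pool.Agent.LibFG40.C0d
import Pool.Agent.LibFG40.C0c
import Pool.Agent.LibFG40.C1a
import Pool.Agent.LibFG40.C1c
import Pool.Agent.LibFG40.D7

/-! # G3: the global letters.

Plan. `C₁` from `exists_letters`, `C = 2 C₁ + 1`. For a good block with `C √l ≤ 1` take `L i` from `exists_letters`
(`LetM` and `Core` are monotone in the constant), otherwise `L i = 1`. `SzR r` of `L i j`: `szR_of_nl`: `C₁ l^(Er r) /
(l^(r+1))^r ≤ C₁ l` (`Er r - r (r+1) = r² + r + 4`), `≤ 1/2`, summable (`BS.summ`). `T j` = glue over the closed disjoint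
sets `[p + z/2, q - z/2]` (`exists_glue`, `glue_gd`; in `Ioi 0` by `BS.mem`), then `glue_change` to `Ico`. -/

open Filter Topology Set

namespace FG40

open GD31

private theorem g3_letM_mono {r : ℕ} {C C' p l : ℝ} {L : Fin 3 → Pm} (hC : 0 ≤ C) (hCC : C ≤ C') (hl : 0 < l)
    (h : LetM r C p l L) : LetM r C' p l L := by
  have h1 : C * l ^ Er r ≤ C' * l ^ Er r := mul_le_mul_of_nonneg_right hCC (by positivity)
  exact ⟨h.supp, fun j => (h.nl j).mono le_rfl (by positivity) h1 (by positivity) le_rfl,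
    fun j => (h.nli j).mono le_rfl (by positivity) h1 (by positivity) le_rfl, h.mono⟩

private theorem g3_core_mono {r : ℕ} {C C' p l : ℝ} {f : Pm} {L : Fin 3 → Pm} (hCC : C ≤ C') (hl : 0 < l)
    (h : Core r C f p l L) : Core r C' f p l L := by
  intro n w hw hn x hx
  refine h n w hw (le_trans ?_ hn) x hx
  refine mul_le_mul_of_nonneg_right (mul_le_mul_of_nonneg_right hCC (by positivity)) hl.le

private theorem g3_sz {r : ℕ} {C p l : ℝ} {L : Fin 3 → Pm} (hC : 0 ≤ C) (hl : 0 < l) (hl1 : l ≤ 1)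
    (h : LetM r C p l L) (j : Fin 3) : SzR r (C * l) (L j) := by
  have h1 := szR_of_nl (r := r) (k := r + 3) (by omega) (by positivity) (pow_pos hl _)
    (pow_le_one₀ hl.le hl1) (h.nl j)
  refine h1.mono ?_
  rw [← pow_mul, mul_div_assoc]
  refine mul_le_mul_of_nonneg_left ?_ hC
  rw [div_le_iff₀ (by positivity)]
  have h2 : l * l ^ ((r + 1) * r) = l ^ ((r + 1) * r + 1) := by
    rw [pow_succ, mul_comm]
  rw [h2]
  refine pow_le_pow_of_le_one hl.le hl1 ?_
  unfold Er
  nlinarith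

theorem global_letters (r : ℕ) (hr : 1 ≤ r) : ∃ C : ℝ, 1 ≤ C ∧ ∀ (φ : ℝ → ℝ) (f : Pm) (ι : Type)
    (p l : ι → ℝ) (col : ι → Fin 16), HF r φ → (∀ x, f x = x + φ x) → BS (rho r φ) ι p l col →
    ∃ (T : Fin 3 → Pm) (L : ι → Fin 3 → Pm), (∀ j, Gd r (T j)) ∧
      (∀ j, IsGlue (fun i => Ico (p i) (p i + l i)) (fun i => L i j) (T j)) ∧
      (∀ i j, Supp (L i j) (Icc (p i + l i ^ (r + 1) / 2) (p i + l i - l i ^ (r + 1) / 2))) ∧
      (∀ i, Good r φ (p i + l i / 2) → C * Real.sqrt (l i) ≤ 1 →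
        LetM r C (p i) (l i) (L i) ∧ Core r C f (p i) (l i) (L i)) ∧
      ∀ i, ¬ Good r φ (p i + l i / 2) → ∀ j, L i j = 1 := by
  obtain ⟨C₁, hC₁, hlet⟩ := exists_letters r hr
  refine ⟨2 * C₁ + 1, by linarith, fun φ f ι p l col hH hf hB => ?_⟩
  have hC0 : (0 : ℝ) ≤ C₁ := by linarith
  have hl1 : ∀ i, l i ≤ 1 := fun i => (hB.tiny i).trans (by norm_num)
  -- letters of one block
  have hex : ∀ i, ∃ L : Fin 3 → Pm,
      ((Good r φ (p i + l i / 2) ∧ (2 * C₁ + 1) * Real.sqrt (l i) ≤ 1) →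
        LetM r C₁ (p i) (l i) L ∧ Core r C₁ f (p i) (l i) L) ∧
      (¬ (Good r φ (p i + l i / 2) ∧ (2 * C₁ + 1) * Real.sqrt (l i) ≤ 1) → ∀ j, L j = 1) := by
    intro i
    by_cases hg : Good r φ (p i + l i / 2) ∧ (2 * C₁ + 1) * Real.sqrt (l i) ≤ 1
    · have hs : C₁ * Real.sqrt (l i) ≤ 1 := by
        have h1 := Real.sqrt_nonneg (l i)
        nlinarith [hg.2]
      obtain ⟨L, hL⟩ := hlet φ f ι p l col i hH hf hB hg.1 hs
      exact ⟨L, fun _ => hL, fun h => absurd hg h⟩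
    · exact ⟨fun _ => 1, fun h => absurd h hg, fun _ _ => rfl⟩
  choose L hL1 hL0 using hex
  have hsupp : ∀ i j, Supp (L i j) (Icc (p i + l i ^ (r + 1) / 2) (p i + l i - l i ^ (r + 1) / 2)) := by
    intro i j
    by_cases hg : Good r φ (p i + l i / 2) ∧ (2 * C₁ + 1) * Real.sqrt (l i) ≤ 1
    · exact (hL1 i hg).1.supp j
    · rw [hL0 i hg j]
      intro x _
      rfl
  set V : ι → Set ℝ := fun i => Icc (p i + l i ^ (r + 1) / 2) (p i + l i - l i ^ (r + 1) / 2) with hV
  have hz : ∀ i, 0 < l i ^ (r + 1) := fun i => pow_pos (hB.pos i) _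
  have hVI : ∀ i, V i ⊆ Ico (p i) (p i + l i) := by
    intro i x hx
    have h1 := hz i
    exact ⟨by linarith [hx.1], by linarith [hx.2]⟩
  have hdI : Pairwise fun i j => Disjoint (Ico (p i) (p i + l i)) (Ico (p j) (p j + l j)) := by
    intro i j hij
    rw [Set.disjoint_left]
    intro x hx hx'
    rcases hB.disj i j hij with h | h
    · linarith [hx.2, hx'.1]
    · linarith [hx.1, hx'.2]
  have hdV : Pairwise fun i j => Disjoint (V i) (V j) := fun i j hij =>
    (hdI hij).mono (hVI i) (hVI j)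
  have hVpos : ∀ i, V i ⊆ Ioi 0 := by
    intro i x hx
    have h1 := hVI i hx
    have h2 := hB.pos i
    refine (hB.mem i x ?_).1
    rw [abs_le]
    constructor
    · linarith [h1.1]
    · linarith [h1.2]
  set s : ι → ℝ := fun i => min (C₁ * l i) (1 / 2) with hs
  have hs0 : ∀ i, 0 ≤ s i := fun i => le_min (mul_nonneg hC0 (hB.pos i).le) (by norm_num)
  have hsum : Summable s := Summable.of_nonneg_of_le hs0 (fun i => min_le_left _ _) (hB.summ.mul_left C₁)
  have hsz : ∀ j i, SzR r (s i) (L i j) := by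
    intro j i
    by_cases hg : Good r φ (p i + l i / 2) ∧ (2 * C₁ + 1) * Real.sqrt (l i) ≤ 1
    · have h1 := g3_sz hC0 (hB.pos i) (hl1 i) (hL1 i hg).1 j
      refine h1.mono (le_min le_rfl ?_)
      have h2 : Real.sqrt (l i) * Real.sqrt (l i) = l i := Real.mul_self_sqrt (hB.pos i).le
      have h3 := Real.sqrt_nonneg (l i)
      have h4 : Real.sqrt (l i) ≤ 1 := by nlinarith [hg.2]
      have h5 : l i ≤ Real.sqrt (l i) := by nlinarith
      nlinarith [hg.2]
    · rw [hL0 i hg j]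
      exact szR_one (hs0 i)
  have hgl : ∀ j, ∃ T : Pm, IsGlue V (fun i => L i j) T := fun j =>
    exists_glue V (fun i => L i j) hdV fun i => hsupp i j
  choose T hT using hgl
  refine ⟨T, L, ?_, ?_, hsupp, ?_, ?_⟩
  · intro j
    exact glue_gd hr hdV (fun i => hsupp i j) (hT j) (fun i => isClosed_Icc) hVpos s (hsz j) hsum
      fun i => min_le_right _ _
  · intro j
    exact glue_change hdI (fun i => hsupp i j) (fun i x hx => hsupp i j x fun h => hx (hVI i h)) (hT j)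
  · intro i hg hc
    obtain ⟨h1, h2⟩ := hL1 i ⟨hg, hc⟩
    exact ⟨g3_letM_mono hC0 (by linarith) (hB.pos i) h1, g3_core_mono (by linarith) (hB.pos i) h2⟩
  · intro i hg j
    exact hL0 i (fun h => hg h.1) j

end FG40
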