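import Pool.Agent.LibFG40.D1c
import Pool.Agent.LibFG40.D2
import Pool.Agent.LibFG40.D8

/-! # G4: the local maps of order `n` of all blocks.

Plan. `C_J` from `exists_JM`, `C_G` from `exists_CutM` (with `C_J`; monotone in the constants), `C_E` from `exists_ends` (with
`C₂ = max` of `C₁`, `C_G` and the constant of `local_iter`). `C` large (e.g. a sum and product of all, `≥ C₁²`). Put `N = n +
w.norm + 1`. `J i` from `exists_JM` if `C_J (n+1) l i ≤ 1`, else `1`. If `C N l i ≤ 1`: `j` = right neighbour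
(`BS.right`), `l j ≤ 2 l i` (`BS.ratio` at the point `p i + l i`), `G i` from `exists_CutM`; else `G i = 1`. If
moreover `i` is good: `E₁ i`, `E₂ i` from `exists_ends` (`LetM`, `Core` by hypothesis: `C₁ √l ≤ 1` since `C₁² l ≤ 1`;
`StrictMono f` from `HF.gd`; displacement of `f^n` from `local_iter`), else `1`. The right neighbour is unique up to
equality of `p`; in `eq` the given `j` has `p j = p i + l i`, so it is the same index (`BS.disj`). `Nl` of the identity: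
`disp 1 = 0`. `l^(Qr r) ≤ l^(Er r)`. -/

open Filter Topology Set

namespace FG40

open GD31

/-- the local maps of order `n` of all blocks -/
structure LD (r : ℕ) (C : ℝ) (n : ℕ) (w : FreeGroup (Fin 3)) (f : Pm) (φ : ℝ → ℝ) {ι : Type}
    (p l : ι → ℝ) (L : ι → Fin 3 → Pm) (J G E₁ E₂ : ι → Pm) : Prop where
  suppJ : ∀ i, Supp (J i) (Icc (p i - (l i / 4) ^ (r + 1)) (p i + (l i / 4) ^ (r + 1)))
  nlJ : ∀ i, Nl (r + 3) (C * (n + w.norm + 1) * l i ^ Er r) (l i ^ (r + 1)) (disp (J i))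
  suppG : ∀ i, Supp (G i) (Icc (p i + (l i / 16) ^ (r + 1)) (p i + l i - (l i / 16) ^ (r + 1)))
  nlG : ∀ i, Nl (r + 3) (C * (n + w.norm + 1) * l i ^ Qr r) (l i ^ (r + 1)) (disp (G i))
  supp₁ : ∀ i, Supp (E₁ i) (Icc (p i) (p i + 10 * l i ^ (r + 1)))
  supp₂ : ∀ i, Supp (E₂ i) (Icc (p i + l i - 10 * l i ^ (r + 1)) (p i + l i))
  nl₁ : ∀ i, Nl (r + 3) (C * (n + w.norm + 1) * l i ^ Er r) (l i ^ (r + 1)) (disp (E₁ i))
  nl₂ : ∀ i, Nl (r + 3) (C * (n + w.norm + 1) * l i ^ Er r) (l i ^ (r + 1)) (disp (E₂ i))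
  eq : ∀ i j, p j = p i + l i → C * (n + w.norm + 1) * l i ≤ 1 →
    ∀ x ∈ Icc (p i) (p i + l i), J i (J j (G i x)) = (f ^ n) x
  good : ∀ i, Good r φ (p i + l i / 2) → C * (n + w.norm + 1) * l i ≤ 1 →
    G i = E₁ i * E₂ i * FreeGroup.lift (L i) w
  notgood : ∀ i, ¬ Good r φ (p i + l i / 2) → E₁ i = 1 ∧ E₂ i = 1

private theorem g4_nl_one (k : ℕ) {A l : ℝ} (hA : 0 ≤ A) (hl : 0 < l) : Nl k A l (disp (1 : Pm)) := by
  have h : disp (1 : Pm) = fun _ => 0 := by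
    funext x
    simp [disp]
  rw [h]
  refine ⟨contDiff_const, fun i _ x => ?_⟩
  rw [iteratedDeriv_const]
  split_ifs
  · rw [abs_zero]
    positivity
  · rw [abs_zero]
    positivity

private theorem g4_pow {r : ℕ} {l : ℝ} (hl : 0 < l) (hl1 : l ≤ 1) : l ^ Qr r ≤ l ^ Er r := by
  apply pow_le_pow_of_le_one hl.le hl1
  unfold Er Qr
  nlinarith [sq_nonneg r, Nat.zero_le r]

/-- the constants -/
private theorem g4_const {C D m N P Q : ℝ} (hC : 0 ≤ C) (hCD : C ≤ D) (hm : 0 ≤ m) (hmN : m ≤ N)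
    (hP : 0 ≤ P) (hPQ : P ≤ Q) : 0 ≤ C * m * P ∧ C * m * P ≤ D * N * Q := by
  refine ⟨mul_nonneg (mul_nonneg hC hm) hP, ?_⟩
  exact mul_le_mul (mul_le_mul hCD hmN hm (hC.trans hCD)) hPQ hP
    (mul_nonneg (hC.trans hCD) (hm.trans hmN))

theorem exists_LD (r : ℕ) (hr : 1 ≤ r) (C₁ : ℝ) (hC₁ : 1 ≤ C₁) : ∃ C : ℝ, 1 ≤ C ∧ ∀ (φ : ℝ → ℝ) (f : Pm)
    (ι : Type) (p l : ι → ℝ) (col : ι → Fin 16) (n : ℕ) (w : FreeGroup (Fin 3)) (L : ι → Fin 3 → Pm),
    HF r φ → (∀ x, f x = x + φ x) → BS (rho r φ) ι p l col → Univ n w →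
    (∀ i, Good r φ (p i + l i / 2) → C₁ * Real.sqrt (l i) ≤ 1 →
      LetM r C₁ (p i) (l i) (L i) ∧ Core r C₁ f (p i) (l i) (L i)) →
    ∃ J G E₁ E₂ : ι → Pm, LD r C n w f φ p l L J G E₁ E₂ := by
  obtain ⟨CJ, hCJ, hJM⟩ := exists_JM r hr
  obtain ⟨CG, hCG, hCM⟩ := exists_CutM r hr CJ hCJ
  obtain ⟨CI, hCI, hLI⟩ := local_iter r
  obtain ⟨C₂, hC₂⟩ : ∃ C₂ : ℝ, C₂ = C₁ + CG + CI := ⟨_, rfl⟩
  have hC21 : 1 ≤ C₂ := by linarith
  obtain ⟨CE, hCE, hEn⟩ := exists_ends r hr C₂ hC21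
  refine ⟨2 * (CJ + CG + CI + CE) + C₁ ^ 2, by nlinarith, ?_⟩
  intro φ f ι p l col n w L hφ hf hB hU hL
  obtain ⟨C, hC⟩ : ∃ C : ℝ, C = 2 * (CJ + CG + CI + CE) + C₁ ^ 2 := ⟨_, rfl⟩
  rw [← hC]
  have hC1sq : 0 ≤ C₁ ^ 2 := sq_nonneg _
  have hCJC : 2 * CJ ≤ C := by linarith
  have hCJC' : CJ ≤ C := by linarith
  have hCGC : CG ≤ C := by linarith
  have hCIC : CI ≤ C := by linarith
  have hCEC : CE ≤ C := by linarith
  have hC1C : C₁ ^ 2 ≤ C := by linarith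
  have hC0 : 0 ≤ C := by linarith
  have hn0 : (0 : ℝ) ≤ n := Nat.cast_nonneg n
  have hw0 : (0 : ℝ) ≤ w.norm := Nat.cast_nonneg _
  have hnN : (n : ℝ) + 1 ≤ n + w.norm + 1 := by linarith
  have hN1 : (1 : ℝ) ≤ n + w.norm + 1 := by linarith
  have hl : ∀ i, 0 < l i := hB.pos
  have hl1 : ∀ i, l i ≤ 1 := fun i => (hB.tiny i).trans (by norm_num)
  have hlr : ∀ i, 0 < l i ^ (r + 1) := fun i => pow_pos (hl i) _
  have hQE : ∀ i, l i ^ Qr r ≤ l i ^ Er r := fun i => g4_pow (hl i) (hl1 i)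
  have hE0 : ∀ i, 0 ≤ l i ^ Er r := fun i => (pow_pos (hl i) _).le
  have hQ0 : ∀ i, 0 ≤ l i ^ Qr r := fun i => (pow_pos (hl i) _).le
  -- smallness
  have hsm : ∀ (D m : ℝ) (i : ι), 0 ≤ D → D ≤ C → 0 ≤ m → m ≤ n + w.norm + 1 →
      C * (n + w.norm + 1) * l i ≤ 1 → D * m * l i ≤ 1 := by
    intro D m i hD hDC hm hmN h
    exact ((g4_const hD hDC hm hmN (hl i).le le_rfl).2).trans h
  -- the maps `J`
  have hJ : ∀ i, ∃ J : Pm, (CJ * (n + 1) * l i ≤ 1 → JM r CJ n f (p i) (l i) J) ∧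
      (¬ CJ * (n + 1) * l i ≤ 1 → J = 1) := by
    intro i
    by_cases h : CJ * (n + 1) * l i ≤ 1
    · obtain ⟨J, hJ⟩ := hJM φ f ι p l col i n hφ hf hB h
      exact ⟨J, fun _ => hJ, fun h' => absurd h h'⟩
    · exact ⟨1, fun h' => absurd h' h, fun _ => rfl⟩
  choose J hJ1 hJ2 using hJ
  choose rt hrt using hB.right
  have hrl : ∀ i, l (rt i) ≤ 2 * l i := by
    intro i
    apply hB.ratio (rt i) i (p i + l i)
    · rw [hrt i]
      have h1 := hl (rt i)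
      rw [show p i + l i - (p i + l i + l (rt i) / 2) = -(l (rt i) / 2) by ring, abs_neg,
        abs_of_pos (by linarith)]
      linarith
    · have h1 := hl i
      rw [show p i + l i - (p i + l i / 2) = l i / 2 by ring, abs_of_pos (by linarith)]
      linarith
  have huniq : ∀ i j, p j = p i + l i → j = rt i := by
    intro i j hj
    by_contra hne
    have h1 := hl j
    have h2 := hl (rt i)
    have h3 := hrt i
    rcases hB.disj j (rt i) hne with h | h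
    · linarith
    · linarith
  have hJi : ∀ i, C * (n + w.norm + 1) * l i ≤ 1 → JM r CJ n f (p i) (l i) (J i) := fun i h =>
    hJ1 i (hsm CJ (n + 1) i (by linarith) hCJC' (by linarith) hnN h)
  have hJr : ∀ i, C * (n + w.norm + 1) * l i ≤ 1 → JM r CJ n f (p (rt i)) (l (rt i)) (J (rt i)) := by
    intro i h
    apply hJ1 (rt i)
    have h1 := hsm (2 * CJ) (n + 1) i (by linarith) hCJC (by linarith) hnN h
    calc CJ * (n + 1) * l (rt i) ≤ CJ * (n + 1) * (2 * l i) :=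
          mul_le_mul_of_nonneg_left (hrl i) (mul_nonneg (by linarith) (by linarith))
      _ = 2 * CJ * (n + 1) * l i := by ring
      _ ≤ 1 := h1
  -- the maps `G`
  have hG : ∀ i, ∃ G : Pm, (C * (n + w.norm + 1) * l i ≤ 1 →
      CutM r CG n f (p i) (l i) (J i) (J (rt i)) G) ∧
      (¬ C * (n + w.norm + 1) * l i ≤ 1 → G = 1) := by
    intro i
    by_cases h : C * (n + w.norm + 1) * l i ≤ 1
    · obtain ⟨G, hG⟩ := hCM φ f ι p l col i (rt i) n (J i) (J (rt i)) hφ hf hB (hrt i)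
        (hsm CG (n + 1) i (by linarith) hCGC (by linarith) hnN h) (hJi i h) (hJr i h)
      exact ⟨G, fun _ => hG, fun h' => absurd h h'⟩
    · exact ⟨1, fun h' => absurd h' h, fun _ => rfl⟩
  choose G hG1 hG2 using hG
  have hfm : StrictMono f := strictMono_of_deriv_pos (HF.gd hφ hf).pos
  -- the end maps
  have hE : ∀ i, ∃ E₁ E₂ : Pm, (Good r φ (p i + l i / 2) → C * (n + w.norm + 1) * l i ≤ 1 →
      G i = E₁ * E₂ * FreeGroup.lift (L i) w) ∧
      (¬ Good r φ (p i + l i / 2) → E₁ = 1 ∧ E₂ = 1) ∧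
      Supp E₁ (Icc (p i) (p i + 10 * l i ^ (r + 1))) ∧
      Supp E₂ (Icc (p i + l i - 10 * l i ^ (r + 1)) (p i + l i)) ∧
      Nl (r + 3) (CE * (n + w.norm + 1) * l i ^ Er r) (l i ^ (r + 1)) (disp E₁) ∧
      Nl (r + 3) (CE * (n + w.norm + 1) * l i ^ Er r) (l i ^ (r + 1)) (disp E₂) := by
    intro i
    have hA0 : 0 ≤ CE * (n + w.norm + 1) * l i ^ Er r :=
      mul_nonneg (mul_nonneg (by linarith) (by linarith)) (hE0 i)
    by_cases h : Good r φ (p i + l i / 2) ∧ C * (n + w.norm + 1) * l i ≤ 1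
    · obtain ⟨hg, h⟩ := h
      have hs : C₁ * Real.sqrt (l i) ≤ 1 := by
        have h1 := hsm (C₁ ^ 2) 1 i hC1sq hC1C zero_le_one hN1 h
        rw [mul_one] at h1
        have h2 : C₁ * Real.sqrt (l i) = Real.sqrt (C₁ ^ 2 * l i) := by
          rw [Real.sqrt_mul hC1sq, Real.sqrt_sq (by linarith)]
        rw [h2]
        exact Real.sqrt_le_one.2 h1
      obtain ⟨hL1, hL2⟩ := hL i hg hs
      have hL1' : LetM r C₂ (p i) (l i) (L i) := by
        have hm : C₁ * l i ^ Er r ≤ C₂ * l i ^ Er r :=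
          mul_le_mul_of_nonneg_right (by linarith) (hE0 i)
        have hm0 : 0 ≤ C₁ * l i ^ Er r := mul_nonneg (by linarith) (hE0 i)
        exact ⟨hL1.supp, fun j => (hL1.nl j).mono le_rfl hm0 hm (hlr i) le_rfl,
          fun j => (hL1.nli j).mono le_rfl hm0 hm (hlr i) le_rfl, hL1.mono⟩
      have hL2' : Core r C₂ f (p i) (l i) (L i) := by
        intro n' w' hU' h' x hx
        apply hL2 n' w' hU' _ x hx
        have hn' : (0 : ℝ) ≤ n' := Nat.cast_nonneg _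
        have hw' : (0 : ℝ) ≤ w'.norm := Nat.cast_nonneg _
        refine le_trans ?_ h'
        apply mul_le_mul_of_nonneg_right _ (hl i).le
        exact mul_le_mul_of_nonneg_right (by linarith) (by linarith)
      have hG1' : CutM r C₂ n f (p i) (l i) (J i) (J (rt i)) (G i) := by
        have h3 := hG1 i h
        have hm0 : 0 ≤ CG * (n + 1) * l i ^ Qr r :=
          mul_nonneg (mul_nonneg (by linarith) (by linarith)) (hQ0 i)
        have hm : CG * (n + 1) * l i ^ Qr r ≤ C₂ * (n + 1) * l i ^ Qr r :=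
          mul_le_mul_of_nonneg_right (mul_le_mul_of_nonneg_right (by linarith) (by linarith)) (hQ0 i)
        exact ⟨h3.supp, h3.nl.mono le_rfl hm0 hm (hlr i) le_rfl, h3.mono, h3.eq, h3.core⟩
      obtain ⟨F, hF, _, _, hFe⟩ := hLI φ f ι p l col i n hφ hf hB
        (hsm CI (n + 1) i (by linarith) hCIC (by linarith) hnN h)
      have hd : ∀ x ∈ Icc (p i) (p i + l i), |(f ^ n) x - x| ≤ C₂ * (n + 1) * l i ^ Qr r := by
        intro x hx
        have h1 : |x - (p i + l i / 2)| ≤ 9 * l i := by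
          have := hl i
          rw [abs_le]
          constructor <;> linarith [hx.1, hx.2]
        have h2 := hF.bound 0 (Nat.zero_le _) x
        rw [iteratedDeriv_zero, pow_zero, div_one] at h2
        unfold disp at h2
        rw [hFe x h1] at h2
        refine h2.trans ?_
        exact mul_le_mul_of_nonneg_right (mul_le_mul_of_nonneg_right (by linarith) (by linarith))
          (hQ0 i)
      obtain ⟨E₁, E₂, hs1, hs2, hn1, hn2, he⟩ := hEn n w f (p i) (l i) (J i) (J (rt i)) (G i) (L i)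
        (hl i) (hsm CE _ i (by linarith) hCEC (by linarith) le_rfl h) hU hfm hd hG1' hL1' hL2'
      exact ⟨E₁, E₂, fun _ _ => he, fun h' => absurd hg h', hs1, hs2, hn1, hn2⟩
    · refine ⟨1, 1, fun h1 h2 => absurd ⟨h1, h2⟩ h, fun _ => ⟨rfl, rfl⟩, fun _ _ => rfl,
        fun _ _ => rfl, g4_nl_one _ hA0 (hlr i), g4_nl_one _ hA0 (hlr i)⟩
  choose E₁ E₂ hE1 hE2 hE3 hE4 hE5 hE6 using hE
  have hc0 : ∀ i, 0 ≤ CE * (n + w.norm + 1) * l i ^ Er r ∧
      CE * (n + w.norm + 1) * l i ^ Er r ≤ C * (n + w.norm + 1) * l i ^ Er r := fun i =>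
    g4_const (by linarith) hCEC (by linarith) le_rfl (hE0 i) le_rfl
  refine ⟨J, G, E₁, E₂, ?_, ?_, ?_, ?_, hE3, hE4, ?_, ?_, ?_, hE1, hE2⟩
  · intro i
    by_cases h : CJ * (n + 1) * l i ≤ 1
    · exact (hJ1 i h).supp
    · rw [hJ2 i h]
      exact fun _ _ => rfl
  · intro i
    have hc := g4_const (by linarith : 0 ≤ CJ) hCJC' (by linarith) hnN (hQ0 i) (hQE i)
    by_cases h : CJ * (n + 1) * l i ≤ 1
    · exact (hJ1 i h).nl.mono le_rfl hc.1 hc.2 (hlr i) le_rfl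
    · rw [hJ2 i h]
      exact g4_nl_one _ (hc.1.trans hc.2) (hlr i)
  · intro i
    by_cases h : C * (n + w.norm + 1) * l i ≤ 1
    · exact (hG1 i h).supp
    · rw [hG2 i h]
      exact fun _ _ => rfl
  · intro i
    have hc := g4_const (by linarith : 0 ≤ CG) hCGC (by linarith) hnN (hQ0 i) le_rfl
    by_cases h : C * (n + w.norm + 1) * l i ≤ 1
    · exact (hG1 i h).nl.mono le_rfl hc.1 hc.2 (hlr i) le_rfl
    · rw [hG2 i h]
      exact g4_nl_one _ (hc.1.trans hc.2) (hlr i)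
  · intro i
    exact (hE5 i).mono le_rfl (hc0 i).1 (hc0 i).2 (hlr i) le_rfl
  · intro i
    exact (hE6 i).mono le_rfl (hc0 i).1 (hc0 i).2 (hlr i) le_rfl
  · intro i j hj h x hx
    rw [huniq i j hj]
    exact (hG1 i h).eq x hx

end FG40
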