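import Pool.Agent.LibFG40.A3
import Pool.Agent.LibFG40.D9
import Pool.Agent.LibFG40.G4
import Pool.Agent.LibGC45.B4a

/-! # G5: the identity near `0`.

Plan. `z i = (l i)^(r+1)`, `q i = p i + l i`. Choose `δ > 0` with `C (n + norm + 1) δ² ≤ 1`; let `|x| < δ`. If `rho x = 0` (in
particular if `x ≤ 0`): `f x = x` (`phi_zero_of_rho`), and `x` is in none of the sets (in the 20-fold enlargement of
a block `rho > 0` by `BS.lo`), so all maps fix `x` (`GC45.b4a_lift_fix` or induction for `lift T w`). If `rho x > 0`: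
`x ∈ [p i, q i)` (`BS.cover`), `l i ≤ x²` (`BS.small`), so `eq`, `good` apply to `i` and its right neighbour `j`. On `[p i,
q i)` `lift T w` is `lift (L i) w` (`GC45.lift_patch`, `GC45.lift_supp`: it preserves the block).
Good `i`: `y = lift (L i) w x`, `E2k y = E₂ i y` (the only set `[q m - 10 z m, q m + 10 z m]` which meets `[p i, q i)` and
carries a map that moves points of it is `m = i`: for another `m`, `E₂ m` is supported in `[q m - 10 z, q m]`, i.e. in
the block `m`, so it fixes the points of `[p i, q i)`, except possibly the common end point, which is fixed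
too), `E1k` the same, `Bk` = identity there (`i` is not bad), so we are at `G i x`. Bad `i`: `lift (L i) w = 1`, `E₁ = E₂ =
1`, `Bk x = G i x`. `G i x ∈ [p i, q i)`. `Jk` on `[p i, q i)` is `J i ∘ J j`: near `p i` it is `J i`, near `q i` it is `J j`
(supports of radius `(l/4)^(r+1)`, disjoint), elsewhere the identity, the other `J m` fix the points of
the block. Then `eq`. -/

open Filter Topology Set

namespace FG40

open GD31

private theorem g5_num {r : ℕ} (hr : 1 ≤ r) {l : ℝ} (hl : 0 < l) (ht : l ≤ (1 / 10) ^ 20) :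
    0 < l ^ (r + 1) ∧ 1000 * l ^ (r + 1) ≤ l ∧ (l / 4) ^ (r + 1) ≤ l ^ (r + 1) ∧
      0 < (l / 4) ^ (r + 1) ∧ 0 < (l / 16) ^ (r + 1) ∧ (l / 16) ^ (r + 1) ≤ l ^ (r + 1) := by
  have hl1 : l ≤ 1 := ht.trans (by norm_num)
  have h1 : l ^ r ≤ l := pow_le_of_le_one hl.le hl1 (by omega)
  have h2 : 1000 * l ^ r ≤ 1 := by
    have h3 : l ≤ 1 / 1000 := ht.trans (by norm_num)
    linarith
  refine ⟨by positivity, ?_, pow_le_pow_left₀ (by positivity) (by linarith) _, by positivity,
    by positivity, pow_le_pow_left₀ (by positivity) (by linarith) _⟩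
  rw [pow_succ, ← mul_assoc]
  calc 1000 * l ^ r * l ≤ 1 * l := mul_le_mul_of_nonneg_right h2 hl.le
    _ = l := one_mul l

private theorem g5_end {F : Pm} {a q : ℝ} (hs : Supp F (Icc a q)) (hc : Continuous (disp F)) :
    F q = q := by
  have h1 : IsClosed {x | disp F x = 0} := isClosed_eq hc continuous_const
  have h2 : Ioi q ⊆ {x | disp F x = 0} := fun x hx => by
    show F x - x = 0
    rw [hs x (fun h => (not_le.mpr hx) h.2), sub_self]
  have h4 : closure (Ioi q) ⊆ {x | disp F x = 0} := closure_minimal h2 h1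
  rw [closure_Ioi] at h4
  have h5 : F q - q = 0 := h4 (show q ≤ q from le_rfl)
  linarith

private theorem g5_glue {ι : Type} {p l : ι → ℝ}
    (hdisj : ∀ i j, i ≠ j → p i + l i ≤ p j ∨ p j + l j ≤ p i) {V : ι → Set ℝ} {F : ι → Pm} {H : Pm}
    (hG : IsGlue V F H) (hV : ∀ m, Supp (F m) (V m)) (hs : ∀ m, Supp (F m) (Icc (p m) (p m + l m)))
    (hq : ∀ m, F m (p m + l m) = p m + l m) (i : ι) {y : ℝ} (hy : y ∈ Ico (p i) (p i + l i)) :
    H y = F i y := by
  by_cases h : y ∈ V i
  · exact hG.on i y h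
  · rw [hV i y h]
    by_cases h2 : ∃ m, y ∈ V m
    · obtain ⟨m, hm⟩ := h2
      rw [hG.on m y hm]
      have hmi : m ≠ i := fun e => h (e ▸ hm)
      rcases hdisj m i hmi with h3 | h3
      · rcases eq_or_lt_of_le (h3.trans hy.1) with h4 | h4
        · rw [← h4]; exact hq m
        · exact hs m y (fun h5 => absurd h5.2 (not_le.mpr h4))
      · exact hs m y (fun h5 => absurd (h3.trans h5.1) (not_le.mpr hy.2))
    · exact hG.off y (fun m hm => h2 ⟨m, hm⟩)

private theorem g5_maps {F : Pm} {p q : ℝ} (hs : Supp F (Icc p q)) (hq : F q = q) {y : ℝ}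
    (hy : y ∈ Ico p q) : F y ∈ Ico p q := by
  have h1 := ch1_maps hs (Ico_subset_Icc_self hy)
  refine ⟨h1.1, lt_of_le_of_ne h1.2 (fun h => ?_)⟩
  have h2 : F y = F q := by rw [hq]; exact h
  exact absurd (F.injective h2) (ne_of_lt hy.2)

private theorem g5_mono {F : Pm} {A B : Set ℝ} (h : Supp F A) (hAB : A ⊆ B) : Supp F B :=
  fun x hx => h x (fun h' => hx (hAB h'))

/-- the junction maps near one block -/
private theorem g5_junction {r : ℕ} (hr : 1 ≤ r) {ρ : ℝ → ℝ} {ι : Type} {p l : ι → ℝ}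
    {col : ι → Fin 16} (hB : BS ρ ι p l col) {J : ι → Pm} {Jk : Pm}
    (hs : ∀ i, Supp (J i) (Icc (p i - (l i / 4) ^ (r + 1)) (p i + (l i / 4) ^ (r + 1))))
    (hJ : IsGlue (fun i => Icc (p i - 10 * l i ^ (r + 1)) (p i + 10 * l i ^ (r + 1))) J Jk)
    {i j : ι} (hj : p j = p i + l i) {t : ℝ} (ht : t ∈ Ico (p i) (p i + l i)) :
    J i (J j t) = Jk t := by
  have hnum := fun i => g5_num hr (hB.pos i) (hB.tiny i)
  obtain ⟨hzi, hzi2, hri, hri0, _, _⟩ := hnum i
  obtain ⟨hzj, hzj2, hrj, hrj0, _, _⟩ := hnum j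
  have hli := hB.pos i
  have hlj := hB.pos j
  have hji : l j ≤ 2 * l i := by
    refine hB.ratio j i (p j) ?_ ?_
    · rw [abs_le]; constructor <;> linarith
    · rw [abs_le, hj]; constructor <;> linarith
  by_cases ha : t ∈ Icc (p i - 10 * l i ^ (r + 1)) (p i + 10 * l i ^ (r + 1))
  · rw [hJ.on i t ha, hs j t]
    intro h
    have h1 := h.1
    have h2 := ha.2
    linarith
  · by_cases hb : t ∈ Icc (p j - 10 * l j ^ (r + 1)) (p j + 10 * l j ^ (r + 1))
    · rw [hJ.on j t hb]
      apply hs i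
      intro h
      by_cases hc : t ∈ Icc (p j - (l j / 4) ^ (r + 1)) (p j + (l j / 4) ^ (r + 1))
      · have h1 := (ch1_maps (hs j) hc).1
        have h2 := h.2
        linarith
      · rw [hs j t hc] at h
        apply ha
        constructor
        · linarith [h.1]
        · linarith [h.2]
    · have e1 : J j t = t := by
        apply hs j
        intro h
        apply hb
        constructor
        · linarith [h.1]
        · linarith [h.2]
      have e2 : J i t = t := by
        apply hs i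
        intro h
        apply ha
        constructor
        · linarith [h.1]
        · linarith [h.2]
      rw [e1, e2]
      symm
      by_cases hm : ∃ m, t ∈ Icc (p m - 10 * l m ^ (r + 1)) (p m + 10 * l m ^ (r + 1))
      · obtain ⟨m, hm⟩ := hm
        have hmi : m ≠ i := fun e => ha (e ▸ hm)
        have hmj : m ≠ j := fun e => hb (e ▸ hm)
        obtain ⟨hzm, hzm2, hrm, hrm0, _, _⟩ := hnum m
        have hlm := hB.pos m
        rw [hJ.on m t hm]
        apply hs m
        intro h
        rcases hB.disj m i hmi with h3 | h3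
        · have h4 := h.2
          have h5 := ht.1
          linarith
        · rcases hB.disj j m (Ne.symm hmj) with h4 | h4
          · have h6 := h.1
            have h7 := ht.2
            have h5 : l m ≤ 2 * l j := by
              refine hB.ratio m j (p j) ?_ ?_
              · rw [abs_le]; constructor <;> linarith
              · rw [abs_le]; constructor <;> linarith
            linarith
          · linarith
      · exact hJ.off t (fun m hm' => hm ⟨m, hm'⟩)

theorem germ_identity {r : ℕ} (hr : 1 ≤ r) {C : ℝ} (hC : 1 ≤ C) {n : ℕ} {w : FreeGroup (Fin 3)} {f : Pm}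
    {φ : ℝ → ℝ} {ι : Type} {p l : ι → ℝ} {col : ι → Fin 16} {L : ι → Fin 3 → Pm} {J G E₁ E₂ : ι → Pm}
    (hφ : HF r φ) (hf : ∀ x, f x = x + φ x) (hB : BS (rho r φ) ι p l col)
    (hLD : LD r C n w f φ p l L J G E₁ E₂) {T : Fin 3 → Pm}
    (hT : ∀ j, IsGlue (fun i => Ico (p i) (p i + l i)) (fun i => L i j) (T j))
    (hL : ∀ i j, Supp (L i j) (Icc (p i + l i ^ (r + 1) / 2) (p i + l i - l i ^ (r + 1) / 2)))
    (hL1 : ∀ i, ¬ Good r φ (p i + l i / 2) → ∀ j, L i j = 1)
    {B : ι → Pm} (hBad : ∀ i, Bad r φ (p i + l i / 2) → B i = G i)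
    (hNot : ∀ i, ¬ Bad r φ (p i + l i / 2) → B i = 1) {Jk Bk E1k E2k : Pm}
    (hJ : IsGlue (fun i => Icc (p i - 10 * l i ^ (r + 1)) (p i + 10 * l i ^ (r + 1))) J Jk)
    (hBk : IsGlue (fun i => Ico (p i) (p i + l i)) B Bk)
    (h1 : IsGlue (fun i => Icc (p i - 10 * l i ^ (r + 1)) (p i + 10 * l i ^ (r + 1))) E₁ E1k)
    (h2 : IsGlue (fun i => Icc (p i + l i - 10 * l i ^ (r + 1)) (p i + l i + 10 * l i ^ (r + 1))) E₂ E2k) :
    ∀ᶠ x in 𝓝 (0 : ℝ), (f ^ n) x = (Jk * Bk * E1k * E2k * FreeGroup.lift T w : Pm) x := by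
  have hnum := fun i => g5_num hr (hB.pos i) (hB.tiny i)
  have hrho : ∀ i x, |x - (p i + l i / 2)| ≤ 20 * l i → 0 < rho r φ x := by
    intro i x hx
    have h1 := hB.lo i x hx
    have h2 := hB.pos i
    rcases eq_or_lt_of_le (rho_nonneg r φ x) with h5 | h5
    · rw [← h5] at h1
      norm_num at h1
      linarith
    · exact h5
  have hn0 : (0 : ℝ) ≤ n := Nat.cast_nonneg n
  have hw0 : (0 : ℝ) ≤ w.norm := Nat.cast_nonneg _
  have hK1 : 1 ≤ C * (n + w.norm + 1) := by nlinarith
  have hK0 : 0 < C * (n + w.norm + 1) := by linarith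
  have hQ : ∀ i j x, x ∉ Ico (p i) (p i + l i) → L i j x = x := by
    intro i j x hx
    apply hL i j
    intro h
    obtain ⟨hz, hz2, _⟩ := hnum i
    apply hx
    constructor
    · linarith [h.1]
    · linarith [h.2]
  filter_upwards [Metric.ball_mem_nhds (0 : ℝ) (inv_pos.mpr hK0)] with x hx
  rw [Metric.mem_ball, Real.dist_eq, sub_zero] at hx
  show (f ^ n) x = Jk (Bk (E1k (E2k (FreeGroup.lift T w x))))
  rcases eq_or_lt_of_le (rho_nonneg r φ x) with h0 | h0
  · -- `rho x = 0`
    have hfx : f x = x := by rw [hf, phi_zero_of_rho h0.symm, add_zero]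
    have hfn : (f ^ n) x = x := Equiv.Perm.pow_apply_eq_self_of_apply_eq_self hfx n
    have hno : ∀ i, ¬ |x - (p i + l i / 2)| ≤ 20 * l i := by
      intro i hi
      have := hrho i x hi
      rw [← h0] at this
      exact lt_irrefl _ this
    have hno1 : ∀ i, x ∉ Ico (p i) (p i + l i) := by
      intro i hi
      have h1 := hB.pos i
      apply hno i
      rw [abs_le]
      constructor
      · linarith [hi.1]
      · linarith [hi.2]
    have hno2 : ∀ i, x ∉ Icc (p i - 10 * l i ^ (r + 1)) (p i + 10 * l i ^ (r + 1)) := by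
      intro i hi
      have h1 := hB.pos i
      obtain ⟨hz, hz2, _⟩ := hnum i
      apply hno i
      rw [abs_le]
      constructor
      · linarith [hi.1]
      · linarith [hi.2]
    have hno3 : ∀ i, x ∉ Icc (p i + l i - 10 * l i ^ (r + 1)) (p i + l i + 10 * l i ^ (r + 1)) := by
      intro i hi
      have h1 := hB.pos i
      obtain ⟨hz, hz2, _⟩ := hnum i
      apply hno i
      rw [abs_le]
      constructor
      · linarith [hi.1]
      · linarith [hi.2]
    have hlift : FreeGroup.lift T w x = x := by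
      refine GC45.b4a_lift_fix {x | ∃ i, x ∈ Ico (p i) (p i + l i)} T ?_ w x ?_
      · intro a y hy
        exact (hT a).off y (fun i hi => hy ⟨i, hi⟩)
      · rintro ⟨i, hi⟩
        exact hno1 i hi
    rw [hlift, h2.off x hno3, h1.off x hno2, hBk.off x hno1, hJ.off x hno2, hfn]
  · -- `rho x > 0`
    obtain ⟨i, hi⟩ := hB.cover x h0
    obtain ⟨j, hj⟩ := hB.right i
    have hx2 : l i ≤ x ^ 2 := hB.small i x (Ico_subset_Icc_self hi)
    have hKl : C * (n + w.norm + 1) * l i ≤ 1 := by
      have h3 : x ^ 2 ≤ (C * (n + w.norm + 1))⁻¹ ^ 2 := by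
        rw [← sq_abs x]
        exact pow_le_pow_left₀ (abs_nonneg x) hx.le 2
      have h4 : (C * (n + w.norm + 1))⁻¹ ≤ 1 := inv_le_one_of_one_le₀ hK1
      calc C * (n + w.norm + 1) * l i
          ≤ C * (n + w.norm + 1) * (C * (n + w.norm + 1))⁻¹ ^ 2 :=
            mul_le_mul_of_nonneg_left (hx2.trans h3) hK0.le
        _ = (C * (n + w.norm + 1))⁻¹ := by
            rw [pow_two, ← mul_assoc, mul_inv_cancel₀ hK0.ne', one_mul]
        _ ≤ 1 := h4
    have heq := hLD.eq i j hj hKl x (Ico_subset_Icc_self hi)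
    rw [← heq]
    have hlift : FreeGroup.lift T w x = FreeGroup.lift (L i) w x :=
      GC45.lift_patch (fun i => Ico (p i) (p i + l i)) T L hQ (fun a i x hx => (hT a).on i x hx)
        w i hi
    have hy : FreeGroup.lift (L i) w x ∈ Ico (p i) (p i + l i) :=
      ((GC45.lift_supp (Ico (p i) (p i + l i)) (L i) (hQ i) w).2 x).mp hi
    have g2 : ∀ {y : ℝ}, y ∈ Ico (p i) (p i + l i) → E2k y = E₂ i y := by
      intro y hy
      refine g5_glue hB.disj h2 ?_ ?_ ?_ i hy
      · intro m
        refine g5_mono (hLD.supp₂ m) ?_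
        obtain ⟨hz, hz2, _⟩ := hnum m
        exact Icc_subset_Icc le_rfl (by linarith)
      · intro m
        refine g5_mono (hLD.supp₂ m) ?_
        obtain ⟨hz, hz2, _⟩ := hnum m
        exact Icc_subset_Icc (by linarith) le_rfl
      · intro m
        exact g5_end (hLD.supp₂ m) (hLD.nl₂ m).smooth.continuous
    have hE1q : ∀ m, E₁ m (p m + l m) = p m + l m := by
      intro m
      apply hLD.supp₁ m
      intro h
      obtain ⟨hz, hz2, _⟩ := hnum m
      linarith [h.2]
    have hE1s : ∀ m, Supp (E₁ m) (Icc (p m) (p m + l m)) := by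
      intro m
      refine g5_mono (hLD.supp₁ m) ?_
      obtain ⟨hz, hz2, _⟩ := hnum m
      exact Icc_subset_Icc le_rfl (by linarith)
    have g1 : ∀ {y : ℝ}, y ∈ Ico (p i) (p i + l i) → E1k y = E₁ i y := by
      intro y hy
      refine g5_glue hB.disj h1 ?_ hE1s hE1q i hy
      intro m
      refine g5_mono (hLD.supp₁ m) ?_
      obtain ⟨hz, hz2, _⟩ := hnum m
      exact Icc_subset_Icc (by linarith) le_rfl
    have m2 : ∀ {y : ℝ}, y ∈ Ico (p i) (p i + l i) → E₂ i y ∈ Ico (p i) (p i + l i) := by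
      intro y hy
      refine g5_maps (g5_mono (hLD.supp₂ i) ?_)
        (g5_end (hLD.supp₂ i) (hLD.nl₂ i).smooth.continuous) hy
      obtain ⟨hz, hz2, _⟩ := hnum i
      exact Icc_subset_Icc (by linarith) le_rfl
    have m1 : ∀ {y : ℝ}, y ∈ Ico (p i) (p i + l i) → E₁ i y ∈ Ico (p i) (p i + l i) := by
      intro y hy
      exact g5_maps (hE1s i) (hE1q i) hy
    have hcen : 0 < rho r φ (p i + l i / 2) := by
      apply hrho i
      rw [sub_self, abs_zero]
      linarith [hB.pos i]
    have hmid : Bk (E1k (E2k (FreeGroup.lift T w x))) = G i x := by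
      rcases good_or_bad r φ (p i + l i / 2) hcen with hg | hb
      · have hnb : ¬ Bad r φ (p i + l i / 2) := fun hb => absurd hg.2 (ne_of_lt hb.2)
        rw [hlift, g2 hy, g1 (m2 hy), hBk.on i _ (m1 (m2 hy)), hNot i hnb, hLD.good i hg hKl]
        rfl
      · have hng : ¬ Good r φ (p i + l i / 2) := fun hg => absurd hg.2 (ne_of_lt hb.2)
        obtain ⟨e1, e2⟩ := hLD.notgood i hng
        have hfix : FreeGroup.lift (L i) w x = x := by
          refine GC45.b4a_lift_fix ∅ (L i) ?_ w x (Set.notMem_empty x)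
          intro a y _
          rw [hL1 i hng a]
          rfl
        rw [hlift, hfix, g2 hi, e2, Equiv.Perm.one_apply, g1 hi, e1, Equiv.Perm.one_apply,
          hBk.on i x hi, hBad i hb]
    rw [hmid]
    have htG : G i x ∈ Ico (p i) (p i + l i) := by
      obtain ⟨hz, hz2, _, _, hs0, hs1⟩ := hnum i
      by_cases h3 : x ∈ Icc (p i + (l i / 16) ^ (r + 1)) (p i + l i - (l i / 16) ^ (r + 1))
      · have h4 := ch1_maps (hLD.suppG i) h3
        constructor
        · linarith [h4.1]
        · linarith [h4.2]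
      · rw [hLD.suppG i x h3]
        exact hi
    exact g5_junction hr hB hLD.suppJ hJ hj htG

end FG40
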