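import Pool.Agent.LibFG40.B5
import Pool.Agent.LibFG40.D9
import Pool.Agent.LibFG40.E7
import Pool.Agent.LibFG40.G1
import Pool.Agent.LibFG40.G2
import Pool.Agent.LibFG40.G3
import Pool.Agent.LibFG40.G5

/-! # G6: the one-sided theorem.

Plan. Blocks: `exists_blocks (HF.sc hφ)`. `universal_words'`: `n, w`. `global_letters`: `C₁, T, L`. `exists_LD` with `C₁`, for
each `k` with `n k`, `w k`: choose `J G E₁ E₂ : ℕ → ι → Pm`. `B k i = if Bad .. then G k i else 1` (classical).
`Jk, Bk, E1k, E2k` by `exists_glue` (disjointness: `BS.disj`, `ends_disj` and `10 z ≤ l / 100` (`BS.tiny`)).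
`Rep r`: `end_storage` for `J` (`e = p`; `Supp.mono`, `(l/4)^(r+1) ≤ 10 z`), for `E₁` (`e = p`), for `E₂` (`e = p + l`), constants
`c k = C (n k + norm + 1)`; `bad_storage` for `B`; `Rep.mul` three times. `germ_identity`; `distortion_of_rep` with
`HF.gd`. -/

open Filter Topology Set

namespace FG40

open GD31 GermDist46

private theorem g6_supp_mono {F : Pm} {U V : Set ℝ} (h : Supp F U) (hUV : U ⊆ V) : Supp F V :=
  fun x hx => h x fun h1 => hx (hUV h1)

private theorem g6_supp_one (U : Set ℝ) : Supp (1 : Pm) U := fun _ _ => rfl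

private theorem g6_disp_one : disp (1 : Pm) = fun _ => (0 : ℝ) := by
  funext x
  unfold disp
  rw [Equiv.Perm.one_apply, sub_self]

private theorem g6_nl_one (k : ℕ) {A l : ℝ} (hA : 0 ≤ A) (hl : 0 < l) : Nl k A l (disp (1 : Pm)) := by
  rw [g6_disp_one]
  refine ⟨contDiff_const, ?_⟩
  intro i _ x
  rw [iteratedDeriv_const]
  split_ifs
  · rw [abs_zero]
    positivity
  · rw [abs_zero]
    positivity

theorem one_sided (r : ℕ) (hr : 1 ≤ r) (hc : ChainHyp r) (φ : ℝ → ℝ) (hφ : HF r φ) (f : Pm)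
    (hf : ∀ x, f x = x + φ x) (g : GermGroup r) (hg : Represents g f) : IsDistortionElement g := by
  classical
  obtain ⟨ι, _, p, l, col, hB⟩ := exists_blocks (HF.sc hφ)
  obtain ⟨n, w, hnw, hU⟩ := universal_words'
  obtain ⟨C₁, hC₁, hgl⟩ := global_letters r hr
  obtain ⟨T, L, hT, hTg, hLs, hLM, hL1⟩ := hgl φ f ι p l col hφ hf hB
  obtain ⟨C, hC, hLD⟩ := exists_LD r hr C₁ hC₁
  have hex : ∀ k, ∃ J G E₁ E₂ : ι → Pm, LD r C (n k) (w k) f φ p l L J G E₁ E₂ :=
    fun k => hLD φ f ι p l col (n k) (w k) L hφ hf hB (hU k) hLM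
  choose J G E₁ E₂ hD using hex
  have hl0 : ∀ i, 0 < l i := hB.pos
  have hl1 : ∀ i, l i ≤ 1 := fun i => (hB.tiny i).trans (by norm_num)
  have hz0 : ∀ i, 0 < l i ^ (r + 1) := fun i => pow_pos (hl0 i) _
  have hz : ∀ i, 10 * l i ^ (r + 1) ≤ l i / 100 := by
    intro i
    have h1 : l i ^ (r + 1) ≤ l i ^ 2 := pow_le_pow_of_le_one (hl0 i).le (hl1 i) (by omega)
    have h2 : l i ^ 2 ≤ l i * (1 / 10) ^ 20 := by
      rw [pow_two]
      exact mul_le_mul_of_nonneg_left (hB.tiny i) (hl0 i).le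
    have h3 := hl0 i
    have h4 : l i * (1 / 10) ^ 20 ≤ l i / 1000 := by
      have : ((1 : ℝ) / 10) ^ 20 ≤ 1 / 1000 := by norm_num
      nlinarith
    linarith
  have hz4 : ∀ i, (l i / 4) ^ (r + 1) ≤ 10 * l i ^ (r + 1) := by
    intro i
    have h1 : (l i / 4) ^ (r + 1) ≤ l i ^ (r + 1) :=
      pow_le_pow_left₀ (by have := hl0 i; positivity) (by have := hl0 i; linarith) _
    have h2 := hz0 i
    linarith
  have hdp : Pairwise fun i j => Disjoint (Icc (p i - 10 * l i ^ (r + 1)) (p i + 10 * l i ^ (r + 1)))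
      (Icc (p j - 10 * l j ^ (r + 1)) (p j + 10 * l j ^ (r + 1))) := by
    intro i j hij
    refine (ends_disj hr hB p (Or.inl fun _ => rfl) hij).mono ?_ ?_
    · exact Icc_subset_Icc (by have := hz i; linarith) (by have := hz i; linarith)
    · exact Icc_subset_Icc (by have := hz j; linarith) (by have := hz j; linarith)
  have hdq : Pairwise fun i j =>
      Disjoint (Icc (p i + l i - 10 * l i ^ (r + 1)) (p i + l i + 10 * l i ^ (r + 1)))
      (Icc (p j + l j - 10 * l j ^ (r + 1)) (p j + l j + 10 * l j ^ (r + 1))) := by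
    intro i j hij
    refine (ends_disj hr hB (fun i => p i + l i) (Or.inr fun _ => rfl) hij).mono ?_ ?_
    · exact Icc_subset_Icc (by have := hz i; linarith) (by have := hz i; linarith)
    · exact Icc_subset_Icc (by have := hz j; linarith) (by have := hz j; linarith)
  have hdB : Pairwise fun i j => Disjoint (Ico (p i) (p i + l i)) (Ico (p j) (p j + l j)) := by
    intro i j hij
    rw [Set.disjoint_left]
    intro x hx hx'
    rw [Set.mem_Ico] at hx hx'
    rcases hB.disj i j hij with h1 | h1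
    · linarith [hx.2, hx'.1]
    · linarith [hx.1, hx'.2]
  -- supports
  have hsJ : ∀ k i, Supp (J k i) (Icc (p i - 10 * l i ^ (r + 1)) (p i + 10 * l i ^ (r + 1))) := by
    intro k i
    refine g6_supp_mono ((hD k).suppJ i) (Icc_subset_Icc ?_ ?_)
    · have := hz4 i; linarith
    · have := hz4 i; linarith
  have hs1 : ∀ k i, Supp (E₁ k i) (Icc (p i - 10 * l i ^ (r + 1)) (p i + 10 * l i ^ (r + 1))) := by
    intro k i
    refine g6_supp_mono ((hD k).supp₁ i) (Icc_subset_Icc ?_ le_rfl)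
    have := hz0 i; linarith
  have hs2 : ∀ k i, Supp (E₂ k i)
      (Icc (p i + l i - 10 * l i ^ (r + 1)) (p i + l i + 10 * l i ^ (r + 1))) := by
    intro k i
    refine g6_supp_mono ((hD k).supp₂ i) (Icc_subset_Icc le_rfl ?_)
    have := hz0 i; linarith
  obtain ⟨B, hBdef⟩ : ∃ B : ℕ → ι → Pm, ∀ k i, B k i = if Bad r φ (p i + l i / 2) then G k i else 1 :=
    ⟨fun k i => if Bad r φ (p i + l i / 2) then G k i else 1, fun _ _ => rfl⟩
  have hBad : ∀ k i, Bad r φ (p i + l i / 2) → B k i = G k i := by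
    intro k i h
    rw [hBdef, if_pos h]
  have hNot : ∀ k i, ¬ Bad r φ (p i + l i / 2) → B k i = 1 := by
    intro k i h
    rw [hBdef, if_neg h]
  have hsB : ∀ k i, Supp (B k i)
      (Icc (p i + (l i / 16) ^ (r + 1)) (p i + l i - (l i / 16) ^ (r + 1))) := by
    intro k i
    by_cases h : Bad r φ (p i + l i / 2)
    · rw [hBad k i h]
      exact (hD k).suppG i
    · rw [hNot k i h]
      exact g6_supp_one _
  have hsB' : ∀ k i, Supp (B k i) (Ico (p i) (p i + l i)) := by
    intro k i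
    refine g6_supp_mono (hsB k i) ?_
    have h1 : 0 < (l i / 16) ^ (r + 1) := pow_pos (by have := hl0 i; positivity) _
    intro x hx
    rw [Set.mem_Icc] at hx
    rw [Set.mem_Ico]
    constructor
    · linarith [hx.1]
    · linarith [hx.2]
  have hc0 : ∀ k, 0 ≤ C * ((n k : ℝ) + ((w k).norm : ℝ) + 1) := by
    intro k
    have : 0 ≤ C := by linarith
    positivity
  have hnB : ∀ k i, Nl (r + 3) (C * ((n k : ℝ) + ((w k).norm : ℝ) + 1) * l i ^ Qr r) (l i ^ (r + 1))
      (disp (B k i)) := by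
    intro k i
    by_cases h : Bad r φ (p i + l i / 2)
    · rw [hBad k i h]
      exact (hD k).nlG i
    · rw [hNot k i h]
      exact g6_nl_one _ (mul_nonneg (hc0 k) (pow_nonneg (hl0 i).le _)) (hz0 i)
  have hgJ : ∀ k, ∃ H : Pm,
      IsGlue (fun i => Icc (p i - 10 * l i ^ (r + 1)) (p i + 10 * l i ^ (r + 1))) (J k) H :=
    fun k => exists_glue _ _ hdp (hsJ k)
  have hg1 : ∀ k, ∃ H : Pm,
      IsGlue (fun i => Icc (p i - 10 * l i ^ (r + 1)) (p i + 10 * l i ^ (r + 1))) (E₁ k) H :=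
    fun k => exists_glue _ _ hdp (hs1 k)
  have hg2 : ∀ k, ∃ H : Pm,
      IsGlue (fun i => Icc (p i + l i - 10 * l i ^ (r + 1)) (p i + l i + 10 * l i ^ (r + 1))) (E₂ k) H :=
    fun k => exists_glue _ _ hdq (hs2 k)
  have hgB : ∀ k, ∃ H : Pm, IsGlue (fun i => Ico (p i) (p i + l i)) (B k) H :=
    fun k => exists_glue _ _ hdB (hsB' k)
  choose Jk hJk using hgJ
  choose E1k hE1k using hg1
  choose E2k hE2k using hg2
  choose Bk hBk using hgB
  have hRJ : Rep r Jk := end_storage hr hc hB p (Or.inl fun _ => rfl) J hsJ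
    (fun k => C * ((n k : ℝ) + ((w k).norm : ℝ) + 1)) (fun k i => (hD k).nlJ i) Jk hJk
  have hR1 : Rep r E1k := end_storage hr hc hB p (Or.inl fun _ => rfl) E₁ hs1
    (fun k => C * ((n k : ℝ) + ((w k).norm : ℝ) + 1)) (fun k i => (hD k).nl₁ i) E1k hE1k
  have hR2 : Rep r E2k := end_storage hr hc hB (fun i => p i + l i) (Or.inr fun _ => rfl) E₂ hs2
    (fun k => C * ((n k : ℝ) + ((w k).norm : ℝ) + 1)) (fun k i => (hD k).nl₂ i) E2k hE2k
  have hRB : Rep r Bk := bad_storage hr hc hφ hB B hsB hNot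
    (fun k => C * ((n k : ℝ) + ((w k).norm : ℝ) + 1)) hnB Bk hBk
  have hRep : Rep r (fun k => Jk k * Bk k * E1k k * E2k k) :=
    ((hRJ.mul hr hRB).mul hr hR1).mul hr hR2
  refine distortion_of_rep hr hRep T hT n w (fun k => (hnw k).1) (fun k => (hnw k).2) f (HF.gd hφ hf) ?_ g hg
  intro k
  exact germ_identity hr hC hφ hf hB (hD k) hTg hLs hL1 (hBad k) (hNot k) (hJk k) (hBk k) (hE1k k) (hE2k k)

end FG40
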