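import Pool.Agent.LibFG40.C0a
import Pool.Agent.LibGermDist46.Defs

/-! # R0: germs of `C^r` functions as elements of `G^r` -/

open Filter Topology Set

namespace FG40

open GD31 GermDist46

/-- permutations of the line which are `C^r` diffeomorphisms near the fixed point `0` -/
def LocR (r : ℕ) : Subgroup Pm where
  carrier := {F | F 0 = 0 ∧ ContDiffAt ℝ r F 0 ∧ ContDiffAt ℝ r (F⁻¹ : Pm) 0}
  mul_mem' := by
    rintro F G ⟨hF0, hF, hF'⟩ ⟨hG0, hG, hG'⟩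
    have hFi : (F⁻¹ : Pm) 0 = 0 := by
      rw [Equiv.Perm.inv_eq_iff_eq]; exact hF0.symm
    refine ⟨by rw [Equiv.Perm.mul_apply, hG0, hF0], ?_, ?_⟩
    · have h : (⇑(F * G : Pm)) = (⇑F) ∘ (⇑G) := rfl
      rw [h]
      refine ContDiffAt.comp 0 ?_ hG
      rw [hG0]; exact hF
    · have h : (⇑((F * G)⁻¹ : Pm)) = (⇑(G⁻¹ : Pm)) ∘ (⇑(F⁻¹ : Pm)) := by
        rw [mul_inv_rev]; rfl
      rw [h]
      refine ContDiffAt.comp 0 ?_ hF'
      rw [hFi]; exact hG'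
  one_mem' := by
    refine ⟨rfl, ?_, ?_⟩
    · exact contDiffAt_id
    · rw [inv_one]; exact contDiffAt_id
  inv_mem' := by
    rintro F ⟨hF0, hF, hF'⟩
    refine ⟨?_, hF', ?_⟩
    · rw [Equiv.Perm.inv_eq_iff_eq]; exact hF0.symm
    · rw [inv_inv]; exact hF

/-- the function of an element of `LocR` -/
def r0_cr {r : ℕ} (F : LocR r) : CrFun r := ⟨⇑(F : Pm), F.2.1, F.2.2.1⟩

/-- the monoid homomorphism to germs -/
def r0_hom (r : ℕ) : LocR r →* GermMonoid r where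
  toFun F := ((r0_cr F : CrFun r) : GermMonoid r)
  map_one' := rfl
  map_mul' _ _ := rfl

theorem Gd.mem_LocR {r : ℕ} (hr : 1 ≤ r) {F : Pm} (hF : Gd r F) : F ∈ LocR r :=
  ⟨hF.left 0 le_rfl, hF.contDiff.contDiffAt, (Gd.inv hr hF).contDiff.contDiffAt⟩

/-- germs of permutations -/
theorem r0_toGerm (r : ℕ) : ∃ T : LocR r →* GermGroup r,
    (∀ F : LocR r, Represents (T F) (⇑(F : Pm))) ∧
    ∀ F G : LocR r, T F = T G ↔ (⇑(F : Pm)) =ᶠ[𝓝 0] (⇑(G : Pm)) := by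
  refine ⟨(r0_hom r).toHomUnits, fun F => ⟨r0_cr F, rfl, ?_⟩, fun F G => ?_⟩
  · rw [MonoidHom.coe_toHomUnits]; rfl
  · rw [Units.ext_iff, MonoidHom.coe_toHomUnits, MonoidHom.coe_toHomUnits]
    exact (germCon r).eq

theorem represents_unique' {r : ℕ} {f f' : ℝ → ℝ} {g g' : GermGroup r} (h : Represents g f)
    (h' : Represents g' f') (hff : f =ᶠ[𝓝 0] f') : g = g' := by
  obtain ⟨F, hF, hg⟩ := h
  obtain ⟨F', hF', hg'⟩ := h'
  refine Units.ext ?_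
  rw [← hg, ← hg', Con.eq]
  show F.toFun =ᶠ[𝓝 0] F'.toFun
  rw [hF, hF']
  exact hff

theorem represents_mul {r : ℕ} {f f' : ℝ → ℝ} {g g' : GermGroup r} (h : Represents g f)
    (h' : Represents g' f') : Represents (g * g') (f ∘ f') := by
  obtain ⟨F, hF, hg⟩ := h
  obtain ⟨F', hF', hg'⟩ := h'
  refine ⟨F * F', ?_, ?_⟩
  · rw [CrFun.mul_toFun, hF, hF']
  · rw [Units.val_mul, ← hg, ← hg']
    rfl

/-- the reflection of the line -/
noncomputable def r0_neg : Pm := Equiv.neg ℝ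

theorem r0_neg_apply (x : ℝ) : r0_neg x = -x := rfl

theorem r0_neg_inv : r0_neg⁻¹ = r0_neg := by
  rw [inv_eq_iff_mul_eq_one]
  ext x
  simp [r0_neg_apply]

theorem r0_neg_mem (r : ℕ) : r0_neg ∈ LocR r := by
  have h : ContDiffAt ℝ r (r0_neg : ℝ → ℝ) 0 := contDiff_neg.contDiffAt
  refine ⟨by simp [r0_neg_apply], h, ?_⟩
  rw [r0_neg_inv]
  exact h

end FG40
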