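import Pool.Agent.LibFG40.Defs

/-! # R1: reduction of a smooth germ which is flat at `0` to the data `HF` -/

open Filter Topology Set

namespace FG40

open GD31

theorem r1_deriv_sm {v : ℝ → ℝ} (hv : Sm v) : Sm (deriv v) :=
  (contDiff_infty_iff_deriv.1 hv).2

theorem r1_flat_bound (m : ℕ) : ∀ v : ℝ → ℝ, Sm v → (∀ k, iteratedDeriv k v 0 = 0) →
    ∃ M : ℝ, 0 ≤ M ∧ ∀ x ∈ Icc (0 : ℝ) 1, |v x| ≤ M * x ^ m := by
  induction m with
  | zero =>
    intro v hv _
    obtain ⟨C, hC⟩ := isCompact_Icc.exists_bound_of_continuousOn (s := Icc (0 : ℝ) 1)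
      (hv.continuous.continuousOn)
    refine ⟨C, (norm_nonneg _).trans (hC 0 ⟨le_rfl, zero_le_one⟩), fun x hx => ?_⟩
    rw [pow_zero, mul_one]
    exact hC x hx
  | succ m ih =>
    intro v hv h0
    obtain ⟨M, hM, hb⟩ := ih (deriv v) (r1_deriv_sm hv) (fun k => by
      rw [← iteratedDeriv_succ']; exact h0 (k + 1))
    refine ⟨M, hM, fun x hx => ?_⟩
    have hd : Differentiable ℝ v := hv.differentiable (by simp)
    have h1 := norm_image_sub_le_of_norm_deriv_le_segment' (f := v) (f' := deriv v) (a := 0) (b := x)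
      (C := M * x ^ m) (fun y _ => (hd y).hasDerivAt.hasDerivWithinAt) (fun y hy => by
        have h2 := hb y ⟨hy.1, hy.2.le.trans hx.2⟩
        have h3 : y ^ m ≤ x ^ m := pow_le_pow_left₀ hy.1 hy.2.le m
        calc ‖deriv v y‖ = |deriv v y| := rfl
          _ ≤ M * y ^ m := h2
          _ ≤ M * x ^ m := mul_le_mul_of_nonneg_left h3 hM) x ⟨hx.1, le_rfl⟩
    have h4 : v 0 = 0 := by simpa using h0 0
    rw [h4, sub_zero, sub_zero] at h1
    calc |v x| = ‖v x‖ := rfl
      _ ≤ M * x ^ m * x := h1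
      _ = M * x ^ (m + 1) := by ring

/-- the part of `v` on the right of `0` -/
noncomputable def r1_P (v : ℝ → ℝ) : ℝ → ℝ := fun x => if x ≤ 0 then 0 else v x

theorem r1_P_of_pos {v : ℝ → ℝ} {x : ℝ} (hx : 0 < x) : r1_P v x = v x := if_neg (not_le.2 hx)

theorem r1_P_of_nonpos {v : ℝ → ℝ} {x : ℝ} (hx : x ≤ 0) : r1_P v x = 0 := if_pos hx

theorem r1_P_hasDerivAt {v : ℝ → ℝ} (hv : Differentiable ℝ v) (h0 : v 0 = 0) (h1 : deriv v 0 = 0) (x : ℝ) :
    HasDerivAt (r1_P v) (r1_P (deriv v) x) x := by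
  rcases lt_trichotomy x 0 with hx | hx | hx
  · rw [r1_P_of_nonpos hx.le]
    have : r1_P v =ᶠ[𝓝 x] fun _ => (0 : ℝ) := by
      filter_upwards [gt_mem_nhds hx] with y hy
      exact r1_P_of_nonpos hy.le
    exact (hasDerivAt_const x (0 : ℝ)).congr_of_eventuallyEq this
  · subst hx
    rw [r1_P_of_nonpos le_rfl]
    have h2 : HasDerivAt v 0 0 := by
      have := (hv 0).hasDerivAt
      rwa [h1] at this
    rw [hasDerivAt_iff_isLittleO] at h2 ⊢
    refine Asymptotics.IsBigO.trans_isLittleO ?_ h2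
    refine Asymptotics.IsBigO.of_bound 1 (Eventually.of_forall fun y => ?_)
    simp only [smul_zero, sub_zero, h0, one_mul, r1_P_of_nonpos (v := v) (le_refl (0 : ℝ))]
    by_cases hy : y ≤ 0
    · rw [r1_P_of_nonpos hy, norm_zero]; exact norm_nonneg _
    · rw [r1_P_of_pos (not_le.1 hy)]
  · rw [r1_P_of_pos hx]
    have : r1_P v =ᶠ[𝓝 x] v := by
      filter_upwards [lt_mem_nhds hx] with y hy
      exact r1_P_of_pos hy
    exact (hv x).hasDerivAt.congr_of_eventuallyEq this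

theorem r1_sm_iter {v : ℝ → ℝ} (hv : Sm v) (k : ℕ) : Sm (iteratedDeriv k v) := by
  induction k with
  | zero => rw [iteratedDeriv_zero]; exact hv
  | succ k ih => rw [iteratedDeriv_succ]; exact r1_deriv_sm ih

theorem r1_P_iter {v : ℝ → ℝ} (hv : Sm v) (h0 : ∀ k, iteratedDeriv k v 0 = 0) (k : ℕ) :
    iteratedDeriv k (r1_P v) = r1_P (iteratedDeriv k v) := by
  induction k with
  | zero => rw [iteratedDeriv_zero, iteratedDeriv_zero]
  | succ k ih =>
    rw [iteratedDeriv_succ, ih]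
    funext x
    have h2 : deriv (iteratedDeriv k v) 0 = 0 := by
      rw [← iteratedDeriv_succ]; exact h0 (k + 1)
    rw [(r1_P_hasDerivAt ((r1_sm_iter hv k).differentiable (by simp)) (h0 k) h2 x).deriv,
      ← iteratedDeriv_succ]

theorem r1_P_sm {v : ℝ → ℝ} (hv : Sm v) (h0 : ∀ k, iteratedDeriv k v 0 = 0) : Sm (r1_P v) := by
  refine contDiff_of_differentiable_iteratedDeriv fun k _ => ?_
  rw [r1_P_iter hv h0 k]
  intro x
  have h2 : deriv (iteratedDeriv k v) 0 = 0 := by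
    rw [← iteratedDeriv_succ]; exact h0 (k + 1)
  exact (r1_P_hasDerivAt ((r1_sm_iter hv k).differentiable (by simp)) (h0 k) h2 x).differentiableAt

/-- a globally smooth representative of `f - id` -/
theorem r1_global {f : ℝ → ℝ} (hf : ∀ᶠ x in 𝓝 (0 : ℝ), ContDiffAt ℝ ((⊤ : ℕ∞) : WithTop ℕ∞) f x)
    (h : ∀ k, iteratedDeriv k f 0 = iteratedDeriv k (fun x : ℝ => x) 0) :
    ∃ v : ℝ → ℝ, Sm v ∧ (∀ k, iteratedDeriv k v 0 = 0) ∧ ∀ᶠ x in 𝓝 (0 : ℝ), v x = f x - x := by
  obtain ⟨δ, hδ, hball⟩ := Metric.eventually_nhds_iff.1 hf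
  let χ : ContDiffBump (0 : ℝ) := ⟨δ / 4, δ / 2, by positivity, by linarith⟩
  have hu : ∀ x, dist x 0 < δ → ContDiffAt ℝ ((⊤ : ℕ∞) : WithTop ℕ∞) (fun x => f x - x) x :=
    fun x hx => (hball hx).sub contDiffAt_id
  have hev : (fun x => χ x * (f x - x)) =ᶠ[𝓝 0] fun x => f x - x := by
    filter_upwards [χ.eventuallyEq_one] with x hx
    rw [hx, Pi.one_apply, one_mul]
  refine ⟨fun x => χ x * (f x - x), ?_, fun k => ?_, hev⟩
  · refine contDiff_iff_contDiffAt.2 fun x => ?_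
    by_cases hx : x ∈ tsupport χ
    · rw [χ.tsupport_eq, Metric.mem_closedBall] at hx
      exact (χ.contDiff.contDiffAt).mul (hu x (lt_of_le_of_lt hx (show δ / 2 < δ by linarith)))
    · rw [notMem_tsupport_iff_eventuallyEq] at hx
      have : (fun x => χ x * (f x - x)) =ᶠ[𝓝 x] fun _ => (0 : ℝ) := by
        filter_upwards [hx] with y hy
        rw [hy, Pi.zero_apply, zero_mul]
      exact contDiffAt_const.congr_of_eventuallyEq this
  · rw [hev.iteratedDeriv_eq k]
    have h1 : ContDiffAt ℝ k f 0 := (hball (by simpa using hδ)).of_le (by exact_mod_cast le_top)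
    have h2 : ContDiffAt ℝ k (fun x : ℝ => x) 0 := contDiffAt_id
    rw [iteratedDeriv_fun_sub h1 h2, h k, sub_self]

theorem r1_kr_pos (r : ℕ) : 0 < kr r := by
  have h : 0 < (Kr r : ℝ) := by
    have : 0 < Kr r := by unfold Kr; positivity
    exact_mod_cast this
  unfold kr dr
  positivity

/-- all derivatives of a bump function are bounded -/
theorem r1_bump (b : ContDiffBump (0 : ℝ)) (K : ℕ) : ∃ B : ℝ, 0 ≤ B ∧ ∀ j ≤ K, ∀ y,
    |iteratedDeriv j b y| ≤ B := by
  have hb : Sm b := b.contDiff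
  have h1 : ∀ j, ∃ C, ∀ y, ‖iteratedDeriv j b y‖ ≤ C := by
    intro j
    have h2 : HasCompactSupport (iteratedFDeriv ℝ j b) := b.hasCompactSupport.iteratedFDeriv j
    have h3 : Continuous (iteratedFDeriv ℝ j b) := hb.continuous_iteratedFDeriv (by exact_mod_cast le_top)
    obtain ⟨C, hC⟩ := h3.bounded_above_of_compact_support h2
    exact ⟨C, fun y => by rw [← norm_iteratedFDeriv_eq_norm_iteratedDeriv]; exact hC y⟩
  choose C hC using h1
  have hC0 : ∀ j, 0 ≤ C j := fun j => (norm_nonneg _).trans (hC j 0)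
  refine ⟨∑ j ∈ Finset.range (K + 1), C j, Finset.sum_nonneg fun j _ => hC0 j, fun j hj y => ?_⟩
  refine (hC j y).trans ?_
  exact Finset.single_le_sum (f := C) (fun i _ => hC0 i) (Finset.mem_range.2 (by omega))

theorem r1_main (K N : ℕ) {κ : ℝ} (hkr : 0 < κ) (f : ℝ → ℝ)
    (hf : ∀ᶠ x in 𝓝 (0 : ℝ), ContDiffAt ℝ ((⊤ : ℕ∞) : WithTop ℕ∞) f x)
    (h : ∀ k, iteratedDeriv k f 0 = iteratedDeriv k (fun x : ℝ => x) 0) :
    ∃ φ : ℝ → ℝ, Sm φ ∧ (∀ x ≤ 0, φ x = 0) ∧ (∀ x, 1 ≤ x → φ x = 0) ∧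
      (∀ i ≤ K, ∀ x ∈ Icc (0 : ℝ) 1, |iteratedDeriv i φ x| ≤ κ * x ^ N) ∧
      ∀ᶠ x in 𝓝 (0 : ℝ), 0 ≤ x → φ x = f x - x := by
  obtain ⟨v, hv, hv0, hvf⟩ := r1_global hf h
  let b : ContDiffBump (0 : ℝ) := ⟨1 / 2, 1, by norm_num, by norm_num⟩
  obtain ⟨B, hB, hbB⟩ := r1_bump b K
  have hM1 : ∀ j, ∃ M : ℝ, 0 ≤ M ∧ ∀ x ∈ Icc (0 : ℝ) 1, |iteratedDeriv j v x| ≤ M * x ^ (N + K + 1) := by
    intro j
    refine r1_flat_bound (N + K + 1) (iteratedDeriv j v) (r1_sm_iter hv j) fun k => ?_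
    have : iteratedDeriv k (iteratedDeriv j v) = iteratedDeriv (k + j) v := by
      rw [iteratedDeriv_eq_iterate, iteratedDeriv_eq_iterate, iteratedDeriv_eq_iterate,
        Function.iterate_add_apply]
    rw [this]
    exact hv0 _
  choose Mj hMj0 hMj using hM1
  set M : ℝ := ∑ j ∈ Finset.range (K + 1), Mj j with hM
  have hM0 : 0 ≤ M := Finset.sum_nonneg fun j _ => hMj0 j
  have hPb : ∀ j ≤ K, ∀ x ∈ Icc (0 : ℝ) 1, |iteratedDeriv j (r1_P v) x| ≤ M * x ^ (N + K + 1) := by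
    intro j hj x hx
    rw [r1_P_iter hv hv0 j]
    have h2 : Mj j ≤ M :=
      Finset.single_le_sum (f := Mj) (fun i _ => hMj0 i) (Finset.mem_range.2 (by omega))
    have h3 : 0 ≤ x ^ (N + K + 1) := pow_nonneg hx.1 _
    by_cases hx0 : x ≤ 0
    · rw [r1_P_of_nonpos hx0, abs_zero]
      exact mul_nonneg hM0 h3
    · rw [r1_P_of_pos (not_le.1 hx0)]
      exact (hMj j x hx).trans (mul_le_mul_of_nonneg_right h2 h3)
  set c : ℝ := 1 + 2 ^ K * B * M / κ with hc
  have hc1 : 1 ≤ c := by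
    have : 0 ≤ 2 ^ K * B * M / κ := by positivity
    linarith
  have hc0 : 0 < c := by linarith
  have hPs : Sm (r1_P v) := r1_P_sm hv hv0
  have hbs : Sm b := b.contDiff
  have hbc : Sm (fun x => b (c * x)) := hbs.comp (contDiff_const.mul contDiff_id)
  refine ⟨fun x => b (c * x) * r1_P v x, hbc.mul hPs, ?_, ?_, ?_, ?_⟩
  · intro x hx
    show b (c * x) * r1_P v x = 0
    rw [r1_P_of_nonpos hx, mul_zero]
  · intro x hx
    have : b (c * x) = 0 := by
      refine b.zero_of_le_dist ?_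
      rw [Real.dist_eq, sub_zero, abs_of_nonneg (by positivity)]
      show (1 : ℝ) ≤ c * x
      nlinarith
    show b (c * x) * r1_P v x = 0
    rw [this, zero_mul]
  · intro i hi x hx
    have hx0 : 0 ≤ x := hx.1
    have hxN : 0 ≤ x ^ N := pow_nonneg hx0 _
    by_cases hcx : 1 < c * x
    · have hz : (fun x => b (c * x) * r1_P v x) =ᶠ[𝓝 x] fun _ => (0 : ℝ) := by
        have hcc : ContinuousAt (fun y : ℝ => c * y) x := by fun_prop
        filter_upwards [hcc.eventually (lt_mem_nhds hcx)] with y hy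
        have : b (c * y) = 0 := by
          refine b.zero_of_le_dist ?_
          rw [Real.dist_eq, sub_zero]
          exact hy.le.trans (le_abs_self _)
        rw [this, zero_mul]
      rw [hz.iteratedDeriv_eq i]
      have h5 : iteratedDeriv i (fun _ : ℝ => (0 : ℝ)) x = 0 := by
        rw [iteratedDeriv_const]; split <;> rfl
      rw [h5, abs_zero]
      positivity
    · push Not at hcx
      have hi' : i ≤ K := hi
      have h1 := norm_iteratedFDeriv_mul_le hbc hPs x (n := i) (by exact_mod_cast le_top)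
      rw [norm_iteratedFDeriv_eq_norm_iteratedDeriv] at h1
      have h2 : ∀ j ∈ Finset.range (i + 1), (i.choose j : ℝ) * ‖iteratedFDeriv ℝ j (fun x => b (c * x)) x‖ *
          ‖iteratedFDeriv ℝ (i - j) (r1_P v) x‖ ≤ (i.choose j : ℝ) * ((c ^ K * B) * (M * x ^ (N + K + 1))) := by
        intro j hj
        have hj' : j ≤ i := by
          have := Finset.mem_range.1 hj; omega
        rw [mul_assoc]
        refine mul_le_mul_of_nonneg_left ?_ (by positivity)
        refine mul_le_mul ?_ ?_ (norm_nonneg _) (by positivity)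
        · rw [norm_iteratedFDeriv_eq_norm_iteratedDeriv, iteratedDeriv_comp_const_mul
            (hbs.of_le (by exact_mod_cast le_top)) c]
          rw [norm_mul, Real.norm_eq_abs, Real.norm_eq_abs, abs_of_nonneg (by positivity : 0 ≤ c ^ j)]
          refine mul_le_mul ?_ (hbB j (hj'.trans hi') _) (abs_nonneg _) (by positivity)
          exact pow_le_pow_right₀ hc1 (hj'.trans hi')
        · rw [norm_iteratedFDeriv_eq_norm_iteratedDeriv]
          exact hPb (i - j) (by omega) x hx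
      have h3 : ‖iteratedDeriv i (fun x => b (c * x) * r1_P v x) x‖ ≤
          2 ^ i * ((c ^ K * B) * (M * x ^ (N + K + 1))) := by
        refine h1.trans ((Finset.sum_le_sum h2).trans ?_)
        rw [← Finset.sum_mul]
        refine mul_le_mul_of_nonneg_right ?_ (by positivity)
        have := Nat.sum_range_choose i
        have h4 : (∑ j ∈ Finset.range (i + 1), (i.choose j : ℝ)) = 2 ^ i := by exact_mod_cast this
        rw [h4]
      have h6 : c ^ K * x ^ (K + 1) ≤ 1 / c := by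
        have h7 : (c * x) ^ (K + 1) ≤ 1 := pow_le_one₀ (by positivity) hcx
        rw [le_div_iff₀ hc0]
        calc c ^ K * x ^ (K + 1) * c = (c * x) ^ (K + 1) := by rw [mul_pow]; ring
          _ ≤ 1 := h7
      calc |iteratedDeriv i (fun x => b (c * x) * r1_P v x) x|
          ≤ 2 ^ i * ((c ^ K * B) * (M * x ^ (N + K + 1))) := h3
        _ ≤ 2 ^ K * ((c ^ K * B) * (M * x ^ (N + K + 1))) := by
            refine mul_le_mul_of_nonneg_right ?_ (by positivity)
            exact pow_le_pow_right₀ (by norm_num) hi'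
        _ = 2 ^ K * B * M * (c ^ K * x ^ (K + 1)) * x ^ N := by ring
        _ ≤ 2 ^ K * B * M * (1 / c) * x ^ N := by
            refine mul_le_mul_of_nonneg_right ?_ hxN
            exact mul_le_mul_of_nonneg_left h6 (by positivity)
        _ ≤ κ * x ^ N := by
            refine mul_le_mul_of_nonneg_right ?_ hxN
            rw [mul_one_div, div_le_iff₀ hc0, hc, mul_add, mul_one, mul_div_cancel₀ _ hkr.ne']
            linarith
  · have hcc : Tendsto (fun y : ℝ => c * y) (𝓝 0) (𝓝 0) := by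
      have : ContinuousAt (fun y : ℝ => c * y) 0 := by fun_prop
      simpa [ContinuousAt] using this
    have hb1 := hcc.eventually b.eventuallyEq_one
    filter_upwards [hb1, hvf] with x hx1 hx2 hx0
    rw [hx1, Pi.one_apply, one_mul]
    rcases hx0.eq_or_lt with h0 | h0
    · rw [← h0, r1_P_of_nonpos le_rfl]
      have := h 0
      simp only [iteratedDeriv_zero] at this
      rw [this, sub_zero]
    · rw [r1_P_of_pos h0, hx2]

theorem exists_HF (r : ℕ) (f : ℝ → ℝ)
    (hf : ∀ᶠ x in 𝓝 (0 : ℝ), ContDiffAt ℝ ((⊤ : ℕ∞) : WithTop ℕ∞) f x)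
    (h : ∀ k, iteratedDeriv k f 0 = iteratedDeriv k (fun x : ℝ => x) 0) :
    ∃ φ : ℝ → ℝ, HF r φ ∧ ∀ᶠ x in 𝓝 (0 : ℝ), 0 ≤ x → φ x = f x - x := by
  obtain ⟨φ, h1, h2, h3, h4, h5⟩ := r1_main (Kr r) ((r + 1) * Pr r) (r1_kr_pos r) f hf h
  exact ⟨φ, ⟨h1, h2, h3, h4⟩, h5⟩

end FG40
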