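import Pool.Agent.LibFG40.R0
import Pool.Agent.LibFG40.R1
import Pool.Agent.LibFG40.D1a
import Pool.Agent.LibGC45.F2

/-! # R2: from the one-sided theorem to germs which are flat at `0`, on both sides -/

open Filter Topology Set

namespace FG40

open GD31 GermDist46

/-- the conclusion of the one-sided theorem (`one_sided` of `G6.lean`) -/
def OneSided (r : ℕ) : Prop :=
  ∀ (φ : ℝ → ℝ), HF r φ → ∀ (f : Pm), (∀ x, f x = x + φ x) → ∀ g : GermGroup r, Represents g f →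
    IsDistortionElement g

/-- splitting: `f x = F₁ (-(F₂ (-x)))` near `0` -/
theorem r2_split (r : ℕ) {f : ℝ → ℝ}
    (hf : ∀ᶠ x in 𝓝 (0 : ℝ), ContDiffAt ℝ ((⊤ : ℕ∞) : WithTop ℕ∞) f x)
    (h : ∀ k, iteratedDeriv k f 0 = iteratedDeriv k (fun x : ℝ => x) 0) :
    ∃ (φ₁ φ₂ : ℝ → ℝ) (F₁ F₂ : Pm), HF r φ₁ ∧ HF r φ₂ ∧ (∀ x, F₁ x = x + φ₁ x) ∧
      (∀ x, F₂ x = x + φ₂ x) ∧ ∀ᶠ x in 𝓝 (0 : ℝ), f x = F₁ (-(F₂ (-x))) := by
  obtain ⟨φ₁, hφ₁, he₁⟩ := exists_HF r f hf h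
  have hn : Tendsto (fun x : ℝ => -x) (𝓝 0) (𝓝 0) := by
    have := (continuous_neg (G := ℝ)).tendsto 0
    simpa using this
  have hf2 : ∀ᶠ x in 𝓝 (0 : ℝ), ContDiffAt ℝ ((⊤ : ℕ∞) : WithTop ℕ∞) (fun y : ℝ => -f (-y)) x := by
    filter_upwards [hn.eventually hf] with x hx
    refine ContDiffAt.neg ?_
    exact ContDiffAt.comp (g := f) (f := fun y : ℝ => -y) x hx contDiffAt_id.neg
  have h2 : ∀ k, iteratedDeriv k (fun y : ℝ => -f (-y)) 0 = iteratedDeriv k (fun x : ℝ => x) 0 := by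
    intro k
    have e1 : iteratedDeriv k (fun y : ℝ => -f (-y)) 0 = -iteratedDeriv k (fun y : ℝ => f (-y)) 0 :=
      iteratedDeriv_fun_neg k (fun y : ℝ => f (-y)) 0
    have e2 : iteratedDeriv k (fun y : ℝ => -(fun x : ℝ => x) (-y)) 0 =
        -iteratedDeriv k (fun y : ℝ => (fun x : ℝ => x) (-y)) 0 :=
      iteratedDeriv_fun_neg k (fun y : ℝ => (fun x : ℝ => x) (-y)) 0
    have e3 : (fun y : ℝ => -(fun x : ℝ => x) (-y)) = fun x : ℝ => x := by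
      funext y; exact neg_neg y
    have e4 : iteratedDeriv k (fun y : ℝ => (fun x : ℝ => x) (-y)) 0 =
        (-1 : ℝ) ^ k • iteratedDeriv k (fun x : ℝ => x) (-0) :=
      iteratedDeriv_comp_neg k (fun x : ℝ => x) 0
    rw [e1, iteratedDeriv_comp_neg, neg_zero, h k]
    rw [e3, e4, neg_zero] at e2
    exact e2.symm
  obtain ⟨φ₂, hφ₂, he₂⟩ := exists_HF r (fun y : ℝ => -f (-y)) hf2 h2
  obtain ⟨F₁, hF₁⟩ := hφ₁.exists_perm
  obtain ⟨F₂, hF₂⟩ := hφ₂.exists_perm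
  refine ⟨φ₁, φ₂, F₁, F₂, hφ₁, hφ₂, hF₁, hF₂, ?_⟩
  have g₁ := hφ₁.gd hF₁
  have g₂ := hφ₂.gd hF₂
  filter_upwards [he₁, hn.eventually he₂] with x hx1 hx2
  by_cases hx : 0 ≤ x
  · have h6 : F₂ (-x) = -x := g₂.left _ (by linarith)
    rw [h6, neg_neg, hF₁, hx1 hx]
    ring
  · have h7 : F₂ (-x) = -f x := by
      have := hx2 (by linarith)
      rw [hF₂, this, neg_neg]
      ring
    rw [h7, neg_neg]
    have h8 : F₂ 0 = 0 := g₂.left 0 le_rfl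
    have h9 : F₂ 0 < F₂ (-x) := g₂.strictMono (by linarith)
    rw [h8, h7] at h9
    exact (g₁.left _ (by linarith)).symm

/-- germs which are infinitely tangent to the identity -/
theorem distorted_of_flat {r : ℕ} (hr : 1 ≤ r) (H : OneSided r) {f : ℝ → ℝ}
    (hf : ∀ᶠ x in 𝓝 (0 : ℝ), ContDiffAt ℝ ((⊤ : ℕ∞) : WithTop ℕ∞) f x)
    (h : ∀ k, iteratedDeriv k f 0 = iteratedDeriv k (fun x : ℝ => x) 0) {g : GermGroup r}
    (hg : Represents g f) : IsDistortionElement g := by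
  obtain ⟨T, hT1, hT2⟩ := r0_toGerm r
  obtain ⟨φ₁, φ₂, F₁, F₂, hφ₁, hφ₂, hF₁, hF₂, hfg⟩ := r2_split r hf h
  have g₁ := hφ₁.gd hF₁
  have g₂ := hφ₂.gd hF₂
  let G₁ : LocR r := ⟨F₁, g₁.mem_LocR hr⟩
  let G₂ : LocR r := ⟨F₂, g₂.mem_LocR hr⟩
  let N : LocR r := ⟨r0_neg, r0_neg_mem r⟩
  have hgT : g = T G₁ * (T N * T G₂ * (T N)⁻¹) := by
    rw [← map_mul, ← map_inv, ← map_mul, ← map_mul]
    refine represents_unique' hg (hT1 _) ?_
    filter_upwards [hfg] with x hx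
    rw [hx]
    show F₁ (-(F₂ (-x))) = (F₁ * (r0_neg * F₂ * r0_neg⁻¹)) x
    rw [r0_neg_inv]
    rfl
  rw [hgT]
  refine GC45.distortion_mul _ _ ?_ (H φ₁ hφ₁ F₁ hF₁ (T G₁) (hT1 G₁))
    (GC45.distortion_conj _ _ (H φ₂ hφ₂ F₂ hF₂ (T G₂) (hT1 G₂)))
  rw [← map_mul, ← map_inv, ← map_mul]
  refine Commute.map ?_ T
  have hc : Commute F₁ (r0_neg * F₂ * r0_neg⁻¹) := by
    apply Equiv.Perm.Disjoint.commute
    intro x
    rcases le_or_gt x 0 with hx | hx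
    · left
      exact g₁.left x hx
    · right
      rw [r0_neg_inv]
      show -(F₂ (-x)) = x
      rw [g₂.left (-x) (by linarith), neg_neg]
  exact Subtype.ext hc

/-- germs whose square is infinitely tangent to the identity -/
theorem distorted_of_flat_sq {r : ℕ} (hr : 1 ≤ r) (H : OneSided r) {f : ℝ → ℝ}
    (hf : ∀ᶠ x in 𝓝 (0 : ℝ), ContDiffAt ℝ ((⊤ : ℕ∞) : WithTop ℕ∞) f x)
    (h : ∀ k, iteratedDeriv k (f ∘ f) 0 = iteratedDeriv k (fun x : ℝ => x) 0) {g : GermGroup r}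
    (hg : Represents g f) : IsDistortionElement g := by
  have h0 : f 0 = 0 := by
    obtain ⟨F, rfl, -⟩ := hg
    exact F.map_zero'
  apply GC45.distortion_of_sq
  have hrep : Represents (g ^ 2) (f ∘ f) := by rw [sq]; exact represents_mul hg hg
  refine distorted_of_flat hr H ?_ h hrep
  have hc : Tendsto f (𝓝 0) (𝓝 0) := by
    have := (hf.self_of_nhds).continuousAt.tendsto
    rwa [h0] at this
  filter_upwards [hf, hc.eventually hf] with x hx1 hx2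
  exact hx2.comp x hx1

end FG40
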