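import Pool.Agent.LibFG40.R2
import Pool.Agent.LibGD31.PP9

/-! # R3: the final theorem, from the one-sided theorem for all `r ≥ 1` -/

open Filter Topology Set

namespace FG40

open GD31 GermDist46

private theorem r3_zero {r : ℕ} {f : ℝ → ℝ} {g : GermGroup r} (hg : Represents g f) : f 0 = 0 := by
  obtain ⟨F, rfl, -⟩ := hg
  exact F.map_zero'

/-- `|f'(0)| = 1` and `f ∘ f` not infinitely tangent to the identity (`r = 2`) -/
theorem r3_nonflat {f : ℝ → ℝ} (hf : ContDiffAt ℝ ((⊤ : ℕ∞) : WithTop ℕ∞) f 0) {g : GermGroup 2}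
    (hg : Represents g f) (h1 : |deriv f 0| = 1)
    (h : ∃ k : ℕ, iteratedDeriv k (f ∘ f) 0 ≠ iteratedDeriv k (fun x : ℝ => x) 0) :
    IsDistortionElement g := by
  have h0 : f 0 = 0 := r3_zero hg
  apply GC45.distortion_of_sq
  have hrep : Represents (g ^ 2) (f ∘ f) := by rw [sq]; exact represents_mul hg hg
  have hf' : ContDiffAt ℝ ((⊤ : ℕ∞) : WithTop ℕ∞) f (f 0) := by rw [h0]; exact hf
  have hff : ContDiffAt ℝ ((⊤ : ℕ∞) : WithTop ℕ∞) (f ∘ f) 0 := hf'.comp 0 hf
  have hd : DifferentiableAt ℝ f 0 := hf.differentiableAt (by simp)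
  have hd1 : deriv (f ∘ f) 0 = 1 := by
    rw [deriv_comp 0 (by rw [h0]; exact hd) hd, h0]
    rcases eq_or_eq_neg_of_abs_eq h1 with h2 | h2 <;> rw [h2] <;> norm_num
  refine GD31.distorted_of_nonflat hff (by simp [h0]) hd1 ?_ hrep
  obtain ⟨k, hk⟩ := h
  match k, hk with
  | 0, hk => exact absurd (by simp [h0]) hk
  | 1, hk =>
    exfalso
    apply hk
    rw [iteratedDeriv_one, iteratedDeriv_one, hd1]
    simp
  | (k + 2), hk =>
    refine ⟨k + 2, by omega, ?_⟩
    intro h3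
    apply hk
    rw [h3, iteratedDeriv_succ']
    have : deriv (fun x : ℝ => x) = fun _ => (1 : ℝ) := by
      funext x; simp
    rw [this, iteratedDeriv_const]
    simp

/-- an involution is distorted -/
theorem r3_invol {r : ℕ} {f : ℝ → ℝ} {g : GermGroup r} (hg : Represents g f)
    (h : ∀ᶠ x in 𝓝 (0 : ℝ), f (f x) = x) : IsDistortionElement g := by
  apply GC45.distortion_of_sq
  have hrep : Represents (g ^ 2) (f ∘ f) := by rw [sq]; exact represents_mul hg hg
  have h8 : Represents (1 : GermGroup r) (fun x => x) := ⟨1, rfl, rfl⟩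
  have h7 : g ^ 2 = 1 := represents_unique' hrep h8 h
  rw [h7, GC45.f2_iff]
  refine ⟨∅, one_mem _, ?_⟩
  simp [GC45.f2_wl_one]

/-- **The final theorem.** (a) For every integer `r ≥ 1`, an element of `G^r` represented by a function `f` of class
`C^∞` near `0` such that `f ∘ f` is infinitely tangent to the identity at `0` is a distortion element of `G^r`.
(b) An element of `G²` represented by a function `f` of class `C^∞` near `0` is a distortion element of `G²` if and only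
if `|f'(0)| = 1` (also if `f` is only `C^∞` at `0` and `f ∘ f` is not infinitely tangent to the identity at `0`, or is the
identity near `0`). -/
theorem final (H : ∀ r : ℕ, 1 ≤ r → OneSided r) :
    (∀ r : ℕ, 1 ≤ r → ∀ (g : GermGroup r) (f : ℝ → ℝ),
      (∀ᶠ x in 𝓝 (0 : ℝ), ContDiffAt ℝ ((⊤ : ℕ∞) : WithTop ℕ∞) f x) → Represents g f →
      (∀ k : ℕ, iteratedDeriv k (f ∘ f) 0 = iteratedDeriv k (fun x : ℝ => x) 0) →
      IsDistortionElement g) ∧
    ∀ (g : GermGroup 2) (f : ℝ → ℝ), ContDiffAt ℝ ((⊤ : ℕ∞) : WithTop ℕ∞) f 0 → Represents g f →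
      ((∀ᶠ x in 𝓝 (0 : ℝ), ContDiffAt ℝ ((⊤ : ℕ∞) : WithTop ℕ∞) f x) ∨
        (∃ k : ℕ, iteratedDeriv k (f ∘ f) 0 ≠ iteratedDeriv k (fun x : ℝ => x) 0) ∨
        ∀ᶠ x in 𝓝 (0 : ℝ), f (f x) = x) →
      (IsDistortionElement g ↔ |deriv f 0| = 1) := by
  have ha : ∀ r : ℕ, 1 ≤ r → ∀ (g : GermGroup r) (f : ℝ → ℝ),
      (∀ᶠ x in 𝓝 (0 : ℝ), ContDiffAt ℝ ((⊤ : ℕ∞) : WithTop ℕ∞) f x) → Represents g f →
      (∀ k : ℕ, iteratedDeriv k (f ∘ f) 0 = iteratedDeriv k (fun x : ℝ => x) 0) →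
      IsDistortionElement g := fun r hr g f hf hg h => distorted_of_flat_sq hr (H r hr) hf h hg
  refine ⟨ha, fun g f hf hg h => ⟨fun hd => ?_, fun h1 => ?_⟩⟩
  · by_contra h1
    exact GD31.not_distorted_of_deriv hg h1 hd
  · rcases h with h | h | h
    · by_cases hk : ∃ k : ℕ, iteratedDeriv k (f ∘ f) 0 ≠ iteratedDeriv k (fun x : ℝ => x) 0
      · exact r3_nonflat hf hg h1 hk
      · push Not at hk
        exact ha 2 (by norm_num) g f h hg hk
    · exact r3_nonflat hf hg h1 h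
    · exact r3_invol hg h

end FG40
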